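import Mathlib
import Pool.Agent.Lib.MP_95e7ec_an.KqDefs
import Pool.Agent.Lib.MP_95e7ec_an.ShiftArr
import Pool.Agent.Lib.MP_95e7ec_an.AvgDefs
import Pool.Agent.Lib.MP_95e7ec_an.PlaneDefs

/-!
# Smoothed count of the closed orbits: definitions

`kN2 a` is the square of the Euclidean norm of the coefficients in the Kostlan basis, `kball b R` the
closed Euclidean ball, `kD n` the real dimension of the space of the coefficients.

`LocD` collects the local data of a field near a point `z0`: polynomials `μ` (a pair) and `wt`, in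
the disc `disc z0 r` the field `vfc (sw μ wt t)` is `wt • ((f,g) + t)`, and the pair `(f,g)` is `C¹`
close to the pair of polynomials `P, Q` of degree at most `N`.
-/

set_option autoImplicit false

open Set Filter Topology MeasureTheory
open scoped ContDiff ENNReal

namespace Pool.Agent.Lib.MP_95e7ec_an

/-- the square of the Euclidean norm of the coefficients -/
noncomputable def kN2 {n : ℕ} (a : KSp n) : ℝ := ∑ p, ((a p).1 ^ 2 + (a p).2 ^ 2)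

/-- the closed Euclidean ball in the space of the coefficients -/
def kball {n : ℕ} (b : KSp n) (R : ℝ) : Set (KSp n) := {a | kN2 (a - b) ≤ R ^ 2}

/-- the real dimension of the space of the coefficients -/
def kD (n : ℕ) : ℕ := 2 * Fintype.card (KIdx n)

/-- the local data of a field -/
structure LocD {D : ℕ} (μ : Pr D) (wt : Co D) (z0 : ℝ × ℝ) (r m δ : ℝ) (N : ℕ)
    (P Q : MvPolynomial (Fin 2) ℝ) (f f1 f2 g g1 g2 : ℝ × ℝ → ℝ) : Prop where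
  hr : 0 < r
  hm : 1 ≤ m
  hδ : 0 < δ
  hδ1 : 100 * m * δ ≤ 1
  hN : 1 ≤ N
  dP : P.totalDegree ≤ N
  dQ : Q.totalDegree ≤ N
  wpos : ∀ z ∈ disc z0 r, 1 / 2 ≤ pe wt z.1 z.2
  bnd : ∀ t, nm t ≤ 1 → DBound (sw μ wt t) (disc z0 r) (m / r) (5 * m / r ^ 2)
  val1 : ∀ z ∈ disc z0 r, pe μ.1 z.1 z.2 = pe wt z.1 z.2 * f z
  val2 : ∀ z ∈ disc z0 r, pe μ.2 z.1 z.2 = pe wt z.1 z.2 * g z
  df1 : ∀ z ∈ disc z0 r, HasDerivAt (fun x => f (x, z.2)) (f1 z) z.1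
  df2 : ∀ z ∈ disc z0 r, HasDerivAt (fun y => f (z.1, y)) (f2 z) z.2
  dg1 : ∀ z ∈ disc z0 r, HasDerivAt (fun x => g (x, z.2)) (g1 z) z.1
  dg2 : ∀ z ∈ disc z0 r, HasDerivAt (fun y => g (z.1, y)) (g2 z) z.2
  bf1 : ∀ z ∈ disc z0 r, |f1 z| ≤ m / r
  bf2 : ∀ z ∈ disc z0 r, |f2 z| ≤ m / r
  bg1 : ∀ z ∈ disc z0 r, |g1 z| ≤ m / r
  bg2 : ∀ z ∈ disc z0 r, |g2 z| ≤ m / r
  af : ∀ z ∈ disc z0 r, |f z - pe (arr N P) z.1 z.2| ≤ δ
  ag : ∀ z ∈ disc z0 r, |g z - pe (arr N Q) z.1 z.2| ≤ δ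
  af1 : ∀ z ∈ disc z0 r, |f1 z - pex (arr N P) z.1 z.2| ≤ δ / r
  af2 : ∀ z ∈ disc z0 r, |f2 z - pey (arr N P) z.1 z.2| ≤ δ / r
  ag1 : ∀ z ∈ disc z0 r, |g1 z - pex (arr N Q) z.1 z.2| ≤ δ / r
  ag2 : ∀ z ∈ disc z0 r, |g2 z - pey (arr N Q) z.1 z.2| ≤ δ / r

/-- the part of the disc where the field is small relative to the weight -/
def smallS {D : ℕ} (μ : Pr D) (wt : Co D) (K : Set (ℝ × ℝ)) (e : ℝ) (t : ℝ × ℝ) : Set (ℝ × ℝ) :=
  {z ∈ K | nm (vfc (sw μ wt t) z) < e * pe wt z.1 z.2}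

/-- the zeros of the shifted field -/
def zerS {D : ℕ} (μ : Pr D) (wt : Co D) (K : Set (ℝ × ℝ)) (t : ℝ × ℝ) : Set (ℝ × ℝ) :=
  {p ∈ K | vfc (sw μ wt t) p = 0}

/-- the neighbourhood of radius `e` of the zeros -/
def nearS {D : ℕ} (ν : Pr D) (K : Set (ℝ × ℝ)) (e : ℝ) : Set (ℝ × ℝ) :=
  {z ∈ K | ∃ p ∈ K, nm (p - z) < e ∧ vfc ν p = 0}

end Pool.Agent.Lib.MP_95e7ec_an
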