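import Mathlib
import Pool.Agent.Lib.MP_95e7ec_an.Sm.Defs
import Pool.Agent.Lib.MP_95e7ec_an.Area2
import Pool.Agent.Lib.MP_95e7ec_an.Zeros

/-!
# Smoothed count: Bezout and the area formula for polynomial maps
-/

set_option autoImplicit false

open Set Filter Topology MeasureTheory
open scoped ContDiff ENNReal

namespace Pool.Agent.Lib.MP_95e7ec_an

private theorem al_vf_eq {P Q : MvPolynomial (Fin 2) ℝ} {d : ℕ} (hP : P.totalDegree ≤ d)
    (hQ : Q.totalDegree ≤ d) : vf P Q = vfc (arr d P, arr d Q) := by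
  funext z
  unfold vf vfc
  rw [eval_eq_pe P hP, eval_eq_pe Q hQ]

private theorem al_hasFDerivAt {D : ℕ} (μ : Pr D) (z : ℝ × ℝ) :
    HasFDerivAt (vfc μ) (fderiv ℝ (vfc μ) z) z := by
  have h : Differentiable ℝ (vfc μ) := by
    unfold vfc pe
    fun_prop
  exact (h z).hasFDerivAt

private theorem al_fderiv_x {D : ℕ} (μ : Pr D) (z : ℝ × ℝ) :
    fderiv ℝ (vfc μ) z (1, 0) = (pex μ.1 z.1 z.2, pex μ.2 z.1 z.2) := by
  have h1 : HasDerivAt (fun t : ℝ => (z.1 + t, z.2)) ((1 : ℝ), (0 : ℝ)) 0 := by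
    exact ((hasDerivAt_id (0 : ℝ)).const_add z.1).prodMk (hasDerivAt_const (0 : ℝ) z.2)
  have h2 : HasFDerivAt (vfc μ) (fderiv ℝ (vfc μ) z) ((fun t : ℝ => (z.1 + t, z.2)) 0) := by
    simpa using al_hasFDerivAt μ z
  have h3 := h2.comp_hasDerivAt (0 : ℝ) h1
  have hx : HasDerivAt (fun t : ℝ => z.1 + t) 1 0 := (hasDerivAt_id (0 : ℝ)).const_add z.1
  have hy : HasDerivAt (fun _ : ℝ => z.2) 0 0 := hasDerivAt_const (0 : ℝ) z.2
  have h4 := (pe_hasDerivAt μ.1 hx hy).prodMk (pe_hasDerivAt μ.2 hx hy)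
  have h5 := h3.unique h4
  simpa using h5

private theorem al_fderiv_y {D : ℕ} (μ : Pr D) (z : ℝ × ℝ) :
    fderiv ℝ (vfc μ) z (0, 1) = (pey μ.1 z.1 z.2, pey μ.2 z.1 z.2) := by
  have h1 : HasDerivAt (fun t : ℝ => (z.1, z.2 + t)) ((0 : ℝ), (1 : ℝ)) 0 := by
    exact (hasDerivAt_const (0 : ℝ) z.1).prodMk ((hasDerivAt_id (0 : ℝ)).const_add z.2)
  have h2 : HasFDerivAt (vfc μ) (fderiv ℝ (vfc μ) z) ((fun t : ℝ => (z.1, z.2 + t)) 0) := by
    simpa using al_hasFDerivAt μ z
  have h3 := h2.comp_hasDerivAt (0 : ℝ) h1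
  have hx : HasDerivAt (fun _ : ℝ => z.1) 0 0 := hasDerivAt_const (0 : ℝ) z.1
  have hy : HasDerivAt (fun t : ℝ => z.2 + t) 1 0 := (hasDerivAt_id (0 : ℝ)).const_add z.2
  have h4 := (pe_hasDerivAt μ.1 hx hy).prodMk (pe_hasDerivAt μ.2 hx hy)
  have h5 := h3.unique h4
  simpa using h5

private theorem al_det {D : ℕ} (μ : Pr D) (z : ℝ × ℝ) : (fderiv ℝ (vfc μ) z).det = dt2 μ z := by
  rw [ContinuousLinearMap.det, ← LinearMap.det_toMatrix (Module.Basis.finTwoProd ℝ),
    Matrix.det_fin_two]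
  simp only [LinearMap.toMatrix_apply, Module.Basis.finTwoProd_zero, Module.Basis.finTwoProd_one,
    ContinuousLinearMap.coe_coe, al_fderiv_x, al_fderiv_y, Module.Basis.coe_finTwoProd_repr,
    Matrix.cons_val_zero, Matrix.cons_val_one, dt2]

/-- at a zero of `g` the determinant of `g Y` vanishes -/
private theorem al_det_zero {D : ℕ} (μ : Pr D) {g : ℝ × ℝ → ℝ} {Y : ℝ × ℝ → ℝ × ℝ}
    (hg : Differentiable ℝ g) (hY : Differentiable ℝ Y) (h : vfc μ = fun z => g z • Y z)
    {z : ℝ × ℝ} (hz : g z = 0) : dt2 μ z = 0 := by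
  have h1 : HasFDerivAt (vfc μ) (g z • fderiv ℝ Y z + (fderiv ℝ g z).smulRight (Y z)) z := by
    rw [h]
    exact (hg z).hasFDerivAt.smul (hY z).hasFDerivAt
  have h2 := h1.fderiv
  have h3 := al_fderiv_x μ z
  have h4 := al_fderiv_y μ z
  rw [h2, hz, zero_smul, zero_add, ContinuousLinearMap.smulRight_apply] at h3 h4
  have h5 := congrArg Prod.fst h3
  have h6 := congrArg Prod.snd h3
  have h7 := congrArg Prod.fst h4
  have h8 := congrArg Prod.snd h4
  simp only [Prod.smul_fst, Prod.smul_snd, smul_eq_mul] at h5 h6 h7 h8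
  unfold dt2
  rw [← h5, ← h6, ← h7, ← h8]
  ring

/-- the regular zeros of a pair of polynomials of degree at most `d` are at most `d²`.
PROOF: `extract_gcd` as in `exists_hull_points` (Zeros.lean): `P = g P₁`, `Q = g Q₁`, `P₁, Q₁`
relatively prime. At a zero of `g` the Jacobian determinant of `(g P₁, g Q₁)` vanishes, so a regular
zero is a zero of `(P₁, Q₁)`; use `exists_finset_zeros` (or `MP60829e.bezout`, imported by Zeros.lean).
The determinant: `dt2 (arr d P, arr d Q)`, `pe_hasDerivAt` (DetPos.lean) and `eval_eq_pe` (Arr.lean)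
identify `pex (arr d P)` with the derivative of `x ↦ eval ![x,y] P`. -/
theorem regular_zeros (P Q : MvPolynomial (Fin 2) ℝ) {d : ℕ} (hP : P.totalDegree ≤ d)
    (hQ : Q.totalDegree ≤ d) :
    ({z : ℝ × ℝ | vf P Q z = 0 ∧ dt2 (arr d P, arr d Q) z ≠ 0} : Set (ℝ × ℝ)).encard ≤
      ((d ^ 2 : ℕ) : ℕ∞) := by
  classical
  by_cases hPQ : P = 0 ∧ Q = 0
  · have h0 : ({z : ℝ × ℝ | vf P Q z = 0 ∧ dt2 (arr d P, arr d Q) z ≠ 0} : Set (ℝ × ℝ)) = ∅ := by
      rw [Set.eq_empty_iff_forall_notMem]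
      rintro z ⟨-, hz⟩
      apply hz
      have h1 : vfc (arr d P, arr d Q) = fun z => (0 : ℝ) • ((0 : ℝ), (0 : ℝ)) := by
        rw [← al_vf_eq hP hQ]
        funext z
        unfold vf
        rw [hPQ.1, hPQ.2]
        simp
      exact al_det_zero (g := fun _ => 0) (Y := fun _ => ((0 : ℝ), (0 : ℝ))) _
        (differentiable_const _) (differentiable_const _) h1 rfl
    rw [h0]
    simp
  let _ : NormalizedGCDMonoid (MvPolynomial (Fin 2) ℝ) :=
    Nonempty.some inferInstance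
  obtain ⟨P₁, Q₁, hP₁, hQ₁, hu⟩ := extract_gcd P Q
  set g := gcd P Q with hg
  have hg0 : g ≠ 0 := by
    intro h0
    rw [hg, gcd_eq_zero_iff] at h0
    exact hPQ h0
  have hrel : IsRelPrime P₁ Q₁ := gcd_isUnit_iff_isRelPrime.1 hu
  have hdeg : ∀ (A B : MvPolynomial (Fin 2) ℝ), A = g * B → A.totalDegree ≤ d →
      B.totalDegree ≤ d := by
    intro A B hAB hA
    rcases eq_or_ne B 0 with h0 | h0
    · simp [h0]
    · have := MvPolynomial.totalDegree_mul_of_isDomain hg0 h0
      rw [← hAB] at this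
      omega
  obtain ⟨Z, hZ, hZ0⟩ := exists_finset_zeros P₁ Q₁ hrel (hdeg P P₁ hP₁ hP) (hdeg Q Q₁ hQ₁ hQ)
  have hsm : ∀ z, vf P Q z = (MvPolynomial.eval ![z.1, z.2] g) • vf P₁ Q₁ z := by
    intro z
    unfold vf
    conv_lhs => rw [hP₁, hQ₁]
    simp only [map_mul, Prod.smul_mk, smul_eq_mul]
  have hsub : {z : ℝ × ℝ | vf P Q z = 0 ∧ dt2 (arr d P, arr d Q) z ≠ 0} ⊆
      (Z : Set (ℝ × ℝ)) := by
    rintro z ⟨hz, hdt⟩
    rw [Finset.mem_coe, ← hZ0]
    have h1 : MvPolynomial.eval ![z.1, z.2] g ≠ 0 := by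
      intro h0
      apply hdt
      refine al_det_zero (g := fun z : ℝ × ℝ => MvPolynomial.eval ![z.1, z.2] g)
        (Y := vf P₁ Q₁) _ ((contDiff_eval g (k := 1)).differentiable one_ne_zero)
        ((contDiff_vf P₁ Q₁ (k := 1)).differentiable one_ne_zero) ?_ h0
      rw [← al_vf_eq hP hQ]
      exact funext hsm
    rw [hsm] at hz
    exact (smul_eq_zero.1 hz).resolve_left h1
  calc ({z : ℝ × ℝ | vf P Q z = 0 ∧ dt2 (arr d P, arr d Q) z ≠ 0} : Set (ℝ × ℝ)).encard
      ≤ (Z : Set (ℝ × ℝ)).encard := Set.encard_le_encard hsub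
    _ = (Z.card : ℕ∞) := Set.encard_coe_eq_coe_finsetCard Z
    _ ≤ ((d ^ 2 : ℕ) : ℕ∞) := by exact_mod_cast hZ

/-- the regular solutions of `vf P Q z = c` -/
private theorem al_regular (P Q : MvPolynomial (Fin 2) ℝ) {d : ℕ} (hP : P.totalDegree ≤ d)
    (hQ : Q.totalDegree ≤ d) (c : ℝ × ℝ) :
    ({z : ℝ × ℝ | vf P Q z = c ∧ (fderiv ℝ (vf P Q) z).det ≠ 0} : Set (ℝ × ℝ)).encard ≤
      ((d ^ 2 : ℕ) : ℕ∞) := by
  have hdeg : ∀ (A : MvPolynomial (Fin 2) ℝ) (x : ℝ), A.totalDegree ≤ d →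
      (A - MvPolynomial.C x).totalDegree ≤ d := by
    intro A x hA
    refine (MvPolynomial.totalDegree_sub _ _).trans ?_
    rw [MvPolynomial.totalDegree_C]
    exact max_le hA (Nat.zero_le _)
  have h1 := regular_zeros (P - MvPolynomial.C c.1) (Q - MvPolynomial.C c.2)
    (hdeg P c.1 hP) (hdeg Q c.2 hQ)
  have h2 : vf (P - MvPolynomial.C c.1) (Q - MvPolynomial.C c.2) = fun z => vf P Q z - c := by
    funext z
    unfold vf
    ext
    · simp
    · simp
  refine le_trans (Set.encard_le_encard ?_) h1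
  rintro z ⟨hz, hdt⟩
  refine ⟨?_, ?_⟩
  · rw [h2]
    change vf P Q z - c = 0
    rw [hz, sub_self]
  · rw [← al_det, ← al_vf_eq (hdeg P c.1 hP) (hdeg Q c.2 hQ), h2, fderiv_sub_const]
    exact hdt

/-- a countable cover of the regular points by open sets on which the map is injective -/
private theorem al_cover {f : ℝ × ℝ → ℝ × ℝ} (hf : ContDiff ℝ 1 f) :
    ∃ W : ℕ → Set (ℝ × ℝ), (∀ n, IsOpen (W n)) ∧ (∀ n, InjOn f (W n)) ∧
      ⋃ n, W n = {z | (fderiv ℝ f z).det ≠ 0} := by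
  classical
  have hcd : Continuous (fun z => (fderiv ℝ f z).det) :=
    ContinuousLinearMap.continuous_det.comp (hf.continuous_fderiv one_ne_zero)
  set U : Set (ℝ × ℝ) := {z | (fderiv ℝ f z).det ≠ 0} with hU
  have hUo : IsOpen U := isOpen_ne_fun hcd continuous_const
  let S : Set (Set (ℝ × ℝ)) := {W | IsOpen W ∧ W ⊆ U ∧ InjOn f W}
  have hSU : ⋃₀ S = U := by
    apply Subset.antisymm
    · exact sUnion_subset fun W hW => hW.2.1
    · intro z hz
      have hs : HasStrictFDerivAt f (fderiv ℝ f z) z :=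
        hf.contDiffAt.hasStrictFDerivAt one_ne_zero
      let e : (ℝ × ℝ) ≃L[ℝ] (ℝ × ℝ) := (fderiv ℝ f z).toContinuousLinearEquivOfDetNeZero hz
      have he : HasStrictFDerivAt f (e : (ℝ × ℝ) →L[ℝ] (ℝ × ℝ)) z := by
        rw [ContinuousLinearMap.coe_toContinuousLinearEquivOfDetNeZero]
        exact hs
      let φ := he.toOpenPartialHomeomorph f
      refine mem_sUnion.2 ⟨φ.source ∩ U, ⟨φ.open_source.inter hUo, inter_subset_right, ?_⟩,
        he.mem_toOpenPartialHomeomorph_source, hz⟩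
      intro x hx y hy hxy
      exact φ.injOn hx.1 hy.1 hxy
  obtain ⟨T, hTc, hTS, hTU⟩ := TopologicalSpace.isOpen_sUnion_countable S (fun W hW => hW.1)
  have hTc' : (insert ∅ T).Countable := hTc.insert ∅
  obtain ⟨W, hW⟩ := hTc'.exists_eq_range ⟨∅, mem_insert _ _⟩
  have hWS : ∀ n, W n ∈ S := by
    intro n
    have : W n ∈ insert ∅ T := by rw [hW]; exact mem_range_self n
    rcases this with h | h
    · rw [h]
      exact ⟨isOpen_empty, empty_subset _, injOn_empty _⟩
    · exact hTS h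
  refine ⟨W, fun n => (hWS n).1, fun n => (hWS n).2.2, ?_⟩
  rw [← hSU, ← hTU, ← sUnion_range, ← hW, sUnion_insert, empty_union]

/-- the area formula (as an inequality) with Bezout.
PROOF: `vf P Q` is smooth, its Jacobian determinant is `dt2 (arr d P, arr d Q)`. The open set
`U = {dt2 ≠ 0}` is a countable union of open sets on which `vf P Q` is injective (proof of
`area_two` in Area2.lean), hence a countable disjoint union of measurable sets `A_i`; on each of them
`∫⁻ z in A_i ∩ vf⁻¹ S, |det| = volume (vf '' (A_i ∩ vf⁻¹ S)) ≤ ∫⁻ c in S, 1[c ∈ vf '' A_i]`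
(`lintegral_abs_det_fderiv_eq_addHaar_image`), and `∑ i, 1[c ∈ vf '' A_i] ≤` number of the regular
solutions of `vf P Q z = c` `≤ d²` (`regular_zeros` for `P - C c.1`, `Q - C c.2`). -/
theorem area_low (P Q : MvPolynomial (Fin 2) ℝ) {d : ℕ} (hP : P.totalDegree ≤ d)
    (hQ : Q.totalDegree ≤ d) {S : Set (ℝ × ℝ)} (hS : MeasurableSet S) :
    ∫⁻ z in {z | vf P Q z ∈ S}, ENNReal.ofReal |dt2 (arr d P, arr d Q) z| ≤
      ENNReal.ofReal (d ^ 2) * volume S := by
  classical
  have hf : ContDiff ℝ 1 (vf P Q) := contDiff_vf P Q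
  have hfd : ∀ z, HasFDerivAt (vf P Q) (fderiv ℝ (vf P Q) z) z := fun z =>
    (hf.differentiable one_ne_zero z).hasFDerivAt
  have hdt : ∀ z, dt2 (arr d P, arr d Q) z = (fderiv ℝ (vf P Q) z).det := by
    intro z
    rw [← al_det, ← al_vf_eq hP hQ]
  simp only [hdt]
  set f := vf P Q with hfdef
  obtain ⟨W, hWo, hWi, hWU⟩ := al_cover hf
  set E : Set (ℝ × ℝ) := {z | f z ∈ S} with hE
  have hEm : MeasurableSet E := hf.continuous.measurable hS
  let A : ℕ → Set (ℝ × ℝ) := fun n => E ∩ disjointed W n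
  have hAm : ∀ n, MeasurableSet (A n) := fun n =>
    hEm.inter (MeasurableSet.disjointed (fun n => (hWo n).measurableSet) n)
  have hAinj : ∀ n, InjOn f (A n) := fun n =>
    (hWi n).mono (inter_subset_right.trans (disjointed_subset W n))
  have hAd : Pairwise (Function.onFun Disjoint A) := by
    intro m n hmn
    exact (disjoint_disjointed W hmn).mono inter_subset_right inter_subset_right
  have hAun : ⋃ n, A n = E ∩ {z | (fderiv ℝ f z).det ≠ 0} := by
    rw [← inter_iUnion, iUnion_disjointed, hWU]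
  have hUm : MeasurableSet {z | (fderiv ℝ f z).det ≠ 0} := by
    rw [← hWU]
    exact MeasurableSet.iUnion fun n => (hWo n).measurableSet
  have himg : ∀ n, MeasurableSet (f '' A n) := fun n =>
    (hAm n).image_of_continuousOn_injOn hf.continuous.continuousOn (hAinj n)
  -- the sum of the indicator functions
  have hsum : ∀ c, ∑' n, (f '' A n).indicator (fun _ => (1 : ℝ≥0∞)) c ≤
      S.indicator (fun _ => ENNReal.ofReal (d ^ 2)) c := by
    intro c
    by_cases hc : c ∈ S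
    · rw [indicator_of_mem hc, ENNReal.tsum_eq_iSup_sum]
      refine iSup_le fun s => ?_
      set s' := s.filter fun n => c ∈ f '' A n with hs'
      have h1 : ∑ n ∈ s, (f '' A n).indicator (fun _ => (1 : ℝ≥0∞)) c = (s'.card : ℝ≥0∞) := by
        rw [hs', Finset.card_filter, Nat.cast_sum]
        refine Finset.sum_congr rfl fun n _ => ?_
        by_cases hn : c ∈ f '' A n
        · simp [hn]
        · simp [hn]
      rw [h1]
      have h2 : ∀ n : s', ∃ z, z ∈ A n ∧ f z = c := fun n => (Finset.mem_filter.1 n.2).2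
      choose z hz hzc using h2
      have h3 : Function.Injective z := by
        intro m n hmn
        by_contra hne
        have h4 : (m : ℕ) ≠ n := fun h => hne (Subtype.ext h)
        exact Set.disjoint_left.1 (hAd h4) (hz m) (hmn ▸ hz n)
      have h5 : (range z).encard ≤ ((d ^ 2 : ℕ) : ℕ∞) := by
        refine le_trans (Set.encard_le_encard ?_) (al_regular P Q hP hQ c)
        rintro _ ⟨n, rfl⟩
        refine ⟨hzc n, ?_⟩
        have h6 : z n ∈ ⋃ n, A n := mem_iUnion.2 ⟨_, hz n⟩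
        rw [hAun] at h6
        exact h6.2
      have h6 : (range z).encard = (s'.card : ℕ∞) := by
        rw [← Set.image_univ, h3.encard_image, Set.encard_univ, ENat.card_eq_coe_fintype_card,
          Fintype.card_coe]
      rw [h6] at h5
      have h7 : s'.card ≤ d ^ 2 := by exact_mod_cast h5
      calc (s'.card : ℝ≥0∞) ≤ ((d ^ 2 : ℕ) : ℝ≥0∞) := by exact_mod_cast h7
        _ = ENNReal.ofReal (d ^ 2) := by
          rw [← ENNReal.ofReal_natCast]
          norm_cast
    · rw [indicator_of_notMem hc, nonpos_iff_eq_zero, ENNReal.tsum_eq_zero]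
      intro n
      apply indicator_of_notMem
      rintro ⟨z, hz, rfl⟩
      exact hc hz.1
  calc ∫⁻ z in E, ENNReal.ofReal |(fderiv ℝ f z).det|
      = ∫⁻ z in E ∩ {z | (fderiv ℝ f z).det ≠ 0}, ENNReal.ofReal |(fderiv ℝ f z).det| := by
        rw [← lintegral_inter_add_sdiff (fun z => ENNReal.ofReal |(fderiv ℝ f z).det|) E hUm]
        have h0 : ∫⁻ z in E \ {z | (fderiv ℝ f z).det ≠ 0},
            ENNReal.ofReal |(fderiv ℝ f z).det| = 0 := by
          rw [setLIntegral_congr_fun (g := fun _ => 0) (hEm.diff hUm), lintegral_zero]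
          intro z hz
          have h1 : (fderiv ℝ f z).det = 0 := not_not.1 hz.2
          simp [h1]
        rw [h0, add_zero]
    _ = ∑' n, ∫⁻ z in A n, ENNReal.ofReal |(fderiv ℝ f z).det| := by
        rw [← hAun, lintegral_iUnion hAm hAd]
    _ = ∑' n, volume (f '' A n) := by
        congr 1
        funext n
        exact lintegral_abs_det_fderiv_eq_addHaar_image volume (hAm n)
          (fun z _ => (hfd z).hasFDerivWithinAt) (hAinj n)
    _ = ∑' n, ∫⁻ c, (f '' A n).indicator (fun _ => (1 : ℝ≥0∞)) c := by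
        congr 1
        funext n
        rw [lintegral_indicator (himg n), setLIntegral_const, one_mul]
    _ = ∫⁻ c, ∑' n, (f '' A n).indicator (fun _ => (1 : ℝ≥0∞)) c := by
        rw [lintegral_tsum fun n => (measurable_const.indicator (himg n)).aemeasurable]
    _ ≤ ∫⁻ c, S.indicator (fun _ => ENNReal.ofReal (d ^ 2)) c := lintegral_mono hsum
    _ = ENNReal.ofReal (d ^ 2) * volume S := by
        rw [lintegral_indicator hS, setLIntegral_const]

end Pool.Agent.Lib.MP_95e7ec_an
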