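import Mathlib
import Pool.Agent.Lib.MP_95e7ec_an.Sm.Defs
import Pool.Agent.Lib.MP_95e7ec_an.CountTwo
import Pool.Agent.Lib.MP_95e7ec_an.WeightArr

/-!
# Smoothed count: comparison of the gradients of the argument
-/

set_option autoImplicit false

open Set Filter Topology MeasureTheory
open scoped ContDiff ENNReal

namespace Pool.Agent.Lib.MP_95e7ec_an

variable {D : ℕ}

/-- the gradient of the argument of `p`, with partial derivatives `u` and `v` -/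
noncomputable def aG (p u v : ℝ × ℝ) : ℝ := (|det2 p u| + |det2 p v|) / (p.1 ^ 2 + p.2 ^ 2)

private theorem ac_uniq {D : ℕ} (c : Co D) {K : Set (ℝ × ℝ)} (hK : IsOpen K)
    {F F1 F2 : ℝ × ℝ → ℝ}
    (hF : ∀ z ∈ K, pe c z.1 z.2 = F z)
    (h1 : ∀ z ∈ K, HasDerivAt (fun x => F (x, z.2)) (F1 z) z.1)
    (h2 : ∀ z ∈ K, HasDerivAt (fun y => F (z.1, y)) (F2 z) z.2) :
    ∀ z ∈ K, pex c z.1 z.2 = F1 z ∧ pey c z.1 z.2 = F2 z := by
  intro z hz
  constructor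
  · have e1 := pe_hasDerivAt c (hasDerivAt_id z.1) (hasDerivAt_const z.1 z.2)
    have hn : ∀ᶠ x in 𝓝 z.1, pe c x z.2 = F (x, z.2) := by
      have hc : Continuous fun x : ℝ => (x, z.2) := by fun_prop
      filter_upwards [(hK.preimage hc).mem_nhds (show z.1 ∈ (fun x : ℝ => (x, z.2)) ⁻¹' K from hz)]
        with x hx
      exact hF (x, z.2) hx
    have e2 := (h1 z hz).congr_of_eventuallyEq hn
    have e3 := e1.unique e2
    simpa using e3
  · have e1 := pe_hasDerivAt c (hasDerivAt_const z.2 z.1) (hasDerivAt_id z.2)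
    have hn : ∀ᶠ y in 𝓝 z.2, pe c z.1 y = F (z.1, y) := by
      have hc : Continuous fun y : ℝ => (z.1, y) := by fun_prop
      filter_upwards [(hK.preimage hc).mem_nhds (show z.2 ∈ (fun y : ℝ => (z.1, y)) ⁻¹' K from hz)]
        with y hy
      exact hF (z.1, y) hy
    have e2 := (h2 z hz).congr_of_eventuallyEq hn
    have e3 := e1.unique e2
    simpa using e3

/-- the partial derivatives of `wt (f + c)` -/
private theorem ac_prod {D : ℕ} (ν wt : Co D) {K : Set (ℝ × ℝ)} (hK : IsOpen K)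
    {f f1 f2 : ℝ × ℝ → ℝ} (s : ℝ) (hv : ∀ z ∈ K, pe ν z.1 z.2 = pe wt z.1 z.2 * f z)
    (h1 : ∀ z ∈ K, HasDerivAt (fun x => f (x, z.2)) (f1 z) z.1)
    (h2 : ∀ z ∈ K, HasDerivAt (fun y => f (z.1, y)) (f2 z) z.2) {z : ℝ × ℝ} (hz : z ∈ K) :
    pe (ν + s • wt) z.1 z.2 = pe wt z.1 z.2 * (f z + s) ∧
    pex (ν + s • wt) z.1 z.2 = pex wt z.1 z.2 * (f z + s) + pe wt z.1 z.2 * f1 z ∧
    pey (ν + s • wt) z.1 z.2 = pey wt z.1 z.2 * (f z + s) + pe wt z.1 z.2 * f2 z := by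
  have hF : ∀ z ∈ K, pe (ν + s • wt) z.1 z.2 = (fun z => pe wt z.1 z.2 * (f z + s)) z := by
    intro z hz
    simp only [avb_pe_add, avb_pe_smul, smul_eq_mul]
    rw [hv z hz]
    ring
  refine ⟨hF z hz, ac_uniq (ν + s • wt) hK (F := fun z => pe wt z.1 z.2 * (f z + s))
    (F1 := fun z => pex wt z.1 z.2 * (f z + s) + pe wt z.1 z.2 * f1 z)
    (F2 := fun z => pey wt z.1 z.2 * (f z + s) + pe wt z.1 z.2 * f2 z) hF ?_ ?_ z hz⟩
  · intro z hz
    have e1 := pe_hasDerivAt wt (hasDerivAt_id z.1) (hasDerivAt_const z.1 z.2)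
    have e2 := (h1 z hz).add_const s
    simpa using e1.fun_mul e2
  · intro z hz
    have e1 := pe_hasDerivAt wt (hasDerivAt_const z.2 z.1) (hasDerivAt_id z.2)
    have e2 := (h2 z hz).add_const s
    simpa using e1.fun_mul e2

/-- `argGrad` of the shifted field in terms of `(f,g)`.
PROOF: with `w = pe wt z.1 z.2 > 0` and `p = (f z + t.1, g z + t.2)`: the field is `w • p`, its
partial derivatives are `w_x • p + w • (f1 z, g1 z)` etc. (uniqueness of derivatives: differentiate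
`pe μ.1 x z.2 = pe wt x z.2 * f (x, z.2)` near `z.1`, the disc is open; `pe_hasDerivAt` in DetPos.lean;
`kg_argGrad` / `kg_uniq1` in KosGauge.lean are models), so `det2` is multiplied by `w²` and so is the
denominator. -/
theorem argGrad_sw_eq {μ : Pr D} {wt : Co D} {z0 : ℝ × ℝ} {r m δ : ℝ} {N : ℕ}
    {P Q : MvPolynomial (Fin 2) ℝ} {f f1 f2 g g1 g2 : ℝ × ℝ → ℝ}
    (L : LocD μ wt z0 r m δ N P Q f f1 f2 g g1 g2) (t : ℝ × ℝ) {z : ℝ × ℝ} (hz : z ∈ disc z0 r) :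
    argGrad (sw μ wt t) z = aG (f z + t.1, g z + t.2) (f1 z, g1 z) (f2 z, g2 z) := by
  have hw : 0 < pe wt z.1 z.2 := lt_of_lt_of_le (by norm_num) (L.wpos z hz)
  obtain ⟨a0, a1, a2⟩ := ac_prod μ.1 wt (isOpen_disc z0 r) t.1 L.val1 L.df1 L.df2 hz
  obtain ⟨b0, b1, b2⟩ := ac_prod μ.2 wt (isOpen_disc z0 r) t.2 L.val2 L.dg1 L.dg2 hz
  unfold argGrad aG det2 sw
  simp only
  rw [a0, a1, a2, b0, b1, b2]
  set W := pe wt z.1 z.2 with hW
  have hW2 : (0 : ℝ) < W ^ 2 := by positivity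
  have e1 : W * (f z + t.1) * (pex wt z.1 z.2 * (g z + t.2) + W * g1 z) -
      W * (g z + t.2) * (pex wt z.1 z.2 * (f z + t.1) + W * f1 z) =
      W ^ 2 * ((f z + t.1) * g1 z - (g z + t.2) * f1 z) := by ring
  have e2 : W * (f z + t.1) * (pey wt z.1 z.2 * (g z + t.2) + W * g2 z) -
      W * (g z + t.2) * (pey wt z.1 z.2 * (f z + t.1) + W * f2 z) =
      W ^ 2 * ((f z + t.1) * g2 z - (g z + t.2) * f2 z) := by ring
  have e3 : (W * (f z + t.1)) ^ 2 + (W * (g z + t.2)) ^ 2 =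
      W ^ 2 * ((f z + t.1) ^ 2 + (g z + t.2) ^ 2) := by ring
  rw [e1, e2, e3, abs_mul, abs_mul, abs_of_pos hW2, ← mul_add, mul_div_mul_left _ _ hW2.ne']

private theorem ac_det_sub {p u p' u' : ℝ × ℝ} {δ M d : ℝ} 
    (h1 : |p.1 - p'.1| ≤ δ) (h2 : |p.2 - p'.2| ≤ δ)
    (hu1 : |u.1| ≤ M) (hu2 : |u.2| ≤ M) (hu1' : |u.1 - u'.1| ≤ d) (hu2' : |u.2 - u'.2| ≤ d) :
    |det2 p u| ≤ |det2 p' u'| + (2 * δ * M + (|p'.1| + |p'.2|) * d) := by
  have hδ : 0 ≤ δ := (abs_nonneg _).trans h1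
  have e : det2 p u = det2 p' u' + ((p.1 - p'.1) * u.2 - (p.2 - p'.2) * u.1 +
      (p'.1 * (u.2 - u'.2) - p'.2 * (u.1 - u'.1))) := by
    unfold det2; ring
  rw [e]
  refine (abs_add_le _ _).trans (add_le_add le_rfl ?_)
  refine (abs_add_le _ _).trans ?_
  have a1 : |(p.1 - p'.1) * u.2 - (p.2 - p'.2) * u.1| ≤ δ * M + δ * M := by
    refine (abs_sub _ _).trans ?_
    rw [abs_mul, abs_mul]
    gcongr
  have a2 : |p'.1 * (u.2 - u'.2) - p'.2 * (u.1 - u'.1)| ≤ |p'.1| * d + |p'.2| * d := by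
    refine (abs_sub _ _).trans ?_
    rw [abs_mul, abs_mul]
    gcongr
  linarith

private theorem ac_det_le {p u : ℝ × ℝ} {M : ℝ} (hu1 : |u.1| ≤ M) (hu2 : |u.2| ≤ M) :
    |det2 p u| ≤ (|p.1| + |p.2|) * M := by
  unfold det2
  refine (abs_sub _ _).trans ?_
  rw [abs_mul, abs_mul, add_mul]
  gcongr

/-- the algebraic comparison.
PROOF: `|det2 p u - det2 p' u'| ≤ |det2 (p - p') u| + |det2 p' (u - u')| ≤ 2 δ m/r + 2 (nm p + δ) δ/r`,
`||p|² - |p'|²| ≤ 2 δ (nm p + nm p')`, `|det2 p' u'| ≤ nm p' * nm u' ≤ nm p' * 3 m / r`,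
`nm p' ≥ e - 2 δ ≥ e/2`; the total is at most `60 m δ / (r e²) ≤ 1/r`. -/
theorem aG_cmp {p u v p' u' v' : ℝ × ℝ} {r m δ e : ℝ} (hr : 0 < r) (hm : 1 ≤ m) (hδ : 0 < δ)
    (he : 0 < e) (he1 : e ≤ 1) (hδe : 100 * m * δ ≤ e ^ 2)
    (hp : e ≤ nm p) (h1 : |p.1 - p'.1| ≤ δ) (h2 : |p.2 - p'.2| ≤ δ)
    (hu1 : |u.1| ≤ m / r) (hu2 : |u.2| ≤ m / r) (hv1 : |v.1| ≤ m / r) (hv2 : |v.2| ≤ m / r)
    (hu1' : |u.1 - u'.1| ≤ δ / r) (hu2' : |u.2 - u'.2| ≤ δ / r)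
    (hv1' : |v.1 - v'.1| ≤ δ / r) (hv2' : |v.2 - v'.2| ≤ δ / r) :
    aG p u v ≤ aG p' u' v' + 1 / r := by
  have hq : 0 < 1 / r := by positivity
  set q := 1 / r with hqdef
  have eM : m / r = m * q := by rw [hqdef]; ring
  have ed : δ / r = δ * q := by rw [hqdef]; ring
  rw [eM] at hu1 hu2 hv1 hv2
  rw [ed] at hu1' hu2' hv1' hv2'
  -- the numbers s, s'
  have hs0 : 0 ≤ |p.1| + |p.2| := by positivity
  have hs0' : 0 ≤ |p'.1| + |p'.2| := by positivity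
  have n1 : p.1 ^ 2 + p.2 ^ 2 ≤ (|p.1| + |p.2|) ^ 2 := by
    rw [add_sq, sq_abs, sq_abs]
    nlinarith [mul_nonneg (abs_nonneg p.1) (abs_nonneg p.2)]
  have n2 : (|p.1| + |p.2|) ^ 2 ≤ 2 * (p.1 ^ 2 + p.2 ^ 2) := by
    rw [← sq_abs p.1, ← sq_abs p.2]
    nlinarith [sq_nonneg (|p.1| - |p.2|)]
  have n2' : (|p'.1| + |p'.2|) ^ 2 ≤ 2 * (p'.1 ^ 2 + p'.2 ^ 2) := by
    rw [← sq_abs p'.1, ← sq_abs p'.2]
    nlinarith [sq_nonneg (|p'.1| - |p'.2|)]
  have hN : e ^ 2 ≤ p.1 ^ 2 + p.2 ^ 2 := by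
    have h := pow_le_pow_left₀ he.le hp 2
    unfold nm at h
    rwa [Real.sq_sqrt (by positivity)] at h
  have hse : e ≤ |p.1| + |p.2| := by
    refine le_of_sq_le_sq ?_ hs0
    linarith
  have hδ1 : 100 * δ ≤ e ^ 2 := by nlinarith
  have hδ2 : 100 * δ ≤ e := by nlinarith
  have t1 : |p'.1| + |p'.2| ≤ |p.1| + |p.2| + 2 * δ := by
    have a := abs_sub_abs_le_abs_sub p'.1 p.1
    have b := abs_sub_abs_le_abs_sub p'.2 p.2
    rw [abs_sub_comm] at h1 h2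
    linarith
  have t2 : |p.1| + |p.2| - 2 * δ ≤ |p'.1| + |p'.2| := by
    have a := abs_sub_abs_le_abs_sub p.1 p'.1
    have b := abs_sub_abs_le_abs_sub p.2 p'.2
    linarith
  have hdiff : (p'.1 ^ 2 + p'.2 ^ 2) - (p.1 ^ 2 + p.2 ^ 2) ≤
      δ * ((|p.1| + |p.2|) + (|p'.1| + |p'.2|)) := by
    have a : p'.1 ^ 2 - p.1 ^ 2 ≤ δ * (|p.1| + |p'.1|) := by
      have : p'.1 ^ 2 - p.1 ^ 2 = (p'.1 - p.1) * (p'.1 + p.1) := by ring
      rw [this]
      refine (le_abs_self _).trans ?_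
      rw [abs_mul, abs_sub_comm]
      refine mul_le_mul h1 ((abs_add_le _ _).trans (by linarith)) (abs_nonneg _) hδ.le
    have b : p'.2 ^ 2 - p.2 ^ 2 ≤ δ * (|p.2| + |p'.2|) := by
      have : p'.2 ^ 2 - p.2 ^ 2 = (p'.2 - p.2) * (p'.2 + p.2) := by ring
      rw [this]
      refine (le_abs_self _).trans ?_
      rw [abs_mul, abs_sub_comm]
      refine mul_le_mul h2 ((abs_add_le _ _).trans (by linarith)) (abs_nonneg _) hδ.le
    linarith
  have A1 := ac_det_sub h1 h2 hu1 hu2 hu1' hu2'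
  have A2 := ac_det_sub h1 h2 hv1 hv2 hv1' hv2'
  have bu1 : |u'.1| ≤ (m + δ) * q := by
    have a := abs_sub_abs_le_abs_sub u'.1 u.1
    rw [abs_sub_comm] at hu1'
    linarith
  have bu2 : |u'.2| ≤ (m + δ) * q := by
    have a := abs_sub_abs_le_abs_sub u'.2 u.2
    rw [abs_sub_comm] at hu2'
    linarith
  have bv1 : |v'.1| ≤ (m + δ) * q := by
    have a := abs_sub_abs_le_abs_sub v'.1 v.1
    rw [abs_sub_comm] at hv1'
    linarith
  have bv2 : |v'.2| ≤ (m + δ) * q := by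
    have a := abs_sub_abs_le_abs_sub v'.2 v.2
    rw [abs_sub_comm] at hv2'
    linarith
  have B1 := ac_det_le (p := p') bu1 bu2
  have B2 := ac_det_le (p := p') bv1 bv2
  clear bu1 bu2 bv1 bv2 hu1 hu2 hv1 hv2 hu1' hu2' hv1' hv2' h1 h2 eM ed hp
  unfold aG
  set A := |det2 p u| + |det2 p v| with hA
  set A' := |det2 p' u'| + |det2 p' v'| with hA'
  have hA0' : 0 ≤ A' := by positivity
  set s := |p.1| + |p.2| with hs
  set s' := |p'.1| + |p'.2| with hs'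
  set N2 := p.1 ^ 2 + p.2 ^ 2 with hN2
  set N2' := p'.1 ^ 2 + p'.2 ^ 2 with hN2'
  have hAA : A ≤ A' + (4 * δ * m + 2 * s' * δ) * q := by nlinarith
  have hA'b : A' ≤ 2 * s' * (m + δ) * q := by nlinarith
  clear A1 A2 B1 B2
  have spos : 0 < s := he.trans_le hse
  have ss1 : s' ≤ 1.02 * s := by linarith
  have ss2 : 0.98 * s ≤ s' := by linarith
  have spos' : 0 < s' := by linarith
  have hN2p : 0 < N2 := lt_of_lt_of_le (by positivity) hN
  have hN2p' : 0 < N2' := by nlinarith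
  have hes : e ^ 2 ≤ s ^ 2 := pow_le_pow_left₀ he.le hse 2
  -- claim 1
  have c1 : (4 * δ * m + 2 * s' * δ) * q ≤ (1 / 2 * q) * N2 := by
    have k1 : 4 * δ * m ≤ 0.04 * s ^ 2 := by nlinarith
    have k2 : s' * δ ≤ 0.0102 * s ^ 2 := by
      have : s' * δ ≤ (1.02 * s) * (s / 100) := by
        refine mul_le_mul ss1 (by linarith) hδ.le (by positivity)
      nlinarith
    have k3 : 4 * δ * m + 2 * s' * δ ≤ 1 / 2 * N2 := by nlinarith
    calc (4 * δ * m + 2 * s' * δ) * q ≤ (1 / 2 * N2) * q := by gcongr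
      _ = _ := by ring
  -- claim 2
  have c2 : A' * (N2' - N2) ≤ (1 / 2 * q) * (N2 * N2') := by
    have k0 : 0 ≤ δ * (s + s') := by positivity
    have k1 : A' * (N2' - N2) ≤ (2 * s' * (m + δ) * q) * (δ * (s + s')) :=
      (mul_le_mul_of_nonneg_left hdiff hA0').trans (mul_le_mul_of_nonneg_right hA'b k0)
    refine k1.trans ?_
    have k2 : m + δ ≤ 1.01 * m := by nlinarith
    have k3 : s + s' ≤ 2.02 * s := by linarith
    have k4 : (2 * s' * (m + δ) * q) * (δ * (s + s')) ≤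
        (2 * s' * (1.01 * m) * q) * (δ * (2.02 * s)) := by gcongr
    refine k4.trans ?_
    have k5 : (2 * s' * (1.01 * m) * q) * (δ * (2.02 * s)) =
        (0.040804 * (s * s') * q) * (100 * m * δ) := by ring
    rw [k5]
    have k6 : (0.040804 * (s * s') * q) * (100 * m * δ) ≤ (0.040804 * (s * s') * q) * s ^ 2 :=
      mul_le_mul_of_nonneg_left (hδe.trans hes) (by positivity)
    refine k6.trans ?_
    have k7 : s ^ 2 * s' ^ 2 ≤ (2 * N2) * (2 * N2') := by gcongr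
    have k8 : 0.040804 * (s * s') * s ^ 2 ≤ 1 / 2 * (N2 * N2') := by
      have k9 : s * (0.98 * s) ≤ s * s' := by gcongr
      have k10 : s * s' * (s * (0.98 * s)) ≤ s * s' * (s * s') := by gcongr
      nlinarith
    calc 0.040804 * (s * s') * q * s ^ 2 = (0.040804 * (s * s') * s ^ 2) * q := by ring
      _ ≤ (1 / 2 * (N2 * N2')) * q := by gcongr
      _ = _ := by ring
  -- the end
  have d1 : A / N2 ≤ (A' + (1 / 2 * q) * N2) / N2 := by
    gcongr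
    linarith
  have d2 : (A' + (1 / 2 * q) * N2) / N2 = A' / N2 + 1 / 2 * q := by
    field_simp
  have d3 : A' / N2 ≤ A' / N2' + 1 / 2 * q := by
    rw [div_add' _ _ _ hN2p'.ne', div_le_div_iff₀ hN2p hN2p']
    nlinarith
  linarith

/-- comparison with the polynomial pair.
PROOF: `argGrad_sw_eq`, `aG_cmp` with `p' = vfc (shf ..) z = (pe .. + t.1, pe .. + t.2)` (`vfc_shf`,
`pex_shf1` etc. in ShiftArr.lean), and `nm (vfc (sw μ wt t) z) = w * nm p`. -/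
theorem arg_cmp {μ : Pr D} {wt : Co D} {z0 : ℝ × ℝ} {r m δ : ℝ} {N : ℕ}
    {P Q : MvPolynomial (Fin 2) ℝ} {f f1 f2 g g1 g2 : ℝ × ℝ → ℝ}
    (L : LocD μ wt z0 r m δ N P Q f f1 f2 g g1 g2) {e : ℝ} (he : 0 < e) (he1 : e ≤ 1)
    (hδe : 100 * m * δ ≤ e ^ 2) (t : ℝ × ℝ) {z : ℝ × ℝ} (hz : z ∈ disc z0 r)
    (hbig : e * pe wt z.1 z.2 ≤ nm (vfc (sw μ wt t) z)) :
    argGrad (sw μ wt t) z ≤ argGrad (shf (arr N P, arr N Q) t) z + 1 / r := by
  have hw : 0 < pe wt z.1 z.2 := lt_of_lt_of_le (by norm_num) (L.wpos z hz)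
  have hv : vfc (sw μ wt t) z = pe wt z.1 z.2 • ((f z + t.1, g z + t.2) : ℝ × ℝ) := by
    rw [vfc_sw]
    ext
    · simp only [vfc, Prod.fst_add, Prod.smul_fst, smul_eq_mul]
      rw [L.val1 z hz]; ring
    · simp only [vfc, Prod.snd_add, Prod.smul_snd, smul_eq_mul]
      rw [L.val2 z hz]; ring
  have hp : e ≤ nm ((f z + t.1, g z + t.2) : ℝ × ℝ) := by
    rw [hv] at hbig
    have h1 : nm (pe wt z.1 z.2 • ((f z + t.1, g z + t.2) : ℝ × ℝ)) =
        pe wt z.1 z.2 * nm ((f z + t.1, g z + t.2) : ℝ × ℝ) := by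
      unfold nm
      simp only [Prod.smul_fst, Prod.smul_snd, smul_eq_mul]
      rw [show (pe wt z.1 z.2 * (f z + t.1)) ^ 2 + (pe wt z.1 z.2 * (g z + t.2)) ^ 2 =
        pe wt z.1 z.2 ^ 2 * ((f z + t.1) ^ 2 + (g z + t.2) ^ 2) by ring,
        Real.sqrt_mul (by positivity), Real.sqrt_sq hw.le]
    rw [h1, mul_comm] at hbig
    exact le_of_mul_le_mul_left hbig hw
  rw [argGrad_sw_eq L t hz]
  have hs : argGrad (shf (arr N P, arr N Q) t) z =
      aG (vfc (shf (arr N P, arr N Q) t) z) (pex (arr N P) z.1 z.2, pex (arr N Q) z.1 z.2)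
        (pey (arr N P) z.1 z.2, pey (arr N Q) z.1 z.2) := by
    unfold argGrad aG det2
    rw [pex_shf1, pex_shf2, pey_shf1, pey_shf2]
    rfl
  rw [hs, vfc_shf]
  refine aG_cmp L.hr L.hm L.hδ he he1 hδe hp ?_ ?_ (L.bf1 z hz) (L.bg1 z hz) (L.bf2 z hz)
    (L.bg2 z hz) (L.af1 z hz) (L.ag1 z hz) (L.af2 z hz) (L.ag2 z hz)
  · simpa [vfc] using L.af z hz
  · simpa [vfc] using L.ag z hz

end Pool.Agent.Lib.MP_95e7ec_an
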