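import Mathlib
import Pool.Agent.Lib.MP_95e7ec_an.Sm.Defs
import Pool.Agent.Lib.MP_95e7ec_an.KosMain
import Pool.Agent.Lib.MP_95e7ec_an.KqShift

/-!
# Smoothed count: balls in the space of the coefficients

Volumes of balls, the norm, invariance under the turning.
-/

set_option autoImplicit false

open Set Filter Topology MeasureTheory
open scoped ContDiff ENNReal

namespace Pool.Agent.Lib.MP_95e7ec_an

variable {n : ℕ}

private theorem ball_card_pos (n : ℕ) : 1 ≤ Fintype.card (KIdx n) := by
  have : Nonempty (KIdx n) := ⟨⟨(0, 0), by simp⟩⟩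
  exact Fintype.card_pos

/-- the rotation of the plane, as a linear map -/
private noncomputable def ballL (α : ℝ) : (ℝ × ℝ) →ₗ[ℝ] (ℝ × ℝ) :=
  Matrix.toLin (Module.Basis.finTwoProd ℝ) (Module.Basis.finTwoProd ℝ)
    !![Real.cos α, -Real.sin α; Real.sin α, Real.cos α]

private theorem ballL_apply (α : ℝ) (z : ℝ × ℝ) :
    ballL α z = (Real.cos α * z.1 - Real.sin α * z.2, Real.sin α * z.1 + Real.cos α * z.2) := by
  rw [ballL, Matrix.toLin_finTwoProd_apply]
  refine Prod.ext ?_ ?_
  · simp only; ring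
  · simp only

private theorem ballL_det (α : ℝ) : LinearMap.det (ballL α) = 1 := by
  rw [ballL, LinearMap.det_toLin, Matrix.det_fin_two_of]
  nlinarith [Real.sin_sq_add_cos_sq α]

private theorem measurable_ballL (α : ℝ) : Measurable (ballL α) := by
  have : (ballL α : ℝ × ℝ → ℝ × ℝ) = fun z : ℝ × ℝ =>
      (Real.cos α * z.1 - Real.sin α * z.2, Real.sin α * z.1 + Real.cos α * z.2) := by
    funext z; exact ballL_apply α z
  rw [this]
  fun_prop

private theorem ballL_volume (α : ℝ) :
    MeasurePreserving (ballL α) (volume : Measure (ℝ × ℝ)) volume := by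
  refine ⟨measurable_ballL α, ?_⟩
  have h := Measure.map_linearMap_addHaar_eq_smul_addHaar (volume : Measure (ℝ × ℝ))
    (f := ballL α) (by rw [ballL_det]; norm_num)
  rw [h, ballL_det]
  simp

theorem kN2_nonneg (a : KSp n) : 0 ≤ kN2 a :=
  Finset.sum_nonneg fun _ _ => add_nonneg (sq_nonneg _) (sq_nonneg _)

theorem continuous_kN2 (n : ℕ) : Continuous fun a : KSp n => kN2 a := by
  unfold kN2
  fun_prop

theorem measurableSet_kball (b : KSp n) (R : ℝ) : MeasurableSet (kball b R) := by
  have h : Continuous fun a : KSp n => kN2 (a - b) :=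
    (continuous_kN2 n).comp (continuous_id.sub continuous_const)
  exact (isClosed_le h continuous_const).measurableSet

/-- the real dimension is the dimension (`Module.finrank_pi_fintype` or `Module.finrank_pi`, and
`finrank ℝ (ℝ × ℝ) = 2`) -/
theorem finrank_KSp (n : ℕ) : Module.finrank ℝ (KSp n) = kD n := by
  rw [Module.finrank_pi_fintype, kD]
  simp only [Module.finrank_prod, Module.finrank_self, Finset.sum_const, Finset.card_univ,
    smul_eq_mul]
  ring

theorem kD_bounds {n : ℕ} (hn : 1 ≤ n) : 2 ≤ kD n ∧ kD n ≤ 8 * n ^ 2 := by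
  have h := Fintype.card_subtype_le
    (fun p : Fin (n + 1) × Fin (n + 1) => (p.1 : ℕ) + (p.2 : ℕ) ≤ n)
  rw [Fintype.card_prod, Fintype.card_fin] at h
  have h1 := ball_card_pos n
  unfold kD
  refine ⟨by omega, ?_⟩
  have h2 : Fintype.card (KIdx n) ≤ (n + 1) * (n + 1) := h
  nlinarith

open scoped Pointwise in
/-- scaling and translation of balls (`Measure.addHaar_preimage_smul` or `addHaar_smul`,
translation invariance) -/
theorem volume_kball (b b' : KSp n) {R c : ℝ} (hR : 0 ≤ R) (hc : 0 < c) :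
    volume (kball b' (c * R)) = ENNReal.ofReal (c ^ kD n) * volume (kball b R) := by
  have _ := hR
  have ht : ∀ (x : KSp n) (r : ℝ), volume (kball x r) = volume (kball (0 : KSp n) r) := by
    intro x r
    have e : kball x r = (fun a => a + -x) ⁻¹' kball (0 : KSp n) r := by
      ext a
      show kN2 (a - x) ≤ r ^ 2 ↔ kN2 (a + -x - 0) ≤ r ^ 2
      rw [sub_zero, sub_eq_add_neg]
    rw [e, measure_preimage_add_right]
  have hs : kball (0 : KSp n) (c * R) = c • kball (0 : KSp n) R := by
    ext a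
    rw [Set.mem_smul_set_iff_inv_smul_mem₀ hc.ne']
    show kN2 (a - 0) ≤ (c * R) ^ 2 ↔ kN2 (c⁻¹ • a - 0) ≤ R ^ 2
    rw [sub_zero, sub_zero]
    have e : kN2 (c⁻¹ • a) = (c⁻¹) ^ 2 * kN2 a := by
      unfold kN2
      rw [Finset.mul_sum]
      refine Finset.sum_congr rfl fun p _ => ?_
      simp only [Pi.smul_apply, Prod.smul_fst, Prod.smul_snd, smul_eq_mul]
      ring
    rw [e, mul_pow, inv_pow, inv_mul_le_iff₀ (by positivity)]
  rw [ht b', ht b, hs, Measure.addHaar_smul, finrank_KSp, abs_of_pos (pow_pos hc _)]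

/-- the volume of a ball is finite (bounded set), and it is `0` for the radius `0` -/
theorem volume_kball_lt_top (b : KSp n) (R : ℝ) : volume (kball b R) < ⊤ := by
  refine lt_of_le_of_lt (measure_mono fun a ha => ?_)
    (measure_closedBall_lt_top (x := b) (r := |R|))
  rw [Metric.mem_closedBall, dist_eq_norm, pi_norm_le_iff_of_nonneg (abs_nonneg R)]
  intro p
  have h1 : kN2 (a - b) ≤ R ^ 2 := ha
  have h2 : ((a - b) p).1 ^ 2 + ((a - b) p).2 ^ 2 ≤ kN2 (a - b) :=
    Finset.single_le_sum (f := fun p => ((a - b) p).1 ^ 2 + ((a - b) p).2 ^ 2)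
      (fun _ _ => add_nonneg (sq_nonneg _) (sq_nonneg _)) (Finset.mem_univ p)
  rw [Prod.norm_def]
  refine max_le ?_ ?_
  · rw [Real.norm_eq_abs]
    exact sq_le_sq.1 (by nlinarith [sq_nonneg ((a - b) p).2])
  · rw [Real.norm_eq_abs]
    exact sq_le_sq.1 (by nlinarith [sq_nonneg ((a - b) p).1])

theorem volume_kball_zero (b : KSp n) : volume (kball b 0) = 0 := by
  have h := volume_kball b b (le_refl (0 : ℝ)) (two_pos : (0 : ℝ) < 2)
  rw [mul_zero] at h
  by_contra h0
  have h1 := (volume_kball_lt_top b 0).ne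
  have h2 : ENNReal.ofReal (2 ^ kD n) = 1 := by
    have h3 : ENNReal.ofReal (2 ^ kD n) * volume (kball b 0) = 1 * volume (kball b 0) := by
      rw [one_mul]; exact h.symm
    exact (ENNReal.mul_left_inj h0 h1).1 h3
  have h4 : (2 : ℝ) ^ kD n = 1 := by
    have h5 := congrArg ENNReal.toReal h2
    rwa [ENNReal.toReal_ofReal (by positivity), ENNReal.toReal_one] at h5
  have h6 : 1 < (2 : ℝ) ^ kD n := by
    refine one_lt_pow₀ one_lt_two ?_
    have := ball_card_pos n
    unfold kD
    omega
  linarith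

/-- triangle inequality (Cauchy-Schwarz, `Finset.inner_mul_le_norm_mul_norm` or
`Finset.sum_mul_sq_le_sq_mul_sq`) -/
theorem sqrt_kN2_add (a b : KSp n) :
    Real.sqrt (kN2 (a + b)) ≤ Real.sqrt (kN2 a) + Real.sqrt (kN2 b) := by
  have hcs := Real.sum_mul_le_sqrt_mul_sqrt (Finset.univ : Finset (KIdx n × Bool))
    (fun x => if x.2 = true then (a x.1).1 else (a x.1).2)
    (fun x => if x.2 = true then (b x.1).1 else (b x.1).2)
  simp only [Fintype.sum_prod_type, Fintype.sum_bool, if_true, Bool.false_eq_true, if_false] at hcs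
  have ha : ∑ p, ((a p).1 ^ 2 + (a p).2 ^ 2) = kN2 a := rfl
  have hb : ∑ p, ((b p).1 ^ 2 + (b p).2 ^ 2) = kN2 b := rfl
  rw [ha, hb] at hcs
  refine Real.sqrt_le_iff.2 ⟨by positivity, ?_⟩
  have e : kN2 (a + b) = kN2 a + kN2 b +
      2 * ∑ p, ((a p).1 * (b p).1 + (a p).2 * (b p).2) := by
    unfold kN2
    rw [Finset.mul_sum, ← Finset.sum_add_distrib, ← Finset.sum_add_distrib]
    refine Finset.sum_congr rfl fun p _ => ?_
    simp only [Pi.add_apply, Prod.fst_add, Prod.snd_add]
    ring
  have h1 := Real.sq_sqrt (kN2_nonneg a)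
  have h2 := Real.sq_sqrt (kN2_nonneg b)
  rw [e]
  nlinarith

theorem kN2_krot (α : ℝ) (a : KSp n) : kN2 (krot α a) = kN2 a := by
  unfold kN2 krot
  refine Finset.sum_congr rfl fun p _ => ?_
  have h := Real.sin_sq_add_cos_sq α
  simp only
  have e : (Real.cos α * (a p).1 - Real.sin α * (a p).2) ^ 2 +
      (Real.sin α * (a p).1 + Real.cos α * (a p).2) ^ 2 =
      (Real.sin α ^ 2 + Real.cos α ^ 2) * ((a p).1 ^ 2 + (a p).2 ^ 2) := by ring
  rw [e, h, one_mul]

theorem kN2_smul (c : ℝ) (a : KSp n) : kN2 (c • a) = c ^ 2 * kN2 a := by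
  unfold kN2
  rw [Finset.mul_sum]
  refine Finset.sum_congr rfl fun p _ => ?_
  simp only [Pi.smul_apply, Prod.smul_fst, Prod.smul_snd, smul_eq_mul]
  ring

/-- the turning preserves the volume. PROOF: as `kMeas_rot` (KosRot.lean, its first private
lemmas), `volume_pi`, `measurePreserving_pi`. -/
theorem volume_krot (α : ℝ) {F : KSp n → ℝ≥0∞} (hF : Measurable F) :
    ∫⁻ a, F (krot α a) = ∫⁻ a, F a := by
  have hp : MeasurePreserving (fun (a : KSp n) (p : KIdx n) => ballL α (a p))
      (Measure.pi fun _ : KIdx n => (volume : Measure (ℝ × ℝ)))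
      (Measure.pi fun _ : KIdx n => (volume : Measure (ℝ × ℝ))) :=
    measurePreserving_pi (fun _ : KIdx n => (volume : Measure (ℝ × ℝ)))
      (fun _ : KIdx n => (volume : Measure (ℝ × ℝ))) (fun _ => ballL_volume α)
  have hk : (krot α : KSp n → KSp n) = fun a p => ballL α (a p) := by
    funext a p
    rw [ballL_apply]
    rfl
  rw [hk, volume_pi]
  exact hp.lintegral_comp hF

theorem krot_add (α β : ℝ) (a : KSp n) : krot α (krot β a) = krot (α + β) a := by
  funext p
  simp only [krot, Real.cos_add, Real.sin_add]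
  refine Prod.ext ?_ ?_
  · simp only; ring
  · simp only; ring

theorem krot_zero (a : KSp n) : krot 0 a = a := by
  funext p
  simp [krot]

theorem krot_sub (α : ℝ) (a b : KSp n) : krot α (a - b) = krot α a - krot α b := by
  funext p
  simp only [krot, Pi.sub_apply, Prod.fst_sub, Prod.snd_sub]
  refine Prod.ext ?_ ?_
  · simp only [Prod.fst_sub]; ring
  · simp only [Prod.snd_sub]; ring

end Pool.Agent.Lib.MP_95e7ec_an
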