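import Mathlib
import Pool.Agent.Lib.MP_95e7ec_an.Zeros
import Pool.Agent.Lib.MP_95e7ec_an.AvgDefs
import Pool.Agent.Lib.MP_95e7ec_an.Sm.AreaOn

/-!
# The number of the regular solutions of `vf P Q = c`, and the number of the zeros of a perturbed
polynomial map (folder Sm, step (vii) of Theorem L)
-/

set_option autoImplicit false

open Set Filter Topology MeasureTheory
open scoped ContDiff ENNReal

namespace Pool.Agent.Lib.MP_95e7ec_an

private theorem bz_rank_one (φ : (ℝ × ℝ) →L[ℝ] ℝ) (v : ℝ × ℝ) :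
    (φ.smulRight v).det = 0 := by
  by_contra h
  have hinj : Function.Injective (φ.smulRight v) := by
    have := ((φ.smulRight v).toContinuousLinearEquivOfDetNeZero h).injective
    intro x y hxy
    exact this (by simpa using hxy)
  -- a nonzero vector in the kernel of `φ`
  have h1 : ∃ w : ℝ × ℝ, w ≠ 0 ∧ φ w = 0 := by
    by_cases hφ : φ (0, 1) = 0
    · exact ⟨(0, 1), by simp, hφ⟩
    · refine ⟨φ (0, 1) • ((1 : ℝ), (0 : ℝ)) - φ (1, 0) • ((0 : ℝ), (1 : ℝ)), ?_, ?_⟩
      · intro h2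
        have := congrArg Prod.fst h2
        simp at this
        exact hφ this
      · rw [map_sub, map_smul, map_smul, smul_eq_mul, smul_eq_mul]
        ring
  obtain ⟨w, hw, hφw⟩ := h1
  apply hw
  apply hinj
  simp [hφw]

/-- Bezout for the regular zeros: no primality is needed -/
theorem regular_zeros (P Q : MvPolynomial (Fin 2) ℝ) {d : ℕ} (hP : P.totalDegree ≤ d)
    (hQ : Q.totalDegree ≤ d) :
    {z : ℝ × ℝ | vf P Q z = 0 ∧ (fderiv ℝ (vf P Q) z).det ≠ 0}.encard ≤ (d ^ 2 : ℕ) := by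
  classical
  let _ : NormalizedGCDMonoid (MvPolynomial (Fin 2) ℝ) :=
    Nonempty.some inferInstance
  obtain ⟨P₁, Q₁, hP₁, hQ₁, hu⟩ := extract_gcd P Q
  set g := gcd P Q with hg
  have hfd : ∀ (A B : MvPolynomial (Fin 2) ℝ) (z : ℝ × ℝ),
      DifferentiableAt ℝ (vf A B) z := fun A B z =>
    (contDiff_vf A B (k := 1)).differentiable one_ne_zero z
  by_cases hg0 : g = 0
  · have hP0 : P = 0 := by rw [hP₁, hg0, zero_mul]
    have hQ0 : Q = 0 := by rw [hQ₁, hg0, zero_mul]
    have h1 : {z : ℝ × ℝ | vf P Q z = 0 ∧ (fderiv ℝ (vf P Q) z).det ≠ 0} = ∅ := by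
      rw [eq_empty_iff_forall_notMem]
      rintro z ⟨-, h2⟩
      apply h2
      have h3 : vf P Q = fun _ => (0 : ℝ × ℝ) := by
        funext w
        simp [vf, hP0, hQ0]
      rw [h3]
      simp only [fderiv_fun_const, Pi.zero_apply]
      have h4 := bz_rank_one 0 0
      simpa using h4
    rw [h1, encard_empty]
    exact bot_le
  have hrel : IsRelPrime P₁ Q₁ := gcd_isUnit_iff_isRelPrime.1 hu
  have hdeg : ∀ (A B : MvPolynomial (Fin 2) ℝ), A = g * B → A.totalDegree ≤ d →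
      B.totalDegree ≤ d := by
    intro A B hAB hA
    rcases eq_or_ne B 0 with h0 | h0
    · simp [h0]
    · have := MvPolynomial.totalDegree_mul_of_isDomain hg0 h0
      rw [← hAB] at this
      omega
  obtain ⟨Z, hZ, hZ0⟩ := exists_finset_zeros P₁ Q₁ hrel (hdeg P P₁ hP₁ hP) (hdeg Q Q₁ hQ₁ hQ)
  have hsm : ∀ z, vf P Q z = (MvPolynomial.eval ![z.1, z.2] g) • vf P₁ Q₁ z := by
    intro z
    unfold vf
    conv_lhs => rw [hP₁, hQ₁]
    simp only [map_mul, Prod.smul_mk, smul_eq_mul]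
  have hsub : {z : ℝ × ℝ | vf P Q z = 0 ∧ (fderiv ℝ (vf P Q) z).det ≠ 0} ⊆ (Z : Set (ℝ × ℝ)) := by
    rintro z ⟨h1, h2⟩
    rw [Finset.mem_coe, ← hZ0]
    by_contra h3
    apply h2
    have h4 : MvPolynomial.eval ![z.1, z.2] g = 0 := by
      rw [hsm z] at h1
      exact (smul_eq_zero.1 h1).resolve_right h3
    set G : ℝ × ℝ → ℝ := fun z => MvPolynomial.eval ![z.1, z.2] g with hG
    have hGd : DifferentiableAt ℝ G z := by
      have := (contDiff_eval g (k := 1)).differentiable one_ne_zero z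
      exact this
    have h5 : vf P Q = fun z => G z • vf P₁ Q₁ z := funext hsm
    have h6 : HasFDerivAt (fun z => G z • vf P₁ Q₁ z)
        (G z • fderiv ℝ (vf P₁ Q₁) z + (fderiv ℝ G z).smulRight (vf P₁ Q₁ z)) z :=
      hGd.hasFDerivAt.smul (hfd P₁ Q₁ z).hasFDerivAt
    rw [h5, h6.fderiv]
    have h7 : G z = 0 := h4
    rw [h7, zero_smul, zero_add]
    exact bz_rank_one _ _
  calc {z : ℝ × ℝ | vf P Q z = 0 ∧ (fderiv ℝ (vf P Q) z).det ≠ 0}.encard
      ≤ (Z : Set (ℝ × ℝ)).encard := encard_le_encard hsub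
    _ = (Z.card : ℕ∞) := encard_coe_eq_coe_finsetCard Z
    _ ≤ (d ^ 2 : ℕ) := by exact_mod_cast hZ

/-- the same for the solutions of `vf P Q = c` -/
theorem regular_solutions (P Q : MvPolynomial (Fin 2) ℝ) {d : ℕ} (hP : P.totalDegree ≤ d)
    (hQ : Q.totalDegree ≤ d) (c : ℝ × ℝ) :
    {z : ℝ × ℝ | vf P Q z = c ∧ (fderiv ℝ (vf P Q) z).det ≠ 0}.encard ≤ (d ^ 2 : ℕ) := by
  have hdeg : ∀ (A : MvPolynomial (Fin 2) ℝ) (x : ℝ), A.totalDegree ≤ d →
      (A + MvPolynomial.C x).totalDegree ≤ d := by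
    intro A x hA
    refine (MvPolynomial.totalDegree_add _ _).trans ?_
    rw [MvPolynomial.totalDegree_C]
    omega
  have h1 := regular_zeros (P + MvPolynomial.C (-c.1)) (Q + MvPolynomial.C (-c.2))
    (hdeg P _ hP) (hdeg Q _ hQ)
  have h2 : vf (P + MvPolynomial.C (-c.1)) (Q + MvPolynomial.C (-c.2)) =
      fun z => vf P Q z - c := by
    funext z
    unfold vf
    ext <;> simp [sub_eq_add_neg]
  have h3 : ∀ z, fderiv ℝ (fun z => vf P Q z - c) z = fderiv ℝ (vf P Q) z := fun z =>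
    fderiv_sub_const c
  rw [h2] at h1
  simp only [h3, sub_eq_zero] at h1
  exact h1

/-- the integral of the determinant of a polynomial map -/
theorem lintegral_det_vf (P Q : MvPolynomial (Fin 2) ℝ) {d : ℕ} (hP : P.totalDegree ≤ d)
    (hQ : Q.totalDegree ≤ d) {E A : Set (ℝ × ℝ)} (hE : MeasurableSet E) (hA : MeasurableSet A)
    (hEA : ∀ z ∈ E, vf P Q z ∈ A) :
    ∫⁻ z in E, ENNReal.ofReal |(fderiv ℝ (vf P Q) z).det| ≤ (d ^ 2 : ℕ) * volume A := by
  refine lintegral_det_le isOpen_univ hE (subset_univ E) (contDiff_vf P Q (k := 1)).contDiffOn hA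
    hEA fun c => ?_
  refine le_trans (encard_le_encard ?_) (regular_solutions P Q hP hQ c)
  rintro z ⟨-, h1, h2⟩
  exact ⟨h1, h2⟩

/-- STEP (vii): the number of the zeros of `f + t` in `E`, on the average over the translations
`t` in `B`; `f` is close to a polynomial map of degree `d` in the `C¹` sense -/
theorem zeros_average (P Q : MvPolynomial (Fin 2) ℝ) {d : ℕ} (hP : P.totalDegree ≤ d)
    (hQ : Q.totalDegree ≤ d) {O E : Set (ℝ × ℝ)} (hO : IsOpen O) (hE : MeasurableSet E)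
    (hEO : E ⊆ O) {f : ℝ × ℝ → ℝ × ℝ} (hf : ContDiffOn ℝ 1 f O) {B A : Set (ℝ × ℝ)}
    (hB : MeasurableSet B) (hA : MeasurableSet A)
    (hBA : ∀ z ∈ E, -f z ∈ B → vf P Q z ∈ A) {ε : ℝ}
    (hdet : ∀ z ∈ E, |(fderiv ℝ f z).det| ≤ |(fderiv ℝ (vf P Q) z).det| + ε) :
    ∃ g : ℝ × ℝ → ℝ≥0∞, Measurable g ∧
      (∀ t, (({z : ℝ × ℝ | z ∈ E ∧ f z + t = 0}.encard : ℕ∞) : ℝ≥0∞) ≤ g t) ∧
      ∫⁻ t in B, g t ≤ (d ^ 2 : ℕ) * volume A + ENNReal.ofReal ε * volume E := by
  classical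
  obtain ⟨g, hg, hgc, hgi⟩ := area_on hO hE hEO hf
  refine ⟨fun t => g (-t), hg.comp measurable_neg, fun t => ?_, ?_⟩
  · have h1 : {z : ℝ × ℝ | z ∈ E ∧ f z + t = 0} = {z : ℝ × ℝ | z ∈ E ∧ f z = -t} := by
      ext z
      constructor
      · rintro ⟨h2, h3⟩
        exact ⟨h2, eq_neg_of_add_eq_zero_left h3⟩
      · rintro ⟨h2, h3⟩
        exact ⟨h2, by rw [h3, neg_add_cancel]⟩
    rw [h1]
    exact hgc (-t)
  · have hB' : MeasurableSet (-B) := hB.neg
    have h1 : ∫⁻ t in B, g (-t) = ∫⁻ c in -B, g c := by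
      rw [← lintegral_indicator hB, ← lintegral_indicator hB',
        ← lintegral_neg_eq_self]
      congr 1
      funext c
      by_cases hc : c ∈ -B
      · rw [indicator_of_mem hc, indicator_of_mem (show -c ∈ B from hc), neg_neg]
      · rw [indicator_of_notMem hc, indicator_of_notMem (show -c ∉ B from hc)]
    rw [h1]
    refine (hgi _ hB').trans ?_
    have hEB : MeasurableSet (E ∩ {z | f z ∈ -B}) := by
      have h2 : E ∩ {z | f z ∈ -B} = E ∩ (O.indicator (fun z => f z)) ⁻¹' (-B) := by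
        ext z
        constructor
        · rintro ⟨h1, h2⟩
          refine ⟨h1, ?_⟩
          rw [mem_preimage, indicator_of_mem (hEO h1)]
          exact h2
        · rintro ⟨h1, h2⟩
          rw [mem_preimage, indicator_of_mem (hEO h1)] at h2
          exact ⟨h1, h2⟩
      rw [h2]
      refine hE.inter (MeasurableSet.preimage hB' ?_)
      have h3 : Measurable (O.piecewise f (fun _ => (0 : ℝ × ℝ))) :=
        ContinuousOn.measurable_piecewise hf.continuousOn continuousOn_const hO.measurableSet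
      have h4 : (O.piecewise f (fun _ => (0 : ℝ × ℝ))) = O.indicator (fun z => f z) :=
        Set.piecewise_eq_indicator
      rw [← h4]
      exact h3
    have h2 : ∀ z ∈ E ∩ {z | f z ∈ -B}, ENNReal.ofReal |(fderiv ℝ f z).det| ≤
        ENNReal.ofReal |(fderiv ℝ (vf P Q) z).det| + ENNReal.ofReal ε := by
      rintro z ⟨hz, -⟩
      refine (ENNReal.ofReal_le_ofReal (hdet z hz)).trans ?_
      exact ENNReal.ofReal_add_le
    refine (setLIntegral_mono' hEB h2).trans ?_
    rw [lintegral_add_right _ measurable_const, setLIntegral_const]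
    refine add_le_add ?_ (mul_le_mul_right (measure_mono inter_subset_left) _)
    exact lintegral_det_vf P Q hP hQ hEB hA fun z hz => hBA z hz.1 hz.2

end Pool.Agent.Lib.MP_95e7ec_an
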