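import Mathlib
import Pool.Agent.Lib.MP_95e7ec_an.Sm.Defs
import Pool.Agent.Lib.MP_95e7ec_an.CountTwo
import Pool.Agent.Lib.MP_95e7ec_an.CountW

/-!
# Smoothed count: the classes of lengths, in terms of the neighbourhood of the zeros
-/

set_option autoImplicit false

open Set Filter Topology MeasureTheory
open scoped ContDiff ENNReal

namespace Pool.Agent.Lib.MP_95e7ec_an

variable {D : ℕ}

/-- the neighbourhood of the zeros is open.
PROOF: as `isOpen_OmB` (CountAll.lean). -/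
theorem isOpen_nearS (ν : Pr D) {K : Set (ℝ × ℝ)} (hK : IsOpen K) (e : ℝ) :
    IsOpen (nearS ν K e) := by
  have : nearS ν K e = K ∩ ⋃ p ∈ {p | p ∈ K ∧ vfc ν p = 0}, {z | nm (p - z) < e} := by
    ext z
    simp only [nearS, Set.mem_ofPred_eq, Set.mem_inter_iff, Set.mem_iUnion, exists_prop]
    constructor
    · rintro ⟨h1, p, h3, h4, h5⟩
      exact ⟨h1, p, ⟨h3, h5⟩, h4⟩
    · rintro ⟨h1, p, ⟨h3, h5⟩, h4⟩
      exact ⟨h1, p, h3, h4, h5⟩
  rw [this]
  refine hK.inter (isOpen_biUnion fun p _ => isOpen_lt ?_ continuous_const)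
  exact continuous_nm.comp (continuous_const.sub continuous_id)

private theorem cl_long (ν : Pr D) {K : Set (ℝ × ℝ)} (hKo : IsOpen K) {a : ℝ} (ha : 0 < a) :
    ∫⁻ α in Set.Ioo 0 Real.pi, orbitSum (upW a) (vfc ν) K α ≤
      (ENNReal.ofReal a)⁻¹ * ∫⁻ z in K, ENNReal.ofReal (argGrad ν z) := by
  obtain ⟨hm, hint⟩ := averaged_meas ν hKo
  calc ∫⁻ α in Set.Ioo 0 Real.pi, orbitSum (upW a) (vfc ν) K α
      ≤ ∫⁻ α in Set.Ioo 0 Real.pi, (ENNReal.ofReal a)⁻¹ * totalLength (vfc ν) K α :=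
        lintegral_mono fun α => ca_upW_le_total ha α
    _ = (ENNReal.ofReal a)⁻¹ * ∫⁻ α in Set.Ioo 0 Real.pi, totalLength (vfc ν) K α :=
        lintegral_const_mul'' _ hm
    _ ≤ _ := by gcongr

private theorem cl_mid {ν : Pr D} {K : Set (ℝ × ℝ)} {M₁ M₂ : ℝ} (h : DBound ν K M₁ M₂)
    (hK : Convex ℝ K) (hM1 : 0 < M₁) (hM2 : 0 < M₂) (α : ℝ) (k : ℕ) :
    orbitSum (midW M₁ M₂ k) (vfc ν) K α ≤
      orbitSum (upW (ellk M₁ M₂ (k + 1))) (vfc ν) (nearS ν K (2 * ellk M₁ M₂ k)) α := by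
  have he := ellk_pos hM1 hM2 k
  set v := vfc ν with hv
  simp only [ca_orbitSum_eq]
  refine ENNReal.tsum_le_tsum fun C => ?_
  by_cases hC : IsClosedOrbit (turn α v) C ∧ C ⊆ K
  · have hmem : C ∈ {C | IsClosedOrbit (turn α v) C ∧ C ⊆ K} := hC
    rw [Set.indicator_of_mem hmem]
    by_cases hL : ENNReal.ofReal (ellk M₁ M₂ (k + 1)) < orbitLength (turn α v) C ∧
        orbitLength (turn α v) C ≤ ENNReal.ofReal (ellk M₁ M₂ k)
    · have hC1 := hC.1
      have hL2 := hL.2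
      rw [hv, ← vfc_rotA] at hC1 hL2
      obtain ⟨⟨p, hpK, hp0, hp⟩, -, -⟩ := small_orbit_geom h hK hM1 hM2 α hC1 hC.2 he.le hL2
      have hcl : C ⊆ nearS ν K (2 * ellk M₁ M₂ k) := by
        intro z hz
        exact ⟨hC.2 hz, p, hpK, lt_of_le_of_lt (hp z hz) (by linarith), hp0⟩
      rw [Set.indicator_of_mem (show C ∈ {C | IsClosedOrbit (turn α v) C ∧
        C ⊆ nearS ν K (2 * ellk M₁ M₂ k)} from ⟨hC.1, hcl⟩)]
      simp [midW, upW, hL.1, hL.2]
    · simp [midW, hL]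
  · rw [Set.indicator_of_notMem (show C ∉ {C | IsClosedOrbit (turn α v) C ∧ C ⊆ K} from hC)]
    exact zero_le

/-- the mean of the number of closed orbits of one scale, the weight is positive only locally -/
private theorem cl_class_avg (μ : Pr D) (wt : Co D) {K : Set (ℝ × ℝ)} {M₁ M₂ w0 ρ : ℝ}
    (h : ∀ c, nm c ≤ ρ → DBound (sw μ wt c) K M₁ M₂) (hK : Convex ℝ K) (hKo : IsOpen K)
    (hM1 : 0 < M₁) (hM2 : 0 < M₂) (hw0 : 0 < w0)
    (hw : ∀ z ∈ K, w0 ≤ pe wt z.1 z.2) (j : ℕ) :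
    ∃ H : ℝ × ℝ → ℝ≥0∞, Measurable H ∧
      (∀ c, nm c ≤ ρ → ∫⁻ α in Set.Ioo 0 Real.pi,
        orbitSum (midW M₁ M₂ j) (vfc (sw μ wt c)) K α ≤ H c) ∧
      ∫⁻ c, H c ≤ volume K * ENNReal.ofReal (1541 * M₁ ^ 2 * (5 / 6) ^ j / w0 ^ 2) := by
  have hs : (0 : ℝ) < 13 * (5 / 6) ^ j := by positivity
  obtain ⟨Hb, hbm, hb1, hb2⟩ := avg_bad_wK μ wt h hK hKo hM1 hM2 hw0 hw (lamk_pos j)
    (lamk_le_one j) (ellk_spec hM2 j) hs
  obtain ⟨Hg, hgm, hg1, hg2⟩ := avg_good_w μ wt hKo.measurableSet hw0 hw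
    (r := 3 * M₁ * ellk M₁ M₂ j) (by have := ellk_pos hM1 hM2 j; positivity)
  refine ⟨fun c => (ENNReal.ofReal (ellk M₁ M₂ (j + 1)))⁻¹ * (ENNReal.ofReal (3 * M₁) * Hb c) +
      ENNReal.ofReal (4 * M₂ / lamk j ^ 2) * Hg c, ?_, ?_, ?_⟩
  · exact ((hbm.const_mul _).const_mul _).add (hgm.const_mul _)
  · intro c hc
    refine (class_one (h c hc) hK hKo hM1 hM2 j).trans ?_
    refine add_le_add ?_ ?_
    · gcongr
      exact hb1 c hc
    · gcongr
      exact hg1 c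
  · have hinv : ∀ a : ℝ, 0 < a → ∀ b : ℝ, 0 ≤ b → (ENNReal.ofReal a)⁻¹ * ENNReal.ofReal b =
        ENNReal.ofReal (b / a) := by
      intro a ha b hb
      rw [← ENNReal.ofReal_inv_of_pos ha, ← ENNReal.ofReal_mul (by positivity), div_eq_mul_inv,
        mul_comm]
    have hpi := Real.pi_lt_d2
    have hpi0 := Real.pi_pos
    have hK0 : ∀ x : ℝ≥0∞, ∀ a : ℝ, 0 ≤ a → ∀ b : ℝ, 0 ≤ b → ENNReal.ofReal a * (x * ENNReal.ofReal b)
        = x * ENNReal.ofReal (a * b) := by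
      intro x a ha b hb
      rw [ENNReal.ofReal_mul ha]
      ring
    have hek := ellk_pos hM1 hM2 j
    have hek1 := ellk_pos hM1 hM2 (j + 1)
    have hlk := lamk_pos j
    have hsp := ellk_spec (M₁ := M₁) hM2 j
    rw [lintegral_add_left ((hbm.const_mul _).const_mul _)]
    have B1 : ∫⁻ c, (ENNReal.ofReal (ellk M₁ M₂ (j + 1)))⁻¹ * (ENNReal.ofReal (3 * M₁) * Hb c) ≤
        volume K * ENNReal.ofReal (1465 * M₁ ^ 2 * (5 / 6) ^ j / w0 ^ 2) := by
      rw [lintegral_const_mul _ (hbm.const_mul _), lintegral_const_mul _ hbm]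
      have hpos : 0 ≤ M₁ * ellk M₁ M₂ j * (2 * Real.pi * (13 * (5 / 6) ^ j) +
          1060 * lamk j / (13 * (5 / 6) ^ j)) / w0 ^ 2 := by positivity
      calc (ENNReal.ofReal (ellk M₁ M₂ (j + 1)))⁻¹ * (ENNReal.ofReal (3 * M₁) * ∫⁻ c, Hb c)
          ≤ (ENNReal.ofReal (ellk M₁ M₂ (j + 1)))⁻¹ * (ENNReal.ofReal (3 * M₁) *
            (volume K * ENNReal.ofReal (M₁ * ellk M₁ M₂ j * (2 * Real.pi * (13 * (5 / 6) ^ j) +
              1060 * lamk j / (13 * (5 / 6) ^ j)) / w0 ^ 2))) := by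
            gcongr
        _ = volume K * ((ENNReal.ofReal (ellk M₁ M₂ (j + 1)))⁻¹ *
              ENNReal.ofReal (3 * M₁ * (M₁ * ellk M₁ M₂ j * (2 * Real.pi * (13 * (5 / 6) ^ j) +
              1060 * lamk j / (13 * (5 / 6) ^ j)) / w0 ^ 2))) := by
            rw [hK0 _ _ (by positivity) _ hpos]
            ring
        _ = volume K * ENNReal.ofReal (3 * M₁ * (M₁ * ellk M₁ M₂ j *
              (2 * Real.pi * (13 * (5 / 6) ^ j) + 1060 * lamk j / (13 * (5 / 6) ^ j)) / w0 ^ 2) /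
              ellk M₁ M₂ (j + 1)) := by
            rw [hinv _ hek1 _ (by positivity)]
        _ ≤ volume K * ENNReal.ofReal (1465 * M₁ ^ 2 * (5 / 6) ^ j / w0 ^ 2) := by
            refine mul_le_mul_right (ENNReal.ofReal_le_ofReal ?_) _
            rw [div_le_iff₀ hek1, ellk_succ]
            have hl : lamk j = (5 / 6) ^ j * (5 / 6) ^ j := by
              unfold lamk
              rw [← mul_pow]
              norm_num
            have h5 : (0 : ℝ) < (5 / 6) ^ j := by positivity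
            have hq : 1060 * lamk j / (13 * (5 / 6) ^ j) = 1060 / 13 * (5 / 6) ^ j := by
              rw [hl]
              field_simp
            rw [hq]
            have h6 : 0 < M₁ ^ 2 * ellk M₁ M₂ j * (5 / 6) ^ j / w0 ^ 2 := by positivity
            have e1 : 3 * M₁ * (M₁ * ellk M₁ M₂ j * (2 * Real.pi * (13 * (5 / 6) ^ j) +
                1060 / 13 * (5 / 6) ^ j) / w0 ^ 2) =
                (78 * Real.pi + 3180 / 13) * (M₁ ^ 2 * ellk M₁ M₂ j * (5 / 6) ^ j / w0 ^ 2) := by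
              ring
            have e2 : 1465 * M₁ ^ 2 * (5 / 6) ^ j / w0 ^ 2 * ((25 / 36) ^ 3 * ellk M₁ M₂ j) =
                1465 * (25 / 36) ^ 3 * (M₁ ^ 2 * ellk M₁ M₂ j * (5 / 6) ^ j / w0 ^ 2) := by
              ring
            rw [e1, e2]
            nlinarith
    have B2 : ∫⁻ c, ENNReal.ofReal (4 * M₂ / lamk j ^ 2) * Hg c ≤
        volume K * ENNReal.ofReal (76 * M₁ ^ 2 * (25 / 36) ^ j / w0 ^ 2) := by
      rw [lintegral_const_mul _ hgm]
      calc ENNReal.ofReal (4 * M₂ / lamk j ^ 2) * ∫⁻ c, Hg c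
          ≤ ENNReal.ofReal (4 * M₂ / lamk j ^ 2) *
            (volume K * ENNReal.ofReal (2 * Real.pi * (3 * M₁ * ellk M₁ M₂ j) / w0 ^ 2)) := by
            gcongr
        _ = volume K * ENNReal.ofReal (4 * M₂ / lamk j ^ 2 *
              (2 * Real.pi * (3 * M₁ * ellk M₁ M₂ j) / w0 ^ 2)) := by
            rw [hK0 _ _ (by positivity) _ (by positivity)]
        _ ≤ volume K * ENNReal.ofReal (76 * M₁ ^ 2 * (25 / 36) ^ j / w0 ^ 2) := by
            refine mul_le_mul_right (ENNReal.ofReal_le_ofReal ?_) _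
            have e : 4 * M₂ / lamk j ^ 2 * (2 * Real.pi * (3 * M₁ * ellk M₁ M₂ j) / w0 ^ 2) =
                24 * Real.pi * M₁ * (M₂ * ellk M₁ M₂ j) / lamk j ^ 2 / w0 ^ 2 := by ring
            rw [e, hsp]
            gcongr
            rw [div_le_iff₀ (by positivity)]
            have hl : (25 / 36 : ℝ) ^ j = lamk j := rfl
            rw [hl]
            have : 0 < M₁ ^ 2 * lamk j ^ 3 := by positivity
            nlinarith
    refine (add_le_add B1 B2).trans ?_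
    rw [← mul_add, ← ENNReal.ofReal_add (by positivity) (by positivity)]
    refine mul_le_mul_right (ENNReal.ofReal_le_ofReal ?_) _
    rw [← add_div]
    gcongr
    have h1 : (25 / 36 : ℝ) ^ j ≤ (5 / 6) ^ j := pow_le_pow_left₀ (by norm_num) (by norm_num) j
    have h2 : 76 * M₁ ^ 2 * (25 / 36) ^ j ≤ 76 * M₁ ^ 2 * (5 / 6) ^ j := by gcongr
    linarith

/-- the mean number of the closed orbits with length in the class number `k`.
PROOF: a closed orbit `C ⊆ K` of `turn α (vfc ν)` with length `≤ ellk k` is contained in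
`nearS ν K (2 * ellk k)` by `small_orbit_geom` (SmallOrbit.lean, use `vfc_rotA`), because
`nm (p - z) ≤ ellk k < 2 ellk k`. Hence
`orbitSum (midW ..) (vfc ν) K α ≤ orbitSum (upW (ellk (k+1))) (vfc ν) (nearS ..) α` (see `ca_mid` in
CountTwo.lean), then `ca_upW_le_total` and `averaged_meas` on the open set `nearS ..`
(as in the first lines of `ca_long`, CountAll.lean). -/
theorem class_zero {ν : Pr D} {K : Set (ℝ × ℝ)} {M₁ M₂ : ℝ} (h : DBound ν K M₁ M₂)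
    (hK : Convex ℝ K) (hKo : IsOpen K) (hM1 : 0 < M₁) (hM2 : 0 < M₂) (k : ℕ) :
    ∫⁻ α in Set.Ioo 0 Real.pi, orbitSum (midW M₁ M₂ k) (vfc ν) K α ≤
      (ENNReal.ofReal (ellk M₁ M₂ (k + 1)))⁻¹ *
        ∫⁻ z in nearS ν K (2 * ellk M₁ M₂ k), ENNReal.ofReal (argGrad ν z) :=
  (lintegral_mono fun α => cl_mid h hK hM1 hM2 α k).trans
    (cl_long ν (isOpen_nearS ν hKo _) (ellk_pos hM1 hM2 (k + 1)))

/-- the mean number of the long closed orbits. PROOF: `ca_upW_le_total`, `averaged_meas`. -/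
theorem class_long (ν : Pr D) {K : Set (ℝ × ℝ)} (hKo : IsOpen K) {a : ℝ} (ha : 0 < a) :
    ∫⁻ α in Set.Ioo 0 Real.pi, orbitSum (upW a) (vfc ν) K α ≤
      (ENNReal.ofReal a)⁻¹ * ∫⁻ z in K, ENNReal.ofReal (argGrad ν z) :=
  cl_long ν hKo ha

/-- the very small closed orbits.
PROOF: this is the private theorem `cw_class_avg` of CountW.lean (copy it, or its proof), with
`K = disc z0 r`, `M₁ = m/r`, `M₂ = 5 m/r²`, `w0 = 1/2`, `ρ = 1` and `volume_disc_le`: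
`4 r² * 1541 (m/r)² (5/6)^k * 4 ≤ 25000 m² (5/6)^k`. -/
theorem class_tail {μ : Pr D} {wt : Co D} {z0 : ℝ × ℝ} {r m δ : ℝ} {N : ℕ}
    {P Q : MvPolynomial (Fin 2) ℝ} {f f1 f2 g g1 g2 : ℝ × ℝ → ℝ}
    (L : LocD μ wt z0 r m δ N P Q f f1 f2 g g1 g2) (k : ℕ) :
    ∃ H : ℝ × ℝ → ℝ≥0∞, Measurable H ∧
      (∀ t, nm t ≤ 1 → ∫⁻ α in Set.Ioo 0 Real.pi,
        orbitSum (midW (m / r) (5 * m / r ^ 2) k) (vfc (sw μ wt t)) (disc z0 r) α ≤ H t) ∧
      ∫⁻ t, H t ≤ ENNReal.ofReal (25000 * m ^ 2 * (5 / 6) ^ k) := by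
  have hr := L.hr
  have hm := L.hm
  have hm0 : 0 < m := by linarith
  obtain ⟨H, h1, h2, h3⟩ := cl_class_avg μ wt (K := disc z0 r) (M₁ := m / r)
    (M₂ := 5 * m / r ^ 2) (w0 := 1 / 2) (ρ := 1) L.bnd (convex_disc z0 r) (isOpen_disc z0 r)
    (by positivity) (by positivity) (by norm_num) L.wpos k
  refine ⟨H, h1, h2, h3.trans ?_⟩
  refine (mul_le_mul_left (volume_disc_le z0 hr.le) _).trans ?_
  rw [← ENNReal.ofReal_mul (by positivity)]
  apply ENNReal.ofReal_le_ofReal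
  have e : 4 * r ^ 2 * (1541 * (m / r) ^ 2 * (5 / 6) ^ k / (1 / 2) ^ 2) =
      24656 * (m ^ 2 * (5 / 6) ^ k) := by
    field_simp
    ring
  rw [e]
  have : 0 < m ^ 2 * (5 / 6 : ℝ) ^ k := by positivity
  nlinarith

end Pool.Agent.Lib.MP_95e7ec_an
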