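import Mathlib
import Pool.Agent.Lib.MP_95e7ec_an.Sm.Defs
import Pool.Agent.Lib.MP_95e7ec_an.CountTwo
import Pool.Agent.Lib.MP_95e7ec_an.WeightArr
import Pool.Agent.Lib.MP_95e7ec_an.Riesz

/-!
# Smoothed count: the part where the field is very small
-/

set_option autoImplicit false

open Set Filter Topology MeasureTheory
open scoped ContDiff ENNReal

namespace Pool.Agent.Lib.MP_95e7ec_an

variable {D : ℕ}

private theorem sml_nm_smul {w : ℝ} (hw : 0 ≤ w) (x : ℝ × ℝ) : nm (w • x) = w * nm x := by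
  unfold nm
  have e : (w • x).1 ^ 2 + (w • x).2 ^ 2 = w ^ 2 * (x.1 ^ 2 + x.2 ^ 2) := by
    simp only [Prod.smul_fst, Prod.smul_snd, smul_eq_mul]
    ring
  rw [e, Real.sqrt_mul (sq_nonneg w), Real.sqrt_sq hw]

/-- the integral over the shifts at one point -/
private theorem sml_point {w e c : ℝ} (hw : 1 / 2 ≤ w) (he : 0 < e) (hc : 0 ≤ c) (v : ℝ × ℝ) :
    ∫⁻ t : ℝ × ℝ, ({t : ℝ × ℝ | nm (w • (v + t)) < e * w}).indicator
      (fun t => ENNReal.ofReal c * (ENNReal.ofReal (nm (w • (v + t))))⁻¹) t ≤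
      ENNReal.ofReal (4 * Real.pi * e * c) := by
  have hw0 : 0 < w := by linarith
  have hE : MeasurableSet {u : ℝ × ℝ | nm u < e} :=
    measurableSet_lt continuous_nm.measurable measurable_const
  have h1 : ∀ t : ℝ × ℝ, ({t : ℝ × ℝ | nm (w • (v + t)) < e * w}).indicator
      (fun t => ENNReal.ofReal c * (ENNReal.ofReal (nm (w • (v + t))))⁻¹) t ≤
      ENNReal.ofReal (2 * c) * ({u : ℝ × ℝ | nm u < e}).indicator
        (fun u => (ENNReal.ofReal (nm u))⁻¹) (v + t) := by
    intro t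
    by_cases ht : nm (v + t) < e
    · rw [Set.indicator_of_mem (show t ∈ {t : ℝ × ℝ | nm (w • (v + t)) < e * w} by
          rw [Set.mem_ofPred_eq, sml_nm_smul hw0.le, mul_comm e w]
          exact mul_lt_mul_of_pos_left ht hw0),
        Set.indicator_of_mem (show v + t ∈ {u : ℝ × ℝ | nm u < e} from ht)]
      rw [sml_nm_smul hw0.le, ENNReal.ofReal_mul hw0.le, ENNReal.mul_inv
        (Or.inl (ENNReal.ofReal_pos.mpr hw0).ne') (Or.inl ENNReal.ofReal_ne_top), ← mul_assoc]
      refine mul_le_mul_left ?_ _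
      rw [← ENNReal.ofReal_inv_of_pos hw0, ← ENNReal.ofReal_mul hc]
      apply ENNReal.ofReal_le_ofReal
      have h2 : w⁻¹ ≤ 2 := by
        rw [inv_le_comm₀ hw0 (by norm_num)]
        linarith
      have := mul_le_mul_of_nonneg_left h2 hc
      linarith
    · rw [Set.indicator_of_notMem (show t ∉ {t : ℝ × ℝ | nm (w • (v + t)) < e * w} by
          rw [Set.mem_ofPred_eq, sml_nm_smul hw0.le, mul_comm e w]
          intro h
          exact ht (lt_of_mul_lt_mul_left h hw0.le))]
      exact zero_le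
  refine (lintegral_mono h1).trans ?_
  have hmeas : Measurable fun u : ℝ × ℝ => ({u : ℝ × ℝ | nm u < e}).indicator
        (fun u => (ENNReal.ofReal (nm u))⁻¹) u :=
    ((ENNReal.measurable_ofReal.comp continuous_nm.measurable).inv).indicator hE
  have hmeas2 : Measurable fun t : ℝ × ℝ => ({u : ℝ × ℝ | nm u < e}).indicator
        (fun u => (ENNReal.ofReal (nm u))⁻¹) (v + t) := hmeas.comp (measurable_const_add v)
  rw [lintegral_const_mul _ hmeas2,
    lintegral_add_left_eq_self (fun u => ({u : ℝ × ℝ | nm u < e}).indicator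
        (fun u => (ENNReal.ofReal (nm u))⁻¹) u) v, lintegral_indicator hE]
  refine (mul_le_mul_right (lintegral_inv_nm_ball he.le) _).trans ?_
  rw [← ENNReal.ofReal_mul (by positivity)]
  apply ENNReal.ofReal_le_ofReal
  apply le_of_eq
  ring

/-- the mean over the shifts of the integral of `argGrad` over the points where the field is small.
PROOF. On `disc z0 r`, `vfc (sw μ wt t) z = w • (v + t)` with `w = pe wt z.1 z.2 ≥ 1/2`,
`v = (f z, g z)` (`vfc_sw`, `L.val1`, `L.val2`). By `ca_argGrad_le` (CountAll.lean) and `L.bnd`,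
`argGrad ≤ 3 (m/r) / nm (vfc (sw μ wt t) z) ≤ 6 (m/r) / nm (v + t)`. Put
`S t = ∫⁻ z in disc z0 r, 1[nm (vfc (sw μ wt t) z) < e * w] * ofReal (3 * (m/r)) *
(ofReal (nm (vfc (sw μ wt t) z)))⁻¹` (jointly measurable: polynomials) and integrate first over `t`:
`∫ 1/nm (v + t)` over `nm (v + t) < e` is at most `2 π e` (`lintegral_inv_nm_le`, Riesz.lean, with
`a = e`, or `lintegral_inv_nm_ball`; compare `kg_mean` in KosGrad.lean). Total
`4 r² * 6 (m/r) * (2 π e) ≤ 200 m r e` (`volume_disc_le`). -/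
theorem small_part {μ : Pr D} {wt : Co D} {z0 : ℝ × ℝ} {r m δ : ℝ} {N : ℕ}
    {P Q : MvPolynomial (Fin 2) ℝ} {f f1 f2 g g1 g2 : ℝ × ℝ → ℝ}
    (L : LocD μ wt z0 r m δ N P Q f f1 f2 g g1 g2) {e : ℝ} (he : 0 < e) :
    ∃ S : ℝ × ℝ → ℝ≥0∞, Measurable S ∧
      (∀ t, nm t ≤ 1 → ∫⁻ z in smallS μ wt (disc z0 r) e t,
        ENNReal.ofReal (argGrad (sw μ wt t) z) ≤ S t) ∧
      ∫⁻ t, S t ≤ ENNReal.ofReal (200 * m * r * e) := by
  have hr := L.hr
  have hm : 0 < m := lt_of_lt_of_le one_pos L.hm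
  have hmr : 0 ≤ m / r := by positivity
  have hKm : MeasurableSet (disc z0 r) := (isOpen_disc z0 r).measurableSet
  have hcV : Continuous fun q : (ℝ × ℝ) × (ℝ × ℝ) => nm (vfc (sw μ wt q.1) q.2) := by
    have h1 : (fun q : (ℝ × ℝ) × (ℝ × ℝ) => nm (vfc (sw μ wt q.1) q.2)) =
        fun q => nm (vfc μ q.2 + pe wt q.2.1 q.2.2 • q.1) := by
      funext q
      rw [vfc_sw]
    rw [h1]
    exact continuous_nm.comp (((continuous_vfc_AS μ).comp continuous_snd).add
      (((avb_continuous_pe wt).comp continuous_snd).smul continuous_fst))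
  have hcw : Continuous fun q : (ℝ × ℝ) × (ℝ × ℝ) => e * pe wt q.2.1 q.2.2 :=
    continuous_const.mul ((avb_continuous_pe wt).comp continuous_snd)
  obtain ⟨F, hF⟩ : ∃ F : (ℝ × ℝ) × (ℝ × ℝ) → ℝ≥0∞, F =
      ({q : (ℝ × ℝ) × (ℝ × ℝ) | nm (vfc (sw μ wt q.1) q.2) < e * pe wt q.2.1 q.2.2}).indicator
        (fun q => ENNReal.ofReal (3 * (m / r)) * (ENNReal.ofReal (nm (vfc (sw μ wt q.1) q.2)))⁻¹) :=
    ⟨_, rfl⟩
  have hFm : Measurable F := by
    rw [hF]
    exact (((ENNReal.measurable_ofReal.comp hcV.measurable).inv).const_mul _).indicator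
      (measurableSet_lt hcV.measurable hcw.measurable)
  refine ⟨fun t => ∫⁻ z in disc z0 r, F (t, z), hFm.lintegral_prod_right', ?_, ?_⟩
  · intro t ht
    have hA : MeasurableSet {z : ℝ × ℝ | nm (vfc (sw μ wt t) z) < e * pe wt z.1 z.2} :=
      measurableSet_lt (continuous_nm.comp (continuous_vfc_AS (sw μ wt t))).measurable
        (continuous_const.mul (avb_continuous_pe wt)).measurable
    have e1 : ∫⁻ z in disc z0 r, F (t, z) =
        ∫⁻ z in smallS μ wt (disc z0 r) e t, ENNReal.ofReal (3 * (m / r)) *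
          (ENNReal.ofReal (nm (vfc (sw μ wt t) z)))⁻¹ := by
      have e2 : ∀ z, F (t, z) =
          ({z : ℝ × ℝ | nm (vfc (sw μ wt t) z) < e * pe wt z.1 z.2}).indicator
          (fun z => ENNReal.ofReal (3 * (m / r)) *
            (ENNReal.ofReal (nm (vfc (sw μ wt t) z)))⁻¹) z := by
        intro z
        rw [hF]
        rfl
      rw [lintegral_congr e2, lintegral_indicator hA, Measure.restrict_restrict hA]
      congr 2
      ext z
      simp only [smallS, Set.mem_inter_iff, Set.mem_ofPred_eq]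
      exact and_comm
    show _ ≤ ∫⁻ z in disc z0 r, F (t, z)
    rw [e1]
    refine setLIntegral_mono' ?_ fun z hz => ca_argGrad_le (L.bnd t ht) hmr hz.1
    exact hKm.inter hA
  · show ∫⁻ t, ∫⁻ z in disc z0 r, F (t, z) ≤ _
    have hsw : ∫⁻ t, ∫⁻ z in disc z0 r, F (t, z) = ∫⁻ z in disc z0 r, ∫⁻ t, F (t, z) :=
      lintegral_lintegral_swap (f := fun t z => F (t, z)) hFm.aemeasurable
    rw [hsw]
    have h1 : ∀ z ∈ disc z0 r, ∫⁻ t, F (t, z) ≤ ENNReal.ofReal (4 * Real.pi * e * (3 * (m / r))) := by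
      intro z hz
      have hw := L.wpos z hz
      have e2 : ∀ t : ℝ × ℝ, vfc (sw μ wt t) z = pe wt z.1 z.2 • ((f z, g z) + t) := by
        intro t
        rw [vfc_sw, smul_add]
        congr 1
        ext
        · show pe μ.1 z.1 z.2 = pe wt z.1 z.2 * f z
          exact L.val1 z hz
        · show pe μ.2 z.1 z.2 = pe wt z.1 z.2 * g z
          exact L.val2 z hz
      have e3 : ∀ t : ℝ × ℝ, F (t, z) =
          ({t : ℝ × ℝ | nm (pe wt z.1 z.2 • ((f z, g z) + t)) < e * pe wt z.1 z.2}).indicator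
          (fun t => ENNReal.ofReal (3 * (m / r)) *
            (ENNReal.ofReal (nm (pe wt z.1 z.2 • ((f z, g z) + t))))⁻¹) t := by
        intro t
        rw [hF]
        simp only [Set.indicator, Set.mem_ofPred_eq, e2]
      rw [lintegral_congr e3]
      exact sml_point hw he (by positivity) (f z, g z)
    refine (setLIntegral_mono' hKm h1).trans ?_
    rw [setLIntegral_const]
    refine (mul_le_mul_right (volume_disc_le z0 hr.le) _).trans ?_
    rw [← ENNReal.ofReal_mul (by positivity)]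
    apply ENNReal.ofReal_le_ofReal
    have e4 : 4 * Real.pi * e * (3 * (m / r)) * (4 * r ^ 2) = 48 * Real.pi * (m * r * e) := by
      field_simp
      ring
    rw [e4]
    have hpi := Real.pi_lt_d2
    have h5 : 0 < m * r * e := by positivity
    nlinarith

end Pool.Agent.Lib.MP_95e7ec_an
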