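import Mathlib
import Pool.Agent.Lib.MP_95e7ec_an.Sm.AreaOn
import Pool.Agent.Lib.MP_95e7ec_an.Sm.AreaLow
import Pool.Agent.Lib.MP_95e7ec_an.CountTwo
import Pool.Agent.Lib.MP_95e7ec_an.WeightArr

/-!
# Smoothed count: the mean number of zeros in a cell
-/

set_option autoImplicit false

open Set Filter Topology MeasureTheory
open scoped ContDiff ENNReal

namespace Pool.Agent.Lib.MP_95e7ec_an

variable {D : ℕ}

private theorem zm_contDiff_pe (c : Co D) : ContDiff ℝ 1 (fun z : ℝ × ℝ => pe c z.1 z.2) := by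
  unfold pe
  simp only [smul_eq_mul]
  fun_prop

/-- the determinant of a map with given partial derivatives -/
private theorem zm_det {F : ℝ × ℝ → ℝ × ℝ} {L : (ℝ × ℝ) →L[ℝ] (ℝ × ℝ)} {z : ℝ × ℝ}
    (hF : HasFDerivAt F L z) {a1 a2 b1 b2 : ℝ}
    (h1 : HasDerivAt (fun x => F (x, z.2)) (a1, b1) z.1)
    (h2 : HasDerivAt (fun y => F (z.1, y)) (a2, b2) z.2) : L.det = a1 * b2 - a2 * b1 := by
  have e1 : L (1, 0) = (a1, b1) := by
    have h3 : HasDerivAt (fun x : ℝ => (x, z.2)) ((1 : ℝ), (0 : ℝ)) z.1 :=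
      (hasDerivAt_id z.1).prodMk (hasDerivAt_const z.1 z.2)
    have h4 : HasFDerivAt F L ((fun x : ℝ => (x, z.2)) z.1) := hF
    exact (h4.comp_hasDerivAt z.1 h3).unique h1
  have e2 : L (0, 1) = (a2, b2) := by
    have h3 : HasDerivAt (fun y : ℝ => (z.1, y)) ((0 : ℝ), (1 : ℝ)) z.2 :=
      (hasDerivAt_const z.2 z.1).prodMk (hasDerivAt_id z.2)
    have h4 : HasFDerivAt F L ((fun y : ℝ => (z.1, y)) z.2) := hF
    exact (h4.comp_hasDerivAt z.2 h3).unique h2
  rw [ContinuousLinearMap.det, ← LinearMap.det_toMatrix (Module.Basis.finTwoProd ℝ),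
    Matrix.det_fin_two]
  simp only [LinearMap.toMatrix_apply, Module.Basis.finTwoProd_zero, Module.Basis.finTwoProd_one,
    ContinuousLinearMap.coe_coe, e1, e2, Module.Basis.coe_finTwoProd_repr,
    Matrix.cons_val_zero, Matrix.cons_val_one]

/-- the comparison of the determinants -/
private theorem zm_alg {a1 a2 b1 b2 p1 p2 q1 q2 r m δ : ℝ} (hr : 0 < r) (hm : 1 ≤ m)
    (hδ : 0 < δ) (hδ1 : 100 * m * δ ≤ 1)
    (ha1 : |a1| ≤ m / r) (ha2 : |a2| ≤ m / r) (hb1 : |b1| ≤ m / r) (hb2 : |b2| ≤ m / r)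
    (e1 : |a1 - p1| ≤ δ / r) (e2 : |a2 - p2| ≤ δ / r) (e3 : |b1 - q1| ≤ δ / r)
    (e4 : |b2 - q2| ≤ δ / r) :
    |a1 * b2 - a2 * b1| ≤ |p1 * q2 - p2 * q1| + 8 * m * δ / r ^ 2 := by
  have hmr : 0 ≤ m / r := by positivity
  have hdr : 0 ≤ δ / r := by positivity
  have hdm : δ / r ≤ m / r := by
    apply div_le_div_of_nonneg_right _ hr.le
    nlinarith
  have hp1 : |p1| ≤ 2 * (m / r) := by
    have : p1 = a1 - (a1 - p1) := by ring
    rw [this]
    refine (abs_sub _ _).trans ?_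
    linarith
  have hp2 : |p2| ≤ 2 * (m / r) := by
    have : p2 = a2 - (a2 - p2) := by ring
    rw [this]
    refine (abs_sub _ _).trans ?_
    linarith
  have key : a1 * b2 - a2 * b1 = (p1 * q2 - p2 * q1) +
      ((a1 - p1) * b2 + p1 * (b2 - q2) - (a2 - p2) * b1 - p2 * (b1 - q1)) := by ring
  have t1 : |(a1 - p1) * b2| ≤ δ / r * (m / r) := by
    rw [abs_mul]
    exact mul_le_mul e1 hb2 (abs_nonneg _) hdr
  have t2 : |p1 * (b2 - q2)| ≤ 2 * (m / r) * (δ / r) := by
    rw [abs_mul]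
    exact mul_le_mul hp1 e4 (abs_nonneg _) (by linarith)
  have t3 : |(a2 - p2) * b1| ≤ δ / r * (m / r) := by
    rw [abs_mul]
    exact mul_le_mul e2 hb1 (abs_nonneg _) hdr
  have t4 : |p2 * (b1 - q1)| ≤ 2 * (m / r) * (δ / r) := by
    rw [abs_mul]
    exact mul_le_mul hp2 e3 (abs_nonneg _) (by linarith)
  rw [key]
  refine (abs_add_le _ _).trans ?_
  have t5 : |(a1 - p1) * b2 + p1 * (b2 - q2) - (a2 - p2) * b1 - p2 * (b1 - q1)| ≤
      6 * (m / r * (δ / r)) := by
    rw [abs_le] at t1 t2 t3 t4 ⊢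
    constructor
    · nlinarith [t1.1, t2.1, t3.2, t4.2]
    · nlinarith [t1.2, t2.2, t3.1, t4.1]
  have t6 : m / r * (δ / r) = m * δ / r ^ 2 := by
    field_simp
  have t7 : 0 ≤ m * δ / r ^ 2 := by positivity
  have t8 : 8 * m * δ / r ^ 2 = 8 * (m * δ / r ^ 2) := by ring
  rw [t6] at t5
  rw [t8]
  linarith

/-- the mean over the shifts of the number of zeros is at most `17 N²`.
PROOF. `K = disc z0 r`, `F z = (pe μ.1 / pe wt, pe μ.2 / pe wt) = (f z, g z)` on `K`, smooth on `K`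
(`ContDiffOn`), and by uniqueness of the partial derivatives its determinant is
`f1 z * g2 z - f2 z * g1 z`. `vfc (sw μ wt t) p = pe wt • (F p + t)`, so `zerS` is
`{p ∈ K | F p = -t}`. With `E = {z ∈ K | nm (F z) ≤ 1}` and `area_on`: `Z t = G (-t)`, and
`∫⁻ t, Z t ≤ ∫⁻ z in E, |f1 g2 - f2 g1|`. On `K`: `|f1 g2 - f2 g1 - dt2 (arr N P, arr N Q)| ≤
8 m δ / r²` (bounds `m/r`, errors `δ/r`, `δ ≤ 1/100`), and on `E`: `nm (vf P Q z) ≤ 2`. So the
integral is at most `∫⁻ z in {z | nm (vf P Q z) ≤ 2}, |dt2| + 4 r² * 8 m δ/r² ≤ N² * 16 + 1`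
(`area_low`, `volume_nm_le`, `volume_disc_le`, `L.hδ1`). -/
theorem zero_mean {μ : Pr D} {wt : Co D} {z0 : ℝ × ℝ} {r m δ : ℝ} {N : ℕ}
    {P Q : MvPolynomial (Fin 2) ℝ} {f f1 f2 g g1 g2 : ℝ × ℝ → ℝ}
    (L : LocD μ wt z0 r m δ N P Q f f1 f2 g g1 g2) :
    ∃ Z : ℝ × ℝ → ℝ≥0∞, Measurable Z ∧
      (∀ t, nm t ≤ 1 → (((zerS μ wt (disc z0 r) t).encard : ℕ∞) : ℝ≥0∞) ≤ Z t) ∧
      ∫⁻ t, Z t ≤ ENNReal.ofReal (17 * N ^ 2) := by
  set K : Set (ℝ × ℝ) := disc z0 r with hK
  have hKo : IsOpen K := isOpen_disc z0 r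
  set F : ℝ × ℝ → ℝ × ℝ := fun z =>
    (pe μ.1 z.1 z.2 / pe wt z.1 z.2, pe μ.2 z.1 z.2 / pe wt z.1 z.2) with hFd
  have hw0 : ∀ z ∈ K, pe wt z.1 z.2 ≠ 0 := by
    intro z hz
    have h1 := L.wpos z hz
    have h2 : 0 < pe wt z.1 z.2 := by linarith
    exact h2.ne'
  have hFK : ∀ z ∈ K, F z = (f z, g z) := by
    intro z hz
    have h1 := L.val1 z hz
    have h2 := L.val2 z hz
    have h3 := hw0 z hz
    simp only [hFd, h1, h2]
    rw [mul_div_cancel_left₀ _ h3, mul_div_cancel_left₀ _ h3]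
  have hFC : ContDiffOn ℝ 1 F K :=
    ((zm_contDiff_pe μ.1).contDiffOn.div (zm_contDiff_pe wt).contDiffOn hw0).prodMk
      ((zm_contDiff_pe μ.2).contDiffOn.div (zm_contDiff_pe wt).contDiffOn hw0)
  have hFm : Measurable F :=
    ((avb_continuous_pe μ.1).measurable.div (avb_continuous_pe wt).measurable).prodMk
      ((avb_continuous_pe μ.2).measurable.div (avb_continuous_pe wt).measurable)
  have hdet : ∀ z ∈ K, (fderiv ℝ F z).det = f1 z * g2 z - f2 z * g1 z := by
    intro z hz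
    have hd : HasFDerivAt F (fderiv ℝ F z) z :=
      ((hFC.contDiffAt (hKo.mem_nhds hz)).differentiableAt one_ne_zero).hasFDerivAt
    have c1 : ContinuousAt (fun x : ℝ => (x, z.2)) z.1 := by fun_prop
    have c2 : ContinuousAt (fun y : ℝ => (z.1, y)) z.2 := by fun_prop
    refine zm_det hd ?_ ?_
    · refine ((L.df1 z hz).prodMk (L.dg1 z hz)).congr_of_eventuallyEq ?_
      filter_upwards [c1.preimage_mem_nhds (hKo.mem_nhds (show (z.1, z.2) ∈ K from hz))] with x hx
      exact hFK _ hx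
    · refine ((L.df2 z hz).prodMk (L.dg2 z hz)).congr_of_eventuallyEq ?_
      filter_upwards [c2.preimage_mem_nhds (hKo.mem_nhds (show (z.1, z.2) ∈ K from hz))] with x hx
      exact hFK _ hx
  set E : Set (ℝ × ℝ) := {z | z ∈ K ∧ nm (F z) ≤ 1} with hE
  have hEm : MeasurableSet E :=
    hKo.measurableSet.inter (measurableSet_le (continuous_nm.measurable.comp hFm) measurable_const)
  have hEK : E ⊆ K := fun z hz => hz.1
  obtain ⟨G, hGm, hG1, hG2⟩ := area_on hKo hFC hEm hEK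
  refine ⟨fun t => G (-t), hGm.comp measurable_neg, ?_, ?_⟩
  · intro t ht
    refine le_trans ?_ (hG1 (-t))
    have hsub : zerS μ wt K t ⊆ {z | z ∈ E ∧ F z = -t} := by
      rintro p ⟨hp, hp0⟩
      have h3 := hw0 p hp
      rw [vfc_sw] at hp0
      have h1 := congrArg Prod.fst hp0
      have h2 := congrArg Prod.snd hp0
      simp only [vfc, Prod.fst_add, Prod.smul_fst, smul_eq_mul, Prod.snd_add, Prod.smul_snd,
        Prod.fst_zero, Prod.snd_zero] at h1 h2
      have hF : F p = -t := by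
        ext
        · simp only [hFd, Prod.fst_neg]
          rw [div_eq_iff h3]
          linarith
        · simp only [hFd, Prod.snd_neg]
          rw [div_eq_iff h3]
          linarith
      refine ⟨⟨hp, ?_⟩, hF⟩
      rw [hF]
      have : nm (-t) = nm t := by simp [nm]
      rw [this]
      exact ht
    have henc := Set.encard_le_encard hsub
    exact_mod_cast henc
  · have hneg : ∫⁻ t, G (-t) = ∫⁻ t, G t := lintegral_neg_eq_self G
    rw [hneg]
    refine hG2.trans ?_
    have hb0 : (0 : ℝ) ≤ 8 * m * δ / r ^ 2 := by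
      have := L.hr
      have := L.hm
      have := L.hδ
      positivity
    have hS : MeasurableSet {c : ℝ × ℝ | nm c ≤ 2} :=
      measurableSet_le continuous_nm.measurable measurable_const
    have hvf : ∀ z, vf P Q z = (pe (arr N P) z.1 z.2, pe (arr N Q) z.1 z.2) := by
      intro z
      unfold vf
      rw [eval_eq_pe P L.dP, eval_eq_pe Q L.dQ]
    have hE2 : E ⊆ {z | vf P Q z ∈ {c : ℝ × ℝ | nm c ≤ 2}} := by
      rintro z ⟨hz, hz1⟩
      change nm (vf P Q z) ≤ 2
      rw [hFK z hz] at hz1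
      rw [hvf z]
      have hd1 : δ ≤ 1 / 100 := by
        have h1 := L.hδ1
        have h2 := L.hm
        have h3 := L.hδ
        nlinarith
      have a1 := L.af z hz
      have a2 := L.ag z hz
      rw [abs_le] at a1 a2
      unfold nm at hz1 ⊢
      rw [Real.sqrt_le_left zero_le_one] at hz1
      rw [Real.sqrt_le_left (by norm_num)]
      simp only at hz1 ⊢
      have b1 : |f z| ≤ 1 := abs_le_of_sq_le_sq (by nlinarith [sq_nonneg (g z)]) zero_le_one
      have b2 : |g z| ≤ 1 := abs_le_of_sq_le_sq (by nlinarith [sq_nonneg (f z)]) zero_le_one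
      rw [abs_le] at b1 b2
      have c1 : |pe (arr N P) z.1 z.2| ≤ 101 / 100 := by
        rw [abs_le]
        constructor <;> linarith [a1.1, a1.2, b1.1, b1.2]
      have c2 : |pe (arr N Q) z.1 z.2| ≤ 101 / 100 := by
        rw [abs_le]
        constructor <;> linarith [a2.1, a2.2, b2.1, b2.2]
      have d1 : pe (arr N P) z.1 z.2 ^ 2 ≤ (101 / 100) ^ 2 := by
        rw [← sq_abs]
        exact pow_le_pow_left₀ (abs_nonneg _) c1 2
      have d2 : pe (arr N Q) z.1 z.2 ^ 2 ≤ (101 / 100) ^ 2 := by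
        rw [← sq_abs]
        exact pow_le_pow_left₀ (abs_nonneg _) c2 2
      nlinarith
    have hlow := area_low P Q L.dP L.dQ hS
    have hvolE : volume E ≤ ENNReal.ofReal (4 * r ^ 2) :=
      (measure_mono hEK).trans (volume_disc_le z0 L.hr.le)
    calc ∫⁻ z in E, ENNReal.ofReal |(fderiv ℝ F z).det|
        ≤ ∫⁻ z in E, (ENNReal.ofReal |dt2 (arr N P, arr N Q) z| +
            ENNReal.ofReal (8 * m * δ / r ^ 2)) := by
          refine setLIntegral_mono' hEm fun z hz => ?_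
          rw [← ENNReal.ofReal_add (abs_nonneg _) hb0]
          apply ENNReal.ofReal_le_ofReal
          have hzK := hEK hz
          rw [hdet z hzK]
          exact zm_alg L.hr L.hm L.hδ L.hδ1 (L.bf1 z hzK) (L.bf2 z hzK) (L.bg1 z hzK)
            (L.bg2 z hzK) (L.af1 z hzK) (L.af2 z hzK) (L.ag1 z hzK) (L.ag2 z hzK)
      _ = (∫⁻ z in E, ENNReal.ofReal |dt2 (arr N P, arr N Q) z|) +
            ENNReal.ofReal (8 * m * δ / r ^ 2) * volume E := by
          rw [lintegral_add_right _ measurable_const, setLIntegral_const]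
      _ ≤ ENNReal.ofReal (N ^ 2) * ENNReal.ofReal (4 * 2 ^ 2) +
            ENNReal.ofReal (8 * m * δ / r ^ 2) * ENNReal.ofReal (4 * r ^ 2) := by
          refine add_le_add ?_ ?_
          · refine (lintegral_mono_set hE2).trans (hlow.trans ?_)
            gcongr
            exact volume_nm_le (by norm_num)
          · gcongr
      _ ≤ ENNReal.ofReal (17 * N ^ 2) := by
          rw [← ENNReal.ofReal_mul (by positivity), ← ENNReal.ofReal_mul hb0,
            ← ENNReal.ofReal_add (by positivity) (by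
              have := L.hr
              positivity)]
          apply ENNReal.ofReal_le_ofReal
          have h1 : 8 * m * δ / r ^ 2 * (4 * r ^ 2) = 32 * (m * δ) := by
            have := L.hr.ne'
            field_simp
            ring
          have h2 : m * δ ≤ 1 / 100 := by
            have := L.hδ1
            linarith
          have h3 : (1 : ℝ) ≤ N := by exact_mod_cast L.hN
          rw [h1]
          nlinarith

end Pool.Agent.Lib.MP_95e7ec_an
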