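import Mathlib
import Pool.Agent.Lib.MP_95e7ec_an.Sm.Class
import Pool.Agent.Lib.MP_95e7ec_an.Sm.Small
import Pool.Agent.Lib.MP_95e7ec_an.Sm.ArgCmp
import Pool.Agent.Lib.MP_95e7ec_an.Sm.ZeroMean

/-!
# Smoothed count: one class of lengths, and the long orbits
-/

set_option autoImplicit false

open Set Filter Topology MeasureTheory
open scoped ContDiff ENNReal

namespace Pool.Agent.Lib.MP_95e7ec_an

variable {D : ℕ}

private theorem c1_disc {μ : Pr D} {wt : Co D} {z0 : ℝ × ℝ} {r m δ : ℝ} {N : ℕ}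
    {P Q : MvPolynomial (Fin 2) ℝ} {f f1 f2 g g1 g2 : ℝ × ℝ → ℝ}
    (L : LocD μ wt z0 r m δ N P Q f f1 f2 g g1 g2) {e ρ : ℝ} (he : 0 < e) (he1 : e ≤ 1)
    (hδe : 100 * m * δ ≤ e ^ 2) (hρ : 0 < ρ) (hρr : ρ ≤ r) (t p : ℝ × ℝ) {A : Set (ℝ × ℝ)}
    (hA : A ⊆ disc p ρ) (hA' : A ⊆ disc z0 r)
    (hbig : ∀ z ∈ A, e * pe wt z.1 z.2 ≤ nm (vfc (sw μ wt t) z)) :
    ∫⁻ z in A, ENNReal.ofReal (argGrad (sw μ wt t) z) ≤ ENNReal.ofReal (17 * N * ρ) := by
  have hr := L.hr
  have hN : (1 : ℝ) ≤ N := by exact_mod_cast L.hN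
  have hm1 : Measurable fun z => ENNReal.ofReal (argGrad (shf (arr N P, arr N Q) t) z) :=
    (measurable_argGrad _).ennreal_ofReal
  calc ∫⁻ z in A, ENNReal.ofReal (argGrad (sw μ wt t) z)
      ≤ ∫⁻ z in A, (ENNReal.ofReal (argGrad (shf (arr N P, arr N Q) t) z) +
          ENNReal.ofReal (1 / r)) := by
        refine setLIntegral_mono (hm1.add measurable_const) fun z hz => ?_
        rw [← ENNReal.ofReal_add (argGrad_nonneg _ z) (by positivity)]
        exact ENNReal.ofReal_le_ofReal (arg_cmp L he he1 hδe t (hA' hz) (hbig z hz))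
    _ ≤ ∫⁻ z in disc p ρ, (ENNReal.ofReal (argGrad (shf (arr N P, arr N Q) t) z) +
          ENNReal.ofReal (1 / r)) := lintegral_mono_set hA
    _ = (∫⁻ z in disc p ρ, ENNReal.ofReal (argGrad (shf (arr N P, arr N Q) t) z)) +
          ENNReal.ofReal (1 / r) * volume (disc p ρ) := by
        rw [lintegral_add_left hm1, setLIntegral_const]
    _ ≤ ENNReal.ofReal (4 * Real.pi * N * ρ) +
          ENNReal.ofReal (1 / r) * ENNReal.ofReal (4 * ρ ^ 2) := by
        refine add_le_add (lintegral_square _ hρ.le (disc_subset_square p hρ.le)) ?_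
        exact mul_le_mul_right (volume_disc_le p hρ.le) _
    _ = ENNReal.ofReal (4 * Real.pi * N * ρ + 1 / r * (4 * ρ ^ 2)) := by
        have := Real.pi_pos
        rw [← ENNReal.ofReal_mul (by positivity), ENNReal.ofReal_add (by positivity)
          (by positivity)]
    _ ≤ ENNReal.ofReal (17 * N * ρ) := by
        apply ENNReal.ofReal_le_ofReal
        have h1 : 1 / r * (4 * ρ ^ 2) ≤ 4 * ρ := by
          rw [one_div, inv_mul_le_iff₀ hr]
          nlinarith
        have h2 := Real.pi_lt_d2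
        have h3 : 4 * Real.pi * N * ρ ≤ 12.6 * N * ρ := by
          have : (0 : ℝ) ≤ N * ρ := by positivity
          nlinarith
        have h4 : ρ ≤ N * ρ := by nlinarith
        nlinarith

/-- the integral of `argGrad` over the neighbourhood of the zeros, for one shift.
PROOF: `nearS ⊆ smallS ∪ ⋃ p ∈ zerS, disc p e2 ∩ {not small}`. If `zerS` is infinite the right side
is `⊤` (if `0 < e2`). Otherwise sum over the zeros (`lintegral_biUnion_finset_le` or induction):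
on `disc p e2`, outside of `smallS`, `argGrad (sw μ wt t) z ≤ argGrad (shf ..) z + 1/r` (`arg_cmp`),
`∫⁻ z in disc p e2, argGrad (shf ..) ≤ 4 π N e2` (`lintegral_square` with `disc_subset_square`) and
`∫⁻ z in disc p e2, 1/r ≤ 4 e2²/r ≤ 4 e2` if `e2 ≤ r`. -/
theorem near_shift {μ : Pr D} {wt : Co D} {z0 : ℝ × ℝ} {r m δ : ℝ} {N : ℕ}
    {P Q : MvPolynomial (Fin 2) ℝ} {f f1 f2 g g1 g2 : ℝ × ℝ → ℝ}
    (L : LocD μ wt z0 r m δ N P Q f f1 f2 g g1 g2) {e e2 : ℝ} (he : 0 < e) (he1 : e ≤ 1)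
    (hδe : 100 * m * δ ≤ e ^ 2) (he2 : 0 < e2) (he2r : e2 ≤ r) (t : ℝ × ℝ) :
    ∫⁻ z in nearS (sw μ wt t) (disc z0 r) e2, ENNReal.ofReal (argGrad (sw μ wt t) z) ≤
      (∫⁻ z in smallS μ wt (disc z0 r) e t, ENNReal.ofReal (argGrad (sw μ wt t) z)) +
        (((zerS μ wt (disc z0 r) t).encard : ℕ∞) : ℝ≥0∞) * ENNReal.ofReal (17 * N * e2) := by
  have hN : (1 : ℝ) ≤ N := by exact_mod_cast L.hN
  rcases (zerS μ wt (disc z0 r) t).finite_or_infinite with hfin | hinf
  · have hc : Countable (zerS μ wt (disc z0 r) t) := hfin.countable.to_subtype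
    have hsub : nearS (sw μ wt t) (disc z0 r) e2 ⊆ smallS μ wt (disc z0 r) e t ∪
        ⋃ p : zerS μ wt (disc z0 r) t, {z | z ∈ disc (p : ℝ × ℝ) e2 ∧ z ∈ disc z0 r ∧
          e * pe wt z.1 z.2 ≤ nm (vfc (sw μ wt t) z)} := by
      rintro z ⟨hz, p, hp, hpz, hp0⟩
      by_cases hb : nm (vfc (sw μ wt t) z) < e * pe wt z.1 z.2
      · exact Or.inl ⟨hz, hb⟩
      · right
        rw [mem_iUnion]
        refine ⟨⟨p, hp, hp0⟩, ?_, hz, not_lt.1 hb⟩
        show (z.1 - p.1) ^ 2 + (z.2 - p.2) ^ 2 < e2 ^ 2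
        have h1 : (p.1 - z.1) ^ 2 + (p.2 - z.2) ^ 2 < e2 ^ 2 := (Real.sqrt_lt' he2).1 hpz
        nlinarith
    refine (lintegral_mono_set hsub).trans ((lintegral_union_le _ _ _).trans
      (add_le_add_right ?_ _))
    refine (lintegral_iUnion_le _ _).trans ?_
    rw [← ENNReal.tsum_set_const]
    refine ENNReal.tsum_le_tsum fun p => ?_
    exact c1_disc L he he1 hδe he2 he2r t p (fun z hz => hz.1) (fun z hz => hz.2.1)
      fun z hz => hz.2.2
  · rw [hinf.encard_eq]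
    have h1 : ENNReal.ofReal (17 * N * e2) ≠ 0 := by
      rw [Ne, ENNReal.ofReal_eq_zero, not_le]
      positivity
    rw [ENat.toENNReal_top, ENNReal.top_mul h1, add_top]
    exact le_top

/-- one class of lengths.
PROOF: `class_zero` with `M₁ = m/r`, `M₂ = 5m/r²`: `ellk k = (25/36)^(3k) r/5`; `near_shift` with
`e2 = 2 ellk k ≤ r`; `small_part`, `zero_mean`:
`(ellk (k+1))⁻¹ (200 m r e) = 1000 m e (36/25)^(3(k+1))` and
`(ellk (k+1))⁻¹ * 17 N * 2 ellk k * 17 N² = 578 (36/25)³ N³ ≤ 5000 N³`. -/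
theorem class_count {μ : Pr D} {wt : Co D} {z0 : ℝ × ℝ} {r m δ : ℝ} {N : ℕ}
    {P Q : MvPolynomial (Fin 2) ℝ} {f f1 f2 g g1 g2 : ℝ × ℝ → ℝ}
    (L : LocD μ wt z0 r m δ N P Q f f1 f2 g g1 g2) {e : ℝ} (he : 0 < e) (he1 : e ≤ 1)
    (hδe : 100 * m * δ ≤ e ^ 2) (k : ℕ) :
    ∃ H : ℝ × ℝ → ℝ≥0∞, Measurable H ∧
      (∀ t, nm t ≤ 1 → ∫⁻ α in Set.Ioo 0 Real.pi,
        orbitSum (midW (m / r) (5 * m / r ^ 2) k) (vfc (sw μ wt t)) (disc z0 r) α ≤ H t) ∧
      ∫⁻ t, H t ≤ ENNReal.ofReal (5000 * N ^ 3 + 1000 * m * e * (36 / 25) ^ (3 * (k + 1))) := by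
  have hr := L.hr
  have hm : 0 < m := lt_of_lt_of_le one_pos L.hm
  have hN : (1 : ℝ) ≤ N := by exact_mod_cast L.hN
  have hM1 : 0 < m / r := by positivity
  have hM2 : 0 < 5 * m / r ^ 2 := by positivity
  set a : ℝ := ellk (m / r) (5 * m / r ^ 2) k with ha
  have ha0 : 0 < a := ellk_pos hM1 hM2 k
  have haeq : a = lamk k ^ 3 * (r / 5) := by
    rw [ha, ellk]
    field_simp
  have har : 2 * a ≤ r := by
    have h1 : lamk k ^ 3 ≤ 1 := pow_le_one₀ (lamk_pos k).le (lamk_le_one k)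
    rw [haeq]
    nlinarith
  have ha1 : ellk (m / r) (5 * m / r ^ 2) (k + 1) = (25 / 36) ^ 3 * a := ellk_succ k
  have ha10 : 0 < (25 / 36 : ℝ) ^ 3 * a := by positivity
  obtain ⟨S, hSm, hS1, hS2⟩ := small_part L he
  obtain ⟨Z, hZm, hZ1, hZ2⟩ := zero_mean L
  refine ⟨fun t => (ENNReal.ofReal ((25 / 36) ^ 3 * a))⁻¹ *
    (S t + Z t * ENNReal.ofReal (17 * N * (2 * a))), ?_, ?_, ?_⟩
  · exact (hSm.add (hZm.mul_const _)).const_mul _
  · intro t ht
    refine (class_zero (L.bnd t ht) (convex_disc z0 r) (isOpen_disc z0 r) hM1 hM2 k).trans ?_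
    rw [ha1, ← ha]
    refine mul_le_mul_right ?_ _
    refine (near_shift L he he1 hδe (by positivity) har t).trans ?_
    exact add_le_add (hS1 t ht) (mul_le_mul_left (hZ1 t ht) _)
  · have hmm : Measurable fun t => S t + Z t * ENNReal.ofReal (17 * N * (2 * a)) :=
      hSm.add (hZm.mul_const _)
    have h0 : ∫⁻ t, (ENNReal.ofReal ((25 / 36) ^ 3 * a))⁻¹ *
        (S t + Z t * ENNReal.ofReal (17 * N * (2 * a))) =
        (ENNReal.ofReal ((25 / 36) ^ 3 * a))⁻¹ *
          ((∫⁻ t, S t) + (∫⁻ t, Z t) * ENNReal.ofReal (17 * N * (2 * a))) := by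
      rw [lintegral_const_mul _ hmm, lintegral_add_left hSm, lintegral_mul_const _ hZm]
    refine h0.trans_le ?_
    calc (ENNReal.ofReal ((25 / 36) ^ 3 * a))⁻¹ *
          ((∫⁻ t, S t) + (∫⁻ t, Z t) * ENNReal.ofReal (17 * N * (2 * a)))
        ≤ (ENNReal.ofReal ((25 / 36) ^ 3 * a))⁻¹ * (ENNReal.ofReal (200 * m * r * e) +
          ENNReal.ofReal (17 * N ^ 2) * ENNReal.ofReal (17 * N * (2 * a))) := by
          gcongr
      _ = ENNReal.ofReal ((200 * m * r * e + 17 * N ^ 2 * (17 * N * (2 * a))) /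
          ((25 / 36) ^ 3 * a)) := by
          rw [← ENNReal.ofReal_mul (by positivity), ← ENNReal.ofReal_add (by positivity)
            (by positivity), ENNReal.ofReal_div_of_pos ha10, ENNReal.div_eq_inv_mul]
      _ ≤ ENNReal.ofReal (5000 * N ^ 3 + 1000 * m * e * (36 / 25) ^ (3 * (k + 1))) := by
          apply ENNReal.ofReal_le_ofReal
          rw [add_div]
          have h1 : 200 * m * r * e / ((25 / 36) ^ 3 * a) =
              1000 * m * e * (36 / 25) ^ (3 * (k + 1)) := by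
            rw [haeq, div_eq_iff (by have := lamk_pos k; positivity)]
            have h2 : (36 / 25 : ℝ) ^ (3 * (k + 1)) * ((25 / 36) ^ 3 * lamk k ^ 3) = 1 := by
              have h3 : (25 / 36 : ℝ) ^ 3 * lamk k ^ 3 = (25 / 36) ^ (3 * (k + 1)) := by
                unfold lamk
                ring
              rw [h3, ← mul_pow]
              norm_num
            calc 200 * m * r * e = 1000 * m * e * (r / 5) * 1 := by ring
              _ = 1000 * m * e * (r / 5) *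
                  ((36 / 25 : ℝ) ^ (3 * (k + 1)) * ((25 / 36) ^ 3 * lamk k ^ 3)) := by rw [h2]
              _ = _ := by ring
          have h4 : (17 * N ^ 2 * (17 * N * (2 * a)) : ℝ) / ((25 / 36) ^ 3 * a) =
              578 * (36 / 25) ^ 3 * N ^ 3 := by
            field_simp
            norm_num
          rw [h1, h4]
          have h5 : (0 : ℝ) ≤ N ^ 3 := by positivity
          nlinarith

/-- the integral of `argGrad` over the cell.
PROOF: `disc z0 r ⊆ smallS ∪ {not small}`; `small_part`, `arg_cmp`, `lintegral_square`,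
`volume_disc_le`: `∫⁻ z in K, (argGrad (shf ..) + 1/r) ≤ 4 π N r + 4 r ≤ 17 N r`; take
`H t = S t + indicator {nm t ≤ 1} (17 N r)` and `volume_nm_le`. -/
theorem grad_count {μ : Pr D} {wt : Co D} {z0 : ℝ × ℝ} {r m δ : ℝ} {N : ℕ}
    {P Q : MvPolynomial (Fin 2) ℝ} {f f1 f2 g g1 g2 : ℝ × ℝ → ℝ}
    (L : LocD μ wt z0 r m δ N P Q f f1 f2 g g1 g2) {e : ℝ} (he : 0 < e) (he1 : e ≤ 1)
    (hδe : 100 * m * δ ≤ e ^ 2) :
    ∃ H : ℝ × ℝ → ℝ≥0∞, Measurable H ∧
      (∀ t, nm t ≤ 1 → ∫⁻ z in disc z0 r, ENNReal.ofReal (argGrad (sw μ wt t) z) ≤ H t) ∧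
      ∫⁻ t, H t ≤ ENNReal.ofReal (r * (200 * m * e + 70 * N)) := by
  have hr := L.hr
  have hm : 0 < m := lt_of_lt_of_le one_pos L.hm
  have hN : (1 : ℝ) ≤ N := by exact_mod_cast L.hN
  obtain ⟨S, hSm, hS1, hS2⟩ := small_part L he
  have hset : MeasurableSet {t : ℝ × ℝ | nm t ≤ 1} :=
    (isClosed_le continuous_nm continuous_const).measurableSet
  refine ⟨fun t => S t + {t : ℝ × ℝ | nm t ≤ 1}.indicator
    (fun _ => ENNReal.ofReal (17 * N * r)) t, ?_, ?_, ?_⟩
  · exact hSm.add (measurable_const.indicator hset)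
  · intro t ht
    have ht' : t ∈ {t : ℝ × ℝ | nm t ≤ 1} := ht
    show _ ≤ S t + _
    rw [Set.indicator_of_mem ht']
    have hsub : disc z0 r ⊆ smallS μ wt (disc z0 r) e t ∪
        {z | z ∈ disc z0 r ∧ e * pe wt z.1 z.2 ≤ nm (vfc (sw μ wt t) z)} := by
      intro z hz
      by_cases hb : nm (vfc (sw μ wt t) z) < e * pe wt z.1 z.2
      · exact Or.inl ⟨hz, hb⟩
      · exact Or.inr ⟨hz, not_lt.1 hb⟩
    refine (lintegral_mono_set hsub).trans ((lintegral_union_le _ _ _).trans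
      (add_le_add (hS1 t ht) ?_))
    exact c1_disc L he he1 hδe hr le_rfl t z0 (fun z hz => hz.1) (fun z hz => hz.1)
      fun z hz => hz.2
  · rw [lintegral_add_left hSm, lintegral_indicator hset, setLIntegral_const]
    calc (∫⁻ t, S t) + ENNReal.ofReal (17 * N * r) * volume {t : ℝ × ℝ | nm t ≤ 1}
        ≤ ENNReal.ofReal (200 * m * r * e) +
          ENNReal.ofReal (17 * N * r) * ENNReal.ofReal (4 * 1 ^ 2) := by
          have h1 := volume_nm_le (σ := 1) zero_le_one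
          gcongr
      _ = ENNReal.ofReal (200 * m * r * e + 17 * N * r * (4 * 1 ^ 2)) := by
          rw [← ENNReal.ofReal_mul (by positivity), ← ENNReal.ofReal_add (by positivity)
            (by positivity)]
      _ ≤ _ := by
          apply ENNReal.ofReal_le_ofReal
          have h2 : (0 : ℝ) ≤ N * r := by positivity
          nlinarith

end Pool.Agent.Lib.MP_95e7ec_an
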