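import Mathlib
import Pool.Agent.Lib.MP_95e7ec_an.Sm.Count1

/-!
# Smoothed count: the local theorem, abstract form
-/

set_option autoImplicit false

open Set Filter Topology MeasureTheory
open scoped ContDiff ENNReal

namespace Pool.Agent.Lib.MP_95e7ec_an

variable {D : ℕ}

/-- the local theorem.
PROOF: `e = (25/36)^(3J)/m`. `ca_sum2` (CountTwo.lean) with `M₁ = m/r`, `M₂ = 5m/r²`, and
`orbitSum_aemeasurable` to integrate the sum over `α` (see `count_all_wK` in CountW.lean).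
Long orbits: `class_long` with `a = ellk 0 = r/5` and `grad_count`: `(5/r) * r (200 m e + 70 N)`.
Classes `k < J`: `class_count`, `1000 m e (36/25)^(3(k+1)) ≤ 1000`. Classes `k ≥ J`: `class_tail`,
`∑ k ≥ J, 25000 m² (5/6)^k = 150000 m² (5/6)^J ≤ 150000` (`ca_geom`). Total
`≤ 1000 + 350 N + J (5000 N³ + 1000) + 150000 ≤ 200000 (J + 1) N³`. -/
theorem local_core {μ : Pr D} {wt : Co D} {z0 : ℝ × ℝ} {r m δ : ℝ} {N : ℕ}
    {P Q : MvPolynomial (Fin 2) ℝ} {f f1 f2 g g1 g2 : ℝ × ℝ → ℝ}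
    (L : LocD μ wt z0 r m δ N P Q f f1 f2 g g1 g2) (J : ℕ) (hJ : m ^ 2 * (5 / 6) ^ J ≤ 1)
    (hδJ : 100 * m * δ ≤ ((25 / 36) ^ (3 * J) / m) ^ 2) :
    ∃ H : ℝ × ℝ → ℝ≥0∞, Measurable H ∧
      (∀ t, nm t ≤ 1 → ∫⁻ α in Set.Ioo 0 Real.pi,
        orbitSum (fun _ => 1) (vfc (sw μ wt t)) (disc z0 r) α ≤ H t) ∧
      ∫⁻ t, H t ≤ ENNReal.ofReal (200000 * (J + 1) * N ^ 3) := by
  have hr := L.hr
  have hm1 := L.hm
  have hm0 : 0 < m := by linarith
  have hN1 : (1 : ℝ) ≤ N := by exact_mod_cast L.hN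
  set c0 : ℝ := (25 / 36) ^ (3 * J) with hc0
  have hc0p : 0 < c0 := by positivity
  have hc01 : c0 ≤ 1 := pow_le_one₀ (by norm_num) (by norm_num)
  set e : ℝ := c0 / m with he
  have he0 : 0 < e := by positivity
  have he1 : e ≤ 1 := by
    rw [he, div_le_one hm0]
    linarith
  have hme : m * e = c0 := by
    rw [he]
    field_simp
  set K : Set (ℝ × ℝ) := disc z0 r with hK
  have hKo : IsOpen K := isOpen_disc z0 r
  set M₁ : ℝ := m / r with hM1d
  set M₂ : ℝ := 5 * m / r ^ 2 with hM2d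
  have hM1 : 0 < M₁ := by positivity
  have hM2 : 0 < M₂ := by positivity
  obtain ⟨HL, hLm, hL1, hL2⟩ := grad_count L he0 he1 hδJ
  choose Hc hcm hc1 hc2 using fun k : ℕ => class_count L he0 he1 hδJ k
  choose Ht htm ht1 ht2 using fun k : ℕ => class_tail L k
  have he00 := ellk_pos hM1 hM2 0
  have hell : ellk M₁ M₂ 0 = r / 5 := by
    simp only [ellk, lamk, hM1d, hM2d, pow_zero, one_pow]
    field_simp
  set G : ℕ → ℝ × ℝ → ℝ≥0∞ := fun k => if k < J then Hc k else Ht k with hG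
  have hGm : ∀ k, Measurable (G k) := by
    intro k
    simp only [hG]
    split_ifs
    · exact hcm k
    · exact htm k
  have hG1 : ∀ k t, nm t ≤ 1 → ∫⁻ α in Set.Ioo 0 Real.pi,
      orbitSum (midW M₁ M₂ k) (vfc (sw μ wt t)) K α ≤ G k t := by
    intro k t ht
    simp only [hG]
    split_ifs
    · exact hc1 k t ht
    · exact ht1 k t ht
  refine ⟨fun t => (ENNReal.ofReal (ellk M₁ M₂ 0))⁻¹ * HL t + ∑' k, G k t,
    (hLm.const_mul _).add (Measurable.tsum hGm), ?_, ?_⟩
  · intro t ht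
    set ν : Pr D := sw μ wt t with hν
    have hms : ∀ (φ : ℝ≥0∞ → ℝ≥0∞) (Ω : Set (ℝ × ℝ)), Measurable φ → IsOpen Ω →
        AEMeasurable (orbitSum φ (vfc ν) Ω) (volume.restrict (Set.Ioo 0 Real.pi)) :=
      fun φ Ω hφ hΩ => orbitSum_aemeasurable ν hΩ hφ
    refine (lintegral_mono fun α => ca_sum2 ν K hM1 hM2 α).trans ?_
    rw [lintegral_add_left' (hms _ _ (measurable_upW _) hKo),
      lintegral_tsum fun k => hms _ _ (measurable_midW M₁ M₂ k) hKo]
    refine add_le_add ?_ (ENNReal.tsum_le_tsum fun k => hG1 k t ht)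
    refine (class_long ν hKo he00).trans ?_
    gcongr
    exact hL1 t ht
  · rw [lintegral_add_left (hLm.const_mul _), lintegral_tsum fun k => (hGm k).aemeasurable,
      lintegral_const_mul _ hLm]
    have T1 : (ENNReal.ofReal (ellk M₁ M₂ 0))⁻¹ * ∫⁻ t, HL t ≤
        ENNReal.ofReal (1000 + 350 * N) := by
      calc (ENNReal.ofReal (ellk M₁ M₂ 0))⁻¹ * ∫⁻ t, HL t
          ≤ (ENNReal.ofReal (ellk M₁ M₂ 0))⁻¹ *
            ENNReal.ofReal (r * (200 * m * e + 70 * N)) := by gcongr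
        _ = ENNReal.ofReal ((ellk M₁ M₂ 0)⁻¹ * (r * (200 * m * e + 70 * N))) := by
            rw [← ENNReal.ofReal_inv_of_pos he00, ← ENNReal.ofReal_mul (by positivity)]
        _ ≤ _ := by
            apply ENNReal.ofReal_le_ofReal
            have e1 : (ellk M₁ M₂ 0)⁻¹ * (r * (200 * m * e + 70 * N)) =
                1000 * (m * e) + 350 * N := by
              rw [hell]
              field_simp
              ring
            rw [e1, hme]
            linarith
    have hlow : ∀ k, k < J → ∫⁻ t, G k t ≤ ENNReal.ofReal (5000 * N ^ 3 + 1000) := by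
      intro k hk
      have e1 : G k = Hc k := by simp only [hG, if_pos hk]
      rw [e1]
      refine (hc2 k).trans (ENNReal.ofReal_le_ofReal ?_)
      have e2 : (36 / 25 : ℝ) ^ (3 * (k + 1)) ≤ (36 / 25) ^ (3 * J) :=
        pow_le_pow_right₀ (by norm_num) (by omega)
      have e3 : c0 * (36 / 25 : ℝ) ^ (3 * J) = 1 := by
        rw [hc0, ← mul_pow]
        norm_num
      have e4 : 1000 * m * e * (36 / 25) ^ (3 * (k + 1)) =
          1000 * (c0 * (36 / 25) ^ (3 * (k + 1))) := by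
        rw [← hme]
        ring
      rw [e4]
      have e5 : c0 * (36 / 25 : ℝ) ^ (3 * (k + 1)) ≤ c0 * (36 / 25) ^ (3 * J) :=
        mul_le_mul_of_nonneg_left e2 hc0p.le
      linarith
    have htail : ∀ k, ∫⁻ t, G (k + J) t ≤ ENNReal.ofReal (25000 * (5 / 6) ^ k) := by
      intro k
      have e1 : G (k + J) = Ht (k + J) := by
        simp only [hG]
        rw [if_neg (by omega)]
      rw [e1]
      refine (ht2 (k + J)).trans (ENNReal.ofReal_le_ofReal ?_)
      rw [pow_add]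
      have e2 : (0 : ℝ) ≤ (5 / 6) ^ k := by positivity
      calc 25000 * m ^ 2 * ((5 / 6) ^ k * (5 / 6) ^ J) =
          25000 * (m ^ 2 * (5 / 6) ^ J) * (5 / 6) ^ k := by ring
        _ ≤ 25000 * 1 * (5 / 6) ^ k := by gcongr
        _ = _ := by ring
    have T2 : ∑' k, ∫⁻ t, G k t ≤
        ENNReal.ofReal (J * (5000 * N ^ 3 + 1000) + 150000) := by
      rw [← Summable.sum_add_tsum_nat_add' (k := J) (f := fun k => ∫⁻ t, G k t)
        ENNReal.summable]
      calc (∑ k ∈ Finset.range J, ∫⁻ t, G k t) + ∑' k, ∫⁻ t, G (k + J) t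
          ≤ (∑ k ∈ Finset.range J, ENNReal.ofReal (5000 * N ^ 3 + 1000)) +
            ∑' k : ℕ, ENNReal.ofReal (25000 * (5 / 6) ^ k) :=
            add_le_add (Finset.sum_le_sum fun k hk => hlow k (Finset.mem_range.1 hk))
              (ENNReal.tsum_le_tsum htail)
        _ = _ := by
            rw [Finset.sum_const, Finset.card_range, nsmul_eq_mul,
              ca_geom (by norm_num) (by norm_num) (by norm_num), ← ENNReal.ofReal_natCast J,
              ← ENNReal.ofReal_mul (by positivity),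
              ← ENNReal.ofReal_add (by positivity) (by norm_num)]
            congr 1
            ring
    refine (add_le_add T1 T2).trans ?_
    rw [← ENNReal.ofReal_add (by positivity) (by positivity)]
    apply ENNReal.ofReal_le_ofReal
    have h1 : (N : ℝ) ≤ N ^ 3 := by
      calc (N : ℝ) = N ^ 1 := (pow_one _).symm
        _ ≤ N ^ 3 := pow_le_pow_right₀ hN1 (by norm_num)
    have h2 : (1 : ℝ) ≤ N ^ 3 := hN1.trans h1
    have h3 : (J : ℝ) ≤ J * N ^ 3 := le_mul_of_one_le_right (Nat.cast_nonneg J) h2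
    have h4 : 0 ≤ (J : ℝ) * N ^ 3 := by positivity
    have h5 : (200000 : ℝ) * (J + 1) * N ^ 3 = 200000 * (J * N ^ 3) + 200000 * N ^ 3 := by ring
    have h6 : (J : ℝ) * (5000 * N ^ 3 + 1000) = 5000 * (J * N ^ 3) + 1000 * J := by ring
    rw [h5, h6]
    linarith

end Pool.Agent.Lib.MP_95e7ec_an
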