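import Mathlib
import Pool.Agent.Lib.MP_95e7ec_an.Sm.Defs
import Pool.Agent.Lib.MP_95e7ec_an.KpMain
import Pool.Agent.Lib.MP_95e7ec_an.PlaneMain

/-!
# Smoothed count: cells
-/

set_option autoImplicit false

open Set Filter Topology MeasureTheory
open scoped ContDiff ENNReal

namespace Pool.Agent.Lib.MP_95e7ec_an

/-- the number of cells per unit -/
def sq (n : ℕ) : ℕ := 2 * kq n

theorem sq_pos (n : ℕ) : 1 ≤ sq n := by
  have := kq_nat_pos n
  unfold sq
  omega

/-- `8 √n ≤ sq n ≤ 16 √n` (`le_kq`, `kq_le`) -/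
theorem sq_bounds {n : ℕ} (hn : 1 ≤ n) :
    8 * Real.sqrt n ≤ sq n ∧ (sq n : ℝ) ≤ 16 * Real.sqrt n := by
  have h1 := le_kq n
  have h2 := kq_le hn
  unfold sq
  push_cast
  constructor <;> linarith

/-! ### Auxiliary lemmas -/

private theorem cov_mem_disc {z : ℝ × ℝ} {r : ℝ} (hr : 0 < r) : z ∈ disc 0 r ↔ nm z < r := by
  have h1 := nm_sq z
  have h0 : 0 ≤ nm z := Real.sqrt_nonneg _
  simp only [disc, Set.mem_ofPred_eq, Prod.fst_zero, Prod.snd_zero, sub_zero]
  rw [← h1]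
  exact ⟨fun h => lt_of_pow_lt_pow_left₀ 2 hr.le h, fun h => pow_lt_pow_left₀ h h0 two_ne_zero⟩

private theorem cov_nm_le_sq1 (z : ℝ × ℝ) : nm z ≤ sq1 z := by
  unfold nm sq1
  apply Real.sqrt_le_sqrt
  linarith

private theorem cov_one_le_sq1 (z : ℝ × ℝ) : 1 ≤ sq1 z := by
  unfold sq1
  rw [Real.one_le_sqrt]
  nlinarith [sq_nonneg z.1, sq_nonneg z.2]

/-- the cells are small. PROOF: as `kcell_spec` (KosRest.lean), with the factor 2. -/
theorem sq_cell {n : ℕ} (hn : 1 ≤ n) {k : ℕ} {i : ℤ × ℤ} (hi : i ∈ cells (sq n) k) :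
    0 < cellR (sq n) k ∧
      2 * cellR (sq n) k * Real.sqrt n ≤ sq1 (cellC (sq n) k i) / 8 := by
  have hq : (0 : ℝ) < sq n := by exact_mod_cast sq_pos n
  have hq8 := (sq_bounds hn).1
  have h2 : (0 : ℝ) < 2 ^ k := by positivity
  refine ⟨by unfold cellR; positivity, ?_⟩
  have h1 : 2 * cellR (sq n) k * Real.sqrt n ≤ 2 ^ k / 32 := by
    unfold cellR
    have e : 2 * ((2 : ℝ) ^ k / (8 * (sq n : ℝ))) * Real.sqrt n =
        (2 ^ k * Real.sqrt n) / (4 * (sq n : ℝ)) := by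
      field_simp
      ring
    rw [e, div_le_div_iff₀ (by positivity) (by norm_num)]
    nlinarith [Real.sqrt_nonneg (n : ℝ)]
  refine h1.trans ?_
  unfold cells at hi
  rw [Finset.mem_filter] at hi
  rcases hi.2 with h0 | h0
  · have h3 := cov_one_le_sq1 (cellC (sq n) k i)
    rw [h0, pow_zero]
    rw [h0] at h3
    linarith
  · have h3 := cov_nm_le_sq1 (cellC (sq n) k i)
    linarith

/-- the cells of the annuli `0, …, K` cover the disc of radius `2^K`.
PROOF: for `z` with `nm z < 2^K` take the least `k` with `nm z < 2^k`; then `k = 0` or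
`2^k/2 ≤ 2^(k-1) ≤ nm z`, and `exists_cell` (Cells.lean) for `C = {z}`. -/
theorem disc_cover {q : ℕ} (hq : 1 ≤ q) (K : ℕ) :
    disc 0 ((2 : ℝ) ^ K) ⊆ ⋃ k ∈ Finset.range (K + 1), ⋃ i ∈ cells q k,
      disc (cellC q k i) (cellR q k) := by
  classical
  intro z hz
  have hz' : nm z < 2 ^ K := (cov_mem_disc (by positivity)).1 hz
  have hex : ∃ k : ℕ, nm z < 2 ^ k := ⟨K, hz'⟩
  obtain ⟨k, hk⟩ : ∃ k, k = Nat.find hex := ⟨_, rfl⟩
  have hk1 : nm z < 2 ^ k := by
    rw [hk]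
    exact Nat.find_spec hex
  have hk2 : k ≤ K := by
    rw [hk]
    exact Nat.find_min' hex hz'
  have hk3 : k = 0 ∨ ∃ w ∈ ({z} : Set (ℝ × ℝ)), (2 : ℝ) ^ k / 2 ≤ nm w := by
    rcases Nat.eq_zero_or_pos k with h0 | h0
    · exact Or.inl h0
    · refine Or.inr ⟨z, rfl, ?_⟩
      have h1 := Nat.find_min hex (m := k - 1) (by omega)
      rw [not_lt] at h1
      have h2 : (2 : ℝ) ^ k / 2 = 2 ^ (k - 1) := by
        obtain ⟨j, rfl⟩ : ∃ j, k = j + 1 := ⟨k - 1, by omega⟩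
        rw [pow_succ, Nat.add_sub_cancel]
        ring
      rw [h2]
      exact h1
  obtain ⟨i, hi, hC⟩ := exists_cell hq k (C := {z}) (Set.singleton_nonempty z)
    (by
      intro a ha b hb
      rw [Set.mem_singleton_iff] at ha hb
      rw [ha, hb, sub_self]
      have h0 : nm (0 : ℝ × ℝ) = 0 := by
        unfold nm
        simp
      rw [h0]
      positivity)
    (by
      intro a ha
      rw [Set.mem_singleton_iff] at ha
      rw [ha]
      exact (cov_mem_disc (by positivity)).2 hk1) hk3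
  simp only [Set.mem_iUnion]
  exact ⟨k, Finset.mem_range.2 (by omega), i, hi, hC rfl⟩

/-- splitting of the count.
PROOF: as `kp_split` (KpMain.lean) without the activity: for a closed orbit `C ⊆ disc 0 (2^K)` take the
least `k` with `C ⊆ disc 0 (2^k)`; either `C` is in a cell of the level `k`, or it is counted in
`lvS`, `lvV`. -/
theorem sp_split {q : ℕ} (v : ℝ × ℝ → ℝ × ℝ) (K : ℕ) :
    cntO v (disc 0 (2 ^ K)) (∅ : Finset ℕ) (fun _ => ∅) ≤
      ∑ k ∈ Finset.range (K + 1), (cntO v (disc 0 (2 ^ k)) (lvS q k) (lvV q k) +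
        ∑ i ∈ cells q k, cntO v (disc (cellC q k i) (cellR q k)) (∅ : Finset ℕ)
          (fun _ => ∅)) := by
  classical
  -- everything as a sum over the closed orbits
  have key : ∀ C : Set (ℝ × ℝ), IsClosedOrbit v C → C ⊆ disc 0 (2 ^ K) →
      ∃ k ∈ Finset.range (K + 1),
        (C ∈ {C | IsClosedOrbit v C ∧ C ⊆ disc 0 (2 ^ k) ∧
          ∀ i ∈ lvS q k, ¬ C ⊆ lvV q k i}) ∨
        (∃ i ∈ cells q k, C ⊆ disc (cellC q k i) (cellR q k)) := by
    intro C hC hCK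
    have hex : ∃ k : ℕ, C ⊆ disc 0 (2 ^ k) := ⟨K, hCK⟩
    set k := Nat.find hex with hk
    have hk1 : C ⊆ disc 0 (2 ^ k) := Nat.find_spec hex
    have hk2 : k ≤ K := Nat.find_min' hex hCK
    have hk3 : k ≠ 0 → ¬ C ⊆ disc 0 (2 ^ (k - 1)) := fun h =>
      Nat.find_min hex (m := k - 1) (by omega)
    refine ⟨k, Finset.mem_range.2 (by omega), ?_⟩
    by_cases hcell : ∃ i ∈ cells q k, C ⊆ disc (cellC q k i) (cellR q k)
    · exact Or.inr hcell
    · left
      push Not at hcell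
      refine ⟨hC, hk1, fun i hi => ?_⟩
      cases i with
      | none =>
        unfold lvV
        split_ifs with h0
        · intro h
          obtain ⟨p, hp⟩ := hC.nonempty
          exact h hp
        · exact hk3 h0
      | some i =>
        have hi' : i ∈ cells q k := by
          unfold lvS at hi
          exact Finset.some_mem_insertNone.1 hi
        exact hcell i hi'
  -- the sets
  set S0 : Set (Set (ℝ × ℝ)) := {C | IsClosedOrbit v C ∧ C ⊆ disc 0 (2 ^ K) ∧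
    ∀ i ∈ (∅ : Finset ℕ), ¬ C ⊆ (fun _ => (∅ : Set (ℝ × ℝ))) i} with hS0
  set S1 : ℕ → Set (Set (ℝ × ℝ)) := fun k => {C | IsClosedOrbit v C ∧ C ⊆ disc 0 (2 ^ k) ∧
    ∀ i ∈ lvS q k, ¬ C ⊆ lvV q k i} with hS1
  set S2 : ℕ → ℤ × ℤ → Set (Set (ℝ × ℝ)) := fun k i => {C | IsClosedOrbit v C ∧
    C ⊆ disc (cellC q k i) (cellR q k) ∧
    ∀ i ∈ (∅ : Finset ℕ), ¬ C ⊆ (fun _ => (∅ : Set (ℝ × ℝ))) i} with hS2
  have hmid : ∀ k, ∑ i ∈ cells q k, cntO v (disc (cellC q k i) (cellR q k)) (∅ : Finset ℕ)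
      (fun _ => ∅) = ∑' C : Set (ℝ × ℝ),
      ∑ i ∈ cells q k, (S2 k i).indicator (fun _ => (1 : ℝ≥0∞)) C := by
    intro k
    rw [Summable.tsum_finsetSum (fun i _ => ENNReal.summable)]
    refine Finset.sum_congr rfl fun i _ => ?_
    unfold cntO
    rw [kp_encard]
  have hL : cntO v (disc 0 (2 ^ K)) (∅ : Finset ℕ) (fun _ => ∅) =
      ∑' C, S0.indicator (fun _ => (1 : ℝ≥0∞)) C := by
    unfold cntO
    rw [kp_encard]
  have hR1 : ∀ k, cntO v (disc 0 (2 ^ k)) (lvS q k) (lvV q k) =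
      ∑' C, (S1 k).indicator (fun _ => (1 : ℝ≥0∞)) C := by
    intro k
    unfold cntO
    rw [kp_encard]
  rw [hL]
  simp only [hR1, hmid, ← ENNReal.tsum_add]
  rw [← Summable.tsum_finsetSum (fun i _ => ENNReal.summable)]
  refine ENNReal.tsum_le_tsum fun C => ?_
  by_cases hC : C ∈ S0
  · rw [Set.indicator_of_mem hC]
    obtain ⟨k, hk, hcase⟩ := key C hC.1 hC.2.1
    refine le_trans ?_ (Finset.single_le_sum (f := fun k => (S1 k).indicator
      (fun _ => (1 : ℝ≥0∞)) C +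
      ∑ i ∈ cells q k, (S2 k i).indicator (fun _ => (1 : ℝ≥0∞)) C) (fun _ _ => zero_le) hk)
    rcases hcase with h1 | ⟨i, hi, h2⟩
    · refine le_trans ?_ (le_add_right le_rfl)
      rw [Set.indicator_of_mem h1]
    · refine le_trans ?_ (le_add_left le_rfl)
      refine le_trans ?_ (Finset.single_le_sum (f := fun i => (S2 k i).indicator
        (fun _ => (1 : ℝ≥0∞)) C) (fun _ _ => zero_le) hi)
      have hm : C ∈ S2 k i := ⟨hC.1, h2, by simp⟩
      rw [Set.indicator_of_mem hm]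
  · rw [Set.indicator_of_notMem hC]
    exact zero_le

end Pool.Agent.Lib.MP_95e7ec_an
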