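import Mathlib
import Pool.Agent.Lib.MP_95e7ec_an.Sm.Defs
import Pool.Agent.Lib.MP_95e7ec_an.KqMain
import Pool.Agent.Lib.MP_95e7ec_an.KosEven

/-!
# Smoothed count: the far region, estimates for each coefficient vector
-/

set_option autoImplicit false

open Set Filter Topology MeasureTheory
open scoped ContDiff ENNReal

namespace Pool.Agent.Lib.MP_95e7ec_an

/-- PROOF: this is the step `h2` in the proof of `kp_cell` (KpMain.lean), there `Φ a =
∫⁻ α in Ioo 0 π, kF n k K z0 (krot α a)`; copy it (constant `10^15`). -/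
theorem kF_pt : ∃ C : ℝ, 0 ≤ C ∧ ∀ n k : ℕ, 1 ≤ n → 24 ≤ k → ∀ (K : ℕ) (z0 : ℝ × ℝ),
    (2 : ℝ) ^ k / 4 ≤ nm z0 → ∀ a : KSp n,
    ∫⁻ t in {t : ℝ × ℝ | nm t ≤ 1}, ∫⁻ α in Set.Ioo 0 Real.pi,
      kF n k K z0 (krot α (kshift (kdir n z0) a t)) ≤
      ENNReal.ofReal (C * ((1 + kA n z0 (2 * cellR (kq n) k) a) ^ 2 * (1 + kB n z0 a)) /
        2 ^ (k / 24)) := by
  refine ⟨10 ^ 15, by positivity, fun n k hn hk K z0 hz0 a => ?_⟩
  obtain ⟨hr, -⟩ := kp_cell_r (n := n) hz0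
  have hE := (kp_area hn hk hz0 a).1
  refine le_trans ?_ (local_count_kp hn hk hz0 a)
  rw [← lintegral_indicator hE]
  refine le_trans ?_ (setLIntegral_le_lintegral {t : ℝ × ℝ | nm t ≤ 1} _)
  refine setLIntegral_mono' (measurableSet_le continuous_nm.measurable measurable_const)
    fun t ht => ?_
  by_cases htE : t ∈ kE n k z0 a
  · rw [Set.indicator_of_mem htE]
    refine lintegral_mono fun α => ?_
    unfold kF
    refine (Set.indicator_le_self _ _ _).trans ?_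
    rw [kVF_krot]
    refine add_le_add ?_ (cntO_cr_le _ _ _ hr)
    rw [km_cntO_eq]
  · rw [Set.indicator_of_notMem htE]
    have h4 : ∀ α : ℝ, kF n k K z0 (krot α (kshift (kdir n z0) a t)) = 0 := by
      intro α
      unfold kF
      rw [Set.indicator_of_notMem]
      intro hmem
      exact htE (kp_shift_mem hn hk hz0 ht hmem)
    simp [h4]

/-- PROOF: this is `ext_local` (KqLocal.lean) with `kVF_krot`, see the step `h2` in the proof of
`kq_NL` (KqMain.lean). -/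
theorem NL_pt : ∃ (C : ℝ) (A : ℕ), 0 ≤ C ∧ ∀ (m : ℕ) (u : KSp (2 * m + 1)) (ν : ℝ),
    OddDir m u ν → ∀ (a : KSp (2 * m + 1)) (j : ℕ), ((2 * m + 1 : ℕ) : ℝ) ≤ 2 ^ j →
    ∫⁻ t in {t : ℝ × ℝ | nm t ≤ 1}, ∫⁻ α in Set.Ioo 0 Real.pi,
      NL (kVF (2 * m + 1) (krot α (kshift2 u a t))) j ≤
      ENNReal.ofReal (C * (m + 1) ^ A * kS a ^ 2 / 2 ^ (j / 48)) := by
  obtain ⟨C1, A, hC1, hloc⟩ := ext_local
  refine ⟨C1, A, hC1, fun m u ν hu a j hj => ?_⟩
  refine le_trans (le_of_eq ?_) (hloc m u ν hu a j hj)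
  refine lintegral_congr fun t => ?_
  simp only [kVF_krot]

/-- PROOF: this is the step `h1` in the proof of `kq_cross` (KqMain.lean). -/
theorem cross_pt {n : ℕ} (hn : 1 ≤ n) (U : Set (ℝ × ℝ)) {R : ℝ} (hR : 0 < R) (a : KSp n) :
    ∫⁻ α in Set.Ioo 0 Real.pi, cntO (kVF n (krot α a)) U Finset.univ (crV 0 (2 * R)) ≤
      ENNReal.ofReal (600 * n) := by
  refine le_trans (lintegral_mono fun α => ?_) (crossing_count hn (kArr n a) hR)
  rw [kVF_krot, kVF_eq_vfc]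
  refine (cntO_cr_le _ _ _ (by positivity : (0 : ℝ) < 2 * R)).trans ?_
  unfold crossN setSum
  rw [kp_encard]
  have hts := tsum_subtype {C : Set (ℝ × ℝ) | IsClosedOrbit (turn α (vfc (kArr n a))) C ∧
    C ⊆ Set.univ} (fun C => crossInd R C)
  refine le_trans ?_ (le_of_eq hts.symm)
  refine ENNReal.tsum_le_tsum fun C => ?_
  by_cases hC : C ∈ {C | IsClosedOrbit (turn α (vfc (kArr n a))) C ∧
      (∃ z ∈ C, nm (z - 0) ≤ 2 * R / 2) ∧ ∃ z ∈ C, 2 * (2 * R / 2) ≤ nm (z - 0)}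
  · rw [Set.indicator_of_mem hC]
    have hm : C ∈ {C : Set (ℝ × ℝ) | IsClosedOrbit (turn α (vfc (kArr n a))) C ∧
      C ⊆ Set.univ} := ⟨hC.1, Set.subset_univ _⟩
    rw [Set.indicator_of_mem hm]
    unfold crossInd
    rw [if_pos]
    obtain ⟨-, ⟨z1, hz1, h1⟩, ⟨z2, hz2, h2⟩⟩ := hC
    rw [sub_zero] at h1 h2
    exact ⟨⟨z1, hz1, by linarith⟩, ⟨z2, hz2, by linarith⟩⟩
  · rw [Set.indicator_of_notMem hC]
    exact zero_le

/-- PROOF: this is the step `hB` in the proof of `kos_even_tail` (KosEven.lean), `kS a` is its `ρ`. -/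
theorem even_pt : ∃ C : ℝ, 0 ≤ C ∧ ∀ m : ℕ, 1 ≤ m → ∀ k0 : ℕ, C * m ^ 2 ≤ 2 ^ k0 →
    ∃ v : KIdx (2 * m) → ℝ, ∑ p, v p ^ 2 = 1 ∧ ∀ a : KSp (2 * m),
      ∫⁻ t in {t : ℝ × ℝ | nm t ≤ 1}, ∫⁻ α in Set.Ioo 0 Real.pi,
        cntO (kVF (2 * m) (krot α (kshift v a t))) Set.univ {()}
          (fun _ => disc 0 (2 ^ (k0 + 1))) ≤
        ENNReal.ofReal (C * m + C * m ^ 7 * (k0 + 1) / 2 ^ k0 * kS a ^ 2) := by
  obtain ⟨C1, hC1, htail⟩ := plane_tail
  refine ⟨4 * C1 + 4800, by positivity, fun m hm k0 hk0 => ?_⟩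
  have hm1 : (1 : ℝ) ≤ m := by exact_mod_cast hm
  have hk0' : C1 * (m : ℝ) ^ 2 ≤ 2 ^ k0 := by
    refine le_trans ?_ hk0
    gcongr
    linarith
  obtain ⟨v, N, hN1, hN2, hv, hvW⟩ := exists_even_dir m
  refine ⟨v, hv, fun a => ?_⟩
  set A : ℝ := 4 * (C1 * m ^ 7 * (k0 + 1) / 2 ^ k0) with hA
  have hA0 : 0 ≤ A := by positivity
  set ρ : ℝ := 1 + ∑ p, (|(a p).1| + |(a p).2|) with hρdef
  have hs0 : 0 ≤ ∑ p, (|(a p).1| + |(a p).2|) := Finset.sum_nonneg fun p _ => by positivity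
  have hρ1 : 1 ≤ ρ := by linarith
  have hρ : 0 < ρ := by linarith
  have hb : ∀ z : ℝ × ℝ, nm (vf (kPoly (2 * m) fun p => (a p).1)
      (kPoly (2 * m) fun p => (a p).2) z) ≤ ρ * sq1 z ^ (2 * m) := by
    intro z
    have e1 := abs_eval_kPoly_le (2 * m) (fun p => (a p).1) z
    have e2 := abs_eval_kPoly_le (2 * m) (fun p => (a p).2) z
    have e3 : 0 ≤ sq1 z ^ (2 * m) := by unfold sq1; positivity
    have e4 : nm (vf (kPoly (2 * m) fun p => (a p).1) (kPoly (2 * m) fun p => (a p).2) z) ≤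
        |MvPolynomial.eval ![z.1, z.2] (kPoly (2 * m) fun p => (a p).1)| +
        |MvPolynomial.eval ![z.1, z.2] (kPoly (2 * m) fun p => (a p).2)| := by
      unfold nm vf
      refine Real.sqrt_le_iff.2 ⟨by positivity, ?_⟩
      simp only
      rw [← sq_abs (MvPolynomial.eval ![z.1, z.2] (kPoly (2 * m) fun p => (a p).1)),
        ← sq_abs (MvPolynomial.eval ![z.1, z.2] (kPoly (2 * m) fun p => (a p).2))]
      nlinarith [abs_nonneg (MvPolynomial.eval ![z.1, z.2] (kPoly (2 * m) fun p => (a p).1)),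
        abs_nonneg (MvPolynomial.eval ![z.1, z.2] (kPoly (2 * m) fun p => (a p).2))]
    refine e4.trans ((add_le_add e1 e2).trans ?_)
    rw [← add_mul, ← Finset.sum_add_distrib]
    exact mul_le_mul_of_nonneg_right (by linarith) e3
  obtain ⟨H, hHm, hH1, hH2⟩ := htail m hm _ _ (totalDegree_kPoly (2 * m) fun p => (a p).1)
    (totalDegree_kPoly (2 * m) fun p => (a p).2) ρ hρ hb k0 hk0'
  have hfield : ∀ t : ℝ × ℝ, kVF (2 * m) (kshift v a t) =
      vf (kPoly (2 * m) (fun p => (a p).1) + MvPolynomial.C (N⁻¹ • t).1 * wPoly m)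
        (kPoly (2 * m) (fun p => (a p).2) + MvPolynomial.C (N⁻¹ • t).2 * wPoly m) := by
    intro t
    funext z
    rw [kVF_kshift, hvW]
    simp only [kVF, vf, map_add, map_mul, MvPolynomial.eval_C, Prod.smul_fst, Prod.smul_snd,
      smul_eq_mul]
    refine Prod.ext ?_ ?_
    · simp only [Prod.fst_add, Prod.smul_fst, smul_eq_mul]
      ring
    · simp only [Prod.snd_add, Prod.smul_snd, smul_eq_mul]
      ring
  have hpt : ∀ t : ℝ × ℝ, nm t ≤ 1 →
      ∫⁻ α in Set.Ioo 0 Real.pi, cntO (kVF (2 * m) (krot α (kshift v a t))) Set.univ {()}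
          (fun _ => disc 0 (2 ^ (k0 + 1))) ≤ ENNReal.ofReal (1200 * m) + H (N⁻¹ • t) := by
    intro t ht
    have e1 := hH1 (N⁻¹ • t) ((ke_nm_smul_le hN1 ht).trans hρ1)
    refine le_trans (le_of_eq ?_) e1
    simp only [kVF_krot, hfield]
  have hB : ∫⁻ t in {t : ℝ × ℝ | nm t ≤ 1}, ∫⁻ α in Set.Ioo 0 Real.pi,
        cntO (kVF (2 * m) (krot α (kshift v a t))) Set.univ {()}
          (fun _ => disc 0 (2 ^ (k0 + 1))) ≤
      ENNReal.ofReal (4800 * m) + ENNReal.ofReal (A * ρ ^ 2) := by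
    calc ∫⁻ t in {t : ℝ × ℝ | nm t ≤ 1}, ∫⁻ α in Set.Ioo 0 Real.pi,
        cntO (kVF (2 * m) (krot α (kshift v a t))) Set.univ {()}
          (fun _ => disc 0 (2 ^ (k0 + 1)))
        ≤ ∫⁻ t in {t : ℝ × ℝ | nm t ≤ 1}, (ENNReal.ofReal (1200 * m) + H (N⁻¹ • t)) :=
          setLIntegral_mono' (measurableSet_le continuous_nm.measurable measurable_const) hpt
      _ = ENNReal.ofReal (1200 * m) * volume {t : ℝ × ℝ | nm t ≤ 1} +
          ∫⁻ t in {t : ℝ × ℝ | nm t ≤ 1}, H (N⁻¹ • t) := by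
          rw [lintegral_add_left measurable_const, setLIntegral_const]
      _ ≤ ENNReal.ofReal (1200 * m) * ENNReal.ofReal (4 * 1 ^ 2) +
          ENNReal.ofReal (N ^ 2) * ENNReal.ofReal (C1 * m ^ 5 * ρ ^ 2 * (k0 + 1) / 2 ^ k0) := by
          refine add_le_add (mul_le_mul_right (volume_nm_le zero_le_one) _) ?_
          refine (setLIntegral_le_lintegral _ _).trans ?_
          rw [ke_lintegral_smul (by linarith)]
          exact mul_le_mul_right hH2 _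
      _ ≤ _ := by
          rw [← ENNReal.ofReal_mul (by positivity), ← ENNReal.ofReal_mul (by positivity)]
          refine add_le_add (ENNReal.ofReal_le_ofReal (by linarith))
            (ENNReal.ofReal_le_ofReal ?_)
          have hN4 : N ^ 2 ≤ 4 * m ^ 2 := by nlinarith
          calc N ^ 2 * (C1 * m ^ 5 * ρ ^ 2 * (k0 + 1) / 2 ^ k0)
              ≤ 4 * m ^ 2 * (C1 * m ^ 5 * ρ ^ 2 * (k0 + 1) / 2 ^ k0) := by gcongr
            _ = A * ρ ^ 2 := by rw [hA]; ring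
  refine hB.trans ?_
  rw [← ENNReal.ofReal_add (by positivity) (by positivity)]
  refine ENNReal.ofReal_le_ofReal (add_le_add ?_ ?_)
  · have h3 : 0 ≤ 4 * C1 * (m : ℝ) := by positivity
    nlinarith
  · have hkS : kS a = ρ := rfl
    rw [hkS, hA]
    have h4 : 4 * (C1 * (m : ℝ) ^ 7 * (k0 + 1) / 2 ^ k0) ≤
        (4 * C1 + 4800) * (m : ℝ) ^ 7 * (k0 + 1) / 2 ^ k0 := by
      rw [show 4 * (C1 * (m : ℝ) ^ 7 * (k0 + 1) / 2 ^ k0) =
        (4 * C1) * (m : ℝ) ^ 7 * (k0 + 1) / 2 ^ k0 by ring]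
      gcongr
      linarith
    exact mul_le_mul_of_nonneg_right h4 (by positivity)

end Pool.Agent.Lib.MP_95e7ec_an
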