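import Mathlib
import Pool.Agent.Lib.MP_95e7ec_an.Sm.Defs
import Pool.Agent.Lib.MP_95e7ec_an.KosKernel
import Pool.Agent.Lib.MP_95e7ec_an.KosMoment
import Pool.Agent.Lib.MP_95e7ec_an.KpKernel
import Pool.Agent.Lib.MP_95e7ec_an.KpMoment

/-!
# Smoothed count: the torus means are bounded by the norm of the coefficients
-/

set_option autoImplicit false

open Set Filter Topology MeasureTheory
open scoped ContDiff ENNReal

namespace Pool.Agent.Lib.MP_95e7ec_an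

/-- the mean of a bounded function; no continuity is needed -/
private theorem kb_tmean {f : ℂ × ℂ → ℝ} {c : ℝ × ℝ} {ρ M : ℝ}
    (h : ∀ θ φ : ℝ, |f (circleMap (c.1 : ℂ) ρ θ, circleMap (c.2 : ℂ) ρ φ)| ≤ M) :
    tmean f c ρ ≤ M := by
  have hpi := Real.pi_pos
  have h1 : ∀ θ : ℝ, ‖∫ φ in (0 : ℝ)..2 * Real.pi,
      f (circleMap (c.1 : ℂ) ρ θ, circleMap (c.2 : ℂ) ρ φ)‖ ≤ M * |2 * Real.pi - 0| := fun θ =>
    intervalIntegral.norm_integral_le_of_norm_le_const fun φ _ => h θ φ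
  have h2 := intervalIntegral.norm_integral_le_of_norm_le_const (a := 0) (b := 2 * Real.pi)
    (f := fun θ : ℝ => ∫ φ in (0 : ℝ)..2 * Real.pi,
      f (circleMap (c.1 : ℂ) ρ θ, circleMap (c.2 : ℂ) ρ φ)) fun θ _ => h1 θ
  rw [sub_zero, abs_of_pos (by positivity : (0 : ℝ) < 2 * Real.pi), Real.norm_eq_abs] at h2
  unfold tmean
  have h3 := (le_abs_self _).trans h2
  calc (4 * Real.pi ^ 2)⁻¹ * ∫ θ in (0 : ℝ)..2 * Real.pi, ∫ φ in (0 : ℝ)..2 * Real.pi,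
        f (circleMap (c.1 : ℂ) ρ θ, circleMap (c.2 : ℂ) ρ φ) ≤
      (4 * Real.pi ^ 2)⁻¹ * (M * (2 * Real.pi) * (2 * Real.pi)) :=
        mul_le_mul_of_nonneg_left h3 (by positivity)
    _ = M := by
        field_simp
        ring

/-- Cauchy-Schwarz -/
private theorem kb_cs {n : ℕ} (co : KIdx n → ℂ) (hvar : ∑ p : KIdx n, ‖co p‖ ^ 2 ≤ 2)
    (b : KIdx n → ℝ) : ‖∑ p, ((b p : ℝ) : ℂ) * co p‖ ^ 2 ≤ 2 * ∑ p, b p ^ 2 := by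
  have h1 : ‖∑ p, ((b p : ℝ) : ℂ) * co p‖ ≤ ∑ p, |b p| * ‖co p‖ := by
    refine (norm_sum_le _ _).trans (Finset.sum_le_sum fun p _ => ?_)
    rw [norm_mul, Complex.norm_real, Real.norm_eq_abs]
  have h2 := Finset.sum_mul_sq_le_sq_mul_sq Finset.univ (fun p => |b p|) fun p => ‖co p‖
  have h3 : ∑ p : KIdx n, |b p| ^ 2 = ∑ p, b p ^ 2 := Finset.sum_congr rfl fun p _ => sq_abs _
  have h4 : 0 ≤ ∑ p : KIdx n, b p ^ 2 := Finset.sum_nonneg fun p _ => sq_nonneg _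
  calc ‖∑ p, ((b p : ℝ) : ℂ) * co p‖ ^ 2 ≤ (∑ p, |b p| * ‖co p‖) ^ 2 :=
        pow_le_pow_left₀ (norm_nonneg _) h1 2
    _ ≤ (∑ p, |b p| ^ 2) * ∑ p, ‖co p‖ ^ 2 := h2
    _ ≤ (∑ p, b p ^ 2) * 2 := by
        rw [h3]
        exact mul_le_mul_of_nonneg_left hvar h4
    _ = _ := mul_comm _ _

private theorem kb_sum {n : ℕ} (a : KSp n) {x y : ℝ} (hx : x ^ 2 ≤ 2 * ∑ p, (a p).1 ^ 2)
    (hy : y ^ 2 ≤ 2 * ∑ p, (a p).2 ^ 2) : x + y ≤ 3 * Real.sqrt (kN2 a) := by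
  have h0 : 0 ≤ kN2 a := Finset.sum_nonneg fun p _ => by positivity
  have h1 : kN2 a = ∑ p, (a p).1 ^ 2 + ∑ p, (a p).2 ^ 2 := Finset.sum_add_distrib
  refine le_of_sq_le_sq ?_ (by positivity)
  rw [mul_pow, Real.sq_sqrt h0]
  nlinarith [sq_nonneg (x - y)]

private theorem kb_point {n : ℕ} (co : KIdx n → ℂ) (hvar : ∑ p : KIdx n, ‖co p‖ ^ 2 ≤ 2)
    (a : KSp n) : ‖∑ p, (((a p).1 : ℝ) : ℂ) * co p‖ + ‖∑ p, (((a p).2 : ℝ) : ℂ) * co p‖ ≤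
      3 * Real.sqrt (kN2 a) :=
  kb_sum a (kb_cs co hvar _) (kb_cs co hvar _)

private theorem kb_circle (c : ℂ) {ρ : ℝ} (hρ : 0 ≤ ρ) (θ : ℝ) : ‖circleMap c ρ θ - c‖ ≤ ρ := by
  rw [circleMap_sub_center, norm_circleMap_zero, abs_of_nonneg hρ]

private theorem kb_kev (n : ℕ) (z0 : ℝ × ℝ) (ζ : ℂ × ℂ) (b : KIdx n → ℝ) :
    kev n b ζ / kker n z0 ζ = ∑ p, ((b p : ℝ) : ℂ) *
      (((kw n p : ℝ) : ℂ) * (ζ.1 ^ (p.1.1 : ℕ) * ζ.2 ^ (p.1.2 : ℕ)) / kker n z0 ζ) := by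
  unfold kev
  rw [Finset.sum_div]
  refine Finset.sum_congr rfl fun p _ => ?_
  push_cast
  ring

private theorem kb_kG (n : ℕ) (z0 : ℝ × ℝ) (ζ : ℂ × ℂ) (b : KIdx n → ℝ) :
    kG n z0 b ζ = ∑ p, ((b p : ℝ) : ℂ) *
      (((kw n p : ℝ) : ℂ) * ((1 - ζ.1) ^ (n - (p.1.1 : ℕ) - (p.1.2 : ℕ)) *
      (((z0.1 : ℂ) + ζ.2 * ((eth z0).1 : ℂ)) ^ (p.1.1 : ℕ) *
        ((z0.2 : ℂ) + ζ.2 * ((eth z0).2 : ℂ)) ^ (p.1.2 : ℕ))) / kGd n z0 ζ.1) := by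
  unfold kG hev
  rw [Finset.sum_div]
  refine Finset.sum_congr rfl fun p _ => ?_
  push_cast
  ring

private theorem kb_krho {n : ℕ} (hn : 1 ≤ n) (z0 : ℝ × ℝ) :
    0 ≤ krho n z0 ∧ krho n z0 ^ 2 * n ≤ sq1 z0 ^ 2 / 16 := by
  have h1 : (0 : ℝ) < n := by exact_mod_cast hn
  have hs : 0 ≤ sq1 z0 := Real.sqrt_nonneg _
  constructor
  · unfold krho
    positivity
  · unfold krho
    rw [div_pow, mul_pow, Real.sq_sqrt h1.le]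
    apply le_of_eq
    field_simp
    norm_num

/-- PROOF: on the torus `‖kev n b ζ / kker n z0 ζ‖ ≤ (∑ |b_p|²)^{1/2} (∑ ‖kw ζ^p / kker‖²)^{1/2} ≤
√2 |b|` (Cauchy-Schwarz, `kvar_le` in KosKernel.lean); the mean over the torus of a function
`≤ M` is `≤ M`; `√2 (|a.1| + |a.2|) ≤ 2 √(kN2 a)`. -/
theorem kA_le_norm {n : ℕ} (hn : 1 ≤ n) (z0 : ℝ × ℝ) {ρ : ℝ} (hρ : 0 ≤ ρ)
    (hρn : ρ ^ 2 * n ≤ sq1 z0 ^ 2 / 16) (a : KSp n) :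
    kA n z0 ρ a ≤ 3 * Real.sqrt (kN2 a) := by
  unfold kA
  refine kb_tmean fun θ φ => ?_
  rw [abs_of_nonneg (by positivity), kb_kev, kb_kev]
  exact kb_point _ (kvar_le hn z0 hρ hρn (kb_circle _ hρ θ) (kb_circle _ hρ φ)) a

/-- PROOF: the same with the estimate of the kernel in the chart of KpKernel.lean / KpMoment.lean
(the variance bound used there for `kG` on the torus of radius `krho`). -/
theorem kB_le_norm : ∃ C : ℝ, 1 ≤ C ∧ ∀ n : ℕ, 1 ≤ n → ∀ z0 : ℝ × ℝ, 0 < nm z0 →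
    ∀ a : KSp n, kB n z0 a ≤ C * Real.sqrt (kN2 a) := by
  refine ⟨3, by norm_num, fun n hn z0 h0 a => ?_⟩
  obtain ⟨hρ, hρn⟩ := kb_krho hn z0
  unfold kB
  refine kb_tmean fun θ φ => ?_
  rw [abs_of_nonneg (by positivity), kb_kG, kb_kG]
  have h1 := kb_circle (((0 : ℝ × ℝ).1 : ℝ) : ℂ) hρ θ
  have h2 := kb_circle (((0 : ℝ × ℝ).2 : ℝ) : ℂ) hρ φ
  have e1 : (((0 : ℝ × ℝ).1 : ℝ) : ℂ) = 0 := by simp
  have e2 : (((0 : ℝ × ℝ).2 : ℝ) : ℂ) = 0 := by simp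
  rw [e1, sub_zero] at h1
  rw [e2, sub_zero] at h2
  rw [e1, e2]
  exact kb_point _ (kG_var hn h0 hρ hρn h1 h2) a

/-- PROOF: `|(a p).1| + |(a p).2| ≤ 2 √(kN2 a)` for each `p`. -/
theorem kS_le_norm {n : ℕ} (a : KSp n) : kS a ≤ 1 + kD n * Real.sqrt (kN2 a) := by
  have h0 : 0 ≤ kN2 a := Finset.sum_nonneg fun p _ => by positivity
  have h1 : ∀ p : KIdx n, (a p).1 ^ 2 + (a p).2 ^ 2 ≤ kN2 a := fun p =>
    Finset.single_le_sum (f := fun p : KIdx n => (a p).1 ^ 2 + (a p).2 ^ 2)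
      (fun q _ => by positivity) (Finset.mem_univ p)
  have h2 : ∀ p : KIdx n, |(a p).1| + |(a p).2| ≤ 2 * Real.sqrt (kN2 a) := by
    intro p
    have e1 : |(a p).1| ≤ Real.sqrt (kN2 a) :=
      Real.abs_le_sqrt (by nlinarith [h1 p, sq_nonneg (a p).2])
    have e2 : |(a p).2| ≤ Real.sqrt (kN2 a) :=
      Real.abs_le_sqrt (by nlinarith [h1 p, sq_nonneg (a p).1])
    linarith
  have h3 : ∑ p : KIdx n, (|(a p).1| + |(a p).2|) ≤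
      ∑ _p : KIdx n, 2 * Real.sqrt (kN2 a) := Finset.sum_le_sum fun p _ => h2 p
  rw [Finset.sum_const, Finset.card_univ, nsmul_eq_mul] at h3
  unfold kS kD
  push_cast
  linarith

end Pool.Agent.Lib.MP_95e7ec_an
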