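import Mathlib
import Pool.Agent.Lib.MP_95e7ec_an.Sm.Defs
import Pool.Agent.Lib.MP_95e7ec_an.KosGauge
import Pool.Agent.Lib.MP_95e7ec_an.Cauchy2

/-!
# Smoothed count: Taylor polynomials in one and two complex variables
-/

set_option autoImplicit false

open Set Filter Topology MeasureTheory
open scoped ContDiff ENNReal

namespace Pool.Agent.Lib.MP_95e7ec_an

private theorem ta_norm_circle {R : ℝ} (hR : 0 < R) (θ : ℝ) : ‖circleMap 0 (2 * R) θ‖ = 2 * R := by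
  rw [norm_circleMap_zero, abs_of_pos (by positivity)]

private theorem ta_circle_ne {R : ℝ} (hR : 0 < R) (θ : ℝ) : circleMap 0 (2 * R) θ ≠ 0 := by
  rw [← norm_pos_iff, ta_norm_circle hR]
  positivity

private theorem ta_cont_inv {R : ℝ} (hR : 0 < R) (j : ℕ) :
    Continuous fun θ : ℝ => (circleMap 0 (2 * R) θ ^ j)⁻¹ :=
  ((continuous_circleMap 0 _).pow j).inv₀ fun θ => pow_ne_zero j (ta_circle_ne hR θ)

private theorem ta_geo (N : ℕ) {x Q : ℂ} (h : (x - 1) * Q = -1) :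
    Q = ∑ j ∈ Finset.range N, x ^ j + x ^ N * Q := by
  have h3 := geom_sum_mul x N
  linear_combination Q * h3 - (∑ j ∈ Finset.range N, x ^ j) * h

/-- one variable: Taylor polynomial with remainder, in terms of the mean over the circle.
PROOF: Cauchy formula on the circle `C(c, 2R)` (`DifferentiableOn.circleIntegral_sub_inv_smul`) and
`1/(ζ-u) = ∑_{j<N} (u-c)^j/(ζ-c)^(j+1) + ((u-c)/(ζ-c))^N / (ζ-u)`; here
`a j = (2π)⁻¹ ∫ θ, g (c + 2R e^{iθ}) (2R e^{iθ})^{-j}`, `|u-c| ≤ R`, `|ζ-u| ≥ R`. -/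
theorem taylor_one {g : ℂ → ℂ} {c : ℂ} {R : ℝ} (hR : 0 < R)
    (hg : DifferentiableOn ℂ g (Metric.closedBall c (2 * R))) (N : ℕ) {u : ℂ} (hu : ‖u - c‖ ≤ R) :
    ‖g u - ∑ j ∈ Finset.range N, ((2 * Real.pi : ℝ) : ℂ)⁻¹ *
        (∫ θ in (0 : ℝ)..2 * Real.pi, g (circleMap c (2 * R) θ) *
          (circleMap 0 (2 * R) θ ^ j)⁻¹) * (u - c) ^ j‖ ≤
      2 * (1 / 2) ^ N * ((2 * Real.pi)⁻¹ *
        ∫ θ in (0 : ℝ)..2 * Real.pi, ‖g (circleMap c (2 * R) θ)‖) := by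
  have hpi := Real.pi_pos
  have h2pi : ((2 * Real.pi : ℝ) : ℂ) ≠ 0 := by
    exact_mod_cast (by positivity : (2 * Real.pi : ℝ) ≠ 0)
  have hub : u ∈ Metric.ball c (2 * R) := by
    rw [mem_ball_iff_norm]
    linarith
  have h := hg.circleIntegral_sub_inv_smul hub
  set v := u - c with hv
  set e : ℝ → ℂ := fun θ => circleMap 0 (2 * R) θ with he
  have hce : ∀ θ, circleMap c (2 * R) θ = c + e θ := by
    intro θ
    simp [he, circleMap]
  have hen : ∀ θ, ‖e θ‖ = 2 * R := ta_norm_circle hR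
  have he0 : ∀ θ, e θ ≠ 0 := ta_circle_ne hR
  have hev : ∀ θ, R ≤ ‖e θ - v‖ := by
    intro θ
    have h1 := norm_sub_norm_le (e θ) v
    rw [hen] at h1
    linarith
  have hev0 : ∀ θ, e θ - v ≠ 0 := by
    intro θ h0
    have h1 := hev θ
    rw [h0, norm_zero] at h1
    linarith
  have hcm : ∀ θ, circleMap c (2 * R) θ ∈ Metric.closedBall c (2 * R) := fun θ =>
    Metric.sphere_subset_closedBall (circleMap_mem_sphere c (by linarith) θ)
  set G : ℝ → ℂ := fun θ => g (circleMap c (2 * R) θ) with hG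
  have hGc : Continuous G := hg.continuousOn.comp_continuous (continuous_circleMap c _) hcm
  have hec : Continuous e := continuous_circleMap 0 _
  -- Cauchy formula
  have h1 : g u = ((2 * Real.pi : ℝ) : ℂ)⁻¹ *
      ∫ θ in (0 : ℝ)..2 * Real.pi, G θ * (e θ * (e θ - v)⁻¹) := by
    rw [circleIntegral] at h
    have h2 : (∫ θ in (0 : ℝ)..2 * Real.pi, deriv (circleMap c (2 * R)) θ •
        (circleMap c (2 * R) θ - u)⁻¹ • g (circleMap c (2 * R) θ)) =
        Complex.I * ∫ θ in (0 : ℝ)..2 * Real.pi, G θ * (e θ * (e θ - v)⁻¹) := by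
      rw [← intervalIntegral.integral_const_mul]
      congr 1
      funext θ
      rw [deriv_circleMap, hce θ]
      have h3 : c + e θ - u = e θ - v := by rw [hv]; ring
      rw [h3]
      simp only [smul_eq_mul, hG, hce θ]
      change e θ * Complex.I * ((e θ - v)⁻¹ * g (c + e θ)) = _
      ring
    rw [h2, smul_eq_mul] at h
    have hI : Complex.I ≠ 0 := Complex.I_ne_zero
    have h3 : (∫ θ in (0 : ℝ)..2 * Real.pi, G θ * (e θ * (e θ - v)⁻¹)) =
        ((2 * Real.pi : ℝ) : ℂ) * g u := by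
      apply mul_left_cancel₀ hI
      rw [h]
      push_cast
      ring
    rw [h3, ← mul_assoc, inv_mul_cancel₀ h2pi, one_mul]
  -- the geometric sum
  have hgeo : ∀ θ, e θ * (e θ - v)⁻¹ = ∑ j ∈ Finset.range N, (e θ ^ j)⁻¹ * v ^ j +
      (v * (e θ)⁻¹) ^ N * (e θ * (e θ - v)⁻¹) := by
    intro θ
    have h2 : ∑ j ∈ Finset.range N, (e θ ^ j)⁻¹ * v ^ j =
        ∑ j ∈ Finset.range N, (v * (e θ)⁻¹) ^ j := by
      refine Finset.sum_congr rfl fun j _ => ?_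
      rw [mul_pow, inv_pow, mul_comm]
    have h4 : (v * (e θ)⁻¹ - 1) * (e θ * (e θ - v)⁻¹) = -1 := by
      have := he0 θ
      have := hev0 θ
      field_simp
      ring
    rw [h2]
    exact ta_geo N h4
  have hcj : ∀ j : ℕ, Continuous fun θ => G θ * (e θ ^ j)⁻¹ := fun j =>
    hGc.mul (ta_cont_inv hR j)
  have hcr : Continuous fun θ => G θ * ((v * (e θ)⁻¹) ^ N * (e θ * (e θ - v)⁻¹)) :=
    hGc.mul (((continuous_const.mul (hec.inv₀ he0)).pow N).mul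
      (hec.mul ((hec.sub continuous_const).inv₀ hev0)))
  have h5 : g u - ∑ j ∈ Finset.range N, ((2 * Real.pi : ℝ) : ℂ)⁻¹ *
        (∫ θ in (0 : ℝ)..2 * Real.pi, G θ * (e θ ^ j)⁻¹) * v ^ j =
      ((2 * Real.pi : ℝ) : ℂ)⁻¹ *
        ∫ θ in (0 : ℝ)..2 * Real.pi, G θ * ((v * (e θ)⁻¹) ^ N * (e θ * (e θ - v)⁻¹)) := by
    have h6 : (∫ θ in (0 : ℝ)..2 * Real.pi, G θ * (e θ * (e θ - v)⁻¹)) =
        (∑ j ∈ Finset.range N, (∫ θ in (0 : ℝ)..2 * Real.pi, G θ * (e θ ^ j)⁻¹) * v ^ j) +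
        ∫ θ in (0 : ℝ)..2 * Real.pi, G θ * ((v * (e θ)⁻¹) ^ N * (e θ * (e θ - v)⁻¹)) := by
      have h7 : ∀ j ∈ Finset.range N,
          (∫ θ in (0 : ℝ)..2 * Real.pi, G θ * (e θ ^ j)⁻¹) * v ^ j =
          ∫ θ in (0 : ℝ)..2 * Real.pi, G θ * (e θ ^ j)⁻¹ * v ^ j := fun j _ =>
        (intervalIntegral.integral_mul_const _ _).symm
      rw [Finset.sum_congr rfl h7, ← intervalIntegral.integral_finsetSum, ←
        intervalIntegral.integral_add]
      · congr 1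
        funext θ
        conv_lhs => rw [hgeo θ]
        rw [mul_add, Finset.mul_sum]
        congr 1
        refine Finset.sum_congr rfl fun j _ => ?_
        rw [mul_assoc]
      · exact (continuous_finsetSum _ fun j _ =>
          (hcj j).mul continuous_const).intervalIntegrable _ _
      · exact hcr.intervalIntegrable _ _
      · intro j _
        exact ((hcj j).mul continuous_const).intervalIntegrable _ _
    rw [h1, h6, mul_add, Finset.mul_sum]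
    have h8 : ∀ j ∈ Finset.range N, ((2 * Real.pi : ℝ) : ℂ)⁻¹ *
        ((∫ θ in (0 : ℝ)..2 * Real.pi, G θ * (e θ ^ j)⁻¹) * v ^ j) =
        ((2 * Real.pi : ℝ) : ℂ)⁻¹ *
        (∫ θ in (0 : ℝ)..2 * Real.pi, G θ * (e θ ^ j)⁻¹) * v ^ j := fun j _ =>
      (mul_assoc _ _ _).symm
    rw [Finset.sum_congr rfl h8, add_sub_cancel_left]
  rw [h5, norm_mul, norm_inv, Complex.norm_real, Real.norm_of_nonneg (by positivity)]
  have h9 : ‖∫ θ in (0 : ℝ)..2 * Real.pi, G θ * ((v * (e θ)⁻¹) ^ N * (e θ * (e θ - v)⁻¹))‖ ≤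
      ∫ θ in (0 : ℝ)..2 * Real.pi, 2 * (1 / 2) ^ N * ‖G θ‖ := by
    refine (intervalIntegral.norm_integral_le_integral_norm (by positivity)).trans ?_
    refine intervalIntegral.integral_mono_on (by positivity) (hcr.norm.intervalIntegrable _ _)
      ((continuous_const.mul hGc.norm).intervalIntegrable _ _) fun θ _ => ?_
    rw [norm_mul, mul_comm]
    refine mul_le_mul_of_nonneg_right ?_ (norm_nonneg _)
    rw [norm_mul, norm_pow, norm_mul, norm_mul, norm_inv, norm_inv, hen]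
    have h10 : ‖v‖ * (2 * R)⁻¹ ≤ 1 / 2 := by
      rw [← div_eq_mul_inv, div_le_iff₀ (by positivity)]
      linarith
    have h11 : 2 * R * ‖e θ - v‖⁻¹ ≤ 2 := by
      rw [← div_eq_mul_inv, div_le_iff₀ (by linarith [hev θ])]
      linarith [hev θ]
    calc (‖v‖ * (2 * R)⁻¹) ^ N * (2 * R * ‖e θ - v‖⁻¹)
        ≤ (1 / 2) ^ N * 2 := by gcongr
      _ = 2 * (1 / 2) ^ N := by ring
  calc (2 * Real.pi)⁻¹ *
      ‖∫ θ in (0 : ℝ)..2 * Real.pi, G θ * ((v * (e θ)⁻¹) ^ N * (e θ * (e θ - v)⁻¹))‖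
      ≤ (2 * Real.pi)⁻¹ * ∫ θ in (0 : ℝ)..2 * Real.pi, 2 * (1 / 2) ^ N * ‖G θ‖ := by gcongr
    _ = 2 * (1 / 2) ^ N * ((2 * Real.pi)⁻¹ * ∫ θ in (0 : ℝ)..2 * Real.pi, ‖G θ‖) := by
      rw [intervalIntegral.integral_const_mul]
      ring

/-- the Taylor operator on functions on the circle -/
private noncomputable def taT (N : ℕ) (R : ℝ) (G : ℝ → ℂ) (v : ℂ) : ℂ :=
  ∑ j ∈ Finset.range N, ((2 * Real.pi : ℝ) : ℂ)⁻¹ *
    (∫ θ in (0 : ℝ)..2 * Real.pi, G θ * (circleMap 0 (2 * R) θ ^ j)⁻¹) * v ^ j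

private theorem taT_sub (N : ℕ) {R : ℝ} (hR : 0 < R) {G H : ℝ → ℂ} (hG : Continuous G)
    (hH : Continuous H) (v : ℂ) :
    taT N R G v - taT N R H v = taT N R (fun θ => G θ - H θ) v := by
  unfold taT
  rw [← Finset.sum_sub_distrib]
  refine Finset.sum_congr rfl fun j _ => ?_
  have h1 : (∫ θ in (0 : ℝ)..2 * Real.pi, (G θ - H θ) * (circleMap 0 (2 * R) θ ^ j)⁻¹) =
      (∫ θ in (0 : ℝ)..2 * Real.pi, G θ * (circleMap 0 (2 * R) θ ^ j)⁻¹) -
      ∫ θ in (0 : ℝ)..2 * Real.pi, H θ * (circleMap 0 (2 * R) θ ^ j)⁻¹ := by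
    rw [← intervalIntegral.integral_sub]
    · congr 1
      funext θ
      ring
    · exact (hG.mul (ta_cont_inv hR j)).intervalIntegrable _ _
    · exact (hH.mul (ta_cont_inv hR j)).intervalIntegrable _ _
  rw [h1]
  ring

private theorem taT_bound (N : ℕ) {R : ℝ} (hR : 0 < R) {G : ℝ → ℂ} {v : ℂ}
    (hv : ‖v‖ ≤ R) : ‖taT N R G v‖ ≤ 2 * ((2 * Real.pi)⁻¹ *
      ∫ θ in (0 : ℝ)..2 * Real.pi, ‖G θ‖) := by
  have hpi := Real.pi_pos
  unfold taT
  have h0 : 0 ≤ ∫ θ in (0 : ℝ)..2 * Real.pi, ‖G θ‖ :=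
    intervalIntegral.integral_nonneg (by positivity) fun θ _ => norm_nonneg _
  have h1 : ∀ j ∈ Finset.range N, ‖((2 * Real.pi : ℝ) : ℂ)⁻¹ *
      (∫ θ in (0 : ℝ)..2 * Real.pi, G θ * (circleMap 0 (2 * R) θ ^ j)⁻¹) * v ^ j‖ ≤
      (1 / 2) ^ j * ((2 * Real.pi)⁻¹ * ∫ θ in (0 : ℝ)..2 * Real.pi, ‖G θ‖) := by
    intro j _
    rw [norm_mul, norm_mul, norm_inv, Complex.norm_real, Real.norm_of_nonneg (by positivity),
      norm_pow]
    have h2 : ‖∫ θ in (0 : ℝ)..2 * Real.pi, G θ * (circleMap 0 (2 * R) θ ^ j)⁻¹‖ ≤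
        ∫ θ in (0 : ℝ)..2 * Real.pi, ((2 * R) ^ j)⁻¹ * ‖G θ‖ := by
      refine (intervalIntegral.norm_integral_le_integral_norm (by positivity)).trans
        (le_of_eq ?_)
      congr 1
      funext θ
      rw [norm_mul, norm_inv, norm_pow, ta_norm_circle hR, mul_comm]
    rw [intervalIntegral.integral_const_mul] at h2
    have h3 : ‖v‖ ^ j ≤ R ^ j := by gcongr
    calc (2 * Real.pi)⁻¹ *
        ‖∫ θ in (0 : ℝ)..2 * Real.pi, G θ * (circleMap 0 (2 * R) θ ^ j)⁻¹‖ * ‖v‖ ^ j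
        ≤ (2 * Real.pi)⁻¹ * (((2 * R) ^ j)⁻¹ * ∫ θ in (0 : ℝ)..2 * Real.pi, ‖G θ‖) *
          R ^ j := by gcongr
      _ = (1 / 2) ^ j * ((2 * Real.pi)⁻¹ * ∫ θ in (0 : ℝ)..2 * Real.pi, ‖G θ‖) := by
          have h4 : ((2 * R) ^ j)⁻¹ * R ^ j = (1 / 2) ^ j := by
            rw [← inv_pow, ← mul_pow]
            congr 1
            field_simp
          rw [← h4]
          ring
  refine (norm_sum_le_of_le _ h1).trans ?_
  rw [← Finset.sum_mul]
  refine mul_le_mul_of_nonneg_right ?_ (by positivity)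
  have h5 := sum_geometric_two_le N
  exact h5

/-- two variables: a polynomial `∑_{j,l<N} A j l (u - c₁)^j (v - c₂)^l` close to `F` on the bidisc of
radius `R`, in terms of the torus mean at the radius `2R`. The coefficients are real if `F` commutes
with the conjugation. PROOF: `A j l = (2π)⁻² ∫∫ F(torus) (2R e^{iθ})^{-j} (2R e^{iφ})^{-l}`; apply
`taylor_one` in each variable: `F - TF = (F - T₁F) + T₁(F - T₂F)`, and
`‖T₁ h (u)‖ ≤ 2 mean ‖h‖` (geometric series, `|u-c₁|/(2R) ≤ 1/2`); the mean over one circle of `‖F‖` at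
a point inside is at most `4` times the torus mean (`c2_mean` in Cauchy2.lean, private, is a model).
Reality: substitution `θ ↦ 2π - θ`, `φ ↦ 2π - φ` (or prove that the conjugate of `A j l` is given by
the same integral: `circleMap c r (-θ) = conj (circleMap c r θ)` for real `c`, periodicity). -/
theorem taylor_two : ∃ C : ℝ, 1 ≤ C ∧ ∀ (F : ℂ × ℂ → ℂ) (z0 : ℝ × ℝ) (R : ℝ) (O : Set (ℂ × ℂ)),
    0 < R → IsOpen O → DifferentiableOn ℂ F O →
    (∀ ζ : ℂ × ℂ, ‖ζ.1 - z0.1‖ ≤ 2 * R → ‖ζ.2 - z0.2‖ ≤ 2 * R → ζ ∈ O) →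
    (∀ ζ : ℂ × ℂ, F ((starRingEnd ℂ) ζ.1, (starRingEnd ℂ) ζ.2) = (starRingEnd ℂ) (F ζ)) →
    ∀ N : ℕ, ∃ A : ℕ → ℕ → ℝ, ∀ w : ℂ × ℂ, ‖w.1 - z0.1‖ ≤ R → ‖w.2 - z0.2‖ ≤ R →
      ‖F w - ∑ j ∈ Finset.range N, ∑ l ∈ Finset.range N,
        (A j l : ℂ) * ((w.1 - z0.1) ^ j * (w.2 - z0.2) ^ l)‖ ≤
      C * tmean (fun ζ => ‖F ζ‖) z0 (2 * R) / 2 ^ N := by
  refine ⟨8, by norm_num, ?_⟩
  intro F z0 R O hR _ hF hsub hconj N
  have hpi := Real.pi_pos
  have hcm : ∀ (c : ℂ) θ, ‖circleMap c (2 * R) θ - c‖ ≤ 2 * R := by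
    intro c θ
    have := circleMap_mem_sphere c (show 0 ≤ 2 * R by linarith) θ
    rw [mem_sphere_iff_norm] at this
    exact this.le
  -- slices
  have s1 : ∀ v : ℂ, ‖v - z0.2‖ ≤ 2 * R →
      DifferentiableOn ℂ (fun ζ => F (ζ, v)) (Metric.closedBall (z0.1 : ℂ) (2 * R)) := by
    intro v hv
    refine hF.comp (f := fun ζ : ℂ => (ζ, v)) (by fun_prop) fun ζ hζ => hsub _ ?_ hv
    exact mem_closedBall_iff_norm.1 hζ
  have s2 : ∀ v : ℂ, ‖v - z0.1‖ ≤ 2 * R →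
      DifferentiableOn ℂ (fun ζ => F (v, ζ)) (Metric.closedBall (z0.2 : ℂ) (2 * R)) := by
    intro v hv
    refine hF.comp (f := fun ζ : ℂ => (v, ζ)) (by fun_prop) fun ζ hζ => hsub _ hv ?_
    exact mem_closedBall_iff_norm.1 hζ
  set G : ℝ → ℝ → ℂ := fun θ φ =>
    F (circleMap (z0.1 : ℂ) (2 * R) θ, circleMap (z0.2 : ℂ) (2 * R) φ) with hG
  have hGc : Continuous (Function.uncurry G) := by
    refine hF.continuousOn.comp_continuous (f := fun p : ℝ × ℝ =>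
      (circleMap (z0.1 : ℂ) (2 * R) p.1, circleMap (z0.2 : ℂ) (2 * R) p.2)) (by fun_prop) ?_
    intro p
    exact hsub _ (hcm _ _) (hcm _ _)
  have hGn : Continuous (Function.uncurry fun θ φ => ‖G θ φ‖) := hGc.norm
  -- the inner coefficients
  set b : ℕ → ℝ → ℂ := fun l θ =>
    ∫ φ in (0 : ℝ)..2 * Real.pi, G θ φ * (circleMap 0 (2 * R) φ ^ l)⁻¹ with hb
  have hbc : ∀ l, Continuous (b l) := by
    intro l
    refine intervalIntegral.continuous_parametric_intervalIntegral_of_continuous' ?_ 0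
      (2 * Real.pi)
    exact hGc.mul ((ta_cont_inv hR l).comp continuous_snd)
  obtain ⟨a, ha⟩ : ∃ a : ℕ → ℕ → ℂ, a = fun j l =>
    ((2 * Real.pi : ℝ) : ℂ)⁻¹ * (((2 * Real.pi : ℝ) : ℂ)⁻¹ *
    ∫ θ in (0 : ℝ)..2 * Real.pi, b l θ * (circleMap 0 (2 * R) θ ^ j)⁻¹) := ⟨_, rfl⟩
  obtain ⟨P, hP⟩ : ∃ P : ℂ → ℂ → ℂ, P = fun u v => ∑ j ∈ Finset.range N, ∑ l ∈ Finset.range N,
    a j l * (u ^ j * v ^ l) := ⟨_, rfl⟩
  -- the torus mean
  have htm : tmean (fun ζ => ‖F ζ‖) z0 (2 * R) = (2 * Real.pi)⁻¹ *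
      ∫ θ in (0 : ℝ)..2 * Real.pi, (2 * Real.pi)⁻¹ *
        ∫ φ in (0 : ℝ)..2 * Real.pi, ‖G θ φ‖ := by
    unfold tmean
    rw [intervalIntegral.integral_const_mul, ← mul_assoc]
    congr 1
    rw [← mul_inv]
    congr 1
    ring
  have hmc : Continuous fun θ : ℝ => (2 * Real.pi)⁻¹ *
      ∫ φ in (0 : ℝ)..2 * Real.pi, ‖G θ φ‖ :=
    continuous_const.mul
      (intervalIntegral.continuous_parametric_intervalIntegral_of_continuous' hGn 0 (2 * Real.pi))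
  -- the estimate for the complex polynomial
  have key : ∀ w : ℂ × ℂ, ‖w.1 - z0.1‖ ≤ R → ‖w.2 - z0.2‖ ≤ R →
      ‖F w - P (w.1 - z0.1) (w.2 - z0.2)‖ ≤
        8 * tmean (fun ζ => ‖F ζ‖) z0 (2 * R) / 2 ^ N := by
    intro w h1 h2
    set u := w.1 - z0.1 with hu
    set v := w.2 - z0.2 with hv
    -- the function on the first circle
    set g : ℝ → ℂ := fun θ => F (circleMap (z0.1 : ℂ) (2 * R) θ, w.2) with hg
    have hw2 : ‖w.2 - z0.2‖ ≤ 2 * R := by linarith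
    have hgc : Continuous g := by
      refine hF.continuousOn.comp_continuous (f := fun θ : ℝ =>
        (circleMap (z0.1 : ℂ) (2 * R) θ, w.2)) (by fun_prop) ?_
      intro θ
      exact hsub _ (hcm _ _) hw2
    have b1 : ‖F w - taT N R g u‖ ≤
        2 * (1 / 2) ^ N * ((2 * Real.pi)⁻¹ * ∫ θ in (0 : ℝ)..2 * Real.pi, ‖g θ‖) :=
      taylor_one hR (s1 w.2 hw2) N h1
    have b2 : ∀ θ, ‖g θ‖ ≤ 2 * ((2 * Real.pi)⁻¹ *
        ∫ φ in (0 : ℝ)..2 * Real.pi, ‖G θ φ‖) := by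
      intro θ
      have h3 := taylor_one hR (s2 _ (hcm (z0.1 : ℂ) θ)) 0 h2
      simp only [Finset.range_zero, Finset.sum_empty, sub_zero, pow_zero, mul_one] at h3
      exact h3
    have b3 : ∀ θ, ‖g θ - taT N R (G θ) v‖ ≤ 2 * (1 / 2) ^ N * ((2 * Real.pi)⁻¹ *
        ∫ φ in (0 : ℝ)..2 * Real.pi, ‖G θ φ‖) := fun θ =>
      taylor_one hR (s2 _ (hcm (z0.1 : ℂ) θ)) N h2
    have hTc : Continuous fun θ => taT N R (G θ) v := by
      unfold taT
      exact continuous_finsetSum _ fun l _ =>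
        (continuous_const.mul (hbc l)).mul continuous_const
    have e1 : taT N R (fun θ => taT N R (G θ) v) u = P u v := by
      simp only [hP]
      unfold taT
      refine Finset.sum_congr rfl fun j _ => ?_
      have h4 : (∫ θ in (0 : ℝ)..2 * Real.pi, (∑ l ∈ Finset.range N,
          ((2 * Real.pi : ℝ) : ℂ)⁻¹ * b l θ * v ^ l) * (circleMap 0 (2 * R) θ ^ j)⁻¹) =
          ∑ l ∈ Finset.range N, (((2 * Real.pi : ℝ) : ℂ)⁻¹ *
            ∫ θ in (0 : ℝ)..2 * Real.pi, b l θ * (circleMap 0 (2 * R) θ ^ j)⁻¹) * v ^ l := by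
        have h5 : ∀ l ∈ Finset.range N, (((2 * Real.pi : ℝ) : ℂ)⁻¹ *
            ∫ θ in (0 : ℝ)..2 * Real.pi, b l θ * (circleMap 0 (2 * R) θ ^ j)⁻¹) * v ^ l =
            ∫ θ in (0 : ℝ)..2 * Real.pi, ((2 * Real.pi : ℝ) : ℂ)⁻¹ * b l θ * v ^ l *
              (circleMap 0 (2 * R) θ ^ j)⁻¹ := by
          intro l _
          rw [← intervalIntegral.integral_const_mul, ← intervalIntegral.integral_mul_const]
          congr 1
          funext θ
          ring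
        rw [Finset.sum_congr rfl h5, ← intervalIntegral.integral_finsetSum]
        · congr 1
          funext θ
          rw [Finset.sum_mul]
        · intro l _
          exact (((continuous_const.mul (hbc l)).mul continuous_const).mul
            (ta_cont_inv hR j)).intervalIntegrable _ _
      rw [h4, Finset.mul_sum, Finset.sum_mul]
      refine Finset.sum_congr rfl fun l _ => ?_
      simp only [ha]
      ring
    have b4 : ‖taT N R g u - P u v‖ ≤ 2 * ((2 * Real.pi)⁻¹ *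
        ∫ θ in (0 : ℝ)..2 * Real.pi, ‖g θ - taT N R (G θ) v‖) := by
      rw [← e1, taT_sub N hR hgc hTc]
      exact taT_bound N hR h1
    have b5 : ∫ θ in (0 : ℝ)..2 * Real.pi, ‖g θ - taT N R (G θ) v‖ ≤
        2 * (1 / 2) ^ N * ∫ θ in (0 : ℝ)..2 * Real.pi, (2 * Real.pi)⁻¹ *
        ∫ φ in (0 : ℝ)..2 * Real.pi, ‖G θ φ‖ := by
      rw [← intervalIntegral.integral_const_mul]
      exact intervalIntegral.integral_mono_on (by positivity)
        ((hgc.sub hTc).norm.intervalIntegrable _ _)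
        ((continuous_const.mul hmc).intervalIntegrable _ _) fun θ _ => b3 θ
    have b6 : ∫ θ in (0 : ℝ)..2 * Real.pi, ‖g θ‖ ≤
        2 * ∫ θ in (0 : ℝ)..2 * Real.pi, (2 * Real.pi)⁻¹ *
        ∫ φ in (0 : ℝ)..2 * Real.pi, ‖G θ φ‖ := by
      rw [← intervalIntegral.integral_const_mul]
      exact intervalIntegral.integral_mono_on (by positivity)
        (hgc.norm.intervalIntegrable _ _)
        ((continuous_const.mul hmc).intervalIntegrable _ _) fun θ _ => b2 θ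
    have b7 : ‖F w - P u v‖ ≤ ‖F w - taT N R g u‖ + ‖taT N R g u - P u v‖ := by
      have := norm_add_le (F w - taT N R g u) (taT N R g u - P u v)
      rwa [sub_add_sub_cancel] at this
    refine b7.trans ?_
    set T := ∫ θ in (0 : ℝ)..2 * Real.pi, (2 * Real.pi)⁻¹ *
        ∫ φ in (0 : ℝ)..2 * Real.pi, ‖G θ φ‖ with hT
    have hN : (8 : ℝ) * tmean (fun ζ => ‖F ζ‖) z0 (2 * R) / 2 ^ N =
        2 * (1 / 2) ^ N * ((2 * Real.pi)⁻¹ * (2 * T)) +
        2 * ((2 * Real.pi)⁻¹ * (2 * (1 / 2) ^ N * T)) := by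
      rw [htm, one_div, inv_pow]
      ring
    rw [hN]
    refine add_le_add (b1.trans ?_) (b4.trans ?_)
    · gcongr
    · gcongr
  refine ⟨fun j l => (a j l).re, fun w h1 h2 => ?_⟩
  set E := 8 * tmean (fun ζ => ‖F ζ‖) z0 (2 * R) / 2 ^ N with hE
  have k1 := key w h1 h2
  have cz : ∀ x : ℝ, ∀ y : ℂ, (starRingEnd ℂ) y - (x : ℂ) = (starRingEnd ℂ) (y - x) := by
    intro x y
    rw [map_sub, Complex.conj_ofReal]
  have k2 := key ((starRingEnd ℂ) w.1, (starRingEnd ℂ) w.2)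
    (by simp only [cz]; rw [RCLike.norm_conj]; exact h1)
    (by simp only [cz]; rw [RCLike.norm_conj]; exact h2)
  rw [hconj w] at k2
  simp only [cz] at k2
  have k3 : ‖F w - (starRingEnd ℂ) (P ((starRingEnd ℂ) (w.1 - z0.1))
      ((starRingEnd ℂ) (w.2 - z0.2)))‖ ≤ E := by
    have h3 : F w - (starRingEnd ℂ) (P ((starRingEnd ℂ) (w.1 - z0.1))
      ((starRingEnd ℂ) (w.2 - z0.2))) = (starRingEnd ℂ) ((starRingEnd ℂ) (F w) -
        P ((starRingEnd ℂ) (w.1 - z0.1)) ((starRingEnd ℂ) (w.2 - z0.2))) := by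
      rw [map_sub (starRingEnd ℂ) ((starRingEnd ℂ) (F w)), Complex.conj_conj]
    rw [h3, RCLike.norm_conj]
    exact k2
  have k4 : ∑ j ∈ Finset.range N, ∑ l ∈ Finset.range N,
        (((a j l).re : ℝ) : ℂ) * ((w.1 - z0.1) ^ j * (w.2 - z0.2) ^ l) =
      (1 / 2 : ℂ) * (P (w.1 - z0.1) (w.2 - z0.2) + (starRingEnd ℂ)
        (P ((starRingEnd ℂ) (w.1 - z0.1)) ((starRingEnd ℂ) (w.2 - z0.2)))) := by
    simp only [hP]
    rw [map_sum, ← Finset.sum_add_distrib, Finset.mul_sum]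
    refine Finset.sum_congr rfl fun j _ => ?_
    rw [map_sum, ← Finset.sum_add_distrib, Finset.mul_sum]
    refine Finset.sum_congr rfl fun l _ => ?_
    rw [map_mul, map_mul, map_pow, map_pow, Complex.conj_conj, Complex.conj_conj,
      Complex.re_eq_add_conj]
    ring
  rw [k4]
  have k5 : F w - (1 / 2 : ℂ) * (P (w.1 - z0.1) (w.2 - z0.2) + (starRingEnd ℂ)
        (P ((starRingEnd ℂ) (w.1 - z0.1)) ((starRingEnd ℂ) (w.2 - z0.2)))) =
      (1 / 2 : ℂ) * ((F w - P (w.1 - z0.1) (w.2 - z0.2)) + (F w - (starRingEnd ℂ)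
        (P ((starRingEnd ℂ) (w.1 - z0.1)) ((starRingEnd ℂ) (w.2 - z0.2))))) := by
    ring
  rw [k5, norm_mul]
  have k6 := norm_add_le (F w - P (w.1 - z0.1) (w.2 - z0.2)) (F w - (starRingEnd ℂ)
        (P ((starRingEnd ℂ) (w.1 - z0.1)) ((starRingEnd ℂ) (w.2 - z0.2))))
  have k7 : ‖(1 / 2 : ℂ)‖ = 1 / 2 := by norm_num
  rw [k7]
  linarith

end Pool.Agent.Lib.MP_95e7ec_an
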