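import Mathlib
import Pool.Agent.Lib.MP_95e7ec_an.Sm.Defs
import Pool.Agent.Lib.MP_95e7ec_an.KosGauge
import Pool.Agent.Lib.MP_95e7ec_an.Cauchy2
import Pool.Agent.Lib.MP_95e7ec_an.Sm.TaylorA

/-!
# Smoothed count: Taylor polynomials of `X / W` on a cell
-/

set_option autoImplicit false

open Set Filter Topology MeasureTheory
open scoped ContDiff ENNReal

namespace Pool.Agent.Lib.MP_95e7ec_an

/-- Cauchy estimate for the derivative of the real part on the real line -/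
private theorem tc_cauchy {G : ℂ → ℂ} {x0 r M g' : ℝ} {g : ℝ → ℝ} (hr : 0 < r)
    (hG : DifferentiableOn ℂ G (Metric.closedBall (x0 : ℂ) r))
    (hM : ∀ ζ ∈ Metric.closedBall (x0 : ℂ) r, ‖G ζ‖ ≤ M)
    (hg : ∀ᶠ x in 𝓝 x0, g x = (G (x : ℂ)).re) (hg' : HasDerivAt g g' x0) : |g'| ≤ M / r := by
  have h1 : DifferentiableAt ℂ G (x0 : ℂ) :=
    (hG (x0 : ℂ) (Metric.mem_closedBall_self hr.le)).differentiableAt
      (Metric.closedBall_mem_nhds _ hr)
  have h2 := h1.hasDerivAt.real_of_complex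
  have h3 := hg'.unique (h2.congr_of_eventuallyEq hg)
  have h4 := Complex.norm_deriv_le_of_forall_mem_sphere_norm_le hr
    (hG.diffContOnCl_ball subset_rfl) (fun z hz => hM z (Metric.sphere_subset_closedBall hz))
  rw [h3]
  exact (Complex.abs_re_le_norm _).trans h4

private theorem tc_deg {N j l : ℕ} (hj : j < N) (hl : l < N) (a c d : ℝ) :
    (MvPolynomial.C a * ((MvPolynomial.X 0 - MvPolynomial.C c) ^ j *
      (MvPolynomial.X 1 - MvPolynomial.C d) ^ l) : MvPolynomial (Fin 2) ℝ).totalDegree ≤ 2 * N := by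
  have h1 : ∀ (i : Fin 2) (c : ℝ), (MvPolynomial.X i - MvPolynomial.C c :
      MvPolynomial (Fin 2) ℝ).totalDegree ≤ 1 := by
    intro i c
    refine (MvPolynomial.totalDegree_sub _ _).trans ?_
    rw [MvPolynomial.totalDegree_X, MvPolynomial.totalDegree_C]
    simp
  refine (MvPolynomial.totalDegree_mul _ _).trans ?_
  rw [MvPolynomial.totalDegree_C, zero_add]
  refine (MvPolynomial.totalDegree_mul _ _).trans ?_
  have h2 := (MvPolynomial.totalDegree_pow (MvPolynomial.X 0 - MvPolynomial.C c :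
      MvPolynomial (Fin 2) ℝ) j).trans (Nat.mul_le_mul_left j (h1 0 c))
  have h3 := (MvPolynomial.totalDegree_pow (MvPolynomial.X 1 - MvPolynomial.C d :
      MvPolynomial (Fin 2) ℝ) l).trans (Nat.mul_le_mul_left l (h1 1 d))
  omega

private theorem tc_conj (n : ℕ) (b : KIdx n → ℝ) (z0 : ℝ × ℝ) (ζ : ℂ × ℂ) :
    kev n b ((starRingEnd ℂ) ζ.1, (starRingEnd ℂ) ζ.2) /
      kker n z0 ((starRingEnd ℂ) ζ.1, (starRingEnd ℂ) ζ.2) =
    (starRingEnd ℂ) (kev n b ζ / kker n z0 ζ) := by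
  rw [← kev_kdir, ← kev_kdir, map_div₀]
  unfold kev
  simp only [map_sum, map_mul, map_pow, Complex.conj_ofReal]

/-- the Taylor polynomial of `X_b / W` on a cell, with the estimate of the first derivatives.
PROOF: `F = kev n b / kker n z0` on `O = {kker ≠ 0}` (see `kg_Y` in KosGauge.lean; `kker_ne_zero` needs
`4 r ≤ sq1 z0 / 4`). `taylor_two` with `R = 2 r` (torus radius `4 r`):
`P = ∑ A j l (X 0 - C z0.1)^j (X 1 - C z0.2)^l`, total degree `≤ 2 N`. The functions `f, f1, f2`: real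
part of `F` and of its complex partial derivatives at real points (`HasDerivAt.real_of_complex`);
`F` is real at real points (`kev_ofReal`, `kev_kdir`). Bounds of `f`: `c2_mean2` (private) or
`taylor_two` with `N = 0`. Derivatives: Cauchy (`Complex.norm_deriv_le_of_forall_mem_sphere_norm_le`)
in one variable on discs of radius `r` inside the bidisc of radius `2 r`, for `F` and for `F - P`;
`pe (arr (2N) P) = eval P` (`eval_eq_pe`), `pex`, `pey` by uniqueness of derivatives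
(`pe_hasDerivAt`). -/
theorem taylor_cell : ∃ C : ℝ, 1 ≤ C ∧ ∀ (n : ℕ) (b : KIdx n → ℝ) (z0 : ℝ × ℝ) (r : ℝ),
    0 < r → 2 * r ≤ sq1 z0 / 8 → ∀ N : ℕ,
    ∃ (f f1 f2 : ℝ × ℝ → ℝ) (P : MvPolynomial (Fin 2) ℝ), P.totalDegree ≤ 2 * N ∧
      ∀ z ∈ disc z0 r, MvPolynomial.eval ![z.1, z.2] (kPoly n b) =
          MvPolynomial.eval ![z.1, z.2] (kPoly n (kdir n z0)) * f z ∧
        HasDerivAt (fun x => f (x, z.2)) (f1 z) z.1 ∧
        HasDerivAt (fun y => f (z.1, y)) (f2 z) z.2 ∧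
        |f1 z| ≤ C * tmean (fun ζ => ‖kev n b ζ / kker n z0 ζ‖) z0 (4 * r) / r ∧
        |f2 z| ≤ C * tmean (fun ζ => ‖kev n b ζ / kker n z0 ζ‖) z0 (4 * r) / r ∧
        |f z - pe (arr (2 * N) P) z.1 z.2| ≤
          C * tmean (fun ζ => ‖kev n b ζ / kker n z0 ζ‖) z0 (4 * r) / 2 ^ N ∧
        |f1 z - pex (arr (2 * N) P) z.1 z.2| ≤
          C * tmean (fun ζ => ‖kev n b ζ / kker n z0 ζ‖) z0 (4 * r) / 2 ^ N / r ∧
        |f2 z - pey (arr (2 * N) P) z.1 z.2| ≤
          C * tmean (fun ζ => ‖kev n b ζ / kker n z0 ζ‖) z0 (4 * r) / 2 ^ N / r := by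
  obtain ⟨C0, hC0, hT2⟩ := taylor_two
  refine ⟨C0 + 32, by linarith, fun n b z0 r hr hr8 N => ?_⟩
  have hO : IsOpen {ζ : ℂ × ℂ | kker n z0 ζ ≠ 0} :=
    isOpen_ne_fun (kg_continuous_kker n z0) continuous_const
  have hF : DifferentiableOn ℂ (fun ζ => kev n b ζ / kker n z0 ζ)
      {ζ : ℂ × ℂ | kker n z0 ζ ≠ 0} := by
    intro ζ hζ
    have h : DifferentiableAt ℂ (fun ζ => kev n b ζ * (kker n z0 ζ)⁻¹) ζ :=
      (kg_differentiable_kev n b ζ).fun_mul ((kg_differentiable_kker n z0 ζ).fun_inv hζ)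
    simp only [← div_eq_mul_inv] at h
    exact h.differentiableWithinAt
  have hsub : ∀ ζ : ℂ × ℂ, ‖ζ.1 - z0.1‖ ≤ 2 * (2 * r) → ‖ζ.2 - z0.2‖ ≤ 2 * (2 * r) →
      ζ ∈ {ζ : ℂ × ℂ | kker n z0 ζ ≠ 0} := fun ζ h1 h2 =>
    kker_ne_zero n z0 (by linarith) (by linarith)
  have hval : ∀ x y : ℝ, kev n b ((x : ℂ), (y : ℂ)) / kker n z0 ((x : ℂ), (y : ℂ)) =
      ((MvPolynomial.eval ![x, y] (kPoly n b) /
        MvPolynomial.eval ![x, y] (kPoly n (kdir n z0)) : ℝ) : ℂ) := by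
    intro x y
    rw [← kev_kdir, kev_ofReal, kev_ofReal]
    push_cast
    rfl
  have hreal : ∀ x y : ℝ, ((x : ℂ), (y : ℂ)) ∈ {ζ : ℂ × ℂ | kker n z0 ζ ≠ 0} →
      ((fun ζ => kev n b ζ / kker n z0 ζ) ((x : ℂ), (y : ℂ))).im = 0 := by
    intro x y _
    show (kev n b ((x : ℂ), (y : ℂ)) / kker n z0 ((x : ℂ), (y : ℂ))).im = 0
    rw [hval]
    exact Complex.ofReal_im _
  obtain ⟨f, f1, f2, f11, f12, f21, f22, h⟩ := cauchy_twoC (show 0 < 2 * r by linarith)
    hO hF hsub hreal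
  obtain ⟨A, hA⟩ := hT2 (fun ζ => kev n b ζ / kker n z0 ζ) z0 (2 * r)
    {ζ : ℂ × ℂ | kker n z0 ζ ≠ 0} (by linarith) hO hF hsub (tc_conj n b z0) N
  have e4 : 2 * (2 * r) = 4 * r := by ring
  rw [e4] at h hA hsub
  set T := tmean (fun ζ => ‖kev n b ζ / kker n z0 ζ‖) z0 (4 * r) with hT
  have hd : ∀ z ∈ disc z0 r, |z.1 - z0.1| < r ∧ |z.2 - z0.2| < r := by
    intro z hz
    simp only [disc, Set.mem_ofPred_eq] at hz
    constructor
    · exact abs_lt_of_sq_lt_sq (by nlinarith [sq_nonneg (z.2 - z0.2)]) hr.le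
    · exact abs_lt_of_sq_lt_sq (by nlinarith [sq_nonneg (z.1 - z0.1)]) hr.le
  have hT0 : 0 ≤ T := by
    have h1 := (h z0 (by rw [sub_self, abs_zero]; linarith)
      (by rw [sub_self, abs_zero]; linarith)).2.2.2.2.2.2.2.1
    have := abs_nonneg (f z0)
    linarith
  -- the polynomial
  set P : MvPolynomial (Fin 2) ℝ := ∑ j ∈ Finset.range N, ∑ l ∈ Finset.range N,
    MvPolynomial.C (A j l) * ((MvPolynomial.X 0 - MvPolynomial.C z0.1) ^ j *
      (MvPolynomial.X 1 - MvPolynomial.C z0.2) ^ l) with hP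
  have hPd : P.totalDegree ≤ 2 * N := by
    refine MvPolynomial.totalDegree_finsetSum_le fun j hj =>
      MvPolynomial.totalDegree_finsetSum_le fun l hl => ?_
    exact tc_deg (Finset.mem_range.1 hj) (Finset.mem_range.1 hl) _ _ _
  set S : ℂ → ℂ → ℂ := fun u v => ∑ j ∈ Finset.range N, ∑ l ∈ Finset.range N,
        (A j l : ℂ) * ((u - z0.1) ^ j * (v - z0.2) ^ l) with hS
  have hPe : ∀ x y : ℝ, ((pe (arr (2 * N) P) x y : ℝ) : ℂ) = S x y := by
    intro x y
    rw [← eval_eq_pe P hPd, hP, hS]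
    simp only [map_sum, map_mul, map_pow, map_sub, MvPolynomial.eval_C, MvPolynomial.eval_X,
      Matrix.cons_val_zero, Matrix.cons_val_one]
    push_cast
    rfl
  have hA' : ∀ u v : ℂ, ‖u - z0.1‖ ≤ 2 * r → ‖v - z0.2‖ ≤ 2 * r →
      ‖kev n b (u, v) / kker n z0 (u, v) - S u v‖ ≤ C0 * T / 2 ^ N := fun u v hu hv =>
    hA (u, v) hu hv
  have hpow : (0 : ℝ) < 2 ^ N := by positivity
  have hCle : C0 * T / 2 ^ N ≤ (C0 + 32) * T / 2 ^ N := by
    refine div_le_div_of_nonneg_right ?_ hpow.le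
    nlinarith
  have hnr : ∀ x c : ℝ, ‖(x : ℂ) - (c : ℂ)‖ = |x - c| := by
    intro x c
    rw [← Complex.ofReal_sub, Complex.norm_real, Real.norm_eq_abs]
  have tri : ∀ (x y w : ℂ), ‖x - w‖ ≤ ‖x - y‖ + ‖y - w‖ := fun x y w =>
    norm_sub_le_norm_sub_add_norm_sub x y w
  refine ⟨f, f1, f2, P, hPd, fun z hz => ?_⟩
  obtain ⟨hz1, hz2⟩ := hd z hz
  obtain ⟨e0, d1, d2, _, _, _, _, b0, b1, b2, _⟩ := h z (by linarith) (by linarith)
  have hb1 : 64 * T / (2 * r) ≤ (C0 + 32) * T / r := by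
    rw [show 64 * T / (2 * r) = 32 * T / r by field_simp; ring]
    refine div_le_div_of_nonneg_right ?_ hr.le
    nlinarith
  refine ⟨?_, d1, d2, b1.trans hb1, b2.trans hb1, ?_, ?_, ?_⟩
  · have e1 := e0.trans (hval z.1 z.2)
    have e2 := Complex.ofReal_injective e1
    have hne : MvPolynomial.eval ![z.1, z.2] (kPoly n (kdir n z0)) ≠ 0 := by
      intro h0
      have h1 : kker n z0 ((z.1 : ℂ), (z.2 : ℂ)) ≠ 0 := by
        refine hsub _ ?_ ?_
        · show ‖(z.1 : ℂ) - z0.1‖ ≤ 4 * r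
          rw [hnr]
          linarith
        · show ‖(z.2 : ℂ) - z0.2‖ ≤ 4 * r
          rw [hnr]
          linarith
      rw [← kev_kdir, kev_ofReal, h0] at h1
      exact h1 Complex.ofReal_zero
    rw [e2, mul_div_cancel₀ _ hne]
  · refine le_trans ?_ hCle
    have h1 := hA' z.1 z.2 (by rw [hnr]; linarith) (by rw [hnr]; linarith)
    have h2 : ((f z - pe (arr (2 * N) P) z.1 z.2 : ℝ) : ℂ) =
        kev n b ((z.1 : ℂ), (z.2 : ℂ)) / kker n z0 ((z.1 : ℂ), (z.2 : ℂ)) - S z.1 z.2 := by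
      rw [Complex.ofReal_sub, hPe, e0]
    rw [← h2, Complex.norm_real, Real.norm_eq_abs] at h1
    exact h1
  · refine le_trans ?_ (div_le_div_of_nonneg_right hCle hr.le)
    refine tc_cauchy (G := fun ζ => kev n b (ζ, (z.2 : ℂ)) / kker n z0 (ζ, (z.2 : ℂ)) -
      S ζ z.2) (g := fun x => f (x, z.2) - pe (arr (2 * N) P) x z.2) hr ?_ ?_ ?_
      (x0 := z.1) ?_
    · refine DifferentiableOn.sub ?_ ?_
      · refine hF.comp (f := fun ζ : ℂ => (ζ, (z.2 : ℂ))) (by fun_prop) fun ζ hζ => hsub _ ?_ ?_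
        · show ‖ζ - z0.1‖ ≤ 4 * r
          have := mem_closedBall_iff_norm.1 hζ
          have := tri ζ z.1 z0.1
          have := hnr z.1 z0.1
          linarith
        · show ‖(z.2 : ℂ) - z0.2‖ ≤ 4 * r
          rw [hnr]; linarith
      · rw [hS]
        fun_prop
    · intro ζ hζ
      refine hA' ζ z.2 ?_ (by rw [hnr]; linarith)
      have := mem_closedBall_iff_norm.1 hζ
      have := tri ζ z.1 z0.1
      have := hnr z.1 z0.1
      linarith
    · have hopen : ∀ᶠ x in 𝓝 z.1, |x - z0.1| < 2 * r := by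
        have hc : Continuous fun x : ℝ => |x - z0.1| := by fun_prop
        exact (hc.tendsto z.1).eventually (gt_mem_nhds (by linarith))
      filter_upwards [hopen] with x hx
      have h3 := (h (x, z.2) hx (by show |z.2 - z0.2| < 2 * r; linarith)).1
      have h2 : ((f (x, z.2) - pe (arr (2 * N) P) x z.2 : ℝ) : ℂ) =
          kev n b ((x : ℂ), (z.2 : ℂ)) / kker n z0 ((x : ℂ), (z.2 : ℂ)) - S x z.2 := by
        rw [Complex.ofReal_sub, hPe, h3]
      rw [← h2, Complex.ofReal_re]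
    · have e1 := pe_hasDerivAt (arr (2 * N) P) (hasDerivAt_id z.1) (hasDerivAt_const z.1 z.2)
      have e2 := d1.fun_sub e1
      simpa using e2
  · refine le_trans ?_ (div_le_div_of_nonneg_right hCle hr.le)
    refine tc_cauchy (G := fun ζ => kev n b ((z.1 : ℂ), ζ) / kker n z0 ((z.1 : ℂ), ζ) -
      S z.1 ζ) (g := fun y => f (z.1, y) - pe (arr (2 * N) P) z.1 y) hr ?_ ?_ ?_
      (x0 := z.2) ?_
    · refine DifferentiableOn.sub ?_ ?_
      · refine hF.comp (f := fun ζ : ℂ => ((z.1 : ℂ), ζ)) (by fun_prop) fun ζ hζ => hsub _ ?_ ?_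
        · show ‖(z.1 : ℂ) - z0.1‖ ≤ 4 * r
          rw [hnr]; linarith
        · show ‖ζ - z0.2‖ ≤ 4 * r
          have := mem_closedBall_iff_norm.1 hζ
          have := tri ζ z.2 z0.2
          have := hnr z.2 z0.2
          linarith
      · rw [hS]
        fun_prop
    · intro ζ hζ
      refine hA' z.1 ζ (by rw [hnr]; linarith) ?_
      have := mem_closedBall_iff_norm.1 hζ
      have := tri ζ z.2 z0.2
      have := hnr z.2 z0.2
      linarith
    · have hopen : ∀ᶠ y in 𝓝 z.2, |y - z0.2| < 2 * r := by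
        have hc : Continuous fun y : ℝ => |y - z0.2| := by fun_prop
        exact (hc.tendsto z.2).eventually (gt_mem_nhds (by linarith))
      filter_upwards [hopen] with y hy
      have h3 := (h (z.1, y) (by show |z.1 - z0.1| < 2 * r; linarith) hy).1
      have h2 : ((f (z.1, y) - pe (arr (2 * N) P) z.1 y : ℝ) : ℂ) =
          kev n b ((z.1 : ℂ), (y : ℂ)) / kker n z0 ((z.1 : ℂ), (y : ℂ)) - S z.1 y := by
        rw [Complex.ofReal_sub, hPe, h3]
      rw [← h2, Complex.ofReal_re]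
    · have e1 := pe_hasDerivAt (arr (2 * N) P) (hasDerivAt_const z.2 z.1) (hasDerivAt_id z.2)
      have e2 := d2.fun_sub e1
      simpa using e2

end Pool.Agent.Lib.MP_95e7ec_an
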