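import Mathlib
import Pool.Agent.Lib.MP_95e7ec_an.Sm.Taylor
import Pool.Agent.Lib.MP_95e7ec_an.KosMoment

/-!
# Smoothed count: the local data of a field exist
-/

set_option autoImplicit false

open Set Filter Topology MeasureTheory
open scoped ContDiff ENNReal

namespace Pool.Agent.Lib.MP_95e7ec_an

private theorem le_dbound {D : ℕ} {μ : Pr D} {K : Set (ℝ × ℝ)} {a b c d : ℝ}
    (h : DBound μ K a b) (h1 : a ≤ c) (h2 : b ≤ d) : DBound μ K c d :=
  { x1 := fun z hz => (h.x1 z hz).trans h1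
    y1 := fun z hz => (h.y1 z hz).trans h1
    x2 := fun z hz => (h.x2 z hz).trans h1
    y2 := fun z hz => (h.y2 z hz).trans h1
    xx1 := fun z hz => (h.xx1 z hz).trans h2
    xy1 := fun z hz => (h.xy1 z hz).trans h2
    yx1 := fun z hz => (h.yx1 z hz).trans h2
    yy1 := fun z hz => (h.yy1 z hz).trans h2
    xx2 := fun z hz => (h.xx2 z hz).trans h2
    xy2 := fun z hz => (h.xy2 z hz).trans h2
    yx2 := fun z hz => (h.yx2 z hz).trans h2
    yy2 := fun z hz => (h.yy2 z hz).trans h2 }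

/-- the local data exist.
PROOF: `gauge_exists` (KosGauge.lean) and `taylor_cell` for both components (its constant `C₁`), with
`m = C Λ`, `δ = C Λ / 2^N`, `C = max 160 C₁ ≥ 1` (so that `80 (1 + kA) ≤ 160 Λ ≤ m`;
monotonicity of `DBound` is immediate). `pe wt = G W` and `pe μ.1 = G X₁` from the field identity of
`gauge_exists` (compare `t = 0` and `t = (1,0)`; `vfc_sw`, `kVF_kshift`), so `pe μ.1 = pe wt * f`.
`tmean (‖X₁/W‖) ≤ kA` (`kg_tmean_mono`, `kg_continuous_torus`). `100 m δ ≤ 1` is the last hypothesis. -/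
theorem locD_exists : ∃ C : ℝ, 1 ≤ C ∧ ∀ n : ℕ, 1 ≤ n → ∀ (z0 : ℝ × ℝ) (r : ℝ), 0 < r →
    2 * r * Real.sqrt n ≤ sq1 z0 / 8 → ∀ (a : KSp n) (Λ : ℝ), 1 ≤ Λ →
    kA n z0 (2 * r) a ≤ Λ → kA n z0 (4 * r) a ≤ Λ → ∀ N : ℕ, 1 ≤ N →
    100 * (C * Λ) ^ 2 ≤ 2 ^ N →
    ∃ (D : ℕ) (μ : Pr D) (wt : Co D) (G : ℝ × ℝ → ℝ) (P Q : MvPolynomial (Fin 2) ℝ)
      (f f1 f2 g g1 g2 : ℝ × ℝ → ℝ), Continuous G ∧ (∀ z ∈ disc z0 r, 0 < G z) ∧
      (∀ t z, vfc (sw μ wt t) z = G z • kVF n (kshift (kdir n z0) a t) z) ∧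
      (∀ t, ∀ z ∈ disc z0 r, argGrad (sw μ wt t) z =
        argGrad (kArr n (kshift (kdir n z0) a t)) z) ∧
      LocD μ wt z0 r (C * Λ) (C * Λ / 2 ^ N) (2 * N) P Q f f1 f2 g g1 g2 := by
  obtain ⟨C₁, hC₁, htay⟩ := taylor_cell
  refine ⟨max 160 C₁, le_max_of_le_left (by norm_num), ?_⟩
  intro n hn z0 r hr hrn a Λ hΛ hA2 hA4 N hN hbig
  set C : ℝ := max 160 C₁ with hC
  have hC160 : 160 ≤ C := le_max_left _ _
  have hC1 : C₁ ≤ C := le_max_right _ _
  have hsn : (1 : ℝ) ≤ Real.sqrt n := Real.one_le_sqrt.2 (by exact_mod_cast hn)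
  have hs1 := one_le_sq1 z0
  have hrn' : r * Real.sqrt n ≤ sq1 z0 / 8 := by nlinarith
  have hr2 : 2 * r ≤ sq1 z0 / 8 := by nlinarith
  obtain ⟨D, μ, wt, G, hGc, hGp, hv, harg, hw, -, hB⟩ := gauge_exists hn z0 hr hrn' a
  obtain ⟨f, f1, f2, P, hdP, hP⟩ := htay n (fun p => (a p).1) z0 r hr hr2 N
  obtain ⟨g, g1, g2, Q, hdQ, hQ⟩ := htay n (fun p => (a p).2) z0 r hr hr2 N
  have hc1 := kg_continuous_torus n (fun p => (a p).1) z0 (show (0 : ℝ) ≤ 4 * r by linarith)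
    (by linarith)
  have hc2 := kg_continuous_torus n (fun p => (a p).2) z0 (show (0 : ℝ) ≤ 4 * r by linarith)
    (by linarith)
  have hT1 : tmean (fun ζ => ‖kev n (fun p => (a p).1) ζ / kker n z0 ζ‖) z0 (4 * r) ≤ Λ :=
    (kg_tmean_mono hc1 (hc1.add hc2) fun ζ => le_add_of_nonneg_right (norm_nonneg _)).trans hA4
  have hT2 : tmean (fun ζ => ‖kev n (fun p => (a p).2) ζ / kker n z0 ζ‖) z0 (4 * r) ≤ Λ :=
    (kg_tmean_mono hc2 (hc1.add hc2) fun ζ => le_add_of_nonneg_left (norm_nonneg _)).trans hA4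
  set T1 : ℝ := tmean (fun ζ => ‖kev n (fun p => (a p).1) ζ / kker n z0 ζ‖) z0 (4 * r) with hT1d
  set T2 : ℝ := tmean (fun ζ => ‖kev n (fun p => (a p).2) ζ / kker n z0 ζ‖) z0 (4 * r) with hT2d
  have hCT : ∀ T : ℝ, T ≤ Λ → C₁ * T ≤ C * Λ := by
    intro T hT
    calc C₁ * T ≤ C₁ * Λ := mul_le_mul_of_nonneg_left hT (by linarith)
      _ ≤ C * Λ := mul_le_mul_of_nonneg_right hC1 (by linarith)
  have h2N : (0 : ℝ) < 2 ^ N := by positivity
  have hCΛ : 1 ≤ C * Λ := by nlinarith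
  have hz : ∀ z : ℝ × ℝ, pe μ.1 z.1 z.2 =
      G z * MvPolynomial.eval ![z.1, z.2] (kPoly n fun p => (a p).1) ∧
      pe μ.2 z.1 z.2 = G z * MvPolynomial.eval ![z.1, z.2] (kPoly n fun p => (a p).2) ∧
      pe wt z.1 z.2 = G z * MvPolynomial.eval ![z.1, z.2] (kPoly n (kdir n z0)) := by
    intro z
    have e0 := hv (0, 0) z
    have e1 := hv (1, 0) z
    rw [vfc_sw, kVF_kshift] at e0 e1
    have a1 := congrArg Prod.fst e0
    have a2 := congrArg Prod.snd e0
    have a3 := congrArg Prod.fst e1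
    simp only [vfc, kVF, vf, Prod.fst_add, Prod.snd_add, Prod.smul_fst, Prod.smul_snd,
      smul_eq_mul, mul_zero, add_zero, mul_one] at a1 a2 a3
    refine ⟨a1, a2, ?_⟩
    rw [a1] at a3
    linarith
  have hval : ∀ {b : KIdx n → ℝ} {f : ℝ × ℝ → ℝ} {z : ℝ × ℝ} {p : ℝ},
      MvPolynomial.eval ![z.1, z.2] (kPoly n b) =
        MvPolynomial.eval ![z.1, z.2] (kPoly n (kdir n z0)) * f z →
      p = G z * MvPolynomial.eval ![z.1, z.2] (kPoly n b) →
      p = pe wt z.1 z.2 * f z := by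
    intro b f z p h1 h2
    rw [h2, h1, (hz z).2.2]
    ring
  refine ⟨D, μ, wt, G, P, Q, f, f1, f2, g, g1, g2, hGc, hGp, hv, harg, ?_⟩
  exact
    { hr := hr
      hm := hCΛ
      hδ := by positivity
      hδ1 := by
        rw [mul_div_assoc', div_le_one h2N]
        linarith
      hN := by omega
      dP := hdP
      dQ := hdQ
      wpos := hw
      bnd := fun t ht => le_dbound (hB t ht)
        (div_le_div_of_nonneg_right (by nlinarith) hr.le)
        (div_le_div_of_nonneg_right (by nlinarith) (by positivity))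
      val1 := fun z h => hval (hP z h).1 (hz z).1
      val2 := fun z h => hval (hQ z h).1 (hz z).2.1
      df1 := fun z h => (hP z h).2.1
      df2 := fun z h => (hP z h).2.2.1
      dg1 := fun z h => (hQ z h).2.1
      dg2 := fun z h => (hQ z h).2.2.1
      bf1 := fun z h => (hP z h).2.2.2.1.trans
        (div_le_div_of_nonneg_right (hCT _ hT1) hr.le)
      bf2 := fun z h => (hP z h).2.2.2.2.1.trans
        (div_le_div_of_nonneg_right (hCT _ hT1) hr.le)
      bg1 := fun z h => (hQ z h).2.2.2.1.trans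
        (div_le_div_of_nonneg_right (hCT _ hT2) hr.le)
      bg2 := fun z h => (hQ z h).2.2.2.2.1.trans
        (div_le_div_of_nonneg_right (hCT _ hT2) hr.le)
      af := fun z h => (hP z h).2.2.2.2.2.1.trans
        (div_le_div_of_nonneg_right (hCT _ hT1) h2N.le)
      ag := fun z h => (hQ z h).2.2.2.2.2.1.trans
        (div_le_div_of_nonneg_right (hCT _ hT2) h2N.le)
      af1 := fun z h => (hP z h).2.2.2.2.2.2.1.trans
        (div_le_div_of_nonneg_right (div_le_div_of_nonneg_right (hCT _ hT1) h2N.le) hr.le)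
      af2 := fun z h => (hP z h).2.2.2.2.2.2.2.trans
        (div_le_div_of_nonneg_right (div_le_div_of_nonneg_right (hCT _ hT1) h2N.le) hr.le)
      ag1 := fun z h => (hQ z h).2.2.2.2.2.2.1.trans
        (div_le_div_of_nonneg_right (div_le_div_of_nonneg_right (hCT _ hT2) h2N.le) hr.le)
      ag2 := fun z h => (hQ z h).2.2.2.2.2.2.2.trans
        (div_le_div_of_nonneg_right (div_le_div_of_nonneg_right (hCT _ hT2) h2N.le) hr.le) }

end Pool.Agent.Lib.MP_95e7ec_an
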