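import Mathlib
import Pool.Agent.Lib.MP_95e7ec_an.Sm.Core
import Pool.Agent.Lib.MP_95e7ec_an.Sm.LocEx
import Pool.Agent.Lib.MP_95e7ec_an.KosLocal

/-!
# Smoothed count: the local theorem for the Kostlan coefficients
-/

set_option autoImplicit false

open Set Filter Topology MeasureTheory
open scoped ContDiff ENNReal

namespace Pool.Agent.Lib.MP_95e7ec_an

/-- the parameters.
PROOF: `L = 1 + log Λ`. Choose `J = ⌈c₁ (1 + log (CΛ))⌉` with `(CΛ)² (5/6)^J ≤ 1` and then `N` with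
`2^N ≥ 100 (CΛ)^4 (36/25)^(6J)`; both are at most `C' L`. -/
theorem exists_params (C : ℝ) (hC : 1 ≤ C) : ∃ C' : ℝ, 0 ≤ C' ∧ ∀ Λ : ℝ, 1 ≤ Λ →
    ∃ J N : ℕ, 1 ≤ N ∧ (C * Λ) ^ 2 * (5 / 6) ^ J ≤ 1 ∧
      100 * (C * Λ) * (C * Λ / 2 ^ N) ≤ ((25 / 36) ^ (3 * J) / (C * Λ)) ^ 2 ∧
      100 * (C * Λ) ^ 2 ≤ 2 ^ N ∧ (J : ℝ) + 1 ≤ C' * (1 + Real.log Λ) ∧
      (N : ℝ) ≤ C' * (1 + Real.log Λ) := by
  have hlC : 0 ≤ Real.log C := Real.log_nonneg hC
  refine ⟨300 + 80 * Real.log C, by positivity, fun Λ hΛ => ?_⟩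
  have hlΛ : 0 ≤ Real.log Λ := Real.log_nonneg hΛ
  have hC0 : 0 < C := by linarith
  have hΛ0 : 0 < Λ := by linarith
  have hX0 : 0 < C * Λ := by positivity
  obtain ⟨x, hx⟩ : ∃ x : ℝ, x = Real.log C + Real.log Λ := ⟨_, rfl⟩
  have hx0 : 0 ≤ x := by rw [hx]; positivity
  have hX : C * Λ = Real.exp x := by
    rw [hx, Real.exp_add, Real.exp_log hC0, Real.exp_log hΛ0]
  obtain ⟨J, hJ⟩ : ∃ J : ℕ, J = ⌈12 * x⌉₊ := ⟨_, rfl⟩
  have hJ1 : 12 * x ≤ J := by
    rw [hJ]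
    exact Nat.le_ceil _
  have hJ2 : (J : ℝ) < 12 * x + 1 := by
    rw [hJ]
    exact Nat.ceil_lt_add_one (by positivity)
  obtain ⟨N, hN⟩ : ∃ N : ℕ, N = ⌈198 + 8 * x + 6 * (J : ℝ)⌉₊ := ⟨_, rfl⟩
  have hN1 : 198 + 8 * x + 6 * (J : ℝ) ≤ N := by
    rw [hN]
    exact Nat.le_ceil _
  have hN2 : (N : ℝ) < 198 + 8 * x + 6 * (J : ℝ) + 1 := by
    rw [hN]
    exact Nat.ceil_lt_add_one (by positivity)
  have hJ0 : (0 : ℝ) ≤ J := Nat.cast_nonneg J
  -- the elementary exponentials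
  have e1 : (5 / 6 : ℝ) ≤ Real.exp (-1 / 6) := by
    have := Real.add_one_le_exp (-1 / 6 : ℝ)
    linarith
  have e2 : Real.exp (-1 / 2) ≤ (25 / 36 : ℝ) := by
    have h1 := Real.add_one_le_exp (1 / 2 : ℝ)
    have h2 : Real.exp (-1 / 2) = (Real.exp (1 / 2))⁻¹ := by
      rw [← Real.exp_neg]
      congr 1
      norm_num
    rw [h2, inv_le_comm₀ (Real.exp_pos _) (by norm_num)]
    norm_num at h1 ⊢
    linarith
  have e3 : Real.exp (1 / 2) ≤ (2 : ℝ) := by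
    have h1 := Real.exp_one_lt_d9
    have h2 : Real.exp (1 / 2) ^ 2 = Real.exp 1 := by
      rw [← Real.exp_nat_mul]
      congr 1
      norm_num
    have h3 := Real.exp_pos (1 / 2 : ℝ)
    nlinarith
  have e4 : (100 : ℝ) ≤ Real.exp 99 := by
    have := Real.add_one_le_exp (99 : ℝ)
    linarith
  have f1 : (5 / 6 : ℝ) ^ J ≤ Real.exp (-(J : ℝ) / 6) := by
    refine (pow_le_pow_left₀ (by norm_num) e1 J).trans (le_of_eq ?_)
    rw [← Real.exp_nat_mul]
    congr 1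
    ring
  have f2 : Real.exp (-(3 * (J : ℝ)) / 2) ≤ (25 / 36 : ℝ) ^ (3 * J) := by
    refine le_trans (le_of_eq ?_) (pow_le_pow_left₀ (Real.exp_pos _).le e2 (3 * J))
    rw [← Real.exp_nat_mul]
    congr 1
    push_cast
    ring
  have f3 : Real.exp ((N : ℝ) / 2) ≤ (2 : ℝ) ^ N := by
    refine le_trans (le_of_eq ?_) (pow_le_pow_left₀ (Real.exp_pos _).le e3 N)
    rw [← Real.exp_nat_mul]
    congr 1
    ring
  have h2N : (0 : ℝ) < 2 ^ N := by positivity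
  refine ⟨J, N, ?_, ?_, ?_, ?_, ?_, ?_⟩
  · have : (1 : ℝ) ≤ N := by linarith
    exact_mod_cast this
  · calc (C * Λ) ^ 2 * (5 / 6) ^ J ≤ Real.exp x ^ 2 * Real.exp (-(J : ℝ) / 6) := by
          rw [hX]
          exact mul_le_mul_of_nonneg_left f1 (by positivity)
      _ = Real.exp (2 * x - J / 6) := by
          rw [← Real.exp_nat_mul, ← Real.exp_add]
          congr 1
          push_cast
          ring
      _ ≤ 1 := by
          rw [← Real.exp_zero]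
          exact Real.exp_le_exp.2 (by linarith)
  · have g1 : 100 * (C * Λ) * (C * Λ / 2 ^ N) = 100 * (C * Λ) ^ 2 / 2 ^ N := by ring
    have g2 : ((25 / 36 : ℝ) ^ (3 * J) / (C * Λ)) ^ 2 =
        ((25 / 36 : ℝ) ^ (3 * J)) ^ 2 / (C * Λ) ^ 2 := by rw [div_pow]
    rw [g1, g2, div_le_div_iff₀ h2N (by positivity)]
    calc 100 * (C * Λ) ^ 2 * (C * Λ) ^ 2 ≤ Real.exp 99 * Real.exp x ^ 2 * Real.exp x ^ 2 := by
          rw [hX]
          gcongr
      _ = Real.exp (99 + 4 * x) := by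
          rw [← Real.exp_nat_mul, ← Real.exp_add, ← Real.exp_add]
          congr 1
          push_cast
          ring
      _ ≤ Real.exp ((N : ℝ) / 2 - 3 * J) := Real.exp_le_exp.2 (by linarith)
      _ = Real.exp (-(3 * (J : ℝ)) / 2) ^ 2 * Real.exp ((N : ℝ) / 2) := by
          rw [← Real.exp_nat_mul, ← Real.exp_add]
          congr 1
          push_cast
          ring
      _ ≤ ((25 / 36 : ℝ) ^ (3 * J)) ^ 2 * 2 ^ N := by
          gcongr
  · calc 100 * (C * Λ) ^ 2 ≤ Real.exp 99 * Real.exp x ^ 2 := by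
          rw [hX]
          gcongr
      _ = Real.exp (99 + 2 * x) := by
          rw [← Real.exp_nat_mul, ← Real.exp_add]
          congr 1
      _ ≤ Real.exp ((N : ℝ) / 2) := Real.exp_le_exp.2 (by linarith)
      _ ≤ 2 ^ N := f3
  · have h1 : (J : ℝ) + 1 ≤ 12 * (Real.log C + Real.log Λ) + 2 := by
      rw [← hx]
      linarith
    nlinarith [mul_nonneg hlC hlΛ]
  · have h1 : (N : ℝ) ≤ 205 + 80 * (Real.log C + Real.log Λ) := by
      rw [← hx]
      linarith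
    nlinarith [mul_nonneg hlC hlΛ]

/-! ### Closed orbits and factors -/

/-- closed orbits only depend on the field along the orbit -/
private theorem ll_congr {v w : ℝ × ℝ → ℝ × ℝ} {C : Set (ℝ × ℝ)} (h : ∀ z ∈ C, v z = w z)
    (hC : IsClosedOrbit v C) : IsClosedOrbit w C := by
  obtain ⟨γ, T, hT, hγ, hper, hne, rfl⟩ := hC
  exact ⟨γ, T, hT, fun t => h (γ t) ⟨t, rfl⟩ ▸ hγ t, hper, hne, rfl⟩

/-- a closed orbit is compact -/
private theorem ll_compact {v : ℝ × ℝ → ℝ × ℝ} {C : Set (ℝ × ℝ)} (hC : IsClosedOrbit v C) :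
    IsCompact C ∧ C.Nonempty := by
  obtain ⟨γ, T, hT, hγ, hper, hne, rfl⟩ := hC
  have hc : Continuous γ := continuous_iff_continuousAt.2 fun t => (hγ t).continuousAt
  have hP : Function.Periodic γ T := hper
  rw [← hP.image_Icc hT 0]
  exact ⟨isCompact_Icc.image hc, ⟨γ 0, 0, by simp [hT.le], rfl⟩⟩

/-- a closed orbit of `Y` is a closed orbit of `G • Y`, if `G > 0` along it -/
private theorem ll_smul {Y : ℝ × ℝ → ℝ × ℝ} {G : ℝ × ℝ → ℝ} (hG : Continuous G)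
    {C : Set (ℝ × ℝ)} (hC : IsClosedOrbit Y C) (hpos : ∀ z ∈ C, 0 < G z) :
    IsClosedOrbit (fun z => G z • Y z) C := by
  obtain ⟨hcomp, hne⟩ := ll_compact hC
  obtain ⟨z1, hz1, hmin⟩ := hcomp.exists_isMinOn hne hG.continuousOn
  set e : ℝ := G z1 with he
  have he0 : 0 < e := hpos z1 hz1
  have hGm : ∀ z ∈ C, max (G z) e = G z := fun z hz => max_eq_left (hmin hz)
  have hp : ∀ z, 0 < max (G z) e := fun z => lt_max_of_lt_right he0
  have h1 : IsClosedOrbit (fun z => (max (G z) e)⁻¹ • (max (G z) e • Y z)) C := by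
    refine ll_congr (fun z _ => ?_) hC
    rw [smul_smul, inv_mul_cancel₀ (hp z).ne', one_smul]
  have h2 := h1.of_smul (Y := fun z => max (G z) e • Y z) (g := fun z => (max (G z) e)⁻¹)
    ((hG.max continuous_const).inv₀ fun z => (hp z).ne') (fun z _ => inv_pos.2 (hp z))
  exact ll_congr (fun z hz => by rw [hGm z hz]) h2

private theorem ll_turn_smul {Y : ℝ × ℝ → ℝ × ℝ} {G : ℝ × ℝ → ℝ} (α : ℝ) (z : ℝ × ℝ) :
    turn α (fun z => G z • Y z) z = G z • turn α Y z := by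
  unfold turn
  ext
  · simp only [Prod.smul_fst, Prod.smul_snd, smul_eq_mul]; ring
  · simp only [Prod.smul_fst, Prod.smul_snd, smul_eq_mul]; ring

/-- the local theorem (Theorem L).
PROOF: `locD_exists`, `exists_params`, `local_core` (degree `2N`); the closed orbits in the disc of
`kVF n (kshift ..)` and of `G • kVF n (kshift ..)` agree: as in `local_count_kos` (KosLocal.lean, its
private lemmas `kl_congr`, `kl_smul`, `kl_turn_smul` may be copied). -/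
theorem local_log : ∃ C : ℝ, 0 ≤ C ∧ ∀ n : ℕ, 1 ≤ n → ∀ (z0 : ℝ × ℝ) (r : ℝ), 0 < r →
    2 * r * Real.sqrt n ≤ sq1 z0 / 8 → ∀ (a : KSp n) (Λ : ℝ), 1 ≤ Λ →
    kA n z0 (2 * r) a ≤ Λ → kA n z0 (4 * r) a ≤ Λ →
    ∃ H : ℝ × ℝ → ℝ≥0∞, Measurable H ∧
      (∀ t, nm t ≤ 1 → ∫⁻ α in Set.Ioo 0 Real.pi,
        orbitSum (fun _ => 1) (kVF n (kshift (kdir n z0) a t)) (disc z0 r) α ≤ H t) ∧
      ∫⁻ t, H t ≤ ENNReal.ofReal (C * (1 + Real.log Λ) ^ 4) := by
  obtain ⟨C, hC, hloc⟩ := locD_exists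
  obtain ⟨C', hC', hpar⟩ := exists_params C hC
  refine ⟨1600000 * C' ^ 4, by positivity, ?_⟩
  intro n hn z0 r hr hrn a Λ hΛ hA2 hA4
  obtain ⟨J, N, hN, h1, h2, h3, h4, h5⟩ := hpar Λ hΛ
  obtain ⟨D, μ, wt, G, P, Q, f, f1, f2, g, g1, g2, hG, hGp, hv, -, L⟩ :=
    hloc n hn z0 r hr hrn a Λ hΛ hA2 hA4 N hN h3
  obtain ⟨H, hHm, hH1, hH2⟩ := local_core L J h1 h2
  refine ⟨H, hHm, fun t ht => ?_, ?_⟩
  · refine (lintegral_mono fun α => ?_).trans (hH1 t ht)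
    rw [orbitSum_one, orbitSum_one]
    refine ENat.toENNReal_mono (Set.encard_le_encard ?_)
    rintro C ⟨hC, hsub⟩
    refine ⟨?_, hsub⟩
    have h1 := ll_smul hG hC fun z hz => hGp z (hsub hz)
    refine ll_congr (fun z _ => ?_) h1
    have h2 : vfc (sw μ wt t) = fun z => G z • kVF n (kshift (kdir n z0) a t) z := funext (hv t)
    rw [h2, ll_turn_smul]
  · refine hH2.trans (ENNReal.ofReal_le_ofReal ?_)
    have hL : 0 ≤ 1 + Real.log Λ := by
      have := Real.log_nonneg hΛ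
      linarith
    have hCL : 0 ≤ C' * (1 + Real.log Λ) := by positivity
    have h6 : ((2 * N : ℕ) : ℝ) ^ 3 ≤ (2 * (C' * (1 + Real.log Λ))) ^ 3 := by
      push_cast
      exact pow_le_pow_left₀ (by positivity) (by linarith) 3
    calc 200000 * ((J : ℝ) + 1) * ((2 * N : ℕ) : ℝ) ^ 3
        ≤ 200000 * (C' * (1 + Real.log Λ)) * (2 * (C' * (1 + Real.log Λ))) ^ 3 := by
          refine mul_le_mul ?_ h6 (by positivity) (by positivity)
          exact mul_le_mul_of_nonneg_left h4 (by norm_num)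
      _ = 1600000 * C' ^ 4 * (1 + Real.log Λ) ^ 4 := by ring

/-- the mean of the integral of `argGrad` over a cell.
PROOF: `locD_exists`, `exists_params`, `grad_count` with `e = 1/(C Λ)`
(`200 m e = 200`, condition `100 m δ ≤ e²`: implied by the third property of `exists_params`,
`(25/36)^(3J) ≤ 1`). -/
theorem grad_log : ∃ C : ℝ, 0 ≤ C ∧ ∀ n : ℕ, 1 ≤ n → ∀ (z0 : ℝ × ℝ) (r : ℝ), 0 < r →
    2 * r * Real.sqrt n ≤ sq1 z0 / 8 → ∀ (a : KSp n) (Λ : ℝ), 1 ≤ Λ →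
    kA n z0 (2 * r) a ≤ Λ → kA n z0 (4 * r) a ≤ Λ →
    ∫⁻ t in {t : ℝ × ℝ | nm t ≤ 1}, ∫⁻ z in disc z0 r,
      ENNReal.ofReal (argGrad (kArr n (kshift (kdir n z0) a t)) z) ≤
      ENNReal.ofReal (C * r * (1 + Real.log Λ)) := by
  obtain ⟨C, hC, hloc⟩ := locD_exists
  obtain ⟨C', hC', hpar⟩ := exists_params C hC
  refine ⟨200 + 140 * C', by positivity, ?_⟩
  intro n hn z0 r hr hrn a Λ hΛ hA2 hA4
  obtain ⟨J, N, hN, h1, h2, h3, h4, h5⟩ := hpar Λ hΛ
  obtain ⟨D, μ, wt, G, P, Q, f, f1, f2, g, g1, g2, hG, hGp, hv, harg, L⟩ :=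
    hloc n hn z0 r hr hrn a Λ hΛ hA2 hA4 N hN h3
  have hX : 1 ≤ C * Λ := by nlinarith
  have hX0 : 0 < C * Λ := by linarith
  have he : 0 < 1 / (C * Λ) := by positivity
  have he1 : 1 / (C * Λ) ≤ 1 := by
    rw [div_le_one hX0]
    exact hX
  have hδe : 100 * (C * Λ) * (C * Λ / 2 ^ N) ≤ (1 / (C * Λ)) ^ 2 := by
    refine h2.trans ?_
    have h6 : (25 / 36 : ℝ) ^ (3 * J) ≤ 1 := pow_le_one₀ (by norm_num) (by norm_num)
    gcongr
  obtain ⟨H, hHm, hH1, hH2⟩ := grad_count L he he1 hδe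
  have hset : MeasurableSet {t : ℝ × ℝ | nm t ≤ 1} :=
    (isClosed_le continuous_nm continuous_const).measurableSet
  calc ∫⁻ t in {t : ℝ × ℝ | nm t ≤ 1}, ∫⁻ z in disc z0 r,
        ENNReal.ofReal (argGrad (kArr n (kshift (kdir n z0) a t)) z)
      ≤ ∫⁻ t in {t : ℝ × ℝ | nm t ≤ 1}, H t := by
        refine setLIntegral_mono hHm fun t ht => ?_
        refine le_trans (le_of_eq ?_) (hH1 t ht)
        refine setLIntegral_congr_fun (isOpen_disc z0 r).measurableSet fun z hz => ?_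
        simp only [harg t z hz]
    _ ≤ ∫⁻ t, H t := setLIntegral_le_lintegral _ _
    _ ≤ _ := hH2
    _ ≤ ENNReal.ofReal ((200 + 140 * C') * r * (1 + Real.log Λ)) := by
        apply ENNReal.ofReal_le_ofReal
        have hl : 0 ≤ Real.log Λ := Real.log_nonneg hΛ
        have h7 : 200 * (C * Λ) * (1 / (C * Λ)) = 200 := by
          field_simp
        have h8 : ((2 * N : ℕ) : ℝ) ≤ 2 * (C' * (1 + Real.log Λ)) := by
          push_cast
          linarith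
        calc r * (200 * (C * Λ) * (1 / (C * Λ)) + 70 * ((2 * N : ℕ) : ℝ))
            ≤ r * (200 * (1 + Real.log Λ) + 70 * (2 * (C' * (1 + Real.log Λ)))) := by
              rw [h7]
              refine mul_le_mul_of_nonneg_left ?_ hr.le
              linarith
          _ = (200 + 140 * C') * r * (1 + Real.log Λ) := by ring

end Pool.Agent.Lib.MP_95e7ec_an
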