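import Mathlib
import Pool.Agent.Lib.MP_95e7ec_an.Sm.Ball

/-!
# Smoothed count: averaging over a line of shifts inside a ball
-/

set_option autoImplicit false

open Set Filter Topology MeasureTheory
open scoped ContDiff ENNReal

namespace Pool.Agent.Lib.MP_95e7ec_an

variable {n : ℕ}

private theorem kN2_add_sub (u q : KSp n) : kN2 (u - q) + kN2 (u + q) = 2 * kN2 u + 2 * kN2 q := by
  unfold kN2
  rw [← Finset.sum_add_distrib, Finset.mul_sum, Finset.mul_sum, ← Finset.sum_add_distrib]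
  refine Finset.sum_congr rfl fun p _ => ?_
  simp only [Pi.sub_apply, Pi.add_apply, Prod.fst_sub, Prod.snd_sub, Prod.fst_add, Prod.snd_add]
  ring

private theorem meas_disc1 : MeasurableSet {t : ℝ × ℝ | nm t ≤ 1} := by
  have h : Measurable fun t : ℝ × ℝ => nm t := by
    unfold nm
    fun_prop
  exact h measurableSet_Iic

private theorem two_le_disc1 : (2 : ℝ≥0∞) ≤ volume {t : ℝ × ℝ | nm t ≤ 1} := by
  have hc : (Real.sqrt 2 / 2) ^ 2 = 1 / 2 := by
    rw [div_pow, Real.sq_sqrt (by norm_num)]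
    norm_num
  have hc0 : 0 ≤ Real.sqrt 2 / 2 := by positivity
  have hsub : Icc (-(Real.sqrt 2 / 2)) (Real.sqrt 2 / 2) ×ˢ
      Icc (-(Real.sqrt 2 / 2)) (Real.sqrt 2 / 2) ⊆ {t : ℝ × ℝ | nm t ≤ 1} := by
    rintro ⟨x, y⟩ ⟨hx, hy⟩
    have h1 : x ^ 2 ≤ 1 / 2 := by
      rw [← hc]
      exact sq_le_sq' hx.1 hx.2
    have h2 : y ^ 2 ≤ 1 / 2 := by
      rw [← hc]
      exact sq_le_sq' hy.1 hy.2
    show nm (x, y) ≤ 1
    unfold nm
    rw [Real.sqrt_le_one]
    show x ^ 2 + y ^ 2 ≤ 1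
    linarith
  refine le_trans ?_ (measure_mono hsub)
  rw [Measure.volume_eq_prod, Measure.prod_prod, Real.volume_Icc,
    ← ENNReal.ofReal_mul (by linarith)]
  have e : (Real.sqrt 2 / 2 - -(Real.sqrt 2 / 2)) * (Real.sqrt 2 / 2 - -(Real.sqrt 2 / 2)) = 2 := by
    nlinarith
  rw [e]
  simp

private theorem one_le_T (q : ℝ × ℝ → KSp n) (hneg : ∀ t, q (-t) = -q t)
    (hnorm : ∀ t, kN2 (q t) = t.1 ^ 2 + t.2 ^ 2) (b a : KSp n) {R R' : ℝ}
    (hR' : R' ^ 2 = R ^ 2 + 1) (ha : a ∈ kball b R) :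
    (1 : ℝ≥0∞) ≤ volume ({t : ℝ × ℝ | nm t ≤ 1} ∩ {t | a - q t ∈ kball b R'}) := by
  have hcov : {t : ℝ × ℝ | nm t ≤ 1} ⊆
      ({t : ℝ × ℝ | nm t ≤ 1} ∩ {t | a - q t ∈ kball b R'}) ∪
      -({t : ℝ × ℝ | nm t ≤ 1} ∩ {t | a - q t ∈ kball b R'}) := by
    intro t ht
    have ht1 : t.1 ^ 2 + t.2 ^ 2 ≤ 1 := by
      have h1 : Real.sqrt (t.1 ^ 2 + t.2 ^ 2) ≤ 1 := ht
      rwa [Real.sqrt_le_one] at h1
    have hnt : nm (-t) ≤ 1 := by
      unfold nm
      rw [Real.sqrt_le_one]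
      simpa using ht1
    have ha' : kN2 (a - b) ≤ R ^ 2 := ha
    have hp := kN2_add_sub (a - b) (q t)
    rw [hnorm] at hp
    rcases le_total (kN2 (a - b - q t)) (kN2 (a - b + q t)) with h | h
    · left
      refine ⟨ht, ?_⟩
      have h3 : kN2 (a - q t - b) ≤ R' ^ 2 := by
        rw [hR', sub_right_comm]
        linarith
      exact h3
    · right
      rw [Set.mem_neg]
      refine ⟨hnt, ?_⟩
      have h3 : kN2 (a - q (-t) - b) ≤ R' ^ 2 := by
        rw [hR', sub_right_comm, hneg, sub_neg_eq_add]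
        linarith
      exact h3
  have h2 := (two_le_disc1.trans (measure_mono hcov)).trans (measure_union_le _ _)
  rw [Measure.measure_neg, ← two_mul] at h2
  by_contra hlt
  push Not at hlt
  generalize volume ({t : ℝ × ℝ | nm t ≤ 1} ∩ {t | a - q t ∈ kball b R'}) = V at h2 hlt
  have h3 : 2 * V < 2 * 1 := ENNReal.mul_lt_mul_right (by norm_num) (by norm_num) hlt
  rw [mul_one] at h3
  exact absurd h2 (not_le.mpr h3)

private theorem meas_phi (q : ℝ × ℝ → KSp n) (hq : Measurable q) {B : Set (KSp n)}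
    (hB : MeasurableSet B) {F : KSp n → ℝ≥0∞} (hF : Measurable F) :
    Measurable fun z : KSp n × (ℝ × ℝ) => B.indicator (fun c => F (c + q z.2)) z.1 := by
  have hadd : Measurable fun z : KSp n × (ℝ × ℝ) => z.1 + q z.2 :=
    measurable_fst.add (hq.comp measurable_snd)
  have e : (fun z : KSp n × (ℝ × ℝ) => B.indicator (fun c => F (c + q z.2)) z.1) =
      (Prod.fst ⁻¹' B).indicator (fun z : KSp n × (ℝ × ℝ) => F (z.1 + q z.2)) := rfl
  rw [e]
  exact (hF.comp hadd).indicator (measurable_fst hB)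

private theorem meas_psi (q : ℝ × ℝ → KSp n) (hq : Measurable q) {B : Set (KSp n)}
    (hB : MeasurableSet B) {F : KSp n → ℝ≥0∞} (hF : Measurable F) :
    Measurable fun z : KSp n × (ℝ × ℝ) => B.indicator (fun c => F (c + q z.2)) (z.1 - q z.2) :=
  (meas_phi q hq hB hF).comp
    ((measurable_fst.sub (hq.comp measurable_snd)).prodMk measurable_snd)

private theorem swap_trick (q : ℝ × ℝ → KSp n) (hq : Measurable q) {B : Set (KSp n)}
    (hB : MeasurableSet B) {F : KSp n → ℝ≥0∞} (hF : Measurable F) (D : Set (ℝ × ℝ)) :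
    ∫⁻ a in B, ∫⁻ t in D, F (a + q t) =
      ∫⁻ a, ∫⁻ t in D, B.indicator (fun c => F (c + q t)) (a - q t) := by
  have e1 : ∫⁻ a in B, ∫⁻ t in D, F (a + q t) =
      ∫⁻ a, ∫⁻ t in D, B.indicator (fun c => F (c + q t)) a := by
    rw [← lintegral_indicator hB]
    refine lintegral_congr fun a => ?_
    by_cases ha : a ∈ B
    · simp only [indicator_of_mem ha]
    · simp only [indicator_of_notMem ha, lintegral_zero]
  have s1 : ∫⁻ a, ∫⁻ t in D, B.indicator (fun c => F (c + q t)) a =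
      ∫⁻ t in D, ∫⁻ a, B.indicator (fun c => F (c + q t)) a :=
    lintegral_lintegral_swap (meas_phi q hq hB hF).aemeasurable
  have s2 : ∫⁻ a, ∫⁻ t in D, B.indicator (fun c => F (c + q t)) (a - q t) =
      ∫⁻ t in D, ∫⁻ a, B.indicator (fun c => F (c + q t)) (a - q t) :=
    lintegral_lintegral_swap (meas_psi q hq hB hF).aemeasurable
  rw [e1, s1, s2]
  refine lintegral_congr fun t => ?_
  exact (lintegral_sub_right_eq_self (fun a => B.indicator (fun c => F (c + q t)) a) (q t)).symm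

private theorem point_trick (q : ℝ × ℝ → KSp n) (hq : Measurable q) {B : Set (KSp n)}
    (hB : MeasurableSet B) (F : KSp n → ℝ≥0∞) {D : Set (ℝ × ℝ)} (hD : MeasurableSet D)
    (a : KSp n) (hT : (1 : ℝ≥0∞) ≤ volume (D ∩ {t | a - q t ∈ B})) :
    F a ≤ ∫⁻ t in D, B.indicator (fun c => F (c + q t)) (a - q t) := by
  have hmT : MeasurableSet (D ∩ {t | a - q t ∈ B}) :=
    hD.inter ((measurable_const.sub hq) hB)
  calc F a ≤ F a * volume (D ∩ {t | a - q t ∈ B}) := le_mul_of_one_le_right' hT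
    _ = ∫⁻ _ in (D ∩ {t | a - q t ∈ B}), F a := by rw [setLIntegral_const]
    _ ≤ ∫⁻ t in (D ∩ {t | a - q t ∈ B}), B.indicator (fun c => F (c + q t)) (a - q t) := by
      refine setLIntegral_mono' hmT fun t ht => ?_
      have ht2 : a - q t ∈ B := ht.2
      rw [indicator_of_mem ht2, sub_add_cancel]
    _ ≤ _ := lintegral_mono_set inter_subset_left

private theorem gen_trick (q : ℝ × ℝ → KSp n) (hq : Measurable q) (hneg : ∀ t, q (-t) = -q t)
    (hnorm : ∀ t, kN2 (q t) = t.1 ^ 2 + t.2 ^ 2) (b : KSp n) {R R' : ℝ}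
    (hR' : R' ^ 2 = R ^ 2 + 1) {F : KSp n → ℝ≥0∞} (hF : Measurable F) :
    ∫⁻ a in kball b R, F a ≤
      ∫⁻ a in kball b R', ∫⁻ t in {t : ℝ × ℝ | nm t ≤ 1}, F (a + q t) := by
  rw [swap_trick q hq (measurableSet_kball b R') hF]
  refine le_trans ?_ (setLIntegral_le_lintegral (kball b R) _)
  refine setLIntegral_mono' (measurableSet_kball b R) fun a ha => ?_
  exact point_trick q hq (measurableSet_kball b R') F meas_disc1 a
    (one_le_T q hneg hnorm b a hR' ha)

/-- the mean over the ball is at most the mean over a slightly larger ball of the mean over the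
shifts by `t v`, `|t| ≤ 1`.
PROOF. `kshift v a t = a + (fun p => v p • t)`; put `q = fun p => v p • t`, `kN2 q = |t|²` (`hv`).
For `a ∈ kball b R`, `u = a - b` and `nm t ≤ 1`: `kN2 (u - q) = kN2 u - 2 ⟨u,q⟩ + |t|²`, at most
`R² + 1` if `⟨u,q⟩ ≥ 0`. `⟨u,q⟩ = c.1 t.1 + c.2 t.2` is linear in `t`, so for each `t` one of `t`, `-t`
is good, and the set `T_a = {t | nm t ≤ 1, a - q_t ∈ kball b (√(R²+1))}` satisfies
`T_a ∪ -T_a = {nm t ≤ 1}`, so `volume T_a ≥ volume {nm t ≤ 1}/2 ≥ 1` (the unit disc has area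
`π > 2`; e.g. it contains the square `|t.1|, |t.2| ≤ 1/√2` of area `2`). Hence
`∫⁻ a in kball b R, F a ≤ ∫⁻ a, F a * volume T_a ≤ ∫⁻ t in {nm t ≤ 1}, ∫⁻ a,
1[a - q_t ∈ kball b R'] F a = ∫⁻ t in {nm t ≤ 1}, ∫⁻ a in kball b R', F (a + q_t)` (Tonelli,
translation invariance `lintegral_add_right_eq_self`), and Tonelli again. Measurability:
`measurable_kshift` (used in KosMain / KpLocal). -/
theorem shift_trick (v : KIdx n → ℝ) (hv : ∑ p, v p ^ 2 = 1) (b : KSp n) {R : ℝ} (hR : 0 ≤ R)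
    {F : KSp n → ℝ≥0∞} (hF : Measurable F) :
    ∫⁻ a in kball b R, F a ≤
      ∫⁻ a in kball b (Real.sqrt (R ^ 2 + 1)), ∫⁻ t in {t : ℝ × ℝ | nm t ≤ 1},
        F (kshift v a t) := by
  refine gen_trick (fun t p => v p • t) ?_ ?_ ?_ b (Real.sq_sqrt (by positivity)) hF
  · exact measurable_pi_lambda _ fun p => measurable_id.const_smul (v p)
  · intro t
    funext p
    show v p • (-t) = -(v p • t)
    rw [smul_neg]
  · intro t
    unfold kN2
    have e : ∀ p : KIdx n, (v p • t).1 ^ 2 + (v p • t).2 ^ 2 = v p ^ 2 * (t.1 ^ 2 + t.2 ^ 2) := by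
      intro p
      simp only [Prod.smul_fst, Prod.smul_snd, smul_eq_mul]
      ring
    simp only [e]
    rw [← Finset.sum_mul, hv, one_mul]

/-- the same for the shifts by `t u`, complex multiplication.
PROOF: the same, with `q = fun p => cmul t (u p)`, `kN2 q = |t|²` by `hu`. (Better: prove first one
general lemma for a linear map `t ↦ q_t` with `kN2 q_t = |t|²` and derive both.) -/
theorem shift_trick2 (u : KSp n) (hu : ∑ p, ((u p).1 ^ 2 + (u p).2 ^ 2) = 1) (b : KSp n)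
    {R : ℝ} (hR : 0 ≤ R) {F : KSp n → ℝ≥0∞} (hF : Measurable F) :
    ∫⁻ a in kball b R, F a ≤
      ∫⁻ a in kball b (Real.sqrt (R ^ 2 + 1)), ∫⁻ t in {t : ℝ × ℝ | nm t ≤ 1},
        F (kshift2 u a t) := by
  refine gen_trick (fun t p => cmul t (u p)) ?_ ?_ ?_ b (Real.sq_sqrt (by positivity)) hF
  · refine measurable_pi_lambda _ fun p => ?_
    unfold cmul
    fun_prop
  · intro t
    funext p
    show cmul (-t) (u p) = -cmul t (u p)
    unfold cmul
    ext <;> simp <;> ring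
  · intro t
    unfold kN2
    have e : ∀ p : KIdx n, (cmul t (u p)).1 ^ 2 + (cmul t (u p)).2 ^ 2 =
        (t.1 ^ 2 + t.2 ^ 2) * ((u p).1 ^ 2 + (u p).2 ^ 2) := by
      intro p
      unfold cmul
      ring
    simp only [e]
    rw [← Finset.mul_sum, hu, mul_one]

end Pool.Agent.Lib.MP_95e7ec_an
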