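import Mathlib
import Pool.Agent.Lib.MP_95e7ec_an.Sm.Near
import Pool.Agent.Lib.MP_95e7ec_an.Sm.FarPt
import Pool.Agent.Lib.MP_95e7ec_an.KosFinal

/-!
# Smoothed count: the whole plane, even degree
-/

set_option autoImplicit false

open Set Filter Topology MeasureTheory
open scoped ContDiff ENNReal

namespace Pool.Agent.Lib.MP_95e7ec_an

/-- the choice of the radius: `kS a ≤ 1 + kD n √(kN2 a) ≤ 9 Λ³` on the enlarged ball, so everything is a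
power of `Λ`. PROOF: `k0 = ⌈c (1 + log Λ)⌉` with `c` large. -/
theorem even_choice (C : ℝ) (hC : 0 ≤ C) : ∃ B : ℝ, 0 ≤ B ∧ ∀ (m : ℕ) (Λ : ℝ), 1 ≤ m →
    ((2 * m : ℕ) : ℝ) ≤ Λ → ∃ k0 : ℕ, C * m ^ 2 ≤ 2 ^ k0 ∧
      (m : ℝ) ^ 7 * (k0 + 1) * (9 * Λ ^ 3) ^ 2 ≤ 2 ^ k0 ∧
      (k0 : ℝ) + 1 + 1 ≤ B * (1 + Real.log Λ) := by
  obtain ⟨c, hc⟩ : ∃ c : ℕ, C < 2 ^ c := pow_unbounded_of_one_lt C (by norm_num)
  refine ⟨c + 28, by positivity, fun m Λ hm hΛ => ?_⟩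
  have hm1 : (1 : ℝ) ≤ m := by exact_mod_cast hm
  have hm0 : (0 : ℝ) < m := by linarith
  have hmΛ : (m : ℝ) ≤ Λ := by
    push_cast at hΛ
    linarith
  have hΛ1 : 1 ≤ Λ := hm1.trans hmΛ
  have hΛ0 : 0 < Λ := by linarith
  set k1 : ℕ := ⌈Real.logb 2 Λ⌉₊ with hk1
  have hmk : Λ ≤ 2 ^ k1 := by
    rw [← Real.rpow_natCast, ← Real.logb_le_iff_le_rpow (by norm_num) hΛ0]
    exact Nat.le_ceil _
  have hlog : 0 ≤ Real.log Λ := Real.log_nonneg hΛ1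
  have hlog2 : (1 / 2 : ℝ) ≤ Real.log 2 := by linarith [Real.log_two_gt_d9]
  have hk1le : (k1 : ℝ) ≤ 2 * Real.log Λ + 1 := by
    have h1 : (k1 : ℝ) < Real.logb 2 Λ + 1 := Nat.ceil_lt_add_one
      (Real.logb_nonneg (by norm_num) hΛ1)
    have h2 : Real.logb 2 Λ ≤ 2 * Real.log Λ := by
      rw [Real.logb, div_le_iff₀ (by linarith)]
      nlinarith
    linarith
  have hsplit : (2 : ℝ) ^ (14 * k1 + (c + 12)) = (2 ^ k1) ^ 13 * (2 ^ k1 * 2 ^ (c + 12)) := by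
    rw [← pow_mul, ← pow_add, ← pow_add]
    congr 1
    ring
  have hpow : ∀ x : ℕ, (x : ℝ) + 1 ≤ 2 ^ x := by
    intro x
    have h : x + 1 ≤ 2 ^ x := Nat.lt_two_pow_self
    exact_mod_cast h
  have h1k : (1 : ℝ) ≤ 2 ^ k1 := one_le_pow₀ (by norm_num)
  refine ⟨14 * k1 + (c + 12), ?_, ?_, ?_⟩
  · calc C * (m : ℝ) ^ 2 ≤ 2 ^ c * (2 ^ k1) ^ 2 := by
          have := hmΛ.trans hmk
          gcongr
      _ ≤ 2 ^ (c + 12) * (2 ^ k1) ^ 14 := by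
          gcongr
          · norm_num
          · omega
          · norm_num
      _ = 2 ^ (14 * k1 + (c + 12)) := by
          rw [hsplit]
          ring
  · rw [hsplit]
    have h3 : 81 * (((14 * k1 + (c + 12) : ℕ) : ℝ) + 1) ≤ 2 ^ k1 * 2 ^ (c + 12) := by
      have e1 := hpow k1
      have e2 := hpow c
      have e4 : (0 : ℝ) ≤ k1 := Nat.cast_nonneg _
      have e5 : (0 : ℝ) ≤ c := Nat.cast_nonneg _
      have e6 : (2 : ℝ) ^ (c + 12) = 4096 * 2 ^ c := by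
        rw [pow_add]
        norm_num
        ring
      have e7 : (k1 + 1 : ℝ) * (4096 * (c + 1)) ≤ 2 ^ k1 * 2 ^ (c + 12) := by
        rw [e6]
        gcongr
      refine le_trans ?_ e7
      push_cast
      have e8 : 0 ≤ (k1 : ℝ) * c := by positivity
      nlinarith
    have h4 : 0 ≤ ((14 * k1 + (c + 12) : ℕ) : ℝ) + 1 := by positivity
    calc (m : ℝ) ^ 7 * (((14 * k1 + (c + 12) : ℕ) : ℝ) + 1) * (9 * Λ ^ 3) ^ 2
        ≤ Λ ^ 7 * (((14 * k1 + (c + 12) : ℕ) : ℝ) + 1) * (9 * Λ ^ 3) ^ 2 := by gcongr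
      _ = Λ ^ 13 * (81 * (((14 * k1 + (c + 12) : ℕ) : ℝ) + 1)) := by ring
      _ ≤ (2 ^ k1) ^ 13 * (2 ^ k1 * 2 ^ (c + 12)) := by gcongr
  · push_cast
    have hc0 : (0 : ℝ) ≤ c := Nat.cast_nonneg _
    have h5 : 0 ≤ (c : ℝ) * Real.log Λ := by positivity
    nlinarith

private theorem fe_krot {n : ℕ} (a : KSp n) : Measurable fun α : ℝ => krot α a := by
  have h : Continuous fun α : ℝ => krot α a :=
    (km_continuous_krot n).comp (continuous_const.prodMk continuous_id)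
  exact h.measurable

/-- splitting of a mean over the ball and the rotations -/
private theorem fe_comb {n : ℕ} (b : KSp n) (R : ℝ) {f f1 f2 : KSp n → ℝ≥0∞}
    (hf1 : Measurable f1) (hle : ∀ a, f a ≤ f1 a + f2 a) :
    ∫⁻ a in kball b R, ∫⁻ α in Set.Ioo 0 Real.pi, f (krot α a) ≤
      (∫⁻ a in kball b R, ∫⁻ α in Set.Ioo 0 Real.pi, f1 (krot α a)) +
        ∫⁻ a in kball b R, ∫⁻ α in Set.Ioo 0 Real.pi, f2 (krot α a) := by
  rw [← lintegral_add_left (km_measurable_avg n hf1)]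
  refine lintegral_mono fun a => ?_
  have hin : Measurable fun α : ℝ => f1 (krot α a) := hf1.comp (fe_krot a)
  show ∫⁻ α in Set.Ioo 0 Real.pi, f (krot α a) ≤
    (∫⁻ α in Set.Ioo 0 Real.pi, f1 (krot α a)) + ∫⁻ α in Set.Ioo 0 Real.pi, f2 (krot α a)
  rw [← lintegral_add_left hin]
  exact lintegral_mono fun α => hle (krot α a)

/-- the shift trick with a constant bound -/
private theorem fe_tail {n : ℕ} {v : KIdx n → ℝ} (hv : ∑ p, v p ^ 2 = 1) (b : KSp n) {R : ℝ}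
    (hR : 0 ≤ R) {f2 : KSp n → ℝ≥0∞} (hf2 : Measurable f2) {c : ℝ}
    (h : ∀ a ∈ kball b (Real.sqrt (R ^ 2 + 1)), ∫⁻ t in {t : ℝ × ℝ | nm t ≤ 1},
      ∫⁻ α in Set.Ioo 0 Real.pi, f2 (krot α (kshift v a t)) ≤ ENNReal.ofReal c) :
    ∫⁻ a in kball b R, ∫⁻ α in Set.Ioo 0 Real.pi, f2 (krot α a) ≤
      ENNReal.ofReal c * volume (kball b (Real.sqrt (R ^ 2 + 1))) := by
  refine (shift_trick v hv b hR (km_measurable_avg n hf2)).trans ?_
  refine (setLIntegral_mono' (measurableSet_kball _ _) h).trans (le_of_eq ?_)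
  rw [setLIntegral_const]

private theorem fe_split {n : ℕ} (a : KSp n) (U : Set (ℝ × ℝ)) :
    cntO (kVF n a) Set.univ (∅ : Finset ℕ) (fun _ => ∅) ≤
      cntO (kVF n a) U (∅ : Finset ℕ) (fun _ => ∅) +
        cntO (kVF n a) Set.univ {()} (fun _ => U) := by
  unfold cntO
  rw [← ENat.toENNReal_add]
  refine ENat.toENNReal_le.2 (le_trans (Set.encard_le_encard fun C hC => ?_)
    (Set.encard_union_le _ _))
  by_cases h : C ⊆ U
  · exact Or.inl ⟨hC.1, h, by simp⟩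
  · exact Or.inr ⟨hC.1, hC.2.1, fun _ _ => h⟩

/-- the size of the coefficients on the enlarged ball -/
private theorem fe_kS {n : ℕ} (hn : 1 ≤ n) {Λ : ℝ} (hΛ1 : 1 ≤ Λ) (hnΛ : (n : ℝ) ≤ Λ)
    (a : KSp n) (e1 : 3 * (1 + Real.sqrt (kN2 a)) ≤ Λ) : kS a ^ 2 ≤ (9 * Λ ^ 3) ^ 2 := by
  have e2 := kS_le_norm a
  have e3 : (kD n : ℝ) ≤ 8 * n ^ 2 := by exact_mod_cast (kD_bounds hn).2
  have e4 : 0 ≤ Real.sqrt (kN2 a) := Real.sqrt_nonneg _
  have e5 : (n : ℝ) ^ 2 ≤ Λ ^ 2 := pow_le_pow_left₀ (Nat.cast_nonneg n) hnΛ 2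
  have e7 : (kD n : ℝ) ≤ 8 * Λ ^ 2 := by linarith
  have e8 : Real.sqrt (kN2 a) ≤ Λ := by linarith
  have e9 : (kD n : ℝ) * Real.sqrt (kN2 a) ≤ 8 * Λ ^ 2 * Λ :=
    mul_le_mul e7 e8 e4 (by positivity)
  have e10 : (1 : ℝ) ≤ Λ ^ 3 := one_le_pow₀ hΛ1
  have e11 : 8 * Λ ^ 2 * Λ = 8 * Λ ^ 3 := by ring
  have e6 : kS a ≤ 9 * Λ ^ 3 := by linarith
  have e0 : 0 ≤ kS a := by
    have : 0 ≤ ∑ p, (|(a p).1| + |(a p).2|) := Finset.sum_nonneg fun p _ => by positivity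
    unfold kS
    linarith
  exact pow_le_pow_left₀ e0 e6 2

private theorem fe_num1 {C2 m q s S : ℝ} (hC2 : 0 ≤ C2) (hm : 0 ≤ m) (hq : 0 ≤ q) {P : ℝ}
    (hP : 0 < P) (hs : s ≤ S) (h : m ^ 7 * q * S ≤ P) :
    C2 * m + C2 * m ^ 7 * q / P * s ≤ C2 * m + C2 := by
  have h1 : C2 * m ^ 7 * q / P * s ≤ C2 * m ^ 7 * q / P * S :=
    mul_le_mul_of_nonneg_left hs (by positivity)
  have h2 : C2 * m ^ 7 * q / P * S = C2 * (m ^ 7 * q * S / P) := by ring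
  have h3 : m ^ 7 * q * S / P ≤ 1 := (div_le_one hP).2 h
  have h4 := mul_le_mul_of_nonneg_left h3 hC2
  linarith

private theorem fe_num2 {C1 C2 B m L k : ℝ} (hC1 : 0 ≤ C1) (hC2 : 0 ≤ C2) (hm : 1 ≤ m)
    (hL : 1 ≤ L) (hk : k ≤ B * L) :
    C1 * (2 * m) * k * L ^ 4 + (C2 * m + C2) ≤ (2 * C1 * B + 2 * C2) * m * L ^ 5 := by
  have hm0 : 0 ≤ m := by linarith
  have hL5 : 1 ≤ L ^ 5 := one_le_pow₀ hL
  have h1 : C1 * (2 * m) * k * L ^ 4 ≤ C1 * (2 * m) * (B * L) * L ^ 4 := by gcongr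
  have h2 : C1 * (2 * m) * (B * L) * L ^ 4 = 2 * C1 * B * m * L ^ 5 := by ring
  have h3 : C2 * 1 ≤ C2 * m := mul_le_mul_of_nonneg_left hm hC2
  have h4 : C2 * m * 1 ≤ C2 * m * L ^ 5 := mul_le_mul_of_nonneg_left hL5 (by positivity)
  have h5 : (2 * C1 * B + 2 * C2) * m * L ^ 5 = 2 * C1 * B * m * L ^ 5 + 2 * (C2 * m * L ^ 5) := by
    ring
  linarith

/-- the whole plane, even degree.
PROOF: splitting as in `kp_plane_even` (KpFinal.lean: `disc 0 (2^(k0+1))` and the tail), `near_disc` with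
`K = k0 + 1`, and for the tail `shift_trick` and `even_pt`, `kS_le_norm`, `kD_bounds`: on the enlarged
ball `kS a ≤ 1 + 8 n² Λ ≤ 9 Λ³`, the tail is at most `C m + C`. -/
theorem plane_even : ∃ C : ℝ, 0 ≤ C ∧ ∀ m : ℕ, 1 ≤ m → ∀ (b : KSp (2 * m)) (R Λ : ℝ),
    LamOK (2 * m) b R Λ →
    ∫⁻ a in kball b R, ∫⁻ α in Set.Ioo 0 Real.pi,
      cntO (kVF (2 * m) (krot α a)) Set.univ (∅ : Finset ℕ) (fun _ => ∅) ≤
      ENNReal.ofReal (C * m * (1 + Real.log Λ) ^ 5) *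
        volume (kball b (Real.sqrt (R ^ 2 + 1))) := by
  obtain ⟨C1, hC1, hmain⟩ := near_disc
  obtain ⟨C2, hC2, htail⟩ := even_pt
  obtain ⟨B, hB, hk0⟩ := even_choice C2 hC2
  refine ⟨2 * C1 * B + 2 * C2, by positivity, fun m hm b R Λ hL => ?_⟩
  obtain ⟨k0, h1, h2, h3⟩ := hk0 m Λ hm hL.2.2.1
  obtain ⟨v, hv, ht⟩ := htail m hm k0 h1
  have hm1 : (1 : ℝ) ≤ m := by exact_mod_cast hm
  have hn1 : 1 ≤ 2 * m := by omega
  have hA := hmain (2 * m) hn1 (k0 + 1) b R Λ hL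
  have hBt := fe_tail hv b hL.1 (f2 := fun a : KSp (2 * m) =>
      cntO (kVF (2 * m) a) Set.univ {()} (fun _ => disc 0 (2 ^ (k0 + 1))))
    (km_measurable_cntO (2 * m) isOpen_univ {()} fun _ _ => isOpen_disc _ _)
    (c := C2 * m + C2) fun a ha => (ht a).trans (ENNReal.ofReal_le_ofReal
      (fe_num1 hC2 (Nat.cast_nonneg m) (by positivity) (by positivity)
        (fe_kS hn1 hL.2.1 hL.2.2.1 a (hL.2.2.2 a ha)) h2))
  refine (fe_comb b R (f := fun a : KSp (2 * m) =>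
      cntO (kVF (2 * m) a) Set.univ (∅ : Finset ℕ) (fun _ => ∅))
    (km_measurable_cntO (2 * m) (isOpen_disc 0 (2 ^ (k0 + 1))) (∅ : Finset ℕ) (by simp))
    fun a => fe_split a _).trans ?_
  refine (add_le_add hA hBt).trans ?_
  have hlog : 0 ≤ Real.log Λ := Real.log_nonneg hL.2.1
  rw [← add_mul, ← ENNReal.ofReal_add (by positivity) (by positivity)]
  refine mul_le_mul_left (ENNReal.ofReal_le_ofReal ?_) _
  push_cast
  exact fe_num2 hC1 hC2 hm1 (by linarith) h3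

end Pool.Agent.Lib.MP_95e7ec_an
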