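import Mathlib
import Pool.Agent.Lib.MP_95e7ec_an.Sm.Near
import Pool.Agent.Lib.MP_95e7ec_an.Sm.FarPt
import Pool.Agent.Lib.MP_95e7ec_an.KqFinal

/-!
# Smoothed count: the whole plane, odd degree
-/

set_option autoImplicit false

open Set Filter Topology MeasureTheory
open scoped ContDiff ENNReal

namespace Pool.Agent.Lib.MP_95e7ec_an

/-- the choice of the radius. PROOF: as `kq_choice` (KqFinal.lean), with the power of `Λ ≥ n`. -/
theorem odd_choice (A : ℕ) : ∃ B : ℝ, 0 ≤ B ∧ ∀ (m : ℕ) (Λ : ℝ), ((2 * m + 1 : ℕ) : ℝ) ≤ Λ →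
    ∃ k1 : ℕ, 1 ≤ k1 ∧ Λ ^ A ≤ 2 ^ k1 ∧ ((2 * m + 1 : ℕ) : ℝ) ≤ 2 ^ (48 * k1) ∧
      (∀ k, 48 * k1 ≤ k → qk (2 * m + 1) k = 1) ∧
      ((48 * k1 + 1 : ℕ) : ℝ) + 1 ≤ B * (1 + Real.log Λ) := by
  refine ⟨100 * (A + 1), by positivity, fun m Λ hΛ => ?_⟩
  have hm1 : (1 : ℝ) ≤ ((2 * m + 1 : ℕ) : ℝ) := by
    push_cast
    have : (0 : ℝ) ≤ m := Nat.cast_nonneg m
    linarith
  have hΛ1 : 1 ≤ Λ := hm1.trans hΛ
  obtain ⟨l, hl1, hl2⟩ := exists_nat_pow_near hΛ1 (by norm_num : (1 : ℝ) < 2)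
  set L := l + 1 with hL
  have hmn : 2 * m + 1 < 2 ^ L := by
    have : ((2 * m + 1 : ℕ) : ℝ) < 2 ^ L := lt_of_le_of_lt hΛ hl2
    exact_mod_cast this
  have hLn : 1 ≤ L := by omega
  refine ⟨(A + 1) * L, by nlinarith, ?_, ?_, ?_, ?_⟩
  · calc Λ ^ A ≤ (2 ^ L) ^ A := pow_le_pow_left₀ (by linarith) hl2.le A
      _ = 2 ^ (L * A) := by rw [← pow_mul]
      _ ≤ 2 ^ ((A + 1) * L) := pow_le_pow_right₀ (by norm_num) (by nlinarith)
  · refine (hΛ.trans hl2.le).trans (pow_le_pow_right₀ (by norm_num) ?_)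
    nlinarith
  · intro k hk
    have hk2 : 2 * L ≤ k / 24 := by
      have h1 : 48 * L ≤ k := by
        refine le_trans ?_ hk
        nlinarith
      omega
    unfold qk
    rw [if_neg (by omega)]
    have h2 : Nat.sqrt (2 * m + 1) < 2 ^ (8 * (k / 24)) := by
      calc Nat.sqrt (2 * m + 1) ≤ 2 * m + 1 := Nat.sqrt_le_self _
        _ < 2 ^ L := hmn
        _ ≤ 2 ^ (8 * (k / 24)) := Nat.pow_le_pow_right (by norm_num) (by omega)
    rw [Nat.div_eq_of_lt h2]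
  · have hlog0 : 0 ≤ Real.log Λ := Real.log_nonneg hΛ1
    have hlog2 : (1 / 2 : ℝ) ≤ Real.log 2 := by linarith [Real.log_two_gt_d9]
    have h1 : (l : ℝ) * Real.log 2 ≤ Real.log Λ := by
      rw [← Real.log_pow]
      exact Real.log_le_log (by positivity) hl1
    have hl0 : (0 : ℝ) ≤ l := Nat.cast_nonneg l
    have h2 : (l : ℝ) ≤ 2 * Real.log Λ := by nlinarith
    have hA : (0 : ℝ) ≤ A := Nat.cast_nonneg A
    have hLl : (L : ℝ) = l + 1 := by rw [hL]; push_cast; ring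
    push_cast
    rw [hLl]
    calc 48 * (((A : ℝ) + 1) * (l + 1)) + 1 + 1 ≤ 48 * ((A + 1) * (2 * Real.log Λ + 1)) + 1 + 1 := by
          gcongr
      _ ≤ 100 * (A + 1) * (1 + Real.log Λ) := by nlinarith [mul_nonneg hA hlog0]

private theorem vol_kball_mono {n : ℕ} (b : KSp n) (R : ℝ) :
    volume (kball b R) ≤ volume (kball b (Real.sqrt (R ^ 2 + 1))) := by
  refine measure_mono fun a ha => ?_
  unfold kball at ha ⊢
  rw [Set.mem_ofPred_eq] at ha ⊢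
  rw [Real.sq_sqrt (by positivity)]
  linarith

private theorem meas_slice {n : ℕ} {F : KSp n → ℝ≥0∞} (hF : Measurable F) (a : KSp n) :
    Measurable fun α : ℝ => F (krot α a) :=
  (km_measurable_krot n hF).comp (measurable_const.prodMk measurable_id)

/-- the small orbits of the far annuli.
PROOF: for `k ≥ 24` and one cell: `shift_trick` with `v = kdir n z0`, `kF_pt`, `kA_le_norm`
(`(2 cellR)² n ≤ sq1²/16`, `kp_cell_r`), `kB_le_norm`: at most `C Λ³/2^(k/24)` times the volume; there are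
at most `70000 n ≤ 70000 Λ` cells (as in `kq_mid`, KqFinal.lean). -/
theorem far_mid : ∃ C : ℝ, 0 ≤ C ∧ ∀ n k : ℕ, 1 ≤ n → 24 ≤ k → ∀ (K : ℕ) (b : KSp n) (R Λ : ℝ),
    LamOK n b R Λ →
    ∫⁻ a in kball b R, ∫⁻ α in Set.Ioo 0 Real.pi,
      ∑ j ∈ cells (kq n) k, kF n k K (cellC (kq n) k j) (krot α a) ≤
      ENNReal.ofReal (C * Λ ^ 4 * ((2 : ℝ) ^ (k / 24))⁻¹) *
        volume (kball b (Real.sqrt (R ^ 2 + 1))) := by
  obtain ⟨C1, hC1, hpt⟩ := kF_pt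
  obtain ⟨C2, hC2, hB⟩ := kB_le_norm
  refine ⟨70000 * (C1 * C2), by positivity, fun n k hn hk K b R Λ hL => ?_⟩
  obtain ⟨hR, hΛ1, hnΛ, hΛ⟩ := hL
  have hn0 : (0:ℝ) < n := by exact_mod_cast hn
  have hΛ0 : 0 < Λ := by linarith
  have hcard : ((cells (kq n) k).card : ℝ) ≤ 70000 * n := by
    have h2 := card_cells (kq_nat_pos n) k
    have h3 := kq_le hn
    have h4 := kq_pos n
    have h5 : (kq n : ℝ) ^ 2 ≤ 64 * n := by
      have h6 : (kq n : ℝ) ^ 2 ≤ (8 * Real.sqrt n) ^ 2 := pow_le_pow_left₀ h4.le h3 2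
      rw [mul_pow, Real.sq_sqrt (Nat.cast_nonneg n)] at h6
      linarith
    linarith
  have hcz : ∀ j ∈ cells (kq n) k, (2 : ℝ) ^ k / 4 ≤ nm (cellC (kq n) k j) := by
    intro j hj
    unfold cells at hj
    rw [Finset.mem_filter] at hj
    rcases hj.2 with h | h
    · omega
    · exact h
  -- one cell
  have hone : ∀ z0 : ℝ × ℝ, (2 : ℝ) ^ k / 4 ≤ nm z0 →
      ∫⁻ a in kball b R, ∫⁻ α in Set.Ioo 0 Real.pi, kF n k K z0 (krot α a) ≤
      ENNReal.ofReal (C1 * C2 * Λ ^ 3 / 2 ^ (k / 24)) *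
        volume (kball b (Real.sqrt (R ^ 2 + 1))) := by
    intro z0 hz0
    have hz0' : 0 < nm z0 := lt_of_lt_of_le (by positivity) hz0
    obtain ⟨hr, hrn⟩ := kp_cell_r (n := n) hz0
    have hmeas := measurable_kF hn hk K hz0
    have hΦm := km_measurable_avg n hmeas
    refine (shift_trick (kdir n z0) (sum_kdir_sq n z0) b hR hΦm).trans ?_
    rw [← setLIntegral_const]
    refine setLIntegral_mono' (measurableSet_kball _ _) fun a ha => ?_
    refine (hpt n k hn hk K z0 hz0 a).trans (ENNReal.ofReal_le_ofReal ?_)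
    have h3 : 0 ≤ sq1 z0 := Real.sqrt_nonneg _
    have h4 : (cellR (kq n) k * Real.sqrt n) ^ 2 ≤ (sq1 z0 / 8) ^ 2 :=
      pow_le_pow_left₀ (by positivity) hrn 2
    rw [mul_pow, Real.sq_sqrt (by positivity)] at h4
    have hA := kA_nonneg n z0 (2 * cellR (kq n) k) a
    have hB0 := kB_nonneg n z0 a
    have hs0 : 0 ≤ Real.sqrt (kN2 a) := Real.sqrt_nonneg _
    have hAle : 1 + kA n z0 (2 * cellR (kq n) k) a ≤ Λ := by
      have h5 := kA_le_norm hn z0 (ρ := 2 * cellR (kq n) k) (by positivity) (by nlinarith) a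
      have h6 := hΛ a ha
      linarith
    have hBle : 1 + kB n z0 a ≤ C2 * Λ := by
      have h5 := hB n hn z0 hz0' a
      have h6 := hΛ a ha
      have h7 : C2 * (3 * (1 + Real.sqrt (kN2 a))) ≤ C2 * Λ :=
        mul_le_mul_of_nonneg_left h6 (by linarith)
      nlinarith
    have h8 : (1 + kA n z0 (2 * cellR (kq n) k) a) ^ 2 * (1 + kB n z0 a) ≤ Λ ^ 2 * (C2 * Λ) :=
      mul_le_mul (pow_le_pow_left₀ (by positivity) hAle 2) hBle (by positivity) (by positivity)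
    refine div_le_div_of_nonneg_right ?_ (by positivity)
    calc C1 * ((1 + kA n z0 (2 * cellR (kq n) k) a) ^ 2 * (1 + kB n z0 a)) ≤
          C1 * (Λ ^ 2 * (C2 * Λ)) := mul_le_mul_of_nonneg_left h8 hC1
      _ = C1 * C2 * Λ ^ 3 := by ring
  have hmF : ∀ j ∈ cells (kq n) k, Measurable (kF n k K (cellC (kq n) k j)) := fun j hj =>
    measurable_kF hn hk K (hcz j hj)
  have e1 : ∀ a : KSp n, ∫⁻ α in Set.Ioo 0 Real.pi,
      ∑ j ∈ cells (kq n) k, kF n k K (cellC (kq n) k j) (krot α a) =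
      ∑ j ∈ cells (kq n) k, ∫⁻ α in Set.Ioo 0 Real.pi, kF n k K (cellC (kq n) k j) (krot α a) :=
    fun a => lintegral_finsetSum _ fun j hj => meas_slice (hmF j hj) a
  simp only [e1]
  rw [lintegral_finsetSum _ fun j hj => km_measurable_avg n (hmF j hj)]
  refine (Finset.sum_le_sum fun j hj => hone _ (hcz j hj)).trans ?_
  rw [Finset.sum_const, nsmul_eq_mul, ← ENNReal.ofReal_natCast, ← mul_assoc,
    ← ENNReal.ofReal_mul (by positivity)]
  refine mul_le_mul_left (ENNReal.ofReal_le_ofReal ?_) _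
  have h9 : ((cells (kq n) k).card : ℝ) ≤ 70000 * Λ := by linarith
  calc ((cells (kq n) k).card : ℝ) * (C1 * C2 * Λ ^ 3 / 2 ^ (k / 24)) ≤
        70000 * Λ * (C1 * C2 * Λ ^ 3 / 2 ^ (k / 24)) :=
        mul_le_mul_of_nonneg_right h9 (by positivity)
    _ = 70000 * (C1 * C2) * Λ ^ 4 * ((2 : ℝ) ^ (k / 24))⁻¹ := by rw [div_eq_mul_inv]; ring

/-- the large orbits of the far annuli.
PROOF: `shift_trick2` with the direction of `exists_odd_dir`, `NL_pt`, `kS a ≤ 1 + 8 n² Λ ≤ 9 Λ³`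
(`kS_le_norm`, `kD_bounds`), `m + 1 ≤ 2 Λ`; measurability: `measurable_NL`. -/
theorem far_NL : ∃ (C : ℝ) (A : ℕ), 0 ≤ C ∧ ∀ (m j : ℕ), ((2 * m + 1 : ℕ) : ℝ) ≤ 2 ^ j →
    ∀ (b : KSp (2 * m + 1)) (R Λ : ℝ), LamOK (2 * m + 1) b R Λ →
    ∫⁻ a in kball b R, ∫⁻ α in Set.Ioo 0 Real.pi, NL (kVF (2 * m + 1) (krot α a)) j ≤
      ENNReal.ofReal (C * Λ ^ A * ((2 : ℝ) ^ (j / 48))⁻¹) *
        volume (kball b (Real.sqrt (R ^ 2 + 1))) := by
  obtain ⟨C1, A, hC1, hloc⟩ := NL_pt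
  refine ⟨C1 * 81, A + 6, by positivity, fun m j hj b R Λ hL => ?_⟩
  obtain ⟨hR, hΛ1, hnΛ, hΛ⟩ := hL
  have hΛ0 : 0 < Λ := by linarith
  obtain ⟨u, ν, hu⟩ := exists_odd_dir m
  have hmeas := measurable_NL (2 * m + 1) j
  have hΦm := km_measurable_avg (2 * m + 1) hmeas
  refine (shift_trick2 u hu.2.2.1 b hR hΦm).trans ?_
  rw [← setLIntegral_const]
  refine setLIntegral_mono' (measurableSet_kball _ _) fun a ha => ?_
  refine (hloc m u ν hu a j hj).trans (ENNReal.ofReal_le_ofReal ?_)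
  have hs0 : 0 ≤ Real.sqrt (kN2 a) := Real.sqrt_nonneg _
  have hm0 : (0 : ℝ) ≤ m := Nat.cast_nonneg m
  have hmΛ : (m : ℝ) + 1 ≤ Λ := by
    push_cast at hnΛ
    linarith
  have hD : (kD (2 * m + 1) : ℝ) ≤ 8 * Λ ^ 2 := by
    have h1 := (kD_bounds (n := 2 * m + 1) (by omega)).2
    have h2 : (kD (2 * m + 1) : ℝ) ≤ 8 * ((2 * m + 1 : ℕ) : ℝ) ^ 2 := by exact_mod_cast h1
    have h3 : ((2 * m + 1 : ℕ) : ℝ) ^ 2 ≤ Λ ^ 2 := pow_le_pow_left₀ (Nat.cast_nonneg _) hnΛ 2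
    linarith
  have hsΛ : Real.sqrt (kN2 a) ≤ Λ := by
    have h6 := hΛ a ha
    linarith
  have hS1 : kS a ≤ 9 * Λ ^ 3 := by
    have h5 := kS_le_norm a
    have h7 : (kD (2 * m + 1) : ℝ) * Real.sqrt (kN2 a) ≤ 8 * Λ ^ 2 * Λ :=
      mul_le_mul hD hsΛ hs0 (by positivity)
    have h8 : 1 ≤ Λ ^ 3 := one_le_pow₀ hΛ1
    nlinarith
  have hS0 : 0 ≤ kS a := by unfold kS; positivity
  calc C1 * (m + 1) ^ A * kS a ^ 2 / 2 ^ (j / 48) ≤
        C1 * Λ ^ A * (9 * Λ ^ 3) ^ 2 / 2 ^ (j / 48) := by gcongr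
    _ = C1 * 81 * Λ ^ (A + 6) * ((2 : ℝ) ^ (j / 48))⁻¹ := by
        rw [div_eq_mul_inv, pow_add]
        ring

/-- the odd degree, a large disc -/
private theorem disc_odd : ∃ C : ℝ, 0 ≤ C ∧ ∀ (m K : ℕ) (b : KSp (2 * m + 1)) (R Λ : ℝ),
    LamOK (2 * m + 1) b R Λ →
    ∫⁻ a in kball b R, ∫⁻ α in Set.Ioo 0 Real.pi,
      cntO (kVF (2 * m + 1) (krot α a)) (disc 0 (2 ^ K)) (∅ : Finset ℕ) (fun _ => ∅) ≤
      ENNReal.ofReal (C * (m + 1) * (1 + Real.log Λ) ^ 5) *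
        volume (kball b (Real.sqrt (R ^ 2 + 1))) := by
  obtain ⟨C1, hC1, hmain⟩ := near_disc
  obtain ⟨C3, hC3, hmid⟩ := far_mid
  obtain ⟨C4, A, hC4, hNL⟩ := far_NL
  obtain ⟨B, hB, hch⟩ := odd_choice (max A 4)
  refine ⟨2 * C1 * B + 1200 + 96 * C3 + 96 * C4, by positivity, fun m K => ?_⟩
  set n : ℕ := 2 * m + 1 with hn
  intro b R Λ hL
  have hL' := hL
  obtain ⟨hR, hΛ1, hnΛ, hΛ⟩ := hL
  have hΛ0 : 0 < Λ := by linarith
  obtain ⟨k1, hk1, hA, hn2, hq, hsum⟩ := hch m Λ hnΛ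
  have hA1 : Λ ^ A ≤ 2 ^ k1 := (pow_le_pow_right₀ hΛ1 (le_max_left _ _)).trans hA
  have hA4 : Λ ^ 4 ≤ 2 ^ k1 := (pow_le_pow_right₀ hΛ1 (le_max_right _ _)).trans hA
  have hlog0 : 0 ≤ Real.log Λ := Real.log_nonneg hΛ1
  have hn1 : 1 ≤ n := by omega
  have hm0 : (0 : ℝ) ≤ m := Nat.cast_nonneg m
  have hnm : (n : ℝ) ≤ 2 * (m + 1) := by
    rw [hn]
    push_cast
    linarith
  set k0 := 48 * k1 with hk0
  have hk024 : 24 ≤ k0 := by omega
  set V := volume (kball b (Real.sqrt (R ^ 2 + 1))) with hV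
  have hcz : ∀ k ∈ Finset.Ico (k0 + 1) (K + 1), ∀ j ∈ cells (kq n) k,
      (2 : ℝ) ^ k / 4 ≤ nm (cellC (kq n) k j) := by
    intro k hk j hj
    rw [Finset.mem_Ico] at hk
    unfold cells at hj
    rw [Finset.mem_filter] at hj
    rcases hj.2 with h | h
    · omega
    · exact h
  -- the four functions
  set F1 : KSp n → ℝ≥0∞ := fun a =>
    cntO (kVF n a) (disc 0 (2 ^ (k0 + 1))) (∅ : Finset ℕ) (fun _ => ∅) with hF1
  set F2 : KSp n → ℝ≥0∞ := fun a =>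
    cntO (kVF n a) (disc 0 (2 ^ K)) Finset.univ (crV 0 (2 * 2 ^ k0)) with hF2
  set F3 : ℕ → KSp n → ℝ≥0∞ := fun k a =>
    ∑ j ∈ cells (kq n) k, kF n k K (cellC (kq n) k j) a with hF3
  set F4 : ℕ → KSp n → ℝ≥0∞ := fun j a => NL (kVF n a) j with hF4
  have m1 : Measurable F1 := km_measurable_cntO n (isOpen_disc _ _) ∅ (by simp)
  have m2 : Measurable F2 := km_measurable_cntO n (isOpen_disc _ _) _ fun i _ => isOpen_crV _ _ i
  have m3 : ∀ k ∈ Finset.Ico (k0 + 1) (K + 1), Measurable (F3 k) := by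
    intro k hk
    refine Finset.measurable_fun_sum _ fun j hj => ?_
    exact measurable_kF hn1 (by rw [Finset.mem_Ico] at hk; omega) K (hcz k hk j hj)
  have m4 : ∀ j, Measurable (F4 j) := fun j => measurable_NL n j
  have hsplit : ∀ a : KSp n, ∫⁻ α in Set.Ioo 0 Real.pi,
      cntO (kVF n (krot α a)) (disc 0 (2 ^ K)) (∅ : Finset ℕ) (fun _ => ∅) ≤
      (∫⁻ α in Set.Ioo 0 Real.pi, F1 (krot α a)) + (∫⁻ α in Set.Ioo 0 Real.pi, F2 (krot α a)) +
      (∑ k ∈ Finset.Ico (k0 + 1) (K + 1), ∫⁻ α in Set.Ioo 0 Real.pi, F3 k (krot α a)) +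
      ∑ j ∈ Finset.Ico k0 K, ∫⁻ α in Set.Ioo 0 Real.pi, F4 j (krot α a) := by
    intro a
    refine (lintegral_mono fun α => kq_split hn1 (K := K) hk024 hq (krot α a)).trans ?_
    have s1 := meas_slice m1 a
    have s2 := meas_slice m2 a
    have s3 : ∀ k ∈ Finset.Ico (k0 + 1) (K + 1), Measurable fun α : ℝ => F3 k (krot α a) :=
      fun k hk => meas_slice (m3 k hk) a
    have s3' : Measurable fun α : ℝ => ∑ k ∈ Finset.Ico (k0 + 1) (K + 1), F3 k (krot α a) :=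
      Finset.measurable_fun_sum _ s3
    have s4 : ∀ j ∈ Finset.Ico k0 K, Measurable fun α : ℝ => F4 j (krot α a) :=
      fun j _ => meas_slice (m4 j) a
    have s12 : Measurable fun α : ℝ => F1 (krot α a) + F2 (krot α a) := s1.add s2
    have s123 : Measurable fun α : ℝ => F1 (krot α a) + F2 (krot α a) +
        ∑ k ∈ Finset.Ico (k0 + 1) (K + 1), F3 k (krot α a) := s12.add s3'
    have e : ∫⁻ α in Set.Ioo 0 Real.pi, (F1 (krot α a) + F2 (krot α a) +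
        ∑ k ∈ Finset.Ico (k0 + 1) (K + 1), F3 k (krot α a) +
        ∑ j ∈ Finset.Ico k0 K, F4 j (krot α a)) =
        (∫⁻ α in Set.Ioo 0 Real.pi, F1 (krot α a)) + (∫⁻ α in Set.Ioo 0 Real.pi, F2 (krot α a)) +
      (∑ k ∈ Finset.Ico (k0 + 1) (K + 1), ∫⁻ α in Set.Ioo 0 Real.pi, F3 k (krot α a)) +
      ∑ j ∈ Finset.Ico k0 K, ∫⁻ α in Set.Ioo 0 Real.pi, F4 j (krot α a) := by
      rw [lintegral_add_left s123, lintegral_add_left s12,
        lintegral_add_left s1, lintegral_finsetSum _ s3, lintegral_finsetSum _ s4]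
    exact le_of_eq e
  refine (setLIntegral_mono' (measurableSet_kball _ _) fun a _ => hsplit a).trans ?_
  have M1 := km_measurable_avg n m1
  have M2 := km_measurable_avg n m2
  have M3 : ∀ k ∈ Finset.Ico (k0 + 1) (K + 1), Measurable fun a : KSp n =>
      ∫⁻ α in Set.Ioo 0 Real.pi, F3 k (krot α a) := fun k hk => km_measurable_avg n (m3 k hk)
  have M3' : Measurable fun a : KSp n => ∑ k ∈ Finset.Ico (k0 + 1) (K + 1),
      ∫⁻ α in Set.Ioo 0 Real.pi, F3 k (krot α a) := Finset.measurable_fun_sum _ M3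
  have M4 : ∀ j ∈ Finset.Ico k0 K, Measurable fun a : KSp n =>
      ∫⁻ α in Set.Ioo 0 Real.pi, F4 j (krot α a) := fun j _ => km_measurable_avg n (m4 j)
  have M12 : Measurable fun a : KSp n => (∫⁻ α in Set.Ioo 0 Real.pi, F1 (krot α a)) +
      ∫⁻ α in Set.Ioo 0 Real.pi, F2 (krot α a) := M1.add M2
  have M123 : Measurable fun a : KSp n => (∫⁻ α in Set.Ioo 0 Real.pi, F1 (krot α a)) +
      (∫⁻ α in Set.Ioo 0 Real.pi, F2 (krot α a)) + ∑ k ∈ Finset.Ico (k0 + 1) (K + 1),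
      ∫⁻ α in Set.Ioo 0 Real.pi, F3 k (krot α a) := M12.add M3'
  rw [lintegral_add_left M123, lintegral_add_left M12,
    lintegral_add_left M1, lintegral_finsetSum _ M3, lintegral_finsetSum _ M4]
  have b1 : ∫⁻ a in kball b R, ∫⁻ α in Set.Ioo 0 Real.pi, F1 (krot α a) ≤
      ENNReal.ofReal (C1 * (2 * (m + 1)) * B * (1 + Real.log Λ) ^ 5) * V := by
    refine (hmain n hn1 (k0 + 1) b R Λ hL').trans ?_
    refine mul_le_mul_left (ENNReal.ofReal_le_ofReal ?_) _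
    calc C1 * n * (((k0 + 1 : ℕ) : ℝ) + 1) * (1 + Real.log Λ) ^ 4 ≤
          C1 * (2 * (m + 1)) * (B * (1 + Real.log Λ)) * (1 + Real.log Λ) ^ 4 := by
          gcongr
      _ = C1 * (2 * (m + 1)) * B * (1 + Real.log Λ) ^ 5 := by ring
  have b2 : ∫⁻ a in kball b R, ∫⁻ α in Set.Ioo 0 Real.pi, F2 (krot α a) ≤
      ENNReal.ofReal (600 * (2 * (m + 1))) * V := by
    have h1 : ∀ a : KSp n, ∫⁻ α in Set.Ioo 0 Real.pi, F2 (krot α a) ≤
        ENNReal.ofReal (600 * (2 * (m + 1))) := fun a =>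
      (cross_pt hn1 (disc 0 (2 ^ K)) (R := 2 ^ k0) (by positivity) a).trans
        (ENNReal.ofReal_le_ofReal (by linarith))
    refine (lintegral_mono h1).trans ?_
    rw [setLIntegral_const]
    exact mul_le_mul_right (vol_kball_mono b R) _
  have b3 : ∑ k ∈ Finset.Ico (k0 + 1) (K + 1), ∫⁻ a in kball b R,
      ∫⁻ α in Set.Ioo 0 Real.pi, F3 k (krot α a) ≤ ENNReal.ofReal (96 * C3) * V := by
    have h1 : ∀ k ∈ Finset.Ico (k0 + 1) (K + 1), ∫⁻ a in kball b R,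
        ∫⁻ α in Set.Ioo 0 Real.pi, F3 k (krot α a) ≤
        ENNReal.ofReal (C3 * Λ ^ 4 * ((2 : ℝ) ^ (k / 48))⁻¹) * V := by
      intro k hk
      refine (hmid n k hn1 (by rw [Finset.mem_Ico] at hk; omega) K b R Λ hL').trans ?_
      refine mul_le_mul_left (ENNReal.ofReal_le_ofReal ?_) _
      refine mul_le_mul_of_nonneg_left ?_ (by positivity)
      refine inv_anti₀ (by positivity) ?_
      exact pow_le_pow_right₀ (by norm_num) (by omega)
    refine (Finset.sum_le_sum h1).trans ?_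
    rw [← Finset.sum_mul, ← ENNReal.ofReal_sum_of_nonneg fun k _ => by positivity]
    refine mul_le_mul_left (ENNReal.ofReal_le_ofReal ?_) _
    rw [← Finset.mul_sum]
    have h2 : ∑ k ∈ Finset.Ico (k0 + 1) (K + 1), ((2 : ℝ) ^ (k / 48))⁻¹ ≤
        96 * ((2 : ℝ) ^ k1)⁻¹ := by
      refine le_trans ?_ (kq_sum_geom k1 (K + 1))
      refine Finset.sum_le_sum_of_subset_of_nonneg ?_ fun _ _ _ => by positivity
      intro x hx
      rw [Finset.mem_Ico] at hx ⊢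
      omega
    calc C3 * Λ ^ 4 * ∑ k ∈ Finset.Ico (k0 + 1) (K + 1), ((2 : ℝ) ^ (k / 48))⁻¹
        ≤ C3 * Λ ^ 4 * (96 * ((2 : ℝ) ^ k1)⁻¹) :=
          mul_le_mul_of_nonneg_left h2 (by positivity)
      _ = 96 * C3 * (Λ ^ 4 * ((2 : ℝ) ^ k1)⁻¹) := by ring
      _ ≤ 96 * C3 * 1 := by
          gcongr
          rw [← div_eq_mul_inv, div_le_one (by positivity)]
          exact hA4
      _ = 96 * C3 := by ring
  have b4 : ∑ j ∈ Finset.Ico k0 K, ∫⁻ a in kball b R,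
      ∫⁻ α in Set.Ioo 0 Real.pi, F4 j (krot α a) ≤ ENNReal.ofReal (96 * C4) * V := by
    have h1 : ∀ j ∈ Finset.Ico k0 K, ∫⁻ a in kball b R,
        ∫⁻ α in Set.Ioo 0 Real.pi, F4 j (krot α a) ≤
        ENNReal.ofReal (C4 * Λ ^ A * ((2 : ℝ) ^ (j / 48))⁻¹) * V := by
      intro j hj
      rw [Finset.mem_Ico] at hj
      exact hNL m j (hn2.trans (pow_le_pow_right₀ (by norm_num) hj.1)) b R Λ hL'
    refine (Finset.sum_le_sum h1).trans ?_
    rw [← Finset.sum_mul, ← ENNReal.ofReal_sum_of_nonneg fun k _ => by positivity]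
    refine mul_le_mul_left (ENNReal.ofReal_le_ofReal ?_) _
    rw [← Finset.mul_sum]
    calc C4 * Λ ^ A * ∑ j ∈ Finset.Ico k0 K, ((2 : ℝ) ^ (j / 48))⁻¹
        ≤ C4 * Λ ^ A * (96 * ((2 : ℝ) ^ k1)⁻¹) :=
          mul_le_mul_of_nonneg_left (kq_sum_geom k1 K) (by positivity)
      _ = 96 * C4 * (Λ ^ A * ((2 : ℝ) ^ k1)⁻¹) := by ring
      _ ≤ 96 * C4 * 1 := by
          gcongr
          rw [← div_eq_mul_inv, div_le_one (by positivity)]
          exact hA1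
      _ = 96 * C4 := by ring
  refine (add_le_add (add_le_add (add_le_add b1 b2) b3) b4).trans ?_
  rw [← add_mul, ← add_mul, ← add_mul]
  refine mul_le_mul_left ?_ _
  rw [← ENNReal.ofReal_add (by positivity) (by positivity),
    ← ENNReal.ofReal_add (by positivity) (by positivity),
    ← ENNReal.ofReal_add (by positivity) (by positivity)]
  refine ENNReal.ofReal_le_ofReal ?_
  have hL5 : 1 ≤ (1 + Real.log Λ) ^ 5 := one_le_pow₀ (by linarith)
  have hmL : 1 ≤ ((m : ℝ) + 1) * (1 + Real.log Λ) ^ 5 := by nlinarith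
  have g2 : 600 * (2 * ((m : ℝ) + 1)) ≤ 1200 * ((m + 1) * (1 + Real.log Λ) ^ 5) := by nlinarith
  have g3 : 96 * C3 ≤ 96 * C3 * ((m + 1) * (1 + Real.log Λ) ^ 5) :=
    le_mul_of_one_le_right (by positivity) hmL
  have g4 : 96 * C4 ≤ 96 * C4 * ((m + 1) * (1 + Real.log Λ) ^ 5) :=
    le_mul_of_one_le_right (by positivity) hmL
  calc C1 * (2 * (m + 1)) * B * (1 + Real.log Λ) ^ 5 + 600 * (2 * (m + 1)) + 96 * C3 + 96 * C4
      ≤ C1 * (2 * (m + 1)) * B * (1 + Real.log Λ) ^ 5 +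
        1200 * ((m + 1) * (1 + Real.log Λ) ^ 5) + 96 * C3 * ((m + 1) * (1 + Real.log Λ) ^ 5) +
        96 * C4 * ((m + 1) * (1 + Real.log Λ) ^ 5) := by linarith
    _ = (2 * C1 * B + 1200 + 96 * C3 + 96 * C4) * (m + 1) * (1 + Real.log Λ) ^ 5 := by ring

/-- the whole plane, odd degree.
PROOF: first for `disc 0 (2^K)` with the bound independent of `K` (as `kq_disc_odd`, KqFinal.lean):
`kq_split` for `krot α a`, `k0 = 48 k1` from `odd_choice (max A 4)`; `near_disc` with `K = k0 + 1`;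
`cross_pt` (`600 n`); `far_mid`: `∑_{k ≥ k0+1} C Λ⁴/2^(k/24)`, note `2^(k/24) ≥ 2^(2 k1)` for
`k ≥ 48 k1`, sum `≤ 48 C Λ⁴/2^(2 k1) * 2 ≤ 96 C` (`kq_sum_geom` or `kp_sum_geom`-like with `k/48 ≤ k/24`);
`far_NL`: `kq_sum_geom`, `96 C Λ^A/2^k1 ≤ 96 C`. Then monotone convergence as in `kq_plane_odd`
(`cntO_univ_eq_iSup`; two integrals, `lintegral_iSup` twice). -/
theorem plane_odd : ∃ C : ℝ, 0 ≤ C ∧ ∀ (m : ℕ) (b : KSp (2 * m + 1)) (R Λ : ℝ),
    LamOK (2 * m + 1) b R Λ →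
    ∫⁻ a in kball b R, ∫⁻ α in Set.Ioo 0 Real.pi,
      cntO (kVF (2 * m + 1) (krot α a)) Set.univ (∅ : Finset ℕ) (fun _ => ∅) ≤
      ENNReal.ofReal (C * (m + 1) * (1 + Real.log Λ) ^ 5) *
        volume (kball b (Real.sqrt (R ^ 2 + 1))) := by
  obtain ⟨C, hC, h⟩ := disc_odd
  refine ⟨C, hC, fun m b R Λ hL => ?_⟩
  have hmK : ∀ K : ℕ, Measurable fun a : KSp (2 * m + 1) =>
      cntO (kVF (2 * m + 1) a) (disc 0 (2 ^ K)) (∅ : Finset ℕ) (fun _ => ∅) := fun K =>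
    km_measurable_cntO (2 * m + 1) (isOpen_disc _ _) ∅ (by simp)
  have hmono : ∀ a : KSp (2 * m + 1), Monotone fun K : ℕ =>
      cntO (kVF (2 * m + 1) a) (disc 0 (2 ^ K)) (∅ : Finset ℕ) (fun _ => ∅) := by
    intro a i j hij
    refine kf_cntO_mono _ fun z hz => ?_
    rw [mem_disc_zero (by positivity)] at hz ⊢
    exact hz.trans_le (pow_le_pow_right₀ (by norm_num) hij)
  have e1 : ∀ a : KSp (2 * m + 1), ∫⁻ α in Set.Ioo 0 Real.pi,
      cntO (kVF (2 * m + 1) (krot α a)) Set.univ (∅ : Finset ℕ) (fun _ => ∅) =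
      ⨆ K : ℕ, ∫⁻ α in Set.Ioo 0 Real.pi,
        cntO (kVF (2 * m + 1) (krot α a)) (disc 0 (2 ^ K)) (∅ : Finset ℕ) (fun _ => ∅) := by
    intro a
    simp only [cntO_univ_eq_iSup]
    rw [lintegral_iSup]
    · exact fun K => meas_slice (hmK K) a
    · exact fun i j hij α => hmono (krot α a) hij
  simp only [e1]
  rw [lintegral_iSup]
  · exact iSup_le fun K => h m K b R Λ hL
  · exact fun K => km_measurable_avg (2 * m + 1) (hmK K)
  · exact fun i j hij a => lintegral_mono fun α => hmono (krot α a) hij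

end Pool.Agent.Lib.MP_95e7ec_an
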