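import Mathlib
import Pool.Agent.Lib.MP_95e7ec_an.Sm.Ball

/-!
# Smoothed count: averaging over the rotations inside a ball (helper63's argument)
-/

set_option autoImplicit false

open Set Filter Topology MeasureTheory
open scoped ContDiff ENNReal

namespace Pool.Agent.Lib.MP_95e7ec_an

variable {n : ℕ}

private theorem rt_id (a b : KSp n) (α : ℝ) :
    kN2 (a - krot α b) = kN2 (a - b) +
      2 * (1 - Real.cos α) * (∑ p, (((a - b) p).1 * (b p).1 + ((a - b) p).2 * (b p).2)) -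
      2 * Real.sin α * (∑ p, (((a - b) p).2 * (b p).1 - ((a - b) p).1 * (b p).2)) +
      2 * (1 - Real.cos α) * kN2 b := by
  unfold kN2
  rw [Finset.mul_sum, Finset.mul_sum, Finset.mul_sum, ← Finset.sum_add_distrib,
    ← Finset.sum_sub_distrib, ← Finset.sum_add_distrib]
  refine Finset.sum_congr rfl fun p _ => ?_
  simp only [Pi.sub_apply, krot, Prod.fst_sub, Prod.snd_sub]
  linear_combination ((b p).1 ^ 2 + (b p).2 ^ 2) * (Real.sin_sq_add_cos_sq α)

private theorem rt_inner_le (u b : KSp n) (σ : ℝ) :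
    σ * (∑ p, ((u p).1 * (b p).1 + (u p).2 * (b p).2)) ≤ (kN2 u + σ ^ 2 * kN2 b) / 2 := by
  unfold kN2
  rw [Finset.mul_sum, Finset.mul_sum, ← Finset.sum_add_distrib, Finset.sum_div]
  refine Finset.sum_le_sum fun p _ => ?_
  nlinarith [sq_nonneg ((u p).1 - σ * (b p).1), sq_nonneg ((u p).2 - σ * (b p).2)]

private theorem rt_mem {b a : KSp n} {r σ α : ℝ} (hn : 1 ≤ n) (hσ : 0 < σ) (hσ1 : σ ≤ 1)
    (hr : σ * Real.sqrt (kN2 b) ≤ r) (ha : a ∈ kball b r)
    (hα : α ^ 2 ≤ σ ^ 2 / kD n)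
    (hs : 0 ≤ Real.sin α * (∑ p, (((a - b) p).2 * (b p).1 - ((a - b) p).1 * (b p).2))) :
    a ∈ kball (krot α b) (r * (1 + 1 / kD n)) := by
  have hD : (2 : ℝ) ≤ kD n := by exact_mod_cast (kD_bounds hn).1
  have hD0 : (0 : ℝ) < kD n := by linarith
  have hb0 : 0 ≤ kN2 b := kN2_nonneg b
  have hr2 : σ ^ 2 * kN2 b ≤ r ^ 2 := by
    have h := pow_le_pow_left₀ (by positivity : 0 ≤ σ * Real.sqrt (kN2 b)) hr 2
    rwa [mul_pow, Real.sq_sqrt hb0] at h
  have hu : kN2 (a - b) ≤ r ^ 2 := ha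
  have hcos : 1 - Real.cos α ≤ α ^ 2 / 2 := by
    have := Real.one_sub_sq_div_two_le_cos (x := α)
    linarith
  have hcos0 : 0 ≤ 1 - Real.cos α := by
    have := Real.cos_le_one α
    linarith
  have hI := rt_inner_le (a - b) b σ
  show kN2 (a - krot α b) ≤ (r * (1 + 1 / kD n)) ^ 2
  rw [rt_id]
  set I := ∑ p, (((a - b) p).1 * (b p).1 + ((a - b) p).2 * (b p).2) with hIdef
  set S := ∑ p, (((a - b) p).2 * (b p).1 - ((a - b) p).1 * (b p).2) with hSdef
  have hIb : σ * I ≤ r ^ 2 := by linarith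
  have hrr : 0 ≤ r ^ 2 := sq_nonneg r
  have h1 : 2 * (1 - Real.cos α) * I ≤ r ^ 2 / kD n := by
    rcases le_total I 0 with h | h
    · have h2 : 2 * (1 - Real.cos α) * I ≤ 0 := mul_nonpos_of_nonneg_of_nonpos (by linarith) h
      have h3 : 0 ≤ r ^ 2 / kD n := by positivity
      linarith
    · calc 2 * (1 - Real.cos α) * I ≤ σ ^ 2 / kD n * I :=
            mul_le_mul_of_nonneg_right (by linarith) h
        _ = σ * (σ * I) / kD n := by ring
        _ ≤ 1 * (r ^ 2) / kD n := by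
            refine div_le_div_of_nonneg_right ?_ hD0.le
            exact mul_le_mul hσ1 hIb (mul_nonneg hσ.le h) zero_le_one
        _ = r ^ 2 / kD n := by rw [one_mul]
  have h2 : 2 * (1 - Real.cos α) * kN2 b ≤ α ^ 2 * kN2 b :=
    mul_le_mul_of_nonneg_right (by linarith) hb0
  have h3 : α ^ 2 * kN2 b ≤ σ ^ 2 / kD n * kN2 b := mul_le_mul_of_nonneg_right hα hb0
  have h4 : σ ^ 2 / kD n * kN2 b ≤ r ^ 2 / kD n := by
    rw [div_mul_eq_mul_div]
    exact div_le_div_of_nonneg_right hr2 hD0.le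
  have h5 : (r * (1 + 1 / kD n)) ^ 2 = r ^ 2 + 2 * (r ^ 2 / kD n) + r ^ 2 * (1 / kD n) ^ 2 := by
    ring
  have h6 : 0 ≤ r ^ 2 * (1 / (kD n : ℝ)) ^ 2 := by positivity
  rw [h5]
  linarith

/-- geometric part. With `u = a - b`, `d = krot α b - b`, `J b = krot (π/2) b`:
`kN2 (a - krot α b) = kN2 u - 2⟨u,d⟩ + kN2 d`, `kN2 d = 2 (1 - cos α) kN2 b ≤ α² kN2 b`,
`⟨u,d⟩ = (cos α - 1)⟨u,b⟩ + sin α ⟨u,Jb⟩`. If `0 ≤ α ⟨u,Jb⟩` (then `sin α ⟨u,Jb⟩ ≥ 0` for `|α| ≤ 1`)
this is at most `r² + α² |b| r + α² |b|² ≤ r² + (σ²/D) (r²/σ) + (σ²/D) (r²/σ²) ≤ r² + 2 r²/D ≤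
(r (1+1/D))²`, for `|α| ≤ σ/√D`, `|b| ≤ r/σ`, `σ ≤ 1`. -/
theorem rot_geom {b a : KSp n} {r σ : ℝ} (hn : 1 ≤ n) (hσ : 0 < σ) (hσ1 : σ ≤ 1)
    (hr : σ * Real.sqrt (kN2 b) ≤ r) (ha : a ∈ kball b r) :
    (∀ α ∈ Set.Icc 0 (σ / Real.sqrt (kD n)), a ∈ kball (krot α b) (r * (1 + 1 / kD n))) ∨
      (∀ α ∈ Set.Icc (-(σ / Real.sqrt (kD n))) 0,
        a ∈ kball (krot α b) (r * (1 + 1 / kD n))) := by
  have hD : (2 : ℝ) ≤ kD n := by exact_mod_cast (kD_bounds hn).1
  have hD0 : (0 : ℝ) < kD n := by linarith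
  have hsq : Real.sqrt (kD n) ^ 2 = kD n := Real.sq_sqrt hD0.le
  have hsp : 0 < Real.sqrt (kD n) := Real.sqrt_pos.2 hD0
  have hA0 : 0 < σ / Real.sqrt (kD n) := by positivity
  have hA2 : (σ / Real.sqrt (kD n)) ^ 2 = σ ^ 2 / kD n := by rw [div_pow, hsq]
  have hA1 : σ / Real.sqrt (kD n) ≤ 1 := by
    rw [div_le_one hsp]
    have : (1 : ℝ) ≤ Real.sqrt (kD n) := by
      rw [Real.one_le_sqrt]
      linarith
    linarith
  have hpi := Real.pi_gt_three
  set A := σ / Real.sqrt (kD n) with hA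
  rcases le_total 0 (∑ p, (((a - b) p).2 * (b p).1 - ((a - b) p).1 * (b p).2)) with hS | hS
  · left
    intro α hα
    refine rt_mem hn hσ hσ1 hr ha ?_ ?_
    · rw [← hA2]
      exact pow_le_pow_left₀ hα.1 hα.2 2
    · exact mul_nonneg (Real.sin_nonneg_of_nonneg_of_le_pi hα.1 (by linarith [hα.2])) hS
  · right
    intro α hα
    refine rt_mem hn hσ hσ1 hr ha ?_ ?_
    · rw [← hA2, ← neg_sq α]
      exact pow_le_pow_left₀ (by linarith [hα.2]) (by linarith [hα.1]) 2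
    · exact mul_nonneg_of_nonpos_of_nonpos
        (Real.sin_nonpos_of_nonpos_of_neg_pi_le hα.2 (by linarith [hα.1])) hS

private theorem rt_krot_cancel (α : ℝ) (a : KSp n) : krot α (krot (-α) a) = a := by
  rw [krot_add, add_neg_cancel, krot_zero]

private theorem rt_krot_cancel' (α : ℝ) (a : KSp n) : krot (-α) (krot α a) = a := by
  rw [krot_add, neg_add_cancel, krot_zero]

private theorem rt_mem_iff {a b : KSp n} {α R : ℝ} (h : a ∈ kball (krot α b) R) :
    krot (-α) a ∈ kball b R := by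
  show kN2 (krot (-α) a - b) ≤ R ^ 2
  have e : krot (-α) a - b = krot (-α) (a - krot α b) := by
    rw [krot_sub, rt_krot_cancel']
  rw [e, kN2_krot]
  exact h

/-- the integral over a small symmetric interval, for a function with the period `π` -/
private theorem rt_period {f : ℝ → ℝ≥0∞} (hp : ∀ x, f (x + Real.pi) = f x)
    {A : ℝ} (hA1 : A ≤ 1) :
    ∫⁻ x in Set.Icc (-A) A, f x ≤ ∫⁻ x in Set.Ioo 0 Real.pi, f x := by
  have hpi := Real.pi_gt_three
  have h1 : Set.Icc (-A) A ⊆ Set.Icc (-A) 0 ∪ Set.Icc 0 A := by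
    intro x hx
    rcases le_total x 0 with h | h
    · exact Or.inl ⟨hx.1, h⟩
    · exact Or.inr ⟨h, hx.2⟩
  have h2 : ∫⁻ x in Set.Icc (-A) 0, f x = ∫⁻ x in Set.Ioo (Real.pi - A) Real.pi, f x := by
    rw [← setLIntegral_congr (Ioo_ae_eq_Icc (a := -A) (b := (0 : ℝ)))]
    have h := (measurePreserving_add_right (volume : Measure ℝ) Real.pi).setLIntegral_comp_preimage_emb
      (measurableEmbedding_addRight Real.pi) f (Set.Ioo (Real.pi - A) Real.pi)
    rw [← h]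
    have e : (fun x : ℝ => x + Real.pi) ⁻¹' Set.Ioo (Real.pi - A) Real.pi = Set.Ioo (-A) 0 := by
      ext x
      simp only [Set.mem_preimage, Set.mem_Ioo]
      constructor <;> rintro ⟨h3, h4⟩ <;> constructor <;> linarith
    rw [e]
    simp only [hp]
  have h3 : ∫⁻ x in Set.Icc 0 A, f x = ∫⁻ x in Set.Ioo 0 A, f x :=
    (setLIntegral_congr (Ioo_ae_eq_Icc (a := (0 : ℝ)) (b := A))).symm
  calc ∫⁻ x in Set.Icc (-A) A, f x
      ≤ ∫⁻ x in Set.Icc (-A) 0 ∪ Set.Icc 0 A, f x := lintegral_mono_set h1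
    _ ≤ (∫⁻ x in Set.Icc (-A) 0, f x) + ∫⁻ x in Set.Icc 0 A, f x := lintegral_union_le _ _ _
    _ = (∫⁻ x in Set.Ioo (Real.pi - A) Real.pi, f x) + ∫⁻ x in Set.Ioo 0 A, f x := by rw [h2, h3]
    _ = ∫⁻ x in Set.Ioo (Real.pi - A) Real.pi ∪ Set.Ioo 0 A, f x := by
        rw [lintegral_union measurableSet_Ioo]
        rw [Set.disjoint_left]
        rintro x hx hx'
        have := hx.1
        have := hx'.2
        linarith
    _ ≤ ∫⁻ x in Set.Ioo 0 Real.pi, f x := by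
        refine lintegral_mono_set (Set.union_subset ?_ ?_)
        · exact Set.Ioo_subset_Ioo_left (by linarith)
        · exact Set.Ioo_subset_Ioo_right (by linarith)

private theorem rt_key {B : Set (KSp n)} {b a : KSp n} {R : ℝ} (hB : B = kball b R)
    {g : KSp n → ℝ≥0∞} (hg1 : ∀ x ∈ B, g x = 1) {A : ℝ} (hA0 : 0 < A) (c : ℝ≥0∞)
    (h : (∀ α ∈ Set.Icc 0 A, a ∈ kball (krot α b) R) ∨
      (∀ α ∈ Set.Icc (-A) 0, a ∈ kball (krot α b) R)) :
    ENNReal.ofReal A * c ≤ ∫⁻ α in Set.Icc (-A) A, g (krot (-α) a) * c := by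
  have hsub : ∀ s : Set ℝ, MeasurableSet s → s ⊆ Set.Icc (-A) A → volume s = ENNReal.ofReal A →
      (∀ α ∈ s, a ∈ kball (krot α b) R) →
      ENNReal.ofReal A * c ≤ ∫⁻ α in Set.Icc (-A) A, g (krot (-α) a) * c := by
    intro s hs hsI hv hsa
    have e1 : ENNReal.ofReal A * c = ∫⁻ _ in s, c := by
      rw [setLIntegral_const, hv, mul_comm]
    have e2 : ∫⁻ _ in s, c = ∫⁻ α in s, g (krot (-α) a) * c := by
      refine setLIntegral_congr_fun hs fun α hα => ?_
      have h1 : krot (-α) a ∈ B := hB ▸ rt_mem_iff (hsa α hα)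
      have h2 : g (krot (-α) a) = 1 := hg1 _ h1
      show c = g (krot (-α) a) * c
      rw [h2, one_mul]
    rw [e1, e2]
    exact lintegral_mono_set hsI
  rcases h with h | h
  · refine hsub (Set.Icc 0 A) measurableSet_Icc (Set.Icc_subset_Icc_left (by linarith)) ?_ h
    rw [Real.volume_Icc, sub_zero]
  · refine hsub (Set.Icc (-A) 0) measurableSet_Icc (Set.Icc_subset_Icc_right hA0.le) ?_ h
    rw [Real.volume_Icc]
    congr 1
    ring

private theorem rt_main {b : KSp n} {r R A : ℝ} (hA0 : 0 < A) (hA1 : A ≤ 1)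
    (hgeo : ∀ a ∈ kball b r, (∀ α ∈ Set.Icc 0 A, a ∈ kball (krot α b) R) ∨
      (∀ α ∈ Set.Icc (-A) 0, a ∈ kball (krot α b) R))
    {F : KSp n → ℝ≥0∞} (hF : Measurable F) (hπ : ∀ a, F (krot Real.pi a) = F a)
    {B : Set (KSp n)} (hB : B = kball b R) (hBm : MeasurableSet B)
    {g : KSp n → ℝ≥0∞} (hgm : Measurable g) (hg1 : ∀ x ∈ B, g x = 1)
    (hg0 : ∀ x ∉ B, g x = 0) :
    ENNReal.ofReal A * ∫⁻ a in kball b r, F a ≤
      ∫⁻ a in B, ∫⁻ α in Set.Ioo 0 Real.pi, F (krot α a) := by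
  have hφm : Measurable fun q : KSp n × ℝ => g (krot (-q.2) q.1) * F q.1 := by
    have h1 := km_measurable_krot n hgm
    have h2 : Measurable fun q : KSp n × ℝ => (q.1, -q.2) :=
      measurable_fst.prodMk measurable_snd.neg
    exact (h1.comp h2).mul (hF.comp measurable_fst)
  have hψm : Measurable fun q : KSp n × ℝ => g q.1 * F (krot q.2 q.1) :=
    (hgm.comp measurable_fst).mul (km_measurable_krot n hF)
  have hsw1 : ∫⁻ a, ∫⁻ α in Set.Icc (-A) A, g (krot (-α) a) * F a =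
      ∫⁻ α in Set.Icc (-A) A, ∫⁻ a, g (krot (-α) a) * F a :=
    lintegral_lintegral_swap (f := fun (a : KSp n) (α : ℝ) => g (krot (-α) a) * F a)
      hφm.aemeasurable
  have hsw2 : ∫⁻ a, ∫⁻ α in Set.Icc (-A) A, g a * F (krot α a) =
      ∫⁻ α in Set.Icc (-A) A, ∫⁻ a, g a * F (krot α a) :=
    lintegral_lintegral_swap (f := fun (a : KSp n) (α : ℝ) => g a * F (krot α a))
      hψm.aemeasurable
  have hrt : ∀ α : ℝ, ∫⁻ a, g (krot (-α) a) * F a = ∫⁻ a, g a * F (krot α a) := by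
    intro α
    have hm : Measurable fun a : KSp n => g a * F (krot α a) :=
      hψm.comp (measurable_id.prodMk measurable_const)
    have h1 := volume_krot (-α) hm
    rw [← h1]
    exact lintegral_congr fun a => by rw [rt_krot_cancel]
  have s1 : ENNReal.ofReal A * ∫⁻ a in kball b r, F a =
      ∫⁻ a in kball b r, ENNReal.ofReal A * F a := (lintegral_const_mul _ hF).symm
  have s2 : ∫⁻ a in kball b r, ENNReal.ofReal A * F a ≤
      ∫⁻ a in kball b r, ∫⁻ α in Set.Icc (-A) A, g (krot (-α) a) * F a :=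
    setLIntegral_mono' (measurableSet_kball b r) fun a ha =>
      rt_key hB hg1 hA0 (F a) (hgeo a ha)
  have s3 : ∫⁻ a in kball b r, ∫⁻ α in Set.Icc (-A) A, g (krot (-α) a) * F a ≤
      ∫⁻ a, ∫⁻ α in Set.Icc (-A) A, g (krot (-α) a) * F a := setLIntegral_le_lintegral _ _
  have s4 : ∫⁻ α in Set.Icc (-A) A, ∫⁻ a, g (krot (-α) a) * F a =
      ∫⁻ α in Set.Icc (-A) A, ∫⁻ a, g a * F (krot α a) :=
    lintegral_congr fun α => hrt α
  have s5 : ∫⁻ a, ∫⁻ α in Set.Icc (-A) A, g a * F (krot α a) =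
      ∫⁻ a in B, ∫⁻ α in Set.Icc (-A) A, F (krot α a) := by
    rw [← lintegral_indicator hBm]
    refine lintegral_congr fun a => ?_
    by_cases ha : a ∈ B
    · rw [Set.indicator_of_mem ha]
      refine lintegral_congr fun α => ?_
      rw [hg1 a ha, one_mul]
    · rw [Set.indicator_of_notMem ha]
      have : ∀ α : ℝ, g a * F (krot α a) = 0 := fun α => by rw [hg0 a ha, zero_mul]
      rw [lintegral_congr this, lintegral_zero]
  have s6 : ∫⁻ a in B, ∫⁻ α in Set.Icc (-A) A, F (krot α a) ≤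
      ∫⁻ a in B, ∫⁻ α in Set.Ioo 0 Real.pi, F (krot α a) := by
    refine lintegral_mono fun a => rt_period (f := fun α => F (krot α a)) (fun x => ?_) hA1
    show F (krot (x + Real.pi) a) = F (krot x a)
    rw [add_comm x Real.pi, ← krot_add, hπ]
  rw [s1]
  refine s2.trans (s3.trans ?_)
  rw [hsw1, s4, ← hsw2, s5]
  exact s6

/-- the mean over the ball is at most `√D/σ` times the mean over a slightly larger ball of the
integral over the rotations.
PROOF. `A = σ/√D ≤ 1`. By `rot_geom`, for every `a ∈ kball b r` the set of the `α ∈ [-A,A]` with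
`krot (-α) a ∈ kball b r'` has measure at least `A` (`a ∈ kball (krot α b) r'` iff
`krot (-α) a ∈ kball b r'`: `kN2_krot`, `krot_add`, `krot_sub`). So
`A ∫⁻ a in kball b r, F a ≤ ∫⁻ α in [-A,A], ∫⁻ a, 1[krot (-α) a ∈ kball b r'] F a
= ∫⁻ α in [-A,A], ∫⁻ a in kball b r', F (krot α a)` (`volume_krot`). For `α ∈ (-A,0)`,
`F (krot α a) = F (krot (α+π) a)` (`hπ`, `krot_add`), `α + π ∈ (π - A, π)`, and `(0,A)`, `(π-A,π)` are
disjoint subsets of `(0,π)`. Measurability: `km_measurable_krot`, `km_measurable_avg` (KosMain). -/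
theorem rot_trick (hn : 1 ≤ n) (b : KSp n) {r σ : ℝ} (hσ : 0 < σ) (hσ1 : σ ≤ 1)
    (hr : σ * Real.sqrt (kN2 b) ≤ r) {F : KSp n → ℝ≥0∞} (hF : Measurable F)
    (hπ : ∀ a, F (krot Real.pi a) = F a) :
    ENNReal.ofReal (σ / Real.sqrt (kD n)) * ∫⁻ a in kball b r, F a ≤
      ∫⁻ a in kball b (r * (1 + 1 / kD n)), ∫⁻ α in Set.Ioo 0 Real.pi, F (krot α a) := by
  have hD : (2 : ℝ) ≤ kD n := by exact_mod_cast (kD_bounds hn).1
  have hD0 : (0 : ℝ) < kD n := by linarith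
  have hsp : 0 < Real.sqrt (kD n) := Real.sqrt_pos.2 hD0
  have hA0 : 0 < σ / Real.sqrt (kD n) := by positivity
  have hA1 : σ / Real.sqrt (kD n) ≤ 1 := by
    rw [div_le_one hsp]
    have : (1 : ℝ) ≤ Real.sqrt (kD n) := by
      rw [Real.one_le_sqrt]
      linarith
    linarith
  have hBm : MeasurableSet (kball b (r * (1 + 1 / kD n))) := measurableSet_kball b _
  exact rt_main hA0 hA1 (fun a ha => rot_geom hn hσ hσ1 hr ha) hF hπ rfl hBm
    (g := (kball b (r * (1 + 1 / kD n))).indicator fun _ => 1)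
    (measurable_const.indicator hBm) (fun x hx => Set.indicator_of_mem hx _)
    (fun x hx => Set.indicator_of_notMem hx _)

end Pool.Agent.Lib.MP_95e7ec_an
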