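import Mathlib
import Pool.Agent.Lib.MP_95e7ec_an.Sm.FarEven
import Pool.Agent.Lib.MP_95e7ec_an.Sm.FarOdd
import Pool.Agent.Lib.MP_95e7ec_an.Sm.Rot

/-!
# Smoothed count: final form
-/

set_option autoImplicit false

open Set Filter Topology MeasureTheory
open scoped ContDiff ENNReal

namespace Pool.Agent.Lib.MP_95e7ec_an

private theorem sf_closed {v : ℝ × ℝ → ℝ × ℝ} {c : ℝ} (hc : c ≠ 0) {C : Set (ℝ × ℝ)}
    (h : IsClosedOrbit (fun z => c • v z) C) : IsClosedOrbit v C := by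
  obtain ⟨γ, T, hT, hd, hp, ⟨s, t, hst⟩, hC⟩ := h
  have hp' : ∀ t : ℝ, γ (t - T) = γ t := fun t => by
    have := hp (t - T)
    rw [sub_add_cancel] at this
    exact this.symm
  refine ⟨fun u => γ (c⁻¹ * u), |c| * T, by positivity, fun u => ?_, fun u => ?_,
    ⟨c * s, c * t, ?_⟩, ?_⟩
  · have h1 : HasDerivAt (fun u : ℝ => c⁻¹ * u) c⁻¹ u := by
      simpa using (hasDerivAt_id u).const_mul c⁻¹
    have h2 := (hd (c⁻¹ * u)).scomp u h1
    have h3 : c⁻¹ • c • v (γ (c⁻¹ * u)) = v (γ (c⁻¹ * u)) := by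
      rw [smul_smul, inv_mul_cancel₀ hc, one_smul]
    rw [h3] at h2
    exact h2
  · show γ (c⁻¹ * (u + |c| * T)) = γ (c⁻¹ * u)
    rcases lt_or_gt_of_ne hc with h0 | h0
    · have h1 : c⁻¹ * (u + |c| * T) = c⁻¹ * u - T := by
        rw [abs_of_neg h0]
        field_simp
        ring
      rw [h1, hp']
    · have h1 : c⁻¹ * (u + |c| * T) = c⁻¹ * u + T := by
        rw [abs_of_pos h0]
        field_simp
      rw [h1, hp]
  · show γ (c⁻¹ * (c * s)) ≠ γ (c⁻¹ * (c * t))
    rw [← mul_assoc, ← mul_assoc, inv_mul_cancel₀ hc, one_mul, one_mul]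
    exact hst
  · rw [hC]
    ext z
    constructor
    · rintro ⟨u, rfl⟩
      refine ⟨c * u, ?_⟩
      show γ (c⁻¹ * (c * u)) = γ u
      rw [← mul_assoc, inv_mul_cancel₀ hc, one_mul]
    · rintro ⟨u, rfl⟩
      exact ⟨c⁻¹ * u, rfl⟩

private theorem sf_kVF {n : ℕ} (c : ℝ) (a : KSp n) : kVF n (c • a) = fun z => c • kVF n a z := by
  funext z
  have h : ∀ b : KIdx n → ℝ, MvPolynomial.eval ![z.1, z.2] (kPoly n fun p => c * b p) =
      c * MvPolynomial.eval ![z.1, z.2] (kPoly n b) := by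
    intro b
    unfold kPoly
    rw [map_sum, map_sum, Finset.mul_sum]
    refine Finset.sum_congr rfl fun p _ => ?_
    simp only [map_mul, MvPolynomial.eval_C]
    ring
  have h1 := h fun p => (a p).1
  have h2 := h fun p => (a p).2
  exact Prod.ext h1 h2

/-- the closed orbits of a multiple of the field are the same. PROOF: reparametrise the time:
`γ(c t)`; `kVF n (c • a) = c • kVF n a`; also for negative `c`. -/
theorem closed_smul {n : ℕ} {c : ℝ} (hc : c ≠ 0) (a : KSp n) (C : Set (ℝ × ℝ)) :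
    IsClosedOrbit (kVF n (c • a)) C ↔ IsClosedOrbit (kVF n a) C := by
  rw [sf_kVF]
  refine ⟨sf_closed hc, fun h => sf_closed (c := c⁻¹) (inv_ne_zero hc) ?_⟩
  have h1 : (fun z => c⁻¹ • c • kVF n a z) = kVF n a := by
    funext z
    rw [smul_smul, inv_mul_cancel₀ hc, one_smul]
  rw [h1]
  exact h

theorem cntO_smul {n : ℕ} {c : ℝ} (hc : c ≠ 0) (a : KSp n) :
    cntO (kVF n (c • a)) Set.univ (∅ : Finset ℕ) (fun _ => ∅) =
      cntO (kVF n a) Set.univ (∅ : Finset ℕ) (fun _ => ∅) := by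
  unfold cntO
  simp only [closed_smul hc]

private theorem sf_lint {n : ℕ} {s : ℝ} (hs : 0 < s) (H : KSp n → ℝ≥0∞) :
    ∫⁻ a : KSp n, H (s • a) = ENNReal.ofReal ((s ^ kD n)⁻¹) * ∫⁻ a, H a := by
  have h1 := Measure.map_addHaar_smul (volume : Measure (KSp n)) hs.ne'
  have h2 : ∫⁻ c, H c ∂(Measure.map (⇑(Homeomorph.smulOfNeZero s hs.ne')) volume) =
      ∫⁻ t : KSp n, H ((Homeomorph.smulOfNeZero s hs.ne') t) :=
    (Homeomorph.smulOfNeZero s hs.ne').isClosedEmbedding.measurableEmbedding.lintegral_map _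
  have h3 : ∫⁻ c, H c ∂(Measure.map (fun t : KSp n => s • t) volume) =
      ∫⁻ t : KSp n, H (s • t) := h2
  rw [← h3, h1, lintegral_smul_measure, smul_eq_mul, finrank_KSp, abs_of_pos (by positivity)]

private theorem sf_mem {n : ℕ} (b a : KSp n) {r s : ℝ} (hs : 0 < s) :
    s • a ∈ kball (s • b) (s * r) ↔ a ∈ kball b r := by
  unfold kball
  rw [Set.mem_ofPred_eq, Set.mem_ofPred_eq, ← smul_sub, kN2_smul, mul_pow]
  exact mul_le_mul_iff_right₀ (by positivity)

/-- the integral over a ball under a homothety, for a homogeneous function.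
PROOF: change of variables `a = s⁻¹ • a'` (`Measure.map_addHaar_smul` or
`Measure.setIntegral_comp_smul`-like for `lintegral`; model `ke_lintegral_smul` in KosEven.lean) and
`volume_kball`: both sides are the ratio of the mean values, stated as a product. -/
theorem ball_homothety {n : ℕ} (b : KSp n) {r s : ℝ} (hr : 0 ≤ r) (hs : 0 < s)
    {F : KSp n → ℝ≥0∞} (hF : Measurable F) (hFs : ∀ a, F (s • a) = F a) :
    ENNReal.ofReal (s ^ kD n) * ∫⁻ a in kball b r, F a = ∫⁻ a in kball (s • b) (s * r), F a := by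
  rw [← lintegral_indicator (measurableSet_kball _ _), ← lintegral_indicator
    (measurableSet_kball _ _)]
  have h1 := sf_lint (n := n) hs ((kball (s • b) (s * r)).indicator F)
  have h2 : (fun a : KSp n => (kball (s • b) (s * r)).indicator F (s • a)) =
      (kball b r).indicator F := by
    funext a
    by_cases h : a ∈ kball b r
    · rw [Set.indicator_of_mem h, Set.indicator_of_mem ((sf_mem b a hs).2 h), hFs]
    · rw [Set.indicator_of_notMem h, Set.indicator_of_notMem fun h' => h ((sf_mem b a hs).1 h')]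
  rw [h2] at h1
  rw [h1, ← mul_assoc, ← ENNReal.ofReal_mul (by positivity), mul_inv_cancel₀ (by positivity),
    ENNReal.ofReal_one, one_mul]

/-- both parities.
PROOF: `plane_even`, `plane_odd`; `C m ≤ C n`, `C (m+1) ≤ C n` for `n = 2m+1`. -/
theorem plane_all : ∃ C : ℝ, 0 ≤ C ∧ ∀ n : ℕ, 1 ≤ n → ∀ (b : KSp n) (R Λ : ℝ),
    LamOK n b R Λ →
    ∫⁻ a in kball b R, ∫⁻ α in Set.Ioo 0 Real.pi,
      cntO (kVF n (krot α a)) Set.univ (∅ : Finset ℕ) (fun _ => ∅) ≤
      ENNReal.ofReal (C * n * (1 + Real.log Λ) ^ 5) *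
        volume (kball b (Real.sqrt (R ^ 2 + 1))) := by
  obtain ⟨C1, hC1, h1⟩ := plane_even
  obtain ⟨C2, hC2, h2⟩ := plane_odd
  refine ⟨C1 + C2, by positivity, fun n hn b R Λ hL => ?_⟩
  have hlog : 0 ≤ 1 + Real.log Λ := by
    have := Real.log_nonneg hL.2.1
    linarith
  obtain ⟨m, rfl | rfl⟩ := Nat.even_or_odd' n
  · refine (h1 m (by omega) b R Λ hL).trans (mul_le_mul_left ?_ _)
    refine ENNReal.ofReal_le_ofReal (mul_le_mul_of_nonneg_right ?_ (by positivity))
    have h3 : (0 : ℝ) ≤ m := Nat.cast_nonneg m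
    push_cast
    nlinarith [mul_nonneg hC1 h3, mul_nonneg hC2 h3]
  · refine (h2 m b R Λ hL).trans (mul_le_mul_left ?_ _)
    refine ENNReal.ofReal_le_ofReal (mul_le_mul_of_nonneg_right ?_ (by positivity))
    have h3 : (0 : ℝ) ≤ m := Nat.cast_nonneg m
    push_cast
    nlinarith [mul_nonneg hC1 h3, mul_nonneg hC2 h3]

private theorem sf_krot_pi {n : ℕ} (a : KSp n) : krot Real.pi a = (-1 : ℝ) • a := by
  funext p
  unfold krot
  rw [Real.cos_pi, Real.sin_pi]
  ext <;> simp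

private theorem sf_meas (n : ℕ) :
    Measurable fun a : KSp n => cntO (kVF n a) Set.univ (∅ : Finset ℕ) (fun _ => ∅) :=
  km_measurable_cntO n isOpen_univ ∅ fun i hi => absurd hi (Finset.notMem_empty i)

/-- the ball of radius `√D` round a point of norm at most `√D/σ`.
PROOF: `D = kD n`, `r = √D ≥ σ |b|`, `rot_trick`, `plane_all` with `R = √D (1 + 1/D)` and
`Λ = 40 n/σ` (`|a| ≤ |b| + √(R²+1) ≤ √D/σ + 2√D + 1`, `√D ≤ 3 n`), and
`volume (kball b √(R²+1)) ≤ ((1+1/D)³)^(D/2) volume (kball b r) ≤ 5 volume (kball b r)`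
(`R² + 1 ≤ D (1+1/D)³`, `volume_kball`, `(1+1/D)^D ≤ e`). `√D/σ ≤ 3 n/σ`,
`1 + log Λ ≤ 5 (1 + log (n/σ))` since `n/σ ≥ 1`. -/
theorem smoothed_unit : ∃ C : ℝ, 0 ≤ C ∧ ∀ n : ℕ, 1 ≤ n → ∀ (b : KSp n) (σ : ℝ), 0 < σ → σ ≤ 1 →
    σ * Real.sqrt (kN2 b) ≤ Real.sqrt (kD n) →
    ∫⁻ a in kball b (Real.sqrt (kD n)), cntO (kVF n a) Set.univ (∅ : Finset ℕ) (fun _ => ∅) ≤
      ENNReal.ofReal (C * n ^ 2 * (1 + Real.log (n / σ)) ^ 5 / σ) *
        volume (kball b (Real.sqrt (kD n))) := by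
  obtain ⟨C, hC, hpl⟩ := plane_all
  refine ⟨3 * (3125 * (Real.exp 2 * C)), by positivity, fun n hn b σ hσ hσ1 hb => ?_⟩
  obtain ⟨hD2, hD8⟩ := kD_bounds hn
  obtain ⟨D, hD⟩ : ∃ D : ℝ, D = kD n := ⟨_, rfl⟩
  obtain ⟨r, hr⟩ : ∃ r : ℝ, r = Real.sqrt (kD n) := ⟨_, rfl⟩
  have hD2' : (2 : ℝ) ≤ D := by rw [hD]; exact_mod_cast hD2
  have hn1 : (1 : ℝ) ≤ n := by exact_mod_cast hn
  have hD8' : D ≤ 8 * (n : ℝ) ^ 2 := by rw [hD]; exact_mod_cast hD8
  have hD0 : 0 < D := by linarith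
  have hr2 : r ^ 2 = D := by rw [hr, hD, Real.sq_sqrt (Nat.cast_nonneg _)]
  have hr0 : 0 < r := by rw [hr]; exact Real.sqrt_pos.2 (by rw [← hD]; exact hD0)
  have hr3 : r ≤ 3 * n := by
    refine le_of_sq_le_sq ?_ (by positivity)
    rw [hr2]
    nlinarith
  have hnσ : (1 : ℝ) ≤ n / σ := by
    rw [le_div_iff₀ hσ]
    linarith
  -- the radius
  obtain ⟨R, hR⟩ : ∃ R : ℝ, R = r * (1 + 1 / D) := ⟨_, rfl⟩
  have hR0 : 0 ≤ R := by rw [hR]; positivity
  have hR2 : R ^ 2 + 1 = D + 3 + 1 / D := by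
    rw [hR, mul_pow, hr2]
    field_simp
    ring
  have hD1 : 1 / D ≤ 1 / 2 := by
    rw [div_le_div_iff₀ hD0 (by norm_num)]
    linarith
  have hR4 : Real.sqrt (R ^ 2 + 1) ≤ 2 * r := by
    refine Real.sqrt_le_iff.2 ⟨by positivity, ?_⟩
    rw [hR2, mul_pow, hr2]
    linarith
  -- the bound for the coefficients
  have hL : LamOK n b R (40 * (n / σ)) := by
    refine ⟨hR0, by linarith, ?_, fun a ha => ?_⟩
    · have h1 : (n : ℝ) ≤ n / σ := by
        rw [le_div_iff₀ hσ]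
        nlinarith
      linarith
    · have h1 : Real.sqrt (kN2 (a - b)) ≤ 2 * r := by
        refine le_trans (Real.sqrt_le_sqrt ?_) hR4
        have h2 : kN2 (a - b) ≤ Real.sqrt (R ^ 2 + 1) ^ 2 := ha
        rwa [Real.sq_sqrt (by positivity)] at h2
      have h3 : Real.sqrt (kN2 a) ≤ Real.sqrt (kN2 b) + Real.sqrt (kN2 (a - b)) := by
        have h4 := sqrt_kN2_add b (a - b)
        rwa [add_sub_cancel] at h4
      have h5 : Real.sqrt (kN2 b) ≤ r / σ := by
        rw [le_div_iff₀ hσ, mul_comm, hr]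
        exact hb
      have h6 : r ≤ r / σ := by
        rw [le_div_iff₀ hσ]
        nlinarith
      have h7 : r / σ ≤ 3 * (n / σ) := by
        rw [← mul_div_assoc]
        exact div_le_div_of_nonneg_right hr3 hσ.le
      linarith
  have hA := hpl n hn b R _ hL
  have hB := rot_trick hn b hσ hσ1 (r := r) (by rw [hr]; exact hb) (sf_meas n) fun a => by
    rw [sf_krot_pi]
    exact cntO_smul (by norm_num) a
  rw [← hr, ← hD, ← hR] at hB
  rw [← hr]
  have hAB := hB.trans hA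
  -- the volume
  have hV : volume (kball b (Real.sqrt (R ^ 2 + 1))) ≤
      ENNReal.ofReal (Real.exp 2) * volume (kball b r) := by
    have hc0 : 0 < Real.sqrt (R ^ 2 + 1) / r := by positivity
    have h1 := volume_kball b b (R := r) (c := Real.sqrt (R ^ 2 + 1) / r) hr0.le hc0
    rw [div_mul_cancel₀ _ hr0.ne'] at h1
    rw [h1]
    refine mul_le_mul_left (ENNReal.ofReal_le_ofReal ?_) _
    have h2 : Real.sqrt (R ^ 2 + 1) / r ≤ Real.exp (2 / D) := by
      rw [div_le_iff₀ hr0]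
      refine Real.sqrt_le_iff.2 ⟨by positivity, ?_⟩
      rw [mul_pow, hr2, ← Real.exp_nat_mul, hR2]
      have h3 := Real.add_one_le_exp (((2 : ℕ) : ℝ) * (2 / D))
      have h4 : D + 3 + 1 / D ≤ (((2 : ℕ) : ℝ) * (2 / D) + 1) * D := by
        push_cast
        field_simp
        nlinarith
      exact h4.trans (mul_le_mul_of_nonneg_right h3 hD0.le)
    calc (Real.sqrt (R ^ 2 + 1) / r) ^ kD n ≤ Real.exp (2 / D) ^ kD n :=
          pow_le_pow_left₀ hc0.le h2 _
      _ = Real.exp 2 := by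
          rw [← Real.exp_nat_mul, ← hD]
          congr 1
          field_simp
  -- the logarithm
  have hlog0 : 0 ≤ Real.log (n / σ) := Real.log_nonneg hnσ
  have hlog : 1 + Real.log (40 * (n / σ)) ≤ 5 * (1 + Real.log (n / σ)) := by
    rw [Real.log_mul (by norm_num) (by positivity)]
    have h40 : Real.log 40 ≤ 4 := by
      rw [Real.log_le_iff_le_exp (by norm_num)]
      have h1 := Real.exp_one_gt_d9
      have h2 : Real.exp 4 = Real.exp 1 ^ 4 := by
        rw [← Real.exp_nat_mul]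
        norm_num
      rw [h2]
      have h3 : (2.7 : ℝ) ^ 4 ≤ Real.exp 1 ^ 4 :=
        pow_le_pow_left₀ (by norm_num) (by linarith) 4
      refine le_trans ?_ h3
      norm_num
    linarith
  have hlog5 : (1 + Real.log (40 * (n / σ))) ^ 5 ≤ 3125 * (1 + Real.log (n / σ)) ^ 5 := by
    have h0 : 0 ≤ 1 + Real.log (40 * (n / σ)) := by
      have := Real.log_nonneg (show (1 : ℝ) ≤ 40 * (n / σ) by linarith)
      linarith
    calc _ ≤ (5 * (1 + Real.log (n / σ))) ^ 5 := pow_le_pow_left₀ h0 hlog 5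
      _ = _ := by ring
  -- conclusion
  have h9 : ENNReal.ofReal (r / σ) * ENNReal.ofReal (σ / r) = 1 := by
    rw [← ENNReal.ofReal_mul (by positivity)]
    have : r / σ * (σ / r) = 1 := by field_simp
    rw [this, ENNReal.ofReal_one]
  calc ∫⁻ a in kball b r, cntO (kVF n a) Set.univ (∅ : Finset ℕ) (fun _ => ∅)
      = ENNReal.ofReal (r / σ) * (ENNReal.ofReal (σ / r) *
          ∫⁻ a in kball b r, cntO (kVF n a) Set.univ (∅ : Finset ℕ) (fun _ => ∅)) := by
        rw [← mul_assoc, h9, one_mul]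
    _ ≤ ENNReal.ofReal (r / σ) * (ENNReal.ofReal (C * n * (1 + Real.log (40 * (n / σ))) ^ 5) *
          (ENNReal.ofReal (Real.exp 2) * volume (kball b r))) := by
        refine mul_le_mul_right (hAB.trans (mul_le_mul_right hV _)) _
    _ = ENNReal.ofReal (r / σ * (C * n * (1 + Real.log (40 * (n / σ))) ^ 5 * Real.exp 2)) *
          volume (kball b r) := by
        rw [← mul_assoc, ← mul_assoc, ← ENNReal.ofReal_mul (by positivity),
          ← ENNReal.ofReal_mul]
        · rw [mul_assoc (r / σ)]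
        · have : 0 ≤ 1 + Real.log (40 * (n / σ)) := by
            have := Real.log_nonneg (show (1 : ℝ) ≤ 40 * (n / σ) by linarith)
            linarith
          positivity
    _ ≤ _ := by
        refine mul_le_mul_left (ENNReal.ofReal_le_ofReal ?_) _
        have hL0 : 0 ≤ 1 + Real.log (40 * (n / σ)) := by
          have := Real.log_nonneg (show (1 : ℝ) ≤ 40 * (n / σ) by linarith)
          linarith
        calc r / σ * (C * n * (1 + Real.log (40 * (n / σ))) ^ 5 * Real.exp 2)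
            ≤ 3 * n / σ * (C * n * (3125 * (1 + Real.log (n / σ)) ^ 5) * Real.exp 2) := by
              gcongr
          _ = _ := by ring

/-- the smoothed count, for every ball whose radius is at least `σ |b|`.
PROOF: `s = √D/r`, `ball_homothety`, `cntO_smul`, `smoothed_unit` for `s • b`, `volume_kball`; cancel
`ENNReal.ofReal (s^D)`. -/
theorem smoothed_plane : ∃ C : ℝ, 0 ≤ C ∧ ∀ n : ℕ, 1 ≤ n → ∀ (b : KSp n) (r σ : ℝ),
    0 < σ → σ ≤ 1 → 0 < r → σ * Real.sqrt (kN2 b) ≤ r →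
    ∫⁻ a in kball b r, cntO (kVF n a) Set.univ (∅ : Finset ℕ) (fun _ => ∅) ≤
      ENNReal.ofReal (C * n ^ 2 * (1 + Real.log (n / σ)) ^ 5 / σ) * volume (kball b r) := by
  obtain ⟨C, hC, hun⟩ := smoothed_unit
  refine ⟨C, hC, fun n hn b r σ hσ hσ1 hr hb => ?_⟩
  have hD : (0 : ℝ) < Real.sqrt (kD n) := by
    have := (kD_bounds hn).1
    refine Real.sqrt_pos.2 ?_
    exact_mod_cast (by omega : 0 < kD n)
  obtain ⟨s, hs⟩ : ∃ s : ℝ, s = Real.sqrt (kD n) / r := ⟨_, rfl⟩
  have hs0 : 0 < s := by rw [hs]; positivity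
  have h1 : s * r = Real.sqrt (kD n) := by
    rw [hs]
    field_simp
  have h2 : Real.sqrt (kN2 (s • b)) = s * Real.sqrt (kN2 b) := by
    rw [kN2_smul, Real.sqrt_mul (by positivity), Real.sqrt_sq hs0.le]
  have h3 := hun n hn (s • b) σ hσ hσ1 (by
    rw [h2, ← h1, mul_left_comm]
    exact mul_le_mul_of_nonneg_left hb hs0.le)
  have h4 := ball_homothety b (r := r) hr.le hs0 (sf_meas n) fun a => cntO_smul hs0.ne' a
  have h5 := volume_kball b (s • b) (R := r) (c := s) hr.le hs0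
  rw [h1] at h4 h5
  rw [← h4, h5, mul_left_comm] at h3
  exact (ENNReal.mul_le_mul_iff_right (by
    rw [Ne, ENNReal.ofReal_eq_zero, not_le]
    positivity) ENNReal.ofReal_ne_top).1 h3

end Pool.Agent.Lib.MP_95e7ec_an
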