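import Mathlib
import Pool.Agent.Lib.MP_95e7ec_an.Sm.GGau

/-!
# Gaussian laws: the rotation invariant weight `exp (|<b, g>| - |b|^2 / 2)` has total mass at most
`14 (1 + |b|)` (copied from Ball/Smooth.lean)

For `d = 1 / (2 (1 + |b|))`, `κ = 1 / (1 - d^2 / 2)` and `J ≥ 4 (1 + |b|)` one has
`e^{|z|} ≤ ∑_{|j| ≤ J} e^{κ Re (e^{2ijd} z)}`, and `E e^{κ Re <b, g>} = e^{κ^2 |b|^2 / 2}`,
`κ^2 |b|^2 ≤ |b|^2 + 3 / 8`.
-/

set_option autoImplicit false

open Set Filter Topology MeasureTheory ProbabilityTheory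
open scoped ENNReal

namespace Pool.Agent.Lib.MP_95e7ec_an.GB

theorem measurable_re {ι : Type} [Fintype ι] (b : ι → ℝ × ℝ) : Measurable (re b) := by
  have : Continuous (re b) := by
    unfold re
    fun_prop
  exact this.measurable

theorem measurable_im {ι : Type} [Fintype ι] (b : ι → ℝ × ℝ) : Measurable (im b) := by
  have : Continuous (im b) := by
    unfold im
    fun_prop
  exact this.measurable

theorem measurable_rot2 {ι : Type} [Fintype ι] :
    Measurable fun q : ℝ × (ι → ℝ × ℝ) => rot q.1 q.2 := by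
  have : Continuous fun q : ℝ × (ι → ℝ × ℝ) => rot q.1 q.2 := by
    unfold rot rp
    fun_prop
  exact this.measurable

theorem re_rot {ι : Type} [Fintype ι] (b g : ι → ℝ × ℝ) (a : ℝ) :
    re b (rot a g) = Real.cos a * re b g - Real.sin a * im b g := by
  unfold re im rot rp
  rw [Finset.mul_sum, Finset.mul_sum, ← Finset.sum_sub_distrib]
  exact Finset.sum_congr rfl fun p _ => by ring

theorem im_rot {ι : Type} [Fintype ι] (b g : ι → ℝ × ℝ) (a : ℝ) :
    im b (rot a g) = Real.sin a * re b g + Real.cos a * im b g := by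
  unfold re im rot rp
  rw [Finset.mul_sum, Finset.mul_sum, ← Finset.sum_add_distrib]
  exact Finset.sum_congr rfl fun p _ => by ring

theorem re_smul {ι : Type} [Fintype ι] (b g : ι → ℝ × ℝ) (κ : ℝ) : re (κ • b) g = κ * re b g := by
  unfold re
  rw [Finset.mul_sum]
  refine Finset.sum_congr rfl fun p _ => ?_
  simp only [Pi.smul_apply, Prod.smul_fst, Prod.smul_snd, smul_eq_mul]
  ring

theorem sq_smul {ι : Type} [Fintype ι] (b : ι → ℝ × ℝ) (κ : ℝ) : sq (κ • b) = κ ^ 2 * sq b := by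
  unfold sq
  rw [Finset.mul_sum]
  refine Finset.sum_congr rfl fun p _ => ?_
  simp only [Pi.smul_apply, Prod.smul_fst, Prod.smul_snd, smul_eq_mul]
  ring

/-- finitely many directions suffice -/
theorem exp_norm_le (x y : ℝ) {d : ℝ} (hd : 0 < d) (hd1 : d ≤ 1) (J : ℕ)
    (hJ : Real.pi / (2 * d) + 1 / 2 ≤ J) :
    Real.exp (Real.sqrt (x ^ 2 + y ^ 2)) ≤
      ∑ j ∈ Finset.Icc (-(J : ℤ)) J,
        Real.exp ((1 - d ^ 2 / 2)⁻¹ *
          (Real.cos (2 * j * d) * x - Real.sin (2 * j * d) * y)) := by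
  set z : ℂ := ⟨x, y⟩ with hz
  set ρ : ℝ := ‖z‖ with hρ
  set θ : ℝ := z.arg with hθ
  have hρ0 : 0 ≤ ρ := norm_nonneg z
  have hρ1 : Real.sqrt (x ^ 2 + y ^ 2) = ρ := by
    rw [hρ, Complex.norm_eq_sqrt_sq_add_sq]
  have hx : x = ρ * Real.cos θ := by
    have := Complex.norm_mul_cos_arg z
    rw [← hρ, ← hθ] at this
    rw [this]
  have hy : y = ρ * Real.sin θ := by
    have := Complex.norm_mul_sin_arg z
    rw [← hρ, ← hθ] at this
    rw [this]
  have hθ1 : |θ| ≤ Real.pi := Complex.abs_arg_le_pi z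
  set j : ℤ := round (-θ / (2 * d)) with hj
  have hj1 : |(-θ / (2 * d)) - j| ≤ 1 / 2 := abs_sub_round _
  have h2d : (0 : ℝ) < 2 * d := by positivity
  have hj2 : |2 * j * d + θ| ≤ d := by
    have e : 2 * (j : ℝ) * d + θ = -((2 * d) * ((-θ / (2 * d)) - j)) := by
      field_simp
      ring
    rw [e, abs_neg, abs_mul, abs_of_pos h2d]
    nlinarith
  have hj3 : |(j : ℝ)| ≤ J := by
    have h1 : |-θ / (2 * d)| ≤ Real.pi / (2 * d) := by
      rw [abs_div, abs_neg, abs_of_pos h2d]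
      gcongr
    have h2 : |(j : ℝ)| ≤ |-θ / (2 * d)| + 1 / 2 := by
      have e : (j : ℝ) = -θ / (2 * d) - ((-θ / (2 * d)) - j) := by ring
      calc |(j : ℝ)| = |-θ / (2 * d) - ((-θ / (2 * d)) - j)| := by rw [← e]
        _ ≤ |-θ / (2 * d)| + |(-θ / (2 * d)) - j| := abs_sub _ _
        _ ≤ _ := by linarith
    linarith
  have hj4 : j ∈ Finset.Icc (-(J : ℤ)) J := by
    rw [Finset.mem_Icc]
    have := abs_le.1 hj3
    constructor
    · have h := this.1
      exact_mod_cast h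
    · have h := this.2
      exact_mod_cast h
  have hκ : 0 < 1 - d ^ 2 / 2 := by nlinarith
  have hcos : 1 - d ^ 2 / 2 ≤ Real.cos (2 * j * d + θ) := by
    have h1 := Real.one_sub_sq_div_two_le_cos (x := 2 * j * d + θ)
    have h2 : (2 * j * d + θ) ^ 2 ≤ d ^ 2 := by
      rw [← sq_abs (2 * (j : ℝ) * d + θ)]
      exact pow_le_pow_left₀ (abs_nonneg _) hj2 2
    linarith
  have hmain : ρ ≤ (1 - d ^ 2 / 2)⁻¹ *
      (Real.cos (2 * j * d) * x - Real.sin (2 * j * d) * y) := by
    have e : Real.cos (2 * j * d) * x - Real.sin (2 * j * d) * y =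
        ρ * Real.cos (2 * j * d + θ) := by
      rw [Real.cos_add]
      nth_rewrite 1 [hx]
      nth_rewrite 1 [hy]
      ring
    rw [e, ← div_eq_inv_mul, le_div_iff₀ hκ]
    exact mul_le_mul_of_nonneg_left hcos hρ0
  rw [hρ1]
  refine (Real.exp_le_exp.2 hmain).trans ?_
  exact Finset.single_le_sum (f := fun j : ℤ => Real.exp ((1 - d ^ 2 / 2)⁻¹ *
    (Real.cos (2 * j * d) * x - Real.sin (2 * j * d) * y)))
    (fun j _ => (Real.exp_pos _).le) hj4

/-- the total mass of the rotation invariant weight -/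
theorem weight_mass {ι : Type} [Fintype ι] (b : ι → ℝ × ℝ) :
    ∫⁻ g, ENNReal.ofReal (Real.exp (Real.sqrt (re b g ^ 2 + im b g ^ 2) - sq b / 2)) ∂gm ι ≤
      ENNReal.ofReal (14 * (1 + Real.sqrt (sq b))) := by
  set β : ℝ := Real.sqrt (sq b) with hβ
  have hβ0 : 0 ≤ β := Real.sqrt_nonneg _
  have hβ2 : β ^ 2 = sq b := Real.sq_sqrt (sq_nonneg' b)
  set d : ℝ := 1 / (2 * (1 + β)) with hd
  have hd0 : 0 < d := by positivity
  have hd1 : d ≤ 1 := by
    rw [hd, div_le_one (by positivity)]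
    linarith
  have hdβ : d * (1 + β) = 1 / 2 := by
    rw [hd]
    field_simp
  set J : ℕ := ⌈4 * (1 + β)⌉₊ with hJ
  have hJ1 : 4 * (1 + β) ≤ J := Nat.le_ceil _
  have hJ2 : (J : ℝ) < 4 * (1 + β) + 1 := Nat.ceil_lt_add_one (by positivity)
  have hpi : Real.pi < 3.15 := Real.pi_lt_d2
  have hJ3 : Real.pi / (2 * d) + 1 / 2 ≤ J := by
    have e : Real.pi / (2 * d) = Real.pi * (1 + β) := by
      rw [hd]
      field_simp
    rw [e]
    nlinarith
  set κ : ℝ := (1 - d ^ 2 / 2)⁻¹ with hκ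
  have hd2 : d ^ 2 / 2 ≤ 1 / 8 := by
    have : d ≤ 1 / 2 := by nlinarith
    nlinarith
  have hκ0 : 0 < 1 - d ^ 2 / 2 := by linarith
  have hκ1 : κ ^ 2 ≤ 1 + 3 * (d ^ 2 / 2) := by
    set t := d ^ 2 / 2 with ht
    have ht0 : 0 ≤ t := by positivity
    rw [hκ, inv_pow, inv_le_iff_one_le_mul₀ (by positivity)]
    nlinarith [mul_nonneg ht0 ht0, mul_nonneg (mul_nonneg ht0 ht0) ht0,
      mul_nonneg ht0 (show (0 : ℝ) ≤ 1 / 8 - t by linarith)]
  have hκ2 : κ ^ 2 * sq b / 2 - sq b / 2 ≤ 3 / 16 := by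
    rw [← hβ2]
    have h1 : d * β ≤ 1 / 2 := by nlinarith
    have h2 : (d * β) ^ 2 ≤ 1 / 4 := by
      have : 0 ≤ d * β := by positivity
      nlinarith
    nlinarith [mul_le_mul_of_nonneg_right hκ1 (by positivity : (0 : ℝ) ≤ β ^ 2)]
  have hterm : ∀ a : ℝ, ∫⁻ g, ENNReal.ofReal (Real.exp (κ *
      (Real.cos a * re b g - Real.sin a * im b g) - sq b / 2)) ∂gm ι ≤
      ENNReal.ofReal (5 / 4) := by
    intro a
    have h1 : ∫⁻ g, ENNReal.ofReal (Real.exp (κ *
        (Real.cos a * re b g - Real.sin a * im b g) - sq b / 2)) ∂gm ι =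
        ∫⁻ g, ENNReal.ofReal (Real.exp (κ * re b g - sq b / 2)) ∂gm ι := by
      have hmeas : Measurable fun g : ι → ℝ × ℝ =>
          ENNReal.ofReal (Real.exp (κ * re b g - sq b / 2)) := by
        have := measurable_re b
        fun_prop
      rw [← (gm_rot a).lintegral_comp hmeas]
      refine lintegral_congr fun g => ?_
      rw [re_rot]
    rw [h1]
    have h2 : ∀ g : ι → ℝ × ℝ, ENNReal.ofReal (Real.exp (κ * re b g - sq b / 2)) =
        ENNReal.ofReal (Real.exp (-(sq b / 2))) *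
          ENNReal.ofReal (Real.exp (re (κ • b) g)) := by
      intro g
      rw [← ENNReal.ofReal_mul (Real.exp_pos _).le, ← Real.exp_add, re_smul]
      congr 2
      ring
    simp only [h2]
    rw [lintegral_const_mul' _ _ ENNReal.ofReal_ne_top, mgf_gm,
      ← ENNReal.ofReal_mul (Real.exp_pos _).le, ← Real.exp_add, sq_smul]
    refine ENNReal.ofReal_le_ofReal ?_
    have h3 : -(sq b / 2) + κ ^ 2 * sq b / 2 ≤ 3 / 16 := by linarith
    refine (Real.exp_le_exp.2 h3).trans ?_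
    have h4 := Real.exp_bound_div_one_sub_of_interval' (x := 3 / 16) (by norm_num) (by norm_num)
    refine h4.le.trans ?_
    norm_num
  calc ∫⁻ g, ENNReal.ofReal (Real.exp (Real.sqrt (re b g ^ 2 + im b g ^ 2) - sq b / 2)) ∂gm ι
      ≤ ∫⁻ g, ∑ j ∈ Finset.Icc (-(J : ℤ)) J, ENNReal.ofReal (Real.exp (κ *
          (Real.cos (2 * j * d) * re b g - Real.sin (2 * j * d) * im b g) - sq b / 2))
          ∂gm ι := by
        refine lintegral_mono fun g => ?_
        rw [← ENNReal.ofReal_sum_of_nonneg fun j _ => (Real.exp_pos _).le]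
        refine ENNReal.ofReal_le_ofReal ?_
        have h := exp_norm_le (re b g) (im b g) hd0 hd1 J hJ3
        have e1 : Real.exp (Real.sqrt (re b g ^ 2 + im b g ^ 2) - sq b / 2) =
            Real.exp (Real.sqrt (re b g ^ 2 + im b g ^ 2)) * Real.exp (-(sq b / 2)) := by
          rw [← Real.exp_add]
          congr 1
        have e2 : ∑ j ∈ Finset.Icc (-(J : ℤ)) J, Real.exp (κ *
            (Real.cos (2 * j * d) * re b g - Real.sin (2 * j * d) * im b g) - sq b / 2) =
            (∑ j ∈ Finset.Icc (-(J : ℤ)) J, Real.exp (κ *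
            (Real.cos (2 * j * d) * re b g - Real.sin (2 * j * d) * im b g))) *
              Real.exp (-(sq b / 2)) := by
          rw [Finset.sum_mul]
          refine Finset.sum_congr rfl fun j _ => ?_
          rw [← Real.exp_add]
          congr 1
        rw [e1, e2]
        exact mul_le_mul_of_nonneg_right h (Real.exp_pos _).le
    _ = ∑ j ∈ Finset.Icc (-(J : ℤ)) J, ∫⁻ g, ENNReal.ofReal (Real.exp (κ *
          (Real.cos (2 * j * d) * re b g - Real.sin (2 * j * d) * im b g) - sq b / 2))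
          ∂gm ι := by
        refine lintegral_finsetSum _ fun j _ => ?_
        have := measurable_re b
        have := measurable_im b
        fun_prop
    _ ≤ ∑ j ∈ Finset.Icc (-(J : ℤ)) J, ENNReal.ofReal (5 / 4) :=
        Finset.sum_le_sum fun j _ => hterm _
    _ = ENNReal.ofReal ((2 * J + 1) * (5 / 4)) := by
        rw [Finset.sum_const, Int.card_Icc, ENNReal.ofReal_mul (by positivity), nsmul_eq_mul]
        congr 1
        have : ((J : ℤ) + 1 - -(J : ℤ)).toNat = 2 * J + 1 := by omega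
        rw [this]
        have h2 : (2 * (J : ℝ) + 1) = ((2 * J + 1 : ℕ) : ℝ) := by push_cast; ring
        rw [h2, ENNReal.ofReal_natCast]
    _ ≤ ENNReal.ofReal (14 * (1 + β)) := by
        refine ENNReal.ofReal_le_ofReal ?_
        nlinarith

end Pool.Agent.Lib.MP_95e7ec_an.GB
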