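import Mathlib
import Pool.Agent.Lib.MP_95e7ec_an.Sm.GShift

/-!
# Smoothed count, Gaussian form: rotation average and moments
-/

set_option autoImplicit false

open Set Filter Topology MeasureTheory ProbabilityTheory
open scoped ENNReal

namespace Pool.Agent.Lib.MP_95e7ec_an.GB

variable {ι : Type} [Fintype ι]

theorem gw_rot (b g : ι → ℝ × ℝ) (a : ℝ) : gw b (rot a g) = gw b g := by
  unfold gw
  rw [re_rot, im_rot]
  congr 4
  have := Real.sin_sq_add_cos_sq a
  have e : (Real.cos a * re b g - Real.sin a * im b g) ^ 2 +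
      (Real.sin a * re b g + Real.cos a * im b g) ^ 2 =
      (Real.sin a ^ 2 + Real.cos a ^ 2) * (re b g ^ 2 + im b g ^ 2) := by ring
  rw [e, this, one_mul]

/-- PROOF: as `h2` in the proof of `smooth` (GSmooth.lean: `cm`, then `re ≤ √(re² + im²)`), then as in
`weight_avg` with `Ioo 0 π` in place of `Icc 0 (2π)`. -/
theorem avg_rot (b : ι → ℝ × ℝ) {N : (ι → ℝ × ℝ) → ℝ≥0∞} (hN : Measurable N) :
    ENNReal.ofReal Real.pi * ∫⁻ g, N (b + g) ∂gm ι ≤
      ∫⁻ g, gw b g * (∫⁻ α in Set.Ioo 0 Real.pi, N (rot α g)) ∂gm ι := by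
  have h2 : ∫⁻ g, N (b + g) ∂gm ι ≤ ∫⁻ g, gw b g * N g ∂gm ι := by
    rw [cm b hN]
    refine lintegral_mono fun g => ?_
    simp only [gw]
    gcongr
    refine Real.le_sqrt_of_sq_le ?_
    nlinarith [sq_nonneg (im b g)]
  have h1 : ∀ a : ℝ, ∫⁻ g, gw b g * N (rot a g) ∂gm ι = ∫⁻ g, gw b g * N g ∂gm ι := by
    intro a
    have h0 := (gm_rot a).lintegral_comp ((measurable_gw b).mul hN)
    simp only [Pi.mul_apply, gw_rot] at h0
    exact h0
  have hNr := hN.comp (measurable_rot2 (ι := ι))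
  have h3 : ∫⁻ _a : ℝ in Set.Ioo 0 Real.pi, ∫⁻ g, gw b g * N g ∂gm ι =
      ∫⁻ g, gw b g * (∫⁻ α in Set.Ioo 0 Real.pi, N (rot α g)) ∂gm ι := by
    calc ∫⁻ _a : ℝ in Set.Ioo 0 Real.pi, ∫⁻ g, gw b g * N g ∂gm ι
        = ∫⁻ a in Set.Ioo 0 Real.pi, ∫⁻ g, gw b g * N (rot a g) ∂gm ι := by
          refine lintegral_congr fun a => (h1 a).symm
      _ = ∫⁻ g, (∫⁻ a in Set.Ioo 0 Real.pi, gw b g * N (rot a g)) ∂gm ι := by
          have hm : Measurable (Function.uncurry fun (a : ℝ) (g : ι → ℝ × ℝ) =>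
              gw b g * N (rot a g)) :=
            ((measurable_gw b).comp measurable_snd).mul hNr
          exact lintegral_lintegral_swap (μ := volume.restrict (Set.Ioo 0 Real.pi)) (ν := gm ι)
            (f := fun a g => gw b g * N (rot a g)) hm.aemeasurable
      _ = ∫⁻ g, gw b g * (∫⁻ a in Set.Ioo 0 Real.pi, N (rot a g)) ∂gm ι := by
          refine lintegral_congr fun g => ?_
          have hp : Measurable fun a : ℝ => (a, g) := measurable_prodMk_right
          have hr := hNr.comp hp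
          have hg : Measurable fun a : ℝ => N (rot a g) := hr
          rw [lintegral_const_mul _ hg]
  rw [lintegral_const, Measure.restrict_apply_univ, Real.volume_Ioo, sub_zero] at h3
  rw [← h3, mul_comm]
  gcongr

theorem gw_mass (b : ι → ℝ × ℝ) :
    ∫⁻ g, gw b g ∂gm ι ≤ ENNReal.ofReal (14 * (1 + Real.sqrt (sq b))) :=
  weight_mass b

private theorem gmm_real : ∫⁻ x : ℝ, ENNReal.ofReal (2 * x ^ 2) ∂gaussianReal 0 1 = 2 := by
  have h1 : MemLp (id : ℝ → ℝ) 2 (gaussianReal 0 1) := memLp_id_gaussianReal 2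
  have h2 : Integrable (fun x : ℝ => x ^ 2) (gaussianReal 0 1) := h1.integrable_sq
  have h3 : ∫ x : ℝ, x ^ 2 ∂gaussianReal 0 1 = 1 := by
    have h4 := variance_id_gaussianReal (μ := 0) (v := 1)
    rw [variance_eq_integral aemeasurable_id] at h4
    simpa using h4
  rw [← ofReal_integral_eq_lintegral_ofReal (h2.const_mul 2)
    (Filter.Eventually.of_forall fun x => by positivity), integral_const_mul, h3]
  norm_num

private theorem gmm_plane : ∫⁻ z : ℝ × ℝ, ENNReal.ofReal (2 * (z.1 ^ 2 + z.2 ^ 2)) ∂g2 = 4 := by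
  have hm : Measurable fun x : ℝ => ENNReal.ofReal (2 * x ^ 2) := by fun_prop
  have e : ∀ z : ℝ × ℝ, ENNReal.ofReal (2 * (z.1 ^ 2 + z.2 ^ 2)) =
      ENNReal.ofReal (2 * z.1 ^ 2) + ENNReal.ofReal (2 * z.2 ^ 2) := by
    intro z
    rw [← ENNReal.ofReal_add (by positivity) (by positivity), mul_add]
  simp only [e]
  rw [lintegral_add_left (show Measurable fun z : ℝ × ℝ => ENNReal.ofReal (2 * z.1 ^ 2) from
    hm.comp measurable_fst)]
  unfold g2
  have h1 := (measurePreserving_fst (μ := gaussianReal 0 1) (ν := gaussianReal 0 1)).lintegral_comp hm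
  have h2 := (measurePreserving_snd (μ := gaussianReal 0 1) (ν := gaussianReal 0 1)).lintegral_comp hm
  rw [h1, h2, gmm_real]
  norm_num

/-- the second moment of a shifted Gaussian vector.
PROOF: `∫ x² d gaussianReal = 1` (variance), `∫ x = 0`; or: `sq (g + c) ≤ 2 sq g + 2 sq c` pointwise
and `∫⁻ ofReal (sq g) = 2 card ι` (marginals of `Measure.pi`), which gives the constant below. -/
theorem sq_mom (c : ι → ℝ × ℝ) :
    ∫⁻ g, ENNReal.ofReal (sq (c + g)) ∂gm ι ≤
      ENNReal.ofReal (4 * Fintype.card ι + 2 * sq c) := by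
  have hms : Measurable fun g : ι → ℝ × ℝ => ENNReal.ofReal (2 * sq g) := by
    unfold sq
    fun_prop
  have h1 : ∫⁻ g : ι → ℝ × ℝ, ENNReal.ofReal (2 * sq g) ∂gm ι =
      ENNReal.ofReal (4 * Fintype.card ι) := by
    have e : ∀ g : ι → ℝ × ℝ, ENNReal.ofReal (2 * sq g) =
        ∑ p, ENNReal.ofReal (2 * ((g p).1 ^ 2 + (g p).2 ^ 2)) := by
      intro g
      rw [sq, Finset.mul_sum, ENNReal.ofReal_sum_of_nonneg fun p _ => by positivity]
    have hm2 : Measurable fun z : ℝ × ℝ => ENNReal.ofReal (2 * (z.1 ^ 2 + z.2 ^ 2)) := by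
      fun_prop
    simp only [e]
    rw [lintegral_finsetSum _ fun p _ => show Measurable fun g : ι → ℝ × ℝ =>
      ENNReal.ofReal (2 * ((g p).1 ^ 2 + (g p).2 ^ 2)) from hm2.comp (measurable_pi_apply p)]
    have e2 : ∀ p : ι, ∫⁻ g : ι → ℝ × ℝ, ENNReal.ofReal (2 * ((g p).1 ^ 2 + (g p).2 ^ 2)) ∂gm ι =
        4 := by
      intro p
      have h3 := (measurePreserving_eval (fun _ : ι => g2) p).lintegral_comp hm2
      exact h3.trans gmm_plane
    simp only [e2, Finset.sum_const, Finset.card_univ, nsmul_eq_mul]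
    rw [ENNReal.ofReal_mul (by norm_num), ENNReal.ofReal_natCast, mul_comm]
    norm_num
  calc ∫⁻ g, ENNReal.ofReal (sq (c + g)) ∂gm ι
      ≤ ∫⁻ g, (ENNReal.ofReal (2 * sq g) + ENNReal.ofReal (2 * sq c)) ∂gm ι := by
        refine lintegral_mono fun g => ?_
        show ENNReal.ofReal (sq (c + g)) ≤ ENNReal.ofReal (2 * sq g) + ENNReal.ofReal (2 * sq c)
        rw [← ENNReal.ofReal_add (mul_nonneg zero_le_two (sq_nonneg' g))
          (mul_nonneg zero_le_two (sq_nonneg' c))]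
        refine ENNReal.ofReal_le_ofReal ?_
        unfold sq
        rw [Finset.mul_sum, Finset.mul_sum, ← Finset.sum_add_distrib]
        refine Finset.sum_le_sum fun p _ => ?_
        simp only [Pi.add_apply, Prod.fst_add, Prod.snd_add]
        nlinarith [sq_nonneg ((c p).1 - (g p).1), sq_nonneg ((c p).2 - (g p).2)]
    _ = ENNReal.ofReal (4 * Fintype.card ι) + ENNReal.ofReal (2 * sq c) := by
        rw [lintegral_add_left hms, h1, lintegral_const, measure_univ, mul_one]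
    _ = ENNReal.ofReal (4 * Fintype.card ι + 2 * sq c) := by
        rw [ENNReal.ofReal_add (by positivity) (mul_nonneg zero_le_two (sq_nonneg' c))]

private theorem gmm_sq_rot (g : ι → ℝ × ℝ) (a : ℝ) : sq (rot a g) = sq g := by
  unfold sq rot rp
  refine Finset.sum_congr rfl fun p _ => ?_
  have := Real.sin_sq_add_cos_sq a
  simp only
  have e : (Real.cos a * (g p).1 - Real.sin a * (g p).2) ^ 2 +
      (Real.sin a * (g p).1 + Real.cos a * (g p).2) ^ 2 =
      (Real.sin a ^ 2 + Real.cos a ^ 2) * ((g p).1 ^ 2 + (g p).2 ^ 2) := by ring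
  rw [e, this, one_mul]

/-- The reduction to one exponential, as in `weight_mass`. -/
private theorem gmm_red (b : ι → ℝ × ℝ) {Φ : (ι → ℝ × ℝ) → ℝ≥0∞} (hΦ : Measurable Φ)
    (hΦr : ∀ a g, Φ (rot a g) = Φ g) :
    ∃ κ : ℝ, κ ^ 2 ≤ 2 ∧ κ ^ 2 * sq b / 2 - sq b / 2 ≤ 3 / 16 ∧
      ∫⁻ g, gw b g * Φ g ∂gm ι ≤ ENNReal.ofReal (11 * (1 + Real.sqrt (sq b))) *
        ∫⁻ g, ENNReal.ofReal (Real.exp (κ * re b g - sq b / 2)) * Φ g ∂gm ι := by
  set β : ℝ := Real.sqrt (sq b) with hβ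
  have hβ0 : 0 ≤ β := Real.sqrt_nonneg _
  have hβ2 : β ^ 2 = sq b := Real.sq_sqrt (sq_nonneg' b)
  set d : ℝ := 1 / (2 * (1 + β)) with hd
  have hd0 : 0 < d := by positivity
  have hd1 : d ≤ 1 := by
    rw [hd, div_le_one (by positivity)]
    linarith
  have hdβ : d * (1 + β) = 1 / 2 := by
    rw [hd]
    field_simp
  set J : ℕ := ⌈4 * (1 + β)⌉₊ with hJ
  have hJ1 : 4 * (1 + β) ≤ J := Nat.le_ceil _
  have hJ2 : (J : ℝ) < 4 * (1 + β) + 1 := Nat.ceil_lt_add_one (by positivity)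
  have hpi : Real.pi < 3.15 := Real.pi_lt_d2
  have hJ3 : Real.pi / (2 * d) + 1 / 2 ≤ J := by
    have e : Real.pi / (2 * d) = Real.pi * (1 + β) := by
      rw [hd]
      field_simp
    rw [e]
    nlinarith
  set κ : ℝ := (1 - d ^ 2 / 2)⁻¹ with hκ
  have hd2 : d ^ 2 / 2 ≤ 1 / 8 := by
    have : d ≤ 1 / 2 := by nlinarith
    nlinarith
  have hκ0 : 0 < 1 - d ^ 2 / 2 := by linarith
  have hκ1 : κ ^ 2 ≤ 1 + 3 * (d ^ 2 / 2) := by
    set t := d ^ 2 / 2 with ht
    have ht0 : 0 ≤ t := by positivity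
    rw [hκ, inv_pow, inv_le_iff_one_le_mul₀ (by positivity)]
    nlinarith [mul_nonneg ht0 ht0, mul_nonneg (mul_nonneg ht0 ht0) ht0,
      mul_nonneg ht0 (show (0 : ℝ) ≤ 1 / 8 - t by linarith)]
  have hκ2 : κ ^ 2 * sq b / 2 - sq b / 2 ≤ 3 / 16 := by
    rw [← hβ2]
    have h1 : d * β ≤ 1 / 2 := by nlinarith
    have h2 : (d * β) ^ 2 ≤ 1 / 4 := by
      have : 0 ≤ d * β := by positivity
      nlinarith
    nlinarith [mul_le_mul_of_nonneg_right hκ1 (by positivity : (0 : ℝ) ≤ β ^ 2)]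
  have hre := measurable_re b
  have him := measurable_im b
  have hterm : ∀ a : ℝ, ∫⁻ g, ENNReal.ofReal (Real.exp (κ *
      (Real.cos a * re b g - Real.sin a * im b g) - sq b / 2)) * Φ g ∂gm ι =
      ∫⁻ g, ENNReal.ofReal (Real.exp (κ * re b g - sq b / 2)) * Φ g ∂gm ι := by
    intro a
    have hmeas : Measurable fun g : ι → ℝ × ℝ =>
        ENNReal.ofReal (Real.exp (κ * re b g - sq b / 2)) * Φ g := by
      fun_prop
    rw [← (gm_rot a).lintegral_comp hmeas]
    refine lintegral_congr fun g => ?_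
    rw [re_rot, hΦr]
  refine ⟨κ, by linarith, hκ2, ?_⟩
  calc ∫⁻ g, gw b g * Φ g ∂gm ι
      ≤ ∫⁻ g, ∑ j ∈ Finset.Icc (-(J : ℤ)) J, ENNReal.ofReal (Real.exp (κ *
          (Real.cos (2 * j * d) * re b g - Real.sin (2 * j * d) * im b g) - sq b / 2)) * Φ g
          ∂gm ι := by
        refine lintegral_mono fun g => ?_
        show gw b g * Φ g ≤ ∑ j ∈ Finset.Icc (-(J : ℤ)) J, ENNReal.ofReal (Real.exp (κ *
          (Real.cos (2 * j * d) * re b g - Real.sin (2 * j * d) * im b g) - sq b / 2)) * Φ g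
        rw [← Finset.sum_mul, ← ENNReal.ofReal_sum_of_nonneg fun j _ => (Real.exp_pos _).le]
        refine mul_le_mul_left (ENNReal.ofReal_le_ofReal ?_) _
        have h := exp_norm_le (re b g) (im b g) hd0 hd1 J hJ3
        have e1 : Real.exp (Real.sqrt (re b g ^ 2 + im b g ^ 2) - sq b / 2) =
            Real.exp (Real.sqrt (re b g ^ 2 + im b g ^ 2)) * Real.exp (-(sq b / 2)) := by
          rw [← Real.exp_add]
          congr 1
        have e2 : ∑ j ∈ Finset.Icc (-(J : ℤ)) J, Real.exp (κ *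
            (Real.cos (2 * j * d) * re b g - Real.sin (2 * j * d) * im b g) - sq b / 2) =
            (∑ j ∈ Finset.Icc (-(J : ℤ)) J, Real.exp (κ *
            (Real.cos (2 * j * d) * re b g - Real.sin (2 * j * d) * im b g))) *
              Real.exp (-(sq b / 2)) := by
          rw [Finset.sum_mul]
          refine Finset.sum_congr rfl fun j _ => ?_
          rw [← Real.exp_add]
          congr 1
        rw [e1, e2]
        exact mul_le_mul_of_nonneg_right h (Real.exp_pos _).le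
    _ = ∑ j ∈ Finset.Icc (-(J : ℤ)) J, ∫⁻ g, ENNReal.ofReal (Real.exp (κ *
          (Real.cos (2 * j * d) * re b g - Real.sin (2 * j * d) * im b g) - sq b / 2)) * Φ g
          ∂gm ι := by
        refine lintegral_finsetSum _ fun j _ => ?_
        fun_prop
    _ = ∑ j ∈ Finset.Icc (-(J : ℤ)) J,
          ∫⁻ g, ENNReal.ofReal (Real.exp (κ * re b g - sq b / 2)) * Φ g ∂gm ι :=
        Finset.sum_congr rfl fun j _ => hterm _
    _ = ENNReal.ofReal (2 * J + 1) *
          ∫⁻ g, ENNReal.ofReal (Real.exp (κ * re b g - sq b / 2)) * Φ g ∂gm ι := by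
        rw [Finset.sum_const, Int.card_Icc, nsmul_eq_mul]
        congr 1
        have : ((J : ℤ) + 1 - -(J : ℤ)).toNat = 2 * J + 1 := by omega
        rw [this]
        have h2 : (2 * (J : ℝ) + 1) = ((2 * J + 1 : ℕ) : ℝ) := by push_cast; ring
        rw [h2, ENNReal.ofReal_natCast]
    _ ≤ ENNReal.ofReal (11 * (1 + β)) *
          ∫⁻ g, ENNReal.ofReal (Real.exp (κ * re b g - sq b / 2)) * Φ g ∂gm ι := by
        gcongr
        linarith

/-- the second moment for the weight.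
PROOF: copy the proof of `weight_mass` (GSmooth.lean): `hterm` becomes, by `cm` for
`c = κ • rot (-a) b` (`re (rot (-a) b) g = cos a re b g - sin a im b g`), `sq c ≤ 2 sq b`:
`∫⁻ ofReal (exp (κ (cos a re b g - sin a im b g) - sq b/2)) * ofReal (sq g) =
ofReal (exp ((κ²-1) sq b/2)) ∫⁻ ofReal (sq (c + g)) ≤ (5/4) (4 card ι + 4 sq b)`, and there are
`2J+1` terms. -/
theorem gw_sq (b : ι → ℝ × ℝ) :
    ∫⁻ g, gw b g * ENNReal.ofReal (sq g) ∂gm ι ≤
      ENNReal.ofReal (56 * (1 + Real.sqrt (sq b)) * (Fintype.card ι + sq b)) := by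
  have hms : Measurable fun g : ι → ℝ × ℝ => ENNReal.ofReal (sq g) := by
    unfold sq
    fun_prop
  obtain ⟨κ, hκ, hκ2, hle⟩ := gmm_red b hms fun a g => by rw [gmm_sq_rot]
  refine hle.trans ?_
  have h1 : ∫⁻ g, ENNReal.ofReal (Real.exp (κ * re b g - sq b / 2)) * ENNReal.ofReal (sq g) ∂gm ι ≤
      ENNReal.ofReal (5 / 4 * (4 * Fintype.card ι + 4 * sq b)) := by
    have h2 : ∀ g : ι → ℝ × ℝ, ENNReal.ofReal (Real.exp (κ * re b g - sq b / 2)) *
        ENNReal.ofReal (sq g) = ENNReal.ofReal (Real.exp (κ ^ 2 * sq b / 2 - sq b / 2)) *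
          (ENNReal.ofReal (Real.exp (re (κ • b) g - sq (κ • b) / 2)) * ENNReal.ofReal (sq g)) := by
      intro g
      rw [← mul_assoc]
      congr 1
      rw [← ENNReal.ofReal_mul (Real.exp_pos _).le, ← Real.exp_add, re_smul, sq_smul]
      congr 2
      ring
    simp only [h2]
    rw [lintegral_const_mul' _ _ ENNReal.ofReal_ne_top, ← cm (κ • b) hms,
      ENNReal.ofReal_mul (by norm_num)]
    have h3 : Real.exp (κ ^ 2 * sq b / 2 - sq b / 2) ≤ 5 / 4 := by
      refine (Real.exp_le_exp.2 hκ2).trans ?_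
      have h4 := Real.exp_bound_div_one_sub_of_interval' (x := 3 / 16) (by norm_num) (by norm_num)
      refine h4.le.trans ?_
      norm_num
    refine mul_le_mul' (ENNReal.ofReal_le_ofReal h3) ((sq_mom (κ • b)).trans ?_)
    refine ENNReal.ofReal_le_ofReal ?_
    rw [sq_smul]
    have := sq_nonneg' b
    nlinarith
  calc ENNReal.ofReal (11 * (1 + Real.sqrt (sq b))) *
        ∫⁻ g, ENNReal.ofReal (Real.exp (κ * re b g - sq b / 2)) * ENNReal.ofReal (sq g) ∂gm ι
      ≤ ENNReal.ofReal (11 * (1 + Real.sqrt (sq b))) *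
        ENNReal.ofReal (5 / 4 * (4 * Fintype.card ι + 4 * sq b)) := by gcongr
    _ ≤ _ := by
        have h5 := Real.sqrt_nonneg (sq b)
        have h6 : 0 ≤ (Fintype.card ι : ℝ) + sq b := add_nonneg (Nat.cast_nonneg _) (sq_nonneg' b)
        rw [← ENNReal.ofReal_mul (by positivity)]
        refine ENNReal.ofReal_le_ofReal ?_
        have h7 : 0 ≤ (1 + Real.sqrt (sq b)) * ((Fintype.card ι : ℝ) + sq b) :=
          mul_nonneg (by linarith) h6
        nlinarith

/-- PROOF: `gw_sq`, Markov: on `{R² < sq g}` one has `1 ≤ ofReal (sq g) / ofReal (R²)`. -/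
theorem gw_tail (b : ι → ℝ × ℝ) {R : ℝ} (hR : 0 < R) :
    ∫⁻ g in {g : ι → ℝ × ℝ | R ^ 2 < sq g}, gw b g ∂gm ι ≤
      ENNReal.ofReal (56 * (1 + Real.sqrt (sq b)) * (Fintype.card ι + sq b) / R ^ 2) := by
  have hms : Measurable fun g : ι → ℝ × ℝ => ENNReal.ofReal (sq g) := by
    unfold sq
    fun_prop
  have hR2 : 0 < R ^ 2 := by positivity
  have hS : MeasurableSet {g : ι → ℝ × ℝ | R ^ 2 < sq g} := by
    refine measurableSet_lt measurable_const ?_
    unfold sq
    fun_prop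
  calc ∫⁻ g in {g : ι → ℝ × ℝ | R ^ 2 < sq g}, gw b g ∂gm ι
      ≤ ∫⁻ g in {g : ι → ℝ × ℝ | R ^ 2 < sq g},
          gw b g * ENNReal.ofReal (sq g) * ENNReal.ofReal (R ^ 2)⁻¹ ∂gm ι := by
        refine setLIntegral_mono' hS fun g hg => ?_
        have hg' : R ^ 2 < sq g := hg
        rw [mul_assoc, ← ENNReal.ofReal_mul (sq_nonneg' g)]
        have h1 : 1 ≤ ENNReal.ofReal (sq g * (R ^ 2)⁻¹) := by
          rw [ENNReal.one_le_ofReal, ← div_eq_mul_inv, one_le_div hR2]
          exact hg'.le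
        exact le_mul_of_one_le_right' h1
    _ ≤ ∫⁻ g, gw b g * ENNReal.ofReal (sq g) * ENNReal.ofReal (R ^ 2)⁻¹ ∂gm ι :=
        setLIntegral_le_lintegral _ _
    _ = (∫⁻ g, gw b g * ENNReal.ofReal (sq g) ∂gm ι) * ENNReal.ofReal (R ^ 2)⁻¹ :=
        lintegral_mul_const' _ _ ENNReal.ofReal_ne_top
    _ ≤ ENNReal.ofReal (56 * (1 + Real.sqrt (sq b)) * (Fintype.card ι + sq b)) *
          ENNReal.ofReal (R ^ 2)⁻¹ := by
        gcongr
        exact gw_sq b
    _ = _ := by
        have h5 := Real.sqrt_nonneg (sq b)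
        have h6 : 0 ≤ (Fintype.card ι : ℝ) + sq b := add_nonneg (Nat.cast_nonneg _) (sq_nonneg' b)
        rw [← ENNReal.ofReal_mul (by positivity), div_eq_mul_inv]

end Pool.Agent.Lib.MP_95e7ec_an.GB
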