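import Mathlib
import Pool.Agent.Lib.MP_95e7ec_an.Sm.GMom

/-!
# Smoothed count, Gaussian form: the weight of a translation
-/

set_option autoImplicit false

open Set Filter Topology MeasureTheory ProbabilityTheory
open scoped ENNReal

namespace Pool.Agent.Lib.MP_95e7ec_an.GB

variable {ι : Type} [Fintype ι]

/-- the density of the translated Gaussian law -/
noncomputable def cw (b g : ι → ℝ × ℝ) : ℝ≥0∞ :=
  ENNReal.ofReal (Real.exp (re b g - sq b / 2))

theorem measurable_cw (b : ι → ℝ × ℝ) : Measurable (cw b) := by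
  have := measurable_re b
  unfold cw
  fun_prop

theorem re_add (b g q : ι → ℝ × ℝ) : re b (g + q) = re b g + re b q := by
  unfold re
  rw [← Finset.sum_add_distrib]
  refine Finset.sum_congr rfl fun p _ => ?_
  simp only [Pi.add_apply, Prod.fst_add, Prod.snd_add]
  ring

theorem re_sub (b g q : ι → ℝ × ℝ) : re b (g - q) = re b g - re b q := by
  unfold re
  rw [← Finset.sum_sub_distrib]
  refine Finset.sum_congr rfl fun p _ => ?_
  simp only [Pi.sub_apply, Prod.fst_sub, Prod.snd_sub]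
  ring

theorem cw_mid (b g q : ι → ℝ × ℝ) : cw b g ^ 2 ≤ cw b (g - q) * cw b (g + q) := by
  unfold cw
  rw [← ENNReal.ofReal_pow (Real.exp_pos _).le, ← ENNReal.ofReal_mul (Real.exp_pos _).le,
    ← Real.exp_add, ← Real.exp_nat_mul, re_add, re_sub]
  refine ENNReal.ofReal_le_ofReal (Real.exp_le_exp.2 (le_of_eq ?_))
  push_cast
  ring

theorem cw_lint (b : ι → ℝ × ℝ) {F : (ι → ℝ × ℝ) → ℝ≥0∞} (hF : Measurable F) :
    ∫⁻ g, F (b + g) ∂gm ι = ∫⁻ g, cw b g * F g ∂gm ι := cm b hF

theorem cw_mass (b : ι → ℝ × ℝ) : ∫⁻ g, cw b g ∂gm ι = 1 := by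
  have h := cw_lint b (F := fun _ => 1) measurable_const
  simp only [mul_one, lintegral_const, measure_univ] at h
  exact h.symm

theorem measurable_sq : Measurable (sq : (ι → ℝ × ℝ) → ℝ) := by
  have : Continuous (sq : (ι → ℝ × ℝ) → ℝ) := by
    unfold sq
    fun_prop
  exact this.measurable

theorem cw_tail (b : ι → ℝ × ℝ) {R : ℝ} (hR : 0 < R) :
    ∫⁻ g in {g : ι → ℝ × ℝ | R ^ 2 < sq g}, cw b g ∂gm ι ≤
      ENNReal.ofReal ((4 * Fintype.card ι + 2 * sq b) / R ^ 2) := by
  have hs : MeasurableSet {g : ι → ℝ × ℝ | R ^ 2 < sq g} :=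
    measurableSet_lt measurable_const measurable_sq
  have hR2 : 0 < R ^ 2 := by positivity
  rw [← lintegral_indicator hs]
  have h1 : ∀ g, ({g : ι → ℝ × ℝ | R ^ 2 < sq g}).indicator (cw b) g ≤
      cw b g * (ENNReal.ofReal ((R ^ 2)⁻¹) * ENNReal.ofReal (sq g)) := by
    intro g
    by_cases hg : g ∈ {g : ι → ℝ × ℝ | R ^ 2 < sq g}
    · rw [Set.indicator_of_mem hg]
      refine le_mul_of_one_le_right zero_le ?_
      have hg' : R ^ 2 < sq g := hg
      rw [← ENNReal.ofReal_mul (by positivity), ← ENNReal.ofReal_one]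
      refine ENNReal.ofReal_le_ofReal ?_
      rw [inv_mul_eq_div, le_div_iff₀ hR2, one_mul]
      exact hg'.le
    · rw [Set.indicator_of_notMem hg]
      exact zero_le
  refine (lintegral_mono h1).trans ?_
  have hm : Measurable fun g : ι → ℝ × ℝ =>
      ENNReal.ofReal ((R ^ 2)⁻¹) * ENNReal.ofReal (sq g) :=
    (measurable_sq.ennreal_ofReal).const_mul _
  rw [← cw_lint b hm, lintegral_const_mul' _ _ ENNReal.ofReal_ne_top]
  refine (mul_le_mul_right (sq_mom b) _).trans ?_
  rw [← ENNReal.ofReal_mul (by positivity), inv_mul_eq_div]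

end Pool.Agent.Lib.MP_95e7ec_an.GB
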