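import Mathlib
import Pool.Agent.Lib.MP_95e7ec_an.Sm.Cover
import Pool.Agent.Lib.MP_95e7ec_an.Sm.Local
import Pool.Agent.Lib.MP_95e7ec_an.Sm.GPair
import Pool.Agent.Lib.MP_95e7ec_an.Sm.KBound

/-!
# Smoothed count: the closed orbits in a disc, for pairs of measures
-/

set_option autoImplicit false

open Set Filter Topology MeasureTheory
open scoped ContDiff ENNReal

namespace Pool.Agent.Lib.MP_95e7ec_an

private theorem nr_kA {n : ℕ} (hn : 1 ≤ n) {z0 : ℝ × ℝ} {r : ℝ} (hr : 0 < r)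
    (hrn : 2 * r * Real.sqrt n ≤ sq1 z0 / 8) {Λ : ℝ}
    {a : KSp n} (h2 : 3 * (1 + Real.sqrt (kN2 a)) ≤ Λ) :
    kA n z0 (2 * r) a ≤ Λ ∧ kA n z0 (4 * r) a ≤ Λ := by
  have hn0 : (0 : ℝ) ≤ n := Nat.cast_nonneg n
  have h1 : (2 * r * Real.sqrt n) ^ 2 ≤ (sq1 z0 / 8) ^ 2 :=
    pow_le_pow_left₀ (by positivity) hrn 2
  rw [mul_pow, Real.sq_sqrt hn0] at h1
  have h0 : 0 ≤ r ^ 2 * n := by positivity
  refine ⟨(kA_le_norm hn z0 (by positivity) (by nlinarith) a).trans ?_,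
    (kA_le_norm hn z0 (by positivity) (by nlinarith) a).trans ?_⟩ <;> linarith

private theorem nr_meas_grad (n : ℕ) (U : Set (ℝ × ℝ)) :
    Measurable fun a : KSp n => ∫⁻ z in U, ENNReal.ofReal (argGrad (kArr n a) z) := by
  have hm2 : Measurable fun q : KSp n × (ℝ × ℝ) => ENNReal.ofReal (argGrad (kArr n q.1) q.2) := by
    have hc : Measurable fun q : KSp n × (ℝ × ℝ) => (kArr n q.1, q.2) :=
      ((continuous_kArr n).measurable.comp measurable_fst).prodMk measurable_snd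
    exact (km_measurable_argGrad.comp hc).ennreal_ofReal
  exact hm2.lintegral_prod_right'

private theorem nr_meas_lv (n q k : ℕ) :
    Measurable fun a : KSp n => cntO (kVF n a) (disc 0 (2 ^ k)) (lvS q k) (lvV q k) := by
  refine km_measurable_cntO n (isOpen_disc _ _) _ fun i _ => ?_
  cases i with
  | none =>
    unfold lvV
    split_ifs
    · exact isOpen_empty
    · exact isOpen_disc _ _
  | some i => exact isOpen_disc _ _

private theorem nr_al {n : ℕ} {F : KSp n → ℝ≥0∞} (hF : Measurable F) (a : KSp n) :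
    Measurable fun α : ℝ => F (krot α a) := by
  have h : Continuous fun α : ℝ => krot α a :=
    (km_continuous_krot n).comp (Continuous.prodMk_right a)
  exact hF.comp h.measurable

private theorem nr_log {n : ℕ} {μ μ' : Measure (KSp n)} {Λ : ℝ} (h : ShP n μ μ' Λ) :
    1 ≤ 1 + Real.log Λ := by
  have := Real.log_nonneg h.one
  linarith

/-- one cell.
PROOF: `Φ a = ∫⁻ α, cntO (kVF n (krot α a)) ..` is measurable (`km_measurable_cntO`,
`km_measurable_avg`); `shift_trick` with `v = kdir n z0` (`sum_kdir_sq`); for `a` in the enlarged ball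
`local_log` (`kA_le_norm` gives both bounds `kA ≤ Λ`; `(4r)² n ≤ sq1²/16`), with `kVF_krot`,
`km_cntO_eq`. -/
theorem gnear_cell : ∃ C : ℝ, 0 ≤ C ∧ ∀ n : ℕ, 1 ≤ n → ∀ (z0 : ℝ × ℝ) (r : ℝ), 0 < r →
    2 * r * Real.sqrt n ≤ sq1 z0 / 8 → ∀ (μ μ' : Measure (KSp n)) (Λ : ℝ), ShP n μ μ' Λ →
    ∫⁻ a, (∫⁻ α in Set.Ioo 0 Real.pi,
      cntO (kVF n (krot α a)) (disc z0 r) (∅ : Finset ℕ) (fun _ => ∅)) ∂μ ≤
      ENNReal.ofReal (C * (1 + Real.log Λ) ^ 4) * μ' Set.univ := by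
  obtain ⟨C, hC, hloc⟩ := local_log
  refine ⟨C, hC, fun n hn z0 r hr hrn μ μ' Λ hL => ?_⟩
  have hmeas : Measurable fun a : KSp n =>
      cntO (kVF n a) (disc z0 r) (∅ : Finset ℕ) (fun _ => ∅) :=
    km_measurable_cntO n (isOpen_disc z0 r) ∅ (by simp)
  set Φ : KSp n → ℝ≥0∞ := fun a => ∫⁻ α in Set.Ioo 0 Real.pi,
    cntO (kVF n (krot α a)) (disc z0 r) (∅ : Finset ℕ) (fun _ => ∅) with hΦ
  have hΦm : Measurable Φ := km_measurable_avg n hmeas
  have hΦeq : ∀ a, Φ a = ∫⁻ α in Set.Ioo 0 Real.pi,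
      orbitSum (fun _ => 1) (kVF n a) (disc z0 r) α := by
    intro a
    simp only [hΦ, kVF_krot, km_cntO_eq]
  refine (hL.sh (kdir n z0) (sum_kdir_sq n z0) _ hΦm).trans ?_
  rw [← lintegral_const]
  refine lintegral_mono_ae (hL.bd.mono fun a ha => ?_)
  obtain ⟨h2r, h4r⟩ := nr_kA hn hr hrn ha
  obtain ⟨H, -, hH1, hH2⟩ := hloc n hn z0 r hr hrn a Λ hL.one h2r h4r
  refine le_trans ?_ hH2
  refine le_trans ?_ (setLIntegral_le_lintegral {t : ℝ × ℝ | nm t ≤ 1} H)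
  refine setLIntegral_mono' (measurableSet_le continuous_nm.measurable measurable_const)
    fun t ht => ?_
  rw [hΦeq]
  exact hH1 t ht

/-- the integral of `argGrad` over one cell.
PROOF: `shift_trick`, `grad_log`; measurability of `a ↦ ∫⁻ z in disc z0 r, argGrad (kArr n a) z` as in
`kp_rest` (KpMain.lean: `km_measurable_argGrad`). -/
theorem gnear_grad : ∃ C : ℝ, 0 ≤ C ∧ ∀ n : ℕ, 1 ≤ n → ∀ (z0 : ℝ × ℝ) (r : ℝ), 0 < r →
    2 * r * Real.sqrt n ≤ sq1 z0 / 8 → ∀ (μ μ' : Measure (KSp n)) (Λ : ℝ), ShP n μ μ' Λ →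
    ∫⁻ a, (∫⁻ z in disc z0 r, ENNReal.ofReal (argGrad (kArr n a) z)) ∂μ ≤
      ENNReal.ofReal (C * r * (1 + Real.log Λ)) * μ' Set.univ := by
  obtain ⟨C, hC, hloc⟩ := grad_log
  refine ⟨C, hC, fun n hn z0 r hr hrn μ μ' Λ hL => ?_⟩
  refine (hL.sh (kdir n z0) (sum_kdir_sq n z0) _
    (nr_meas_grad n (disc z0 r))).trans ?_
  rw [← lintegral_const]
  refine lintegral_mono_ae (hL.bd.mono fun a ha => ?_)
  obtain ⟨h2r, h4r⟩ := nr_kA hn hr hrn ha
  exact hloc n hn z0 r hr hrn a Λ hL.one h2r h4r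

private theorem nr_iUnion {ι : Type*} (s : Finset ι) (U : ι → Set (ℝ × ℝ)) (g : ℝ × ℝ → ℝ≥0∞) :
    ∫⁻ z in ⋃ i ∈ s, U i, g z ≤ ∑ i ∈ s, ∫⁻ z in U i, g z := by
  classical
  induction s using Finset.induction_on with
  | empty => simp
  | insert i s hi ih =>
    rw [Finset.sum_insert hi, Finset.set_biUnion_insert]
    exact (lintegral_union_le _ _ _).trans (add_le_add le_rfl ih)

private theorem nr_geom (k : ℕ) : ∑ l ∈ Finset.range (k + 1), (2 : ℝ) ^ l ≤ 2 * 2 ^ k := by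
  have h := geom_sum_eq (show (2 : ℝ) ≠ 1 by norm_num) (k + 1)
  rw [h, pow_succ]
  have : (0 : ℝ) < 2 ^ k := by positivity
  norm_num
  linarith

private theorem nr_card {n : ℕ} (hn : 1 ≤ n) (k : ℕ) :
    ((cells (sq n) k).card : ℝ) ≤ 1089 * 256 * n := by
  have h1 := card_cells (sq_pos n) k
  have h2 := (sq_bounds hn).2
  have h3 : (sq n : ℝ) ^ 2 ≤ (16 * Real.sqrt n) ^ 2 := pow_le_pow_left₀ (Nat.cast_nonneg _) h2 2
  rw [mul_pow, Real.sq_sqrt (Nat.cast_nonneg n)] at h3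
  linarith

/-- the closed orbits of one annulus which are in no cell.
PROOF: `rest_level` (KpRest.lean; `kVF_krot`, `kVF_eq_vfc`) with `q = sq n`, `disc_cover`
(`lintegral` over a finite union is at most the sum), `gnear_grad` for the cells (`sq_cell`),
`card_cells ≤ 1089 q²`, `cellR q k' = 2^k'/(8q)`:
`(16 q/2^k) ∑_{k' ≤ k} 1089 q² C 2^k'/(8q) ≤ 4356 C q² ≤ 4356 * 256 C n`. -/
theorem gnear_rest : ∃ C : ℝ, 0 ≤ C ∧ ∀ n : ℕ, 1 ≤ n → ∀ (k : ℕ) (μ μ' : Measure (KSp n)) (Λ : ℝ),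
    ShP n μ μ' Λ →
    ∫⁻ a, (∫⁻ α in Set.Ioo 0 Real.pi,
      cntO (kVF n (krot α a)) (disc 0 (2 ^ k)) (lvS (sq n) k) (lvV (sq n) k)) ∂μ ≤
      ENNReal.ofReal (C * n * (1 + Real.log Λ)) *
        μ' Set.univ := by
  obtain ⟨C, hC, hgrad⟩ := gnear_grad
  refine ⟨4 * 1089 * 256 * C, by positivity, fun n hn k μ μ' Λ hL => ?_⟩
  have hL1 := nr_log hL
  have hL0 : 0 ≤ 1 + Real.log Λ := zero_le_one.trans hL1
  have hq1 : 1 ≤ sq n := sq_pos n
  have hq0 : (0 : ℝ) < sq n := by exact_mod_cast hq1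
  set V := μ' Set.univ with hV
  have h1 : ∀ a : KSp n, ∫⁻ α in Set.Ioo 0 Real.pi,
      cntO (kVF n (krot α a)) (disc 0 (2 ^ k)) (lvS (sq n) k) (lvV (sq n) k) ≤
      ENNReal.ofReal (16 * sq n / 2 ^ k) * ∑ l ∈ Finset.range (k + 1), ∑ i ∈ cells (sq n) l,
        ∫⁻ z in disc (cellC (sq n) l i) (cellR (sq n) l),
          ENNReal.ofReal (argGrad (kArr n a) z) := by
    intro a
    simp only [kVF_krot]
    simp only [kVF_eq_vfc]
    refine (rest_level (kArr n a) hq1 k).trans (mul_le_mul_right ?_ _)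
    refine (lintegral_mono_set (disc_cover hq1 k)).trans ?_
    refine (nr_iUnion _ _ _).trans (Finset.sum_le_sum fun l _ => nr_iUnion _ _ _)
  refine (lintegral_mono h1).trans ?_
  rw [lintegral_const_mul' _ _ ENNReal.ofReal_ne_top]
  rw [lintegral_finsetSum _ fun l _ => Finset.measurable_fun_sum _ fun i _ => nr_meas_grad n _]
  have h2 : ∀ l ∈ Finset.range (k + 1), ∫⁻ a, (∑ i ∈ cells (sq n) l,
        ∫⁻ z in disc (cellC (sq n) l i) (cellR (sq n) l),
          ENNReal.ofReal (argGrad (kArr n a) z)) ∂μ ≤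
      ENNReal.ofReal (1089 * 256 * n * (C * (2 ^ l / (8 * sq n)) * (1 + Real.log Λ))) * V := by
    intro l _
    rw [lintegral_finsetSum _ fun i _ => nr_meas_grad n _]
    refine (Finset.sum_le_sum fun i hi => hgrad n hn (cellC (sq n) l i) (cellR (sq n) l)
      (sq_cell hn hi).1 (sq_cell hn hi).2 μ μ' Λ hL).trans ?_
    rw [Finset.sum_const, nsmul_eq_mul, ← ENNReal.ofReal_natCast, ← mul_assoc,
      ← ENNReal.ofReal_mul (Nat.cast_nonneg _)]
    refine mul_le_mul_left (ENNReal.ofReal_le_ofReal ?_) _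
    unfold cellR
    exact mul_le_mul_of_nonneg_right (nr_card hn l) (by positivity)
  refine (mul_le_mul_right (Finset.sum_le_sum h2) _).trans ?_
  rw [← Finset.sum_mul, ← ENNReal.ofReal_sum_of_nonneg fun l _ => by positivity, ← mul_assoc,
    ← ENNReal.ofReal_mul (by positivity)]
  refine mul_le_mul_left (ENNReal.ofReal_le_ofReal ?_) _
  have h3 : ∑ l ∈ Finset.range (k + 1),
      1089 * 256 * (n : ℝ) * (C * (2 ^ l / (8 * sq n)) * (1 + Real.log Λ)) =
      1089 * 256 * n * C * (1 + Real.log Λ) / (8 * sq n) *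
        ∑ l ∈ Finset.range (k + 1), (2 : ℝ) ^ l := by
    rw [Finset.mul_sum]
    refine Finset.sum_congr rfl fun l _ => ?_
    ring
  rw [h3]
  have h4 : 16 * (sq n : ℝ) / 2 ^ k * (1089 * 256 * n * C * (1 + Real.log Λ) / (8 * sq n) *
        ∑ l ∈ Finset.range (k + 1), (2 : ℝ) ^ l) ≤
      16 * (sq n : ℝ) / 2 ^ k * (1089 * 256 * n * C * (1 + Real.log Λ) / (8 * sq n) *
        (2 * 2 ^ k)) :=
    mul_le_mul_of_nonneg_left (mul_le_mul_of_nonneg_left (nr_geom k) (by positivity))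
      (by positivity)
  refine h4.trans (le_of_eq ?_)
  field_simp
  ring

/-- the closed orbits in a disc.
PROOF: `sp_split` with `q = sq n` for `v = kVF n (krot α a)`, integrate (measurability:
`km_measurable_cntO`, `km_measurable_krot`, `km_measurable_avg`), `gnear_rest`, `gnear_cell`,
`card_cells`: `(K+1) (C n L + 1089 * 256 n * C L⁴)`, `L = 1 + log Λ ≥ 1`. -/
theorem gnear_disc : ∃ C : ℝ, 0 ≤ C ∧ ∀ n : ℕ, 1 ≤ n → ∀ (K : ℕ) (μ μ' : Measure (KSp n)) (Λ : ℝ),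
    ShP n μ μ' Λ →
    ∫⁻ a, (∫⁻ α in Set.Ioo 0 Real.pi,
      cntO (kVF n (krot α a)) (disc 0 (2 ^ K)) (∅ : Finset ℕ) (fun _ => ∅)) ∂μ ≤
      ENNReal.ofReal (C * n * (K + 1) * (1 + Real.log Λ) ^ 4) *
        μ' Set.univ := by
  obtain ⟨C1, hC1, hcell⟩ := gnear_cell
  obtain ⟨C2, hC2, hrest⟩ := gnear_rest
  refine ⟨C2 + 1089 * 256 * C1, by positivity, fun n hn K μ μ' Λ hL => ?_⟩
  have hL1 := nr_log hL
  have hL0 : 0 ≤ 1 + Real.log Λ := zero_le_one.trans hL1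
  set V := μ' Set.univ with hV
  have hm1 : ∀ k, Measurable fun a : KSp n =>
      cntO (kVF n a) (disc 0 (2 ^ k)) (lvS (sq n) k) (lvV (sq n) k) := nr_meas_lv n (sq n)
  have hm2 : ∀ (z0 : ℝ × ℝ) (r : ℝ), Measurable fun a : KSp n =>
      cntO (kVF n a) (disc z0 r) (∅ : Finset ℕ) (fun _ => ∅) := fun z0 r =>
    km_measurable_cntO n (isOpen_disc z0 r) ∅ (by simp)
  have h1 : ∀ a : KSp n, ∫⁻ α in Set.Ioo 0 Real.pi,
      cntO (kVF n (krot α a)) (disc 0 (2 ^ K)) (∅ : Finset ℕ) (fun _ => ∅) ≤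
      ∑ k ∈ Finset.range (K + 1), ((∫⁻ α in Set.Ioo 0 Real.pi,
        cntO (kVF n (krot α a)) (disc 0 (2 ^ k)) (lvS (sq n) k) (lvV (sq n) k)) +
        ∑ i ∈ cells (sq n) k, ∫⁻ α in Set.Ioo 0 Real.pi, cntO (kVF n (krot α a))
          (disc (cellC (sq n) k i) (cellR (sq n) k)) (∅ : Finset ℕ) (fun _ => ∅)) := by
    intro a
    refine (lintegral_mono fun α => sp_split (q := sq n) (kVF n (krot α a)) K).trans ?_
    have hm3 : ∀ k, Measurable fun α : ℝ =>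
        cntO (kVF n (krot α a)) (disc 0 (2 ^ k)) (lvS (sq n) k) (lvV (sq n) k) +
        ∑ i ∈ cells (sq n) k, cntO (kVF n (krot α a))
          (disc (cellC (sq n) k i) (cellR (sq n) k)) (∅ : Finset ℕ) (fun _ => ∅) := fun k =>
      (nr_al (hm1 k) a).add (Finset.measurable_fun_sum _ fun i _ => nr_al (hm2 _ _) a)
    rw [lintegral_finsetSum _ fun k _ => hm3 k]
    refine Finset.sum_le_sum fun k _ => ?_
    rw [lintegral_add_left (nr_al (hm1 k) a), lintegral_finsetSum _ fun i _ => nr_al (hm2 _ _) a]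
  refine (lintegral_mono h1).trans ?_
  have hm4 : ∀ k, Measurable fun a : KSp n => (∫⁻ α in Set.Ioo 0 Real.pi,
        cntO (kVF n (krot α a)) (disc 0 (2 ^ k)) (lvS (sq n) k) (lvV (sq n) k)) +
        ∑ i ∈ cells (sq n) k, ∫⁻ α in Set.Ioo 0 Real.pi, cntO (kVF n (krot α a))
          (disc (cellC (sq n) k i) (cellR (sq n) k)) (∅ : Finset ℕ) (fun _ => ∅) := fun k =>
    (km_measurable_avg n (hm1 k)).add
      (Finset.measurable_fun_sum _ fun i _ => km_measurable_avg n (hm2 _ _))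
  rw [lintegral_finsetSum _ fun k _ => hm4 k]
  have h2 : ∀ k ∈ Finset.range (K + 1), ∫⁻ a, (((∫⁻ α in Set.Ioo 0 Real.pi,
        cntO (kVF n (krot α a)) (disc 0 (2 ^ k)) (lvS (sq n) k) (lvV (sq n) k)) +
        ∑ i ∈ cells (sq n) k, ∫⁻ α in Set.Ioo 0 Real.pi, cntO (kVF n (krot α a))
          (disc (cellC (sq n) k i) (cellR (sq n) k)) (∅ : Finset ℕ) (fun _ => ∅))) ∂μ ≤
      ENNReal.ofReal ((C2 + 1089 * 256 * C1) * n * (1 + Real.log Λ) ^ 4) * V := by
    intro k _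
    rw [lintegral_add_left (km_measurable_avg n (hm1 k)),
      lintegral_finsetSum _ fun i _ => km_measurable_avg n (hm2 _ _)]
    have h3 : ∑ i ∈ cells (sq n) k, ∫⁻ a, (∫⁻ α in Set.Ioo 0 Real.pi,
        cntO (kVF n (krot α a)) (disc (cellC (sq n) k i) (cellR (sq n) k)) (∅ : Finset ℕ)
          (fun _ => ∅)) ∂μ ≤ ENNReal.ofReal (1089 * 256 * n * (C1 * (1 + Real.log Λ) ^ 4)) * V := by
      refine (Finset.sum_le_sum fun i hi => hcell n hn _ _ (sq_cell hn hi).1 (sq_cell hn hi).2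
        μ μ' Λ hL).trans ?_
      rw [Finset.sum_const, nsmul_eq_mul, ← ENNReal.ofReal_natCast, ← mul_assoc,
        ← ENNReal.ofReal_mul (Nat.cast_nonneg _)]
      refine mul_le_mul_left (ENNReal.ofReal_le_ofReal ?_) _
      exact mul_le_mul_of_nonneg_right (nr_card hn k) (by positivity)
    refine (add_le_add (hrest n hn k μ μ' Λ hL) h3).trans ?_
    rw [← add_mul, ← ENNReal.ofReal_add (by positivity) (by positivity)]
    refine mul_le_mul_left (ENNReal.ofReal_le_ofReal ?_) _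
    have h4 : 1 + Real.log Λ ≤ (1 + Real.log Λ) ^ 4 := le_self_pow₀ hL1 (by norm_num)
    have h5 : C2 * n * (1 + Real.log Λ) ≤ C2 * n * (1 + Real.log Λ) ^ 4 :=
      mul_le_mul_of_nonneg_left h4 (by positivity)
    linarith
  refine (Finset.sum_le_sum h2).trans ?_
  rw [Finset.sum_const, Finset.card_range, nsmul_eq_mul, ← ENNReal.ofReal_natCast, ← mul_assoc,
    ← ENNReal.ofReal_mul (Nat.cast_nonneg _)]
  refine mul_le_mul_left (ENNReal.ofReal_le_ofReal (le_of_eq ?_)) _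
  push_cast
  ring

end Pool.Agent.Lib.MP_95e7ec_an
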