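import Mathlib
import Pool.Agent.Lib.MP_95e7ec_an.Sm.Defs
import Pool.Agent.Lib.MP_95e7ec_an.KosMain

/-!
# Smoothed count: multiples of a field have the same closed orbits
-/

set_option autoImplicit false

open Set Filter Topology MeasureTheory
open scoped ContDiff ENNReal

namespace Pool.Agent.Lib.MP_95e7ec_an

private theorem gs_closed {v : ℝ × ℝ → ℝ × ℝ} {c : ℝ} (hc : c ≠ 0) {C : Set (ℝ × ℝ)}
    (h : IsClosedOrbit (fun z => c • v z) C) : IsClosedOrbit v C := by
  obtain ⟨γ, T, hT, hd, hp, ⟨s, t, hst⟩, hC⟩ := h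
  have hp' : ∀ t : ℝ, γ (t - T) = γ t := fun t => by
    have := hp (t - T)
    rw [sub_add_cancel] at this
    exact this.symm
  refine ⟨fun u => γ (c⁻¹ * u), |c| * T, by positivity, fun u => ?_, fun u => ?_,
    ⟨c * s, c * t, ?_⟩, ?_⟩
  · have h1 : HasDerivAt (fun u : ℝ => c⁻¹ * u) c⁻¹ u := by
      simpa using (hasDerivAt_id u).const_mul c⁻¹
    have h2 := (hd (c⁻¹ * u)).scomp u h1
    have h3 : c⁻¹ • c • v (γ (c⁻¹ * u)) = v (γ (c⁻¹ * u)) := by
      rw [smul_smul, inv_mul_cancel₀ hc, one_smul]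
    rw [h3] at h2
    exact h2
  · show γ (c⁻¹ * (u + |c| * T)) = γ (c⁻¹ * u)
    rcases lt_or_gt_of_ne hc with h0 | h0
    · have h1 : c⁻¹ * (u + |c| * T) = c⁻¹ * u - T := by
        rw [abs_of_neg h0]
        field_simp
        ring
      rw [h1, hp']
    · have h1 : c⁻¹ * (u + |c| * T) = c⁻¹ * u + T := by
        rw [abs_of_pos h0]
        field_simp
      rw [h1, hp]
  · show γ (c⁻¹ * (c * s)) ≠ γ (c⁻¹ * (c * t))
    rw [← mul_assoc, ← mul_assoc, inv_mul_cancel₀ hc, one_mul, one_mul]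
    exact hst
  · rw [hC]
    ext z
    constructor
    · rintro ⟨u, rfl⟩
      refine ⟨c * u, ?_⟩
      show γ (c⁻¹ * (c * u)) = γ u
      rw [← mul_assoc, inv_mul_cancel₀ hc, one_mul]
    · rintro ⟨u, rfl⟩
      exact ⟨c⁻¹ * u, rfl⟩

private theorem gs_kVF {n : ℕ} (c : ℝ) (a : KSp n) : kVF n (c • a) = fun z => c • kVF n a z := by
  funext z
  have h : ∀ b : KIdx n → ℝ, MvPolynomial.eval ![z.1, z.2] (kPoly n fun p => c * b p) =
      c * MvPolynomial.eval ![z.1, z.2] (kPoly n b) := by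
    intro b
    unfold kPoly
    rw [map_sum, map_sum, Finset.mul_sum]
    refine Finset.sum_congr rfl fun p _ => ?_
    simp only [map_mul, MvPolynomial.eval_C]
    ring
  have h1 := h fun p => (a p).1
  have h2 := h fun p => (a p).2
  exact Prod.ext h1 h2

/-- the closed orbits of a multiple of the field are the same. PROOF: reparametrise the time:
`γ(c t)`; `kVF n (c • a) = c • kVF n a`; also for negative `c`. -/
theorem gclosed_smul {n : ℕ} {c : ℝ} (hc : c ≠ 0) (a : KSp n) (C : Set (ℝ × ℝ)) :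
    IsClosedOrbit (kVF n (c • a)) C ↔ IsClosedOrbit (kVF n a) C := by
  rw [gs_kVF]
  refine ⟨gs_closed hc, fun h => gs_closed (c := c⁻¹) (inv_ne_zero hc) ?_⟩
  have h1 : (fun z => c⁻¹ • c • kVF n a z) = kVF n a := by
    funext z
    rw [smul_smul, inv_mul_cancel₀ hc, one_smul]
  rw [h1]
  exact h

theorem gcntO_smul {n : ℕ} {c : ℝ} (hc : c ≠ 0) (a : KSp n) :
    cntO (kVF n (c • a)) Set.univ (∅ : Finset ℕ) (fun _ => ∅) =
      cntO (kVF n a) Set.univ (∅ : Finset ℕ) (fun _ => ∅) := by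
  unfold cntO
  simp only [gclosed_smul hc]

end Pool.Agent.Lib.MP_95e7ec_an
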