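import Mathlib
import Pool.Agent.Lib.MP_95e7ec_an.Sm.GEven
import Pool.Agent.Lib.MP_95e7ec_an.Sm.GOdd
import Pool.Agent.Lib.MP_95e7ec_an.Sm.GMom
import Pool.Agent.Lib.MP_95e7ec_an.Sm.GSmul
import Pool.Agent.Lib.MP_95e7ec_an.Rt.Mean2

/-!
# Smoothed count, Gaussian form: final statement
-/

set_option autoImplicit false

open Set Filter Topology MeasureTheory ProbabilityTheory
open scoped ContDiff ENNReal

namespace Pool.Agent.Lib.MP_95e7ec_an

theorem gplane_all : ∃ C : ℝ, 0 ≤ C ∧ ∀ n : ℕ, 1 ≤ n → ∀ (μ μ' : Measure (KSp n)) (Λ : ℝ),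
    ShP n μ μ' Λ →
    ∫⁻ a, (∫⁻ α in Set.Ioo 0 Real.pi,
      cntO (kVF n (krot α a)) Set.univ (∅ : Finset ℕ) (fun _ => ∅)) ∂μ ≤
      ENNReal.ofReal (C * n * (1 + Real.log Λ) ^ 5) * μ' Set.univ := by
  obtain ⟨C1, hC1, h1⟩ := gplane_even
  obtain ⟨C2, hC2, h2⟩ := gplane_odd
  refine ⟨C1 + C2, by positivity, fun n hn μ μ' Λ hL => ?_⟩
  have hlog : 0 ≤ 1 + Real.log Λ := by
    have := Real.log_nonneg hL.one
    linarith
  obtain ⟨m, rfl | rfl⟩ := Nat.even_or_odd' n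
  · refine (h1 m (by omega) μ μ' Λ hL).trans (mul_le_mul_left ?_ _)
    refine ENNReal.ofReal_le_ofReal (mul_le_mul_of_nonneg_right ?_ (by positivity))
    have h3 : (0 : ℝ) ≤ m := Nat.cast_nonneg m
    push_cast
    nlinarith [mul_nonneg hC1 h3, mul_nonneg hC2 h3]
  · refine (h2 m μ μ' Λ hL).trans (mul_le_mul_left ?_ _)
    refine ENNReal.ofReal_le_ofReal (mul_le_mul_of_nonneg_right ?_ (by positivity))
    have h3 : (0 : ℝ) ≤ m := Nat.cast_nonneg m
    push_cast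
    nlinarith [mul_nonneg hC1 h3, mul_nonneg hC2 h3]

theorem gmu_univ_le {n : ℕ} (b : KSp n) (R : ℝ) :
    gmu b R Set.univ ≤ ENNReal.ofReal (14 * (1 + Real.sqrt (kN2 b))) := by
  unfold gmu
  rw [withDensity_apply _ MeasurableSet.univ, Measure.restrict_univ]
  refine le_trans (lintegral_mono fun g => ?_) (GB.gw_mass b)
  exact Set.indicator_le_self' (fun _ _ => zero_le) g

theorem gmeas (n : ℕ) :
    Measurable fun a : KSp n => cntO (kVF n a) Set.univ (∅ : Finset ℕ) (fun _ => ∅) :=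
  km_measurable_cntO n isOpen_univ ∅ fun i hi => absurd hi (Finset.notMem_empty i)

theorem card_KIdx_le {n : ℕ} (hn : 1 ≤ n) : Fintype.card (KIdx n) ≤ 4 * n ^ 2 := by
  have h := (kD_bounds hn).2
  unfold kD at h
  omega

theorem rot_mean_le : ∃ K : ℝ, 0 ≤ K ∧ ∀ n : ℕ, 1 ≤ n → ∀ a : KSp n,
    ∫⁻ α in Set.Ioo 0 Real.pi, cntO (kVF n (krot α a)) Set.univ (∅ : Finset ℕ) (fun _ => ∅) ≤
      ENNReal.ofReal (K * n ^ 7) := by
  obtain ⟨K, hK⟩ := mean_theorem2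
  refine ⟨|K|, abs_nonneg K, fun n hn a => ?_⟩
  have h1 : ∀ α, cntO (kVF n (krot α a)) Set.univ (∅ : Finset ℕ) (fun _ => ∅) =
      allN (turn α (vf (kPoly n fun p => (a p).1) (kPoly n fun p => (a p).2))) := by
    intro α
    rw [kVF_krot]
    unfold cntO allN kVF
    simp
  simp only [h1]
  have h2 := (hK n hn (kPoly n fun p => (a p).1) (kPoly n fun p => (a p).2)
    (totalDegree_kPoly n _) (totalDegree_kPoly n _)).2
  refine le_trans (lintegral_mono_set ?_) (h2.trans (ENNReal.ofReal_le_ofReal ?_))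
  · intro x hx
    exact ⟨hx.1.le, by linarith [hx.2, Real.pi_pos]⟩
  · have hn1 : (1 : ℝ) ≤ n := by exact_mod_cast hn
    have h3 : 1 + Real.log n ≤ n := by
      have := Real.log_le_sub_one_of_pos (show (0 : ℝ) < n by linarith)
      linarith
    have h4 : 0 ≤ 1 + Real.log n := by
      have := Real.log_nonneg hn1
      linarith
    calc K * (n ^ 6 * (1 + Real.log n)) ≤ |K| * (n ^ 6 * (1 + Real.log n)) :=
          mul_le_mul_of_nonneg_right (le_abs_self K) (by positivity)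
      _ ≤ |K| * (n ^ 6 * n) := by gcongr
      _ = |K| * n ^ 7 := by ring

/-- the number of closed orbits round the centre `b`, Gaussian law of variance one -/
theorem gauss_unit : ∃ C : ℝ, 0 ≤ C ∧ ∀ n : ℕ, 1 ≤ n → ∀ b : KSp n,
    ∫⁻ g, cntO (kVF n (b + g)) Set.univ (∅ : Finset ℕ) (fun _ => ∅) ∂kMeas n ≤
      ENNReal.ofReal (C * n * (1 + Real.sqrt (kN2 b)) *
        (1 + Real.log (n * (1 + Real.sqrt (kN2 b)))) ^ 5) := by
  obtain ⟨C, hC, hpl⟩ := gplane_all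
  obtain ⟨K, hK, hrm⟩ := rot_mean_le
  refine ⟨C * 3125 * 14 + K * 280, by positivity, fun n hn b => ?_⟩
  have hn1 : (1 : ℝ) ≤ n := by exact_mod_cast hn
  obtain ⟨β, hβ⟩ : ∃ β : ℝ, β = Real.sqrt (kN2 b) := ⟨_, rfl⟩
  have hβ0 : 0 ≤ β := by rw [hβ]; exact Real.sqrt_nonneg _
  have hβ2 : kN2 b = β ^ 2 := by rw [hβ, Real.sq_sqrt (kN2_nonneg b)]
  rw [← hβ]
  obtain ⟨x, hx⟩ : ∃ x : ℝ, x = n * (1 + β) := ⟨_, rfl⟩
  have hx1 : (1 : ℝ) ≤ x := by rw [hx]; nlinarith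
  have hnx : (n : ℝ) ≤ x := by rw [hx]; nlinarith
  have hβx : β ≤ x := by rw [hx]; nlinarith
  have hx0 : 0 < x := by linarith
  rw [← hx]
  obtain ⟨R, hR⟩ : ∃ R : ℝ, R = x ^ 5 := ⟨_, rfl⟩
  have hR1 : 1 ≤ R := by rw [hR]; exact one_le_pow₀ hx1
  have hxR : x ≤ R := by
    rw [hR]
    calc x = x ^ 1 := (pow_one x).symm
      _ ≤ x ^ 5 := pow_le_pow_right₀ hx1 (by norm_num)
  have hR0 : 0 < R := by linarith
  set Φ : KSp n → ℝ≥0∞ := fun g => ∫⁻ α in Set.Ioo 0 Real.pi,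
    cntO (kVF n (krot α g)) Set.univ (∅ : Finset ℕ) (fun _ => ∅) with hΦ
  have hΦm : Measurable Φ := km_measurable_avg n (gmeas n)
  have h0 : ENNReal.ofReal Real.pi *
      ∫⁻ g, cntO (kVF n (b + g)) Set.univ (∅ : Finset ℕ) (fun _ => ∅) ∂kMeas n ≤
      ∫⁻ g, GB.gw b g * Φ g ∂kMeas n := GB.avg_rot b (gmeas n)
  -- the part with small norm
  have h1 : ∫⁻ g in {g : KSp n | kN2 g ≤ R ^ 2}, GB.gw b g * Φ g ∂kMeas n ≤
      ENNReal.ofReal (C * n * (1 + Real.log (9 * R)) ^ 5) *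
        ENNReal.ofReal (14 * (1 + β)) := by
    have hs : MeasurableSet {g : KSp n | kN2 g ≤ R ^ 2} :=
      (isClosed_le (continuous_kN2 n) continuous_const).measurableSet
    have h2 := hpl n hn (gmu b R) (gmu b (R + 1)) (9 * R)
      (gpair b hR0.le (by linarith) (by linarith))
    have h3 : ∫⁻ g in {g : KSp n | kN2 g ≤ R ^ 2}, GB.gw b g * Φ g ∂kMeas n =
        ∫⁻ g, Φ g ∂gmu b R := by
      unfold gmu
      rw [lintegral_withDensity_eq_lintegral_mul _ ((GB.measurable_gw b).indicator hs) hΦm,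
        ← lintegral_indicator hs]
      refine lintegral_congr fun g => ?_
      by_cases hg : g ∈ {g : KSp n | kN2 g ≤ R ^ 2}
      · simp only [Pi.mul_apply, Set.indicator_of_mem hg]
      · simp only [Pi.mul_apply, Set.indicator_of_notMem hg, zero_mul]
    rw [h3]
    refine h2.trans (mul_le_mul_right ?_ _)
    rw [hβ]
    exact gmu_univ_le b (R + 1)
  -- the part with large norm
  have h4 : ∫⁻ g in {g : KSp n | R ^ 2 < kN2 g}, GB.gw b g * Φ g ∂kMeas n ≤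
      ENNReal.ofReal (K * n ^ 7) *
        ENNReal.ofReal (56 * (1 + β) * (Fintype.card (KIdx n) + β ^ 2) / R ^ 2) := by
    calc ∫⁻ g in {g : KSp n | R ^ 2 < kN2 g}, GB.gw b g * Φ g ∂kMeas n
        ≤ ∫⁻ g in {g : KSp n | R ^ 2 < kN2 g}, GB.gw b g * ENNReal.ofReal (K * n ^ 7)
            ∂kMeas n := by
          refine lintegral_mono fun g => mul_le_mul_right (hrm n hn g) _
      _ = ENNReal.ofReal (K * n ^ 7) * ∫⁻ g in {g : KSp n | R ^ 2 < kN2 g}, GB.gw b g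
            ∂kMeas n := by
          rw [lintegral_mul_const _ (GB.measurable_gw b), mul_comm]
      _ ≤ _ := by
          refine mul_le_mul_right ?_ _
          have h5 := GB.gw_tail b hR0
          have h6 : GB.sq b = β ^ 2 := hβ2
          rw [h6, Real.sqrt_sq hβ0] at h5
          exact h5
  have h7 : ∫⁻ g, GB.gw b g * Φ g ∂kMeas n =
      ∫⁻ g in {g : KSp n | kN2 g ≤ R ^ 2}, GB.gw b g * Φ g ∂kMeas n +
      ∫⁻ g in {g : KSp n | R ^ 2 < kN2 g}, GB.gw b g * Φ g ∂kMeas n := by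
    have hs : MeasurableSet {g : KSp n | kN2 g ≤ R ^ 2} :=
      (isClosed_le (continuous_kN2 n) continuous_const).measurableSet
    have h8 : {g : KSp n | R ^ 2 < kN2 g} = {g : KSp n | kN2 g ≤ R ^ 2}ᶜ := by
      ext g
      simp
    rw [h8]
    exact (lintegral_add_compl _ hs).symm
  -- the numbers
  have hlx : 0 ≤ Real.log x := Real.log_nonneg hx1
  have hl9 : 1 + Real.log (9 * R) ≤ 5 * (1 + Real.log x) := by
    rw [Real.log_mul (by norm_num) hR0.ne', hR, Real.log_pow]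
    have h9 : Real.log 9 ≤ 4 := by
      have := Real.log_le_sub_one_of_pos (show (0 : ℝ) < 3 by norm_num)
      have h10 : Real.log 9 = 2 * Real.log 3 := by
        rw [show (9 : ℝ) = 3 ^ 2 by norm_num, Real.log_pow]
        norm_num
      linarith
    push_cast
    linarith
  have hl0 : 0 ≤ 1 + Real.log (9 * R) := by
    have := Real.log_nonneg (show (1 : ℝ) ≤ 9 * R by linarith)
    linarith
  have hl5 : (1 + Real.log (9 * R)) ^ 5 ≤ 3125 * (1 + Real.log x) ^ 5 := by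
    calc _ ≤ (5 * (1 + Real.log x)) ^ 5 := pow_le_pow_left₀ hl0 hl9 5
      _ = _ := by ring
  have hL1 : 1 ≤ (1 + Real.log x) ^ 5 := one_le_pow₀ (by linarith)
  have hcard : (Fintype.card (KIdx n) : ℝ) ≤ 4 * n ^ 2 := by exact_mod_cast card_KIdx_le hn
  have hA : C * n * (1 + Real.log (9 * R)) ^ 5 * (14 * (1 + β)) ≤
      C * 3125 * 14 * (n * (1 + β) * (1 + Real.log x) ^ 5) := by
    calc _ ≤ C * n * (3125 * (1 + Real.log x) ^ 5) * (14 * (1 + β)) := by gcongr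
      _ = _ := by ring
  have hB : K * n ^ 7 * (56 * (1 + β) * (Fintype.card (KIdx n) + β ^ 2) / R ^ 2) ≤
      K * 280 * (n * (1 + β) * (1 + Real.log x) ^ 5) := by
    have h10 : (Fintype.card (KIdx n) : ℝ) + β ^ 2 ≤ 5 * x ^ 2 := by
      have h11 : (n : ℝ) ^ 2 ≤ x ^ 2 := pow_le_pow_left₀ (by linarith) hnx 2
      have h12 : β ^ 2 ≤ x ^ 2 := pow_le_pow_left₀ hβ0 hβx 2
      linarith
    have h13 : (n : ℝ) ^ 7 ≤ x ^ 7 := pow_le_pow_left₀ (by linarith) hnx 7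
    have h14 : (n : ℝ) ^ 7 * (5 * x ^ 2) / R ^ 2 ≤ 5 := by
      rw [div_le_iff₀ (by positivity), hR]
      have h15 : x ^ 9 ≤ x ^ 10 := pow_le_pow_right₀ hx1 (by norm_num)
      calc (n : ℝ) ^ 7 * (5 * x ^ 2) ≤ x ^ 7 * (5 * x ^ 2) := by gcongr
        _ = 5 * x ^ 9 := by ring
        _ ≤ 5 * x ^ 10 := by linarith
        _ = 5 * (x ^ 5) ^ 2 := by ring
    calc K * n ^ 7 * (56 * (1 + β) * (Fintype.card (KIdx n) + β ^ 2) / R ^ 2)
        ≤ K * n ^ 7 * (56 * (1 + β) * (5 * x ^ 2) / R ^ 2) := by gcongr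
      _ = K * (56 * (1 + β)) * (n ^ 7 * (5 * x ^ 2) / R ^ 2) := by ring
      _ ≤ K * (56 * (1 + β)) * 5 := by gcongr
      _ = K * 280 * (1 * (1 + β) * 1) := by ring
      _ ≤ _ := by gcongr
  have hpi : (1 : ℝ≥0∞) ≤ ENNReal.ofReal Real.pi := by
    rw [← ENNReal.ofReal_one]
    exact ENNReal.ofReal_le_ofReal (by linarith [Real.pi_gt_three])
  calc ∫⁻ g, cntO (kVF n (b + g)) Set.univ (∅ : Finset ℕ) (fun _ => ∅) ∂kMeas n
      ≤ ENNReal.ofReal Real.pi *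
        ∫⁻ g, cntO (kVF n (b + g)) Set.univ (∅ : Finset ℕ) (fun _ => ∅) ∂kMeas n :=
        le_mul_of_one_le_left (zero_le) hpi
    _ ≤ ENNReal.ofReal (C * n * (1 + Real.log (9 * R)) ^ 5) *
          ENNReal.ofReal (14 * (1 + β)) + ENNReal.ofReal (K * n ^ 7) *
        ENNReal.ofReal (56 * (1 + β) * (Fintype.card (KIdx n) + β ^ 2) / R ^ 2) :=
        (h0.trans h7.le).trans (add_le_add h1 h4)
    _ = ENNReal.ofReal (C * n * (1 + Real.log (9 * R)) ^ 5 * (14 * (1 + β)) +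
          K * n ^ 7 * (56 * (1 + β) * (Fintype.card (KIdx n) + β ^ 2) / R ^ 2)) := by
        rw [← ENNReal.ofReal_mul (by positivity), ← ENNReal.ofReal_mul (by positivity),
          ← ENNReal.ofReal_add (by positivity) (by positivity)]
    _ ≤ _ := by
        refine ENNReal.ofReal_le_ofReal ((add_le_add hA hB).trans (le_of_eq ?_))
        ring

/-- **the smoothed count, Gaussian form** -/
theorem smoothed_gauss : ∃ C : ℝ, 0 ≤ C ∧ ∀ n : ℕ, 1 ≤ n → ∀ (b : KSp n) (τ : ℝ), 0 < τ →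
    ∫⁻ g, cntO (kVF n (b + τ • g)) Set.univ (∅ : Finset ℕ) (fun _ => ∅) ∂kMeas n ≤
      ENNReal.ofReal (C * n * (1 + Real.sqrt (kN2 b) / τ) *
        (1 + Real.log (n * (1 + Real.sqrt (kN2 b) / τ))) ^ 5) := by
  obtain ⟨C, hC, h⟩ := gauss_unit
  refine ⟨C, hC, fun n hn b τ hτ => ?_⟩
  have h1 := h n hn (τ⁻¹ • b)
  have h2 : Real.sqrt (kN2 (τ⁻¹ • b)) = Real.sqrt (kN2 b) / τ := by
    rw [kN2_smul, Real.sqrt_mul (by positivity), Real.sqrt_sq (by positivity)]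
    field_simp
  rw [h2] at h1
  refine le_trans (le_of_eq ?_) h1
  refine lintegral_congr fun g => ?_
  rw [← gcntO_smul hτ.ne' (τ⁻¹ • b + g), smul_add, smul_smul, mul_inv_cancel₀ hτ.ne', one_smul]

end Pool.Agent.Lib.MP_95e7ec_an
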