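import Mathlib
import Pool.Agent.Lib.MP_95e7ec_an.Sm.GShift
import Pool.Agent.Lib.MP_95e7ec_an.Sm.GCw

/-!
# Smoothed count, Gaussian form: shifts for the weight `exp φ`, `φ` convex
-/

set_option autoImplicit false

open Set Filter Topology MeasureTheory ProbabilityTheory
open scoped ENNReal

namespace Pool.Agent.Lib.MP_95e7ec_an.GB

variable {ι : Type} [Fintype ι]

/-- the weight `exp φ` -/
noncomputable def ew (φ : (ι → ℝ × ℝ) → ℝ) (g : ι → ℝ × ℝ) : ℝ≥0∞ :=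
  ENNReal.ofReal (Real.exp (φ g))

/-- `φ` is measurable and convex at the midpoints -/
structure Cvx (φ : (ι → ℝ × ℝ) → ℝ) : Prop where
  meas : Measurable φ
  mid : ∀ g q, 2 * φ g ≤ φ (g - q) + φ (g + q)

theorem measurable_ew {φ : (ι → ℝ × ℝ) → ℝ} (h : Cvx φ) : Measurable (ew φ) := by
  have := h.meas
  unfold ew
  fun_prop

private theorem re_negL (b g : ι → ℝ × ℝ) : re (-b) g = -re b g := by
  unfold re
  rw [← Finset.sum_neg_distrib]
  refine Finset.sum_congr rfl fun p _ => ?_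
  simp only [Pi.neg_apply, Prod.fst_neg, Prod.snd_neg]
  ring

private theorem real_mid {φ : (ι → ℝ × ℝ) → ℝ} (hφ : Cvx φ) (g q : ι → ℝ × ℝ) :
    Real.exp (φ g) ^ 2 ≤ Real.exp (φ (g - q)) * Real.exp (φ (g + q)) := by
  rw [← Real.exp_nat_mul, ← Real.exp_add, Real.exp_le_exp]
  have h := hφ.mid g q
  push_cast
  linarith

private theorem meas_disc : MeasurableSet {t : ℝ × ℝ | nm t ≤ 1} := by
  have h : Measurable fun t : ℝ × ℝ => nm t := by
    unfold nm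
    fun_prop
  exact h measurableSet_Iic

private theorem two_le_disc : (2 : ℝ≥0∞) ≤ volume {t : ℝ × ℝ | nm t ≤ 1} := by
  have hc : (Real.sqrt 2 / 2) ^ 2 = 1 / 2 := by
    rw [div_pow, Real.sq_sqrt (by norm_num)]
    norm_num
  have hc0 : 0 ≤ Real.sqrt 2 / 2 := by positivity
  have hsub : Icc (-(Real.sqrt 2 / 2)) (Real.sqrt 2 / 2) ×ˢ
      Icc (-(Real.sqrt 2 / 2)) (Real.sqrt 2 / 2) ⊆ {t : ℝ × ℝ | nm t ≤ 1} := by
    rintro ⟨x, y⟩ ⟨hx, hy⟩
    have h1 : x ^ 2 ≤ 1 / 2 := by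
      rw [← hc]
      exact sq_le_sq' hx.1 hx.2
    have h2 : y ^ 2 ≤ 1 / 2 := by
      rw [← hc]
      exact sq_le_sq' hy.1 hy.2
    show nm (x, y) ≤ 1
    unfold nm
    rw [Real.sqrt_le_one]
    show x ^ 2 + y ^ 2 ≤ 1
    linarith
  refine le_trans ?_ (measure_mono hsub)
  rw [Measure.volume_eq_prod, Measure.prod_prod, Real.volume_Icc,
    ← ENNReal.ofReal_mul (by linarith)]
  have e : (Real.sqrt 2 / 2 - -(Real.sqrt 2 / 2)) * (Real.sqrt 2 / 2 - -(Real.sqrt 2 / 2)) = 2 := by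
    nlinarith
  rw [e]
  simp

/-- the density of the shifted law times the shifted weight -/
@[irreducible] private noncomputable def hh (φ : (ι → ℝ × ℝ) → ℝ) (q : ℝ × ℝ → ι → ℝ × ℝ) (t : ℝ × ℝ)
    (g : ι → ℝ × ℝ) : ℝ≥0∞ :=
  ENNReal.ofReal (Real.exp (re (q t) g - sq (q t) / 2)) * ew φ (g - q t)

private theorem hh_add {φ : (ι → ℝ × ℝ) → ℝ} (hφ : Cvx φ) {q : ℝ × ℝ → ι → ℝ × ℝ} (hqn : ∀ t, q (-t) = -q t)
    (hq2 : ∀ t, sq (q t) = t.1 ^ 2 + t.2 ^ 2) (g : ι → ℝ × ℝ) {t : ℝ × ℝ} (ht : nm t ≤ 1) :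
    ew φ g ≤ hh φ q t g + hh φ q (-t) g := by
  have ht1 : t.1 ^ 2 + t.2 ^ 2 ≤ 1 := by
    have h1 : Real.sqrt (t.1 ^ 2 + t.2 ^ 2) ≤ 1 := ht
    rwa [Real.sqrt_le_one] at h1
  have hs : sq (q (-t)) = t.1 ^ 2 + t.2 ^ 2 := by
    rw [hq2]
    simp
  unfold hh ew
  rw [hq2 t, hs, hqn, re_negL, sub_neg_eq_add, ← ENNReal.ofReal_mul (Real.exp_pos _).le,
    ← ENNReal.ofReal_mul (Real.exp_pos _).le, ← ENNReal.ofReal_add (by positivity) (by positivity)]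
  refine ENNReal.ofReal_le_ofReal ?_
  have hm := real_mid hφ g (q t)
  set E0 := Real.exp (φ g) with hE0
  set E1 := Real.exp (φ (g - q t)) with hE1
  set E2 := Real.exp (φ (g + q t)) with hE2
  set A1 := Real.exp (re (q t) g - (t.1 ^ 2 + t.2 ^ 2) / 2) with hA1
  set A2 := Real.exp (-re (q t) g - (t.1 ^ 2 + t.2 ^ 2) / 2) with hA2
  have hA : 1 / 4 ≤ A1 * A2 := by
    rw [hA1, hA2, ← Real.exp_add]
    have h3 : (-1 : ℝ) ≤ re (q t) g - (t.1 ^ 2 + t.2 ^ 2) / 2 +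
        (-re (q t) g - (t.1 ^ 2 + t.2 ^ 2) / 2) := by linarith
    refine le_trans ?_ (Real.exp_le_exp.2 h3)
    rw [Real.exp_neg, one_div]
    exact inv_anti₀ (Real.exp_pos _) (by linarith [Real.exp_one_lt_d9])
  have p0 : 0 < E0 := Real.exp_pos _
  have p1 : 0 < E1 := Real.exp_pos _
  have p2 : 0 < E2 := Real.exp_pos _
  have p3 : 0 < A1 := Real.exp_pos _
  have p4 : 0 < A2 := Real.exp_pos _
  have h4 : E0 ^ 2 ≤ (A1 * E1 + A2 * E2) ^ 2 := by
    have h5 : 4 * ((A1 * E1) * (A2 * E2)) ≤ (A1 * E1 + A2 * E2) ^ 2 := by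
      nlinarith [sq_nonneg (A1 * E1 - A2 * E2)]
    have h6 : 1 / 4 * E0 ^ 2 ≤ (A1 * A2) * (E1 * E2) :=
      mul_le_mul hA hm (by positivity) (by positivity)
    have h7 : (A1 * E1) * (A2 * E2) = (A1 * A2) * (E1 * E2) := by ring
    rw [h7] at h5
    linarith
  exact le_of_sq_le_sq h4 (by positivity)

private theorem meas_hh {φ : (ι → ℝ × ℝ) → ℝ} (hφ : Cvx φ) {q : ℝ × ℝ → ι → ℝ × ℝ} (hq : Measurable q) :
    Measurable fun z : (ι → ℝ × ℝ) × (ℝ × ℝ) => hh φ q z.2 z.1 := by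
  have h1 : Continuous fun z : (ι → ℝ × ℝ) × (ι → ℝ × ℝ) => re z.2 z.1 := by
    unfold re
    fun_prop
  have h2 : Continuous fun z : ι → ℝ × ℝ => sq z := by
    unfold sq
    fun_prop
  have h3 : Measurable fun z : (ι → ℝ × ℝ) × (ℝ × ℝ) => (z.1, q z.2) :=
    measurable_fst.prodMk (hq.comp measurable_snd)
  have h4 : Measurable fun z : (ι → ℝ × ℝ) × (ℝ × ℝ) => re (q z.2) z.1 := h1.measurable.comp h3
  have h5 : Measurable fun z : (ι → ℝ × ℝ) × (ℝ × ℝ) => sq (q z.2) :=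
    h2.measurable.comp (hq.comp measurable_snd)
  have h6 : Measurable fun z : (ι → ℝ × ℝ) × (ℝ × ℝ) => ew φ (z.1 - q z.2) :=
    (measurable_ew hφ).comp (measurable_fst.sub (hq.comp measurable_snd))
  have h7 : Measurable fun z : (ι → ℝ × ℝ) × (ℝ × ℝ) => re (q z.2) z.1 - sq (q z.2) / 2 := by
    fun_prop
  have h8 : Measurable fun z : (ι → ℝ × ℝ) × (ℝ × ℝ) =>
      ENNReal.ofReal (Real.exp (re (q z.2) z.1 - sq (q z.2) / 2)) := h7.exp.ennreal_ofReal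
  have h9 : (fun z : (ι → ℝ × ℝ) × (ℝ × ℝ) => hh φ q z.2 z.1) =
      fun z => ENNReal.ofReal (Real.exp (re (q z.2) z.1 - sq (q z.2) / 2)) *
        ew φ (z.1 - q z.2) := by
    funext z
    unfold hh
    rfl
  rw [h9]
  exact h8.mul h6

private theorem meas_hh1 {φ : (ι → ℝ × ℝ) → ℝ} (hφ : Cvx φ) {q : ℝ × ℝ → ι → ℝ × ℝ} (hq : Measurable q)
    (g : ι → ℝ × ℝ) : Measurable fun t : ℝ × ℝ => hh φ q t g := by
  have h1 : Measurable fun t : ℝ × ℝ => (g, t) := measurable_prodMk_left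
  exact (meas_hh hφ hq).comp h1

private theorem hh_int {φ : (ι → ℝ × ℝ) → ℝ} (hφ : Cvx φ) {q : ℝ × ℝ → ι → ℝ × ℝ} (hq : Measurable q)
    (hqn : ∀ t, q (-t) = -q t) (hq2 : ∀ t, sq (q t) = t.1 ^ 2 + t.2 ^ 2) (g : ι → ℝ × ℝ) :
    ew φ g ≤ ∫⁻ t in {t : ℝ × ℝ | nm t ≤ 1}, hh φ q t g := by
  have hm : Measurable fun t : ℝ × ℝ => hh φ q t g := meas_hh1 hφ hq g
  have hneg : ∫⁻ t in {t : ℝ × ℝ | nm t ≤ 1}, hh φ q (-t) g =
      ∫⁻ t in {t : ℝ × ℝ | nm t ≤ 1}, hh φ q t g := by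
    rw [← lintegral_indicator meas_disc, ← lintegral_indicator meas_disc,
      ← lintegral_neg_eq_self]
    refine lintegral_congr fun t => ?_
    have e : nm (-t) = nm t := by
      unfold nm
      simp
    by_cases ht : nm t ≤ 1
    · rw [indicator_of_mem (show t ∈ {t : ℝ × ℝ | nm t ≤ 1} from ht),
        indicator_of_mem (show -t ∈ {t : ℝ × ℝ | nm t ≤ 1} by
          show nm (-t) ≤ 1
          rw [e]
          exact ht), neg_neg]
    · rw [indicator_of_notMem (show t ∉ {t : ℝ × ℝ | nm t ≤ 1} from ht),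
        indicator_of_notMem (show -t ∉ {t : ℝ × ℝ | nm t ≤ 1} by
          show ¬ nm (-t) ≤ 1
          rw [e]
          exact ht)]
  have h2 : ew φ g * 2 ≤ 2 * ∫⁻ t in {t : ℝ × ℝ | nm t ≤ 1}, hh φ q t g := by
    calc ew φ g * 2 ≤ ew φ g * volume {t : ℝ × ℝ | nm t ≤ 1} := by
          gcongr
          exact two_le_disc
      _ = ∫⁻ _ in {t : ℝ × ℝ | nm t ≤ 1}, ew φ g := by rw [setLIntegral_const]
      _ ≤ ∫⁻ t in {t : ℝ × ℝ | nm t ≤ 1}, (hh φ q t g + hh φ q (-t) g) :=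
          setLIntegral_mono' meas_disc fun t ht => hh_add hφ hqn hq2 g ht
      _ = (∫⁻ t in {t : ℝ × ℝ | nm t ≤ 1}, hh φ q t g) +
            ∫⁻ t in {t : ℝ × ℝ | nm t ≤ 1}, hh φ q (-t) g := lintegral_add_left hm _
      _ = 2 * ∫⁻ t in {t : ℝ × ℝ | nm t ≤ 1}, hh φ q t g := by rw [hneg, two_mul]
  rw [mul_comm] at h2
  exact (ENNReal.mul_le_mul_iff_right (by norm_num) (by norm_num)).1 h2

/-- the shifts -/
theorem ew_shift {φ : (ι → ℝ × ℝ) → ℝ} (hφ : Cvx φ) {q : ℝ × ℝ → ι → ℝ × ℝ} (hq : Measurable q)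
    (hqn : ∀ t, q (-t) = -q t) (hq2 : ∀ t, sq (q t) = t.1 ^ 2 + t.2 ^ 2)
    {Φ : (ι → ℝ × ℝ) → ℝ≥0∞} (hΦ : Measurable Φ) :
    ∫⁻ g, ew φ g * Φ g ∂gm ι ≤
      ∫⁻ g, ew φ g * (∫⁻ t in {t : ℝ × ℝ | nm t ≤ 1}, Φ (g + q t)) ∂gm ι := by
  have hadd : Measurable fun z : (ι → ℝ × ℝ) × (ℝ × ℝ) => z.1 + q z.2 :=
    measurable_fst.add (hq.comp measurable_snd)
  calc ∫⁻ g, ew φ g * Φ g ∂gm ι
      ≤ ∫⁻ g, (∫⁻ t in {t : ℝ × ℝ | nm t ≤ 1}, hh φ q t g) * Φ g ∂gm ι :=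
        lintegral_mono fun g => by
          gcongr
          exact hh_int hφ hq hqn hq2 g
    _ = ∫⁻ g, (∫⁻ t in {t : ℝ × ℝ | nm t ≤ 1}, hh φ q t g * Φ g) ∂gm ι := by
        refine lintegral_congr fun g => ?_
        exact (lintegral_mul_const _ (meas_hh1 hφ hq g)).symm
    _ = ∫⁻ t in {t : ℝ × ℝ | nm t ≤ 1}, (∫⁻ g, hh φ q t g * Φ g ∂gm ι) := by
        refine lintegral_lintegral_swap ?_
        exact ((meas_hh hφ hq).mul (hΦ.comp measurable_fst)).aemeasurable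
    _ = ∫⁻ t in {t : ℝ × ℝ | nm t ≤ 1}, (∫⁻ g, ew φ g * Φ (g + q t) ∂gm ι) := by
        refine lintegral_congr fun t => ?_
        have hG : Measurable fun y : ι → ℝ × ℝ => ew φ (y - q t) * Φ y :=
          ((measurable_ew hφ).comp (measurable_id.sub_const (q t))).mul hΦ
        have h := cm (q t) hG
        calc ∫⁻ g, hh φ q t g * Φ g ∂gm ι
            = ∫⁻ g, ENNReal.ofReal (Real.exp (re (q t) g - sq (q t) / 2)) *
                (ew φ (g - q t) * Φ g) ∂gm ι := by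
              refine lintegral_congr fun g => ?_
              unfold hh
              rw [mul_assoc]
          _ = ∫⁻ g, ew φ (q t + g - q t) * Φ (q t + g) ∂gm ι := h.symm
          _ = ∫⁻ g, ew φ g * Φ (g + q t) ∂gm ι := by
              refine lintegral_congr fun g => ?_
              rw [add_sub_cancel_left, add_comm g]
    _ = ∫⁻ g, (∫⁻ t in {t : ℝ × ℝ | nm t ≤ 1}, ew φ g * Φ (g + q t)) ∂gm ι := by
        refine (lintegral_lintegral_swap ?_).symm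
        exact (((measurable_ew hφ).comp measurable_fst).mul (hΦ.comp hadd)).aemeasurable
    _ = ∫⁻ g, ew φ g * (∫⁻ t in {t : ℝ × ℝ | nm t ≤ 1}, Φ (g + q t)) ∂gm ι := by
        refine lintegral_congr fun g => ?_
        exact lintegral_const_mul _ (hΦ.comp (hadd.comp measurable_prodMk_left))

theorem cvx_re (b : ι → ℝ × ℝ) : Cvx fun g => re b g - sq b / 2 := by
  refine ⟨(measurable_re b).sub_const _, fun g q => ?_⟩
  rw [re_add, re_sub]
  linarith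

theorem cvx_abs (b : ι → ℝ × ℝ) :
    Cvx fun g => Real.sqrt (re b g ^ 2 + im b g ^ 2) - sq b / 2 := by
  refine ⟨?_, fun g q => ?_⟩
  · have := measurable_re b
    have := measurable_im b
    fun_prop
  · have h := gw_mid b g q
    unfold gw at h
    rw [← ENNReal.ofReal_pow (Real.exp_pos _).le, ← ENNReal.ofReal_mul (Real.exp_pos _).le,
      ← Real.exp_add, ← Real.exp_nat_mul, ENNReal.ofReal_le_ofReal_iff (Real.exp_pos _).le,
      Real.exp_le_exp] at h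
    push_cast at h
    linarith

end Pool.Agent.Lib.MP_95e7ec_an.GB
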