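import Mathlib
import Pool.Agent.Lib.MP_95e7ec_an.Sm.GShiftW
import Pool.Agent.Lib.MP_95e7ec_an.Sm.GPair

/-!
# Smoothed count: pairs of measures, general convex weight
-/

set_option autoImplicit false

open Set Filter Topology MeasureTheory ProbabilityTheory
open scoped ContDiff ENNReal

namespace Pool.Agent.Lib.MP_95e7ec_an

/-- the truncated weighted Gaussian law -/
noncomputable def gmuW {n : ℕ} (φ : KSp n → ℝ) (R : ℝ) : Measure (KSp n) :=
  (kMeas n).withDensity (({g : KSp n | kN2 g ≤ R ^ 2}).indicator (GB.ew φ))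

private theorem gp_meas_set (n : ℕ) (R : ℝ) : MeasurableSet {g : KSp n | kN2 g ≤ R ^ 2} :=
  (isClosed_le (continuous_kN2 n) continuous_const).measurableSet

private theorem gp_meas_dens {n : ℕ} {φ : KSp n → ℝ} (hφ : GB.Cvx φ) (R : ℝ) :
    Measurable (({g : KSp n | kN2 g ≤ R ^ 2}).indicator (GB.ew φ)) :=
  (GB.measurable_ew hφ).indicator (gp_meas_set n R)

private theorem gp_shift {n : ℕ} {φ : KSp n → ℝ} (hφ : GB.Cvx φ) {R : ℝ} (hR : 0 ≤ R) {q : ℝ × ℝ → KSp n}
    (hq : Measurable q) (hqn : ∀ t, q (-t) = -q t) (hq2 : ∀ t, GB.sq (q t) = t.1 ^ 2 + t.2 ^ 2)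
    {F : KSp n → ℝ≥0∞} (hF : Measurable F) :
    ∫⁻ a, F a ∂gmuW φ R ≤
      ∫⁻ a, (∫⁻ t in {t : ℝ × ℝ | nm t ≤ 1}, F (a + q t)) ∂gmuW φ (R + 1) := by
  have hS := gp_meas_set n R
  have hΦ : Measurable (({g : KSp n | kN2 g ≤ R ^ 2}).indicator F) := hF.indicator hS
  have hG : Measurable fun a : KSp n => ∫⁻ t in {t : ℝ × ℝ | nm t ≤ 1}, F (a + q t) := by
    have h1 : Measurable fun z : KSp n × (ℝ × ℝ) => F (z.1 + q z.2) :=
      hF.comp (measurable_fst.add (hq.comp measurable_snd))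
    exact h1.lintegral_prod_right'
  rw [gmuW, gmuW, lintegral_withDensity_eq_lintegral_mul _ (gp_meas_dens hφ R) hF,
    lintegral_withDensity_eq_lintegral_mul _ (gp_meas_dens hφ (R + 1)) hG]
  have h1 : ∀ g : KSp n, (({g : KSp n | kN2 g ≤ R ^ 2}).indicator (GB.ew φ) * F) g =
      GB.ew φ g * ({g : KSp n | kN2 g ≤ R ^ 2}).indicator F g := by
    intro g
    rw [Pi.mul_apply]
    by_cases hg : g ∈ {g : KSp n | kN2 g ≤ R ^ 2}
    · rw [Set.indicator_of_mem hg, Set.indicator_of_mem hg]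
    · rw [Set.indicator_of_notMem hg, Set.indicator_of_notMem hg, zero_mul, mul_zero]
  rw [lintegral_congr h1]
  refine (GB.ew_shift hφ hq hqn hq2 hΦ).trans ?_
  refine lintegral_mono fun g => ?_
  rw [Pi.mul_apply]
  by_cases hg : g ∈ {g : KSp n | kN2 g ≤ (R + 1) ^ 2}
  · rw [Set.indicator_of_mem hg]
    refine mul_le_mul' le_rfl (lintegral_mono fun t => ?_)
    exact Set.indicator_le_self _ _ _
  · rw [Set.indicator_of_notMem hg, zero_mul]
    have h2 : ∫⁻ t in {t : ℝ × ℝ | nm t ≤ 1},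
        ({g : KSp n | kN2 g ≤ R ^ 2}).indicator F (g + q t) = 0 := by
      have hm : MeasurableSet {t : ℝ × ℝ | nm t ≤ 1} := by
        have hc : Continuous nm := by
          unfold nm
          fun_prop
        exact (isClosed_le hc continuous_const).measurableSet
      rw [setLIntegral_congr_fun (g := fun _ => 0) hm, lintegral_zero]
      intro t ht
      refine Set.indicator_of_notMem (fun hgt => hg ?_) _
      have h3 : kN2 (g + q t) ≤ R ^ 2 := hgt
      have h4 : nm t ≤ 1 := ht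
      have h5 : kN2 (q t) ≤ 1 := by
        have h6 : kN2 (q t) = t.1 ^ 2 + t.2 ^ 2 := hq2 t
        rw [h6]
        exact Real.sqrt_le_one.1 h4
      have h6 := sqrt_kN2_add (g + q t) (-q t)
      rw [add_neg_cancel_right] at h6
      have h7 : kN2 (-q t) = kN2 (q t) := by
        unfold kN2
        simp
      rw [h7] at h6
      have h8 : Real.sqrt (kN2 (g + q t)) ≤ R := Real.sqrt_le_iff.2 ⟨hR, h3⟩
      have h9 : Real.sqrt (kN2 (q t)) ≤ 1 := Real.sqrt_le_one.2 h5
      have h10 : Real.sqrt (kN2 g) ≤ R + 1 := by linarith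
      exact (Real.sqrt_le_iff.1 h10).2
    show GB.ew φ g * ∫⁻ t in {t : ℝ × ℝ | nm t ≤ 1},
        ({g : KSp n | kN2 g ≤ R ^ 2}).indicator F (g + q t) ≤ 0
    rw [h2, mul_zero]

/-- PROOF: `kMeas n = GB.gm (KIdx n)` and `kN2 = GB.sq` by `rfl`. `GB.gw_shift` for
`q t = fun p => v p • t` (resp. `cmul t (u p)`, see kshift2) and
`Φ = ({g | kN2 g ≤ R²}).indicator F`; `kN2 (g + q t) ≤ R²` and `|t| ≤ 1` give `kN2 g ≤ (R+1)²`
(triangle inequality for the Euclidean norm; or by Cauchy-Schwarz). -/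
theorem gpairW {n : ℕ} {φ : KSp n → ℝ} (hφ : GB.Cvx φ) {R Λ : ℝ} (hR : 0 ≤ R) (h1 : (n : ℝ) ≤ Λ)
    (h2 : 3 * (2 + R) ≤ Λ) : ShP n (gmuW φ R) (gmuW φ (R + 1)) Λ := by
  refine ⟨by linarith, h1, ?_, ?_, ?_, ?_⟩
  · refine withDensity_mono (Eventually.of_forall fun g => ?_) _
    refine Set.indicator_le_indicator_of_subset (fun a ha => ?_) (fun _ => zero_le) g
    have h3 : kN2 a ≤ R ^ 2 := ha
    show kN2 a ≤ (R + 1) ^ 2
    nlinarith
  · rw [gmuW, ae_withDensity_iff (gp_meas_dens hφ (R + 1))]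
    refine Eventually.of_forall fun a ha => ?_
    have h3 : a ∈ {g : KSp n | kN2 g ≤ (R + 1) ^ 2} := by
      by_contra h4
      exact ha (Set.indicator_of_notMem h4 _)
    have h4 : Real.sqrt (kN2 a) ≤ R + 1 := Real.sqrt_le_iff.2 ⟨by linarith, h3⟩
    linarith
  · intro v hv F hF
    have h3 := gp_shift hφ hR (q := fun t p => v p • t) (by fun_prop) (fun t => by
      funext p
      simp) (fun t => ?_) hF
    · exact h3
    · have h4 : GB.sq (fun p => v p • t) = (∑ p, v p ^ 2) * (t.1 ^ 2 + t.2 ^ 2) := by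
        rw [GB.sq, Finset.sum_mul]
        refine Finset.sum_congr rfl fun p _ => ?_
        simp only [Prod.smul_fst, Prod.smul_snd, smul_eq_mul]
        ring
      rw [h4, hv, one_mul]
  · intro u hu F hF
    have h3 := gp_shift hφ hR (q := fun t p => cmul t (u p))
      (measurable_pi_lambda _ fun p => kqs_measurable_cmul (u p)) (fun t => by
      funext p
      simp only [cmul, Prod.fst_neg, Prod.snd_neg, Pi.neg_apply]
      refine Prod.ext ?_ ?_
      · simp only [Prod.fst_neg]; ring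
      · simp only [Prod.snd_neg]; ring) (fun t => ?_) hF
    · exact h3
    · have h4 : GB.sq (fun p => cmul t (u p)) =
          (∑ p, ((u p).1 ^ 2 + (u p).2 ^ 2)) * (t.1 ^ 2 + t.2 ^ 2) := by
        rw [GB.sq, Finset.sum_mul]
        refine Finset.sum_congr rfl fun p _ => ?_
        simp only [cmul]
        ring
      rw [h4, hu, one_mul]

end Pool.Agent.Lib.MP_95e7ec_an
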