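import Mathlib
import Pool.Agent.Lib.MP_95e7ec_an.Sm.GFinal
import Pool.Agent.Lib.MP_95e7ec_an.Sm.GPairW

/-!
# Smoothed count: random rotations and Gaussian noise
-/

set_option autoImplicit false

open Set Filter Topology MeasureTheory ProbabilityTheory
open scoped ContDiff ENNReal

namespace Pool.Agent.Lib.MP_95e7ec_an

/-- the count for a general convex weight -/
theorem w_plane : ∃ C K : ℝ, 0 ≤ C ∧ 0 ≤ K ∧ ∀ n : ℕ, 1 ≤ n → ∀ φ : KSp n → ℝ, GB.Cvx φ →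
    ∀ R : ℝ, 1 ≤ R → (n : ℝ) ≤ R →
    ∫⁻ g, GB.ew φ g * (∫⁻ α in Set.Ioo 0 Real.pi,
      cntO (kVF n (krot α g)) Set.univ (∅ : Finset ℕ) (fun _ => ∅)) ∂kMeas n ≤
      ENNReal.ofReal (C * n * (1 + Real.log (9 * R)) ^ 5) * (∫⁻ g, GB.ew φ g ∂kMeas n) +
        ENNReal.ofReal (K * n ^ 7) * ∫⁻ g in {g : KSp n | R ^ 2 < kN2 g}, GB.ew φ g ∂kMeas n := by
  obtain ⟨C, hC, hpl⟩ := gplane_all
  obtain ⟨K, hK, hrm⟩ := rot_mean_le
  refine ⟨C, K, hC, hK, fun n hn φ hφ R hR1 hnR => ?_⟩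
  have hR0 : 0 < R := by linarith
  set Φ : KSp n → ℝ≥0∞ := fun g => ∫⁻ α in Set.Ioo 0 Real.pi,
    cntO (kVF n (krot α g)) Set.univ (∅ : Finset ℕ) (fun _ => ∅) with hΦ
  have hΦm : Measurable Φ := km_measurable_avg n (gmeas n)
  have hwm : Measurable (GB.ew φ) := GB.measurable_ew hφ
  have hs : MeasurableSet {g : KSp n | kN2 g ≤ R ^ 2} :=
    (isClosed_le (continuous_kN2 n) continuous_const).measurableSet
  -- the part with small norm
  have h1 : ∫⁻ g in {g : KSp n | kN2 g ≤ R ^ 2}, GB.ew φ g * Φ g ∂kMeas n ≤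
      ENNReal.ofReal (C * n * (1 + Real.log (9 * R)) ^ 5) * ∫⁻ g, GB.ew φ g ∂kMeas n := by
    have h2 := hpl n hn (gmuW φ R) (gmuW φ (R + 1)) (9 * R)
      (gpairW hφ hR0.le (by linarith) (by linarith))
    have h3 : ∫⁻ g in {g : KSp n | kN2 g ≤ R ^ 2}, GB.ew φ g * Φ g ∂kMeas n =
        ∫⁻ g, Φ g ∂gmuW φ R := by
      unfold gmuW
      rw [lintegral_withDensity_eq_lintegral_mul _ (hwm.indicator hs) hΦm,
        ← lintegral_indicator hs]
      refine lintegral_congr fun g => ?_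
      by_cases hg : g ∈ {g : KSp n | kN2 g ≤ R ^ 2}
      · simp only [Pi.mul_apply, Set.indicator_of_mem hg]
      · simp only [Pi.mul_apply, Set.indicator_of_notMem hg, zero_mul]
    rw [h3]
    refine h2.trans (mul_le_mul_right ?_ _)
    unfold gmuW
    rw [withDensity_apply _ MeasurableSet.univ, Measure.restrict_univ]
    refine lintegral_mono fun g => ?_
    exact Set.indicator_le_self' (fun _ _ => zero_le) g
  -- the part with large norm
  have h4 : ∫⁻ g in {g : KSp n | R ^ 2 < kN2 g}, GB.ew φ g * Φ g ∂kMeas n ≤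
      ENNReal.ofReal (K * n ^ 7) *
        ∫⁻ g in {g : KSp n | R ^ 2 < kN2 g}, GB.ew φ g ∂kMeas n := by
    calc ∫⁻ g in {g : KSp n | R ^ 2 < kN2 g}, GB.ew φ g * Φ g ∂kMeas n
        ≤ ∫⁻ g in {g : KSp n | R ^ 2 < kN2 g}, GB.ew φ g * ENNReal.ofReal (K * n ^ 7)
            ∂kMeas n := by
          refine lintegral_mono fun g => mul_le_mul_right (hrm n hn g) _
      _ = _ := by rw [lintegral_mul_const _ hwm, mul_comm]
  have h8 : {g : KSp n | R ^ 2 < kN2 g} = {g : KSp n | kN2 g ≤ R ^ 2}ᶜ := by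
    ext g
    simp
  calc ∫⁻ g, GB.ew φ g * Φ g ∂kMeas n
      = ∫⁻ g in {g : KSp n | kN2 g ≤ R ^ 2}, GB.ew φ g * Φ g ∂kMeas n +
        ∫⁻ g in {g : KSp n | R ^ 2 < kN2 g}, GB.ew φ g * Φ g ∂kMeas n := by
        rw [h8]
        exact (lintegral_add_compl _ hs).symm
    _ ≤ _ := add_le_add h1 h4

private theorem g2_krot (n : ℕ) (α : ℝ) : MeasurePreserving (krot (n := n) α) (kMeas n) (kMeas n) :=
  GB.gm_rot (ι := KIdx n) α

private theorem krot_add' {n : ℕ} (α : ℝ) (a b : KSp n) : krot α (a + b) = krot α a + krot α b := by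
  funext p
  simp only [krot, Pi.add_apply, Prod.fst_add, Prod.snd_add]
  refine Prod.ext ?_ ?_
  · simp only [Prod.fst_add]; ring
  · simp only [Prod.snd_add]; ring

private theorem rot_swap {n : ℕ} {F : KSp n → ℝ≥0∞} (hF : Measurable F) (b : KSp n) :
    ∫⁻ α in Set.Ioo 0 Real.pi, (∫⁻ g, F (krot α b + g) ∂kMeas n) =
      ∫⁻ g, (∫⁻ α in Set.Ioo 0 Real.pi, F (krot α (b + g))) ∂kMeas n := by
  have e1 : ∀ α : ℝ, ∫⁻ g, F (krot α b + g) ∂kMeas n = ∫⁻ g, F (krot α (b + g)) ∂kMeas n := by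
    intro α
    have h7 : Measurable fun g : KSp n => F (krot α b + g) :=
      hF.comp (measurable_const_add (krot α b))
    rw [← (g2_krot n α).lintegral_comp h7]
    refine lintegral_congr fun g => ?_
    rw [krot_add']
  simp only [e1]
  have : IsProbabilityMeasure (kMeas n) := by
    unfold kMeas
    infer_instance
  have h8 : Measurable fun q : ℝ × KSp n => F (krot q.1 (b + q.2)) := by
    have h9 := km_measurable_krot n hF
    exact h9.comp (((measurable_const_add b).comp measurable_snd).prodMk measurable_fst)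
  exact lintegral_lintegral_swap h8.aemeasurable

/-- the mean over all the rotations of the centre -/
theorem rot_unit : ∃ C : ℝ, 0 ≤ C ∧ ∀ n : ℕ, 1 ≤ n → ∀ b : KSp n,
    ∫⁻ α in Set.Ioo 0 Real.pi, (∫⁻ g, cntO (kVF n (krot α b + g)) Set.univ (∅ : Finset ℕ)
      (fun _ => ∅) ∂kMeas n) ≤
      ENNReal.ofReal (C * n * (1 + Real.log (n * (1 + Real.sqrt (kN2 b)))) ^ 5) := by
  obtain ⟨C, K, hC, hK, hw⟩ := w_plane
  refine ⟨C * 3125 + K * 18, by positivity, fun n hn b => ?_⟩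
  have hn1 : (1 : ℝ) ≤ n := by exact_mod_cast hn
  obtain ⟨β, hβ⟩ : ∃ β : ℝ, β = Real.sqrt (kN2 b) := ⟨_, rfl⟩
  have hβ0 : 0 ≤ β := by rw [hβ]; exact Real.sqrt_nonneg _
  have hβ2 : kN2 b = β ^ 2 := by rw [hβ, Real.sq_sqrt (kN2_nonneg b)]
  rw [← hβ]
  obtain ⟨x, hx⟩ : ∃ x : ℝ, x = n * (1 + β) := ⟨_, rfl⟩
  have hx1 : (1 : ℝ) ≤ x := by rw [hx]; nlinarith
  have hnx : (n : ℝ) ≤ x := by rw [hx]; nlinarith
  have hβx : β ≤ x := by rw [hx]; nlinarith
  have hx0 : 0 < x := by linarith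
  rw [← hx]
  obtain ⟨R, hR⟩ : ∃ R : ℝ, R = x ^ 5 := ⟨_, rfl⟩
  have hR1 : 1 ≤ R := by rw [hR]; exact one_le_pow₀ hx1
  have hxR : x ≤ R := by
    rw [hR]
    calc x = x ^ 1 := (pow_one x).symm
      _ ≤ x ^ 5 := pow_le_pow_right₀ hx1 (by norm_num)
  have hR0 : 0 < R := by linarith
  have hφ := GB.cvx_re b
  have hcw : ∀ g, GB.cw b g = GB.ew (fun g => GB.re b g - GB.sq b / 2) g := fun g => rfl
  have h0 := hw n hn _ hφ R hR1 (by linarith)
  have hmass : ∫⁻ g, GB.ew (fun g => GB.re b g - GB.sq b / 2) g ∂kMeas n = 1 := GB.cw_mass b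
  have htail : ∫⁻ g in {g : KSp n | R ^ 2 < kN2 g},
      GB.ew (fun g => GB.re b g - GB.sq b / 2) g ∂kMeas n ≤
      ENNReal.ofReal ((4 * Fintype.card (KIdx n) + 2 * β ^ 2) / R ^ 2) := by
    have h5 := GB.cw_tail b hR0
    have h6 : GB.sq b = β ^ 2 := hβ2
    rw [h6] at h5
    exact h5
  have hN := gmeas n
  have hΦm := km_measurable_avg n hN
  -- the left side
  have hL : ∫⁻ α in Set.Ioo 0 Real.pi, (∫⁻ g, cntO (kVF n (krot α b + g)) Set.univ
      (∅ : Finset ℕ) (fun _ => ∅) ∂kMeas n) =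
      ∫⁻ g, GB.ew (fun g => GB.re b g - GB.sq b / 2) g * (∫⁻ α in Set.Ioo 0 Real.pi,
      cntO (kVF n (krot α g)) Set.univ (∅ : Finset ℕ) (fun _ => ∅)) ∂kMeas n := by
    rw [rot_swap hN b]
    exact GB.cw_lint b (F := fun g => ∫⁻ α in Set.Ioo 0 Real.pi,
      cntO (kVF n (krot α g)) Set.univ (∅ : Finset ℕ) (fun _ => ∅)) hΦm
  rw [hL]
  rw [hmass, mul_one] at h0
  refine h0.trans ((add_le_add le_rfl (mul_le_mul_right htail _)).trans ?_)
  -- the numbers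
  have hlx : 0 ≤ Real.log x := Real.log_nonneg hx1
  have hl9 : 1 + Real.log (9 * R) ≤ 5 * (1 + Real.log x) := by
    rw [Real.log_mul (by norm_num) hR0.ne', hR, Real.log_pow]
    have h9 : Real.log 9 ≤ 4 := by
      have := Real.log_le_sub_one_of_pos (show (0 : ℝ) < 3 by norm_num)
      have h10 : Real.log 9 = 2 * Real.log 3 := by
        rw [show (9 : ℝ) = 3 ^ 2 by norm_num, Real.log_pow]
        norm_num
      linarith
    push_cast
    linarith
  have hl0 : 0 ≤ 1 + Real.log (9 * R) := by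
    have := Real.log_nonneg (show (1 : ℝ) ≤ 9 * R by linarith)
    linarith
  have hl5 : (1 + Real.log (9 * R)) ^ 5 ≤ 3125 * (1 + Real.log x) ^ 5 := by
    calc _ ≤ (5 * (1 + Real.log x)) ^ 5 := pow_le_pow_left₀ hl0 hl9 5
      _ = _ := by ring
  have hL1 : 1 ≤ (1 + Real.log x) ^ 5 := one_le_pow₀ (by linarith)
  have hcard : (Fintype.card (KIdx n) : ℝ) ≤ 4 * n ^ 2 := by exact_mod_cast card_KIdx_le hn
  have hA : C * n * (1 + Real.log (9 * R)) ^ 5 ≤
      C * 3125 * (n * (1 + Real.log x) ^ 5) := by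
    calc _ ≤ C * n * (3125 * (1 + Real.log x) ^ 5) := by gcongr
      _ = _ := by ring
  have hB : K * n ^ 7 * ((4 * Fintype.card (KIdx n) + 2 * β ^ 2) / R ^ 2) ≤
      K * 18 * (n * (1 + Real.log x) ^ 5) := by
    have h10 : 4 * (Fintype.card (KIdx n) : ℝ) + 2 * β ^ 2 ≤ 18 * x ^ 2 := by
      have h11 : (n : ℝ) ^ 2 ≤ x ^ 2 := pow_le_pow_left₀ (by linarith) hnx 2
      have h12 : β ^ 2 ≤ x ^ 2 := pow_le_pow_left₀ hβ0 hβx 2
      linarith
    have h13 : (n : ℝ) ^ 7 ≤ x ^ 7 := pow_le_pow_left₀ (by linarith) hnx 7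
    have h14 : (n : ℝ) ^ 7 * ((18 * x ^ 2) / R ^ 2) ≤ 18 := by
      rw [← mul_div_assoc, div_le_iff₀ (by positivity), hR]
      have h15 : x ^ 9 ≤ x ^ 10 := pow_le_pow_right₀ hx1 (by norm_num)
      calc (n : ℝ) ^ 7 * (18 * x ^ 2) ≤ x ^ 7 * (18 * x ^ 2) := by gcongr
        _ = 18 * x ^ 9 := by ring
        _ ≤ 18 * x ^ 10 := by linarith
        _ = 18 * (x ^ 5) ^ 2 := by ring
    calc K * n ^ 7 * ((4 * Fintype.card (KIdx n) + 2 * β ^ 2) / R ^ 2)
        ≤ K * n ^ 7 * ((18 * x ^ 2) / R ^ 2) := by gcongr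
      _ = K * (n ^ 7 * ((18 * x ^ 2) / R ^ 2)) := by ring
      _ ≤ K * 18 := by gcongr
      _ = K * 18 * (1 * 1) := by ring
      _ ≤ _ := by gcongr
  rw [← ENNReal.ofReal_mul (by positivity), ← ENNReal.ofReal_add (by positivity) (by positivity)]
  refine ENNReal.ofReal_le_ofReal ((add_le_add hA hB).trans (le_of_eq ?_))
  ring

private theorem krot_smul' {n : ℕ} (α c : ℝ) (a : KSp n) : krot α (c • a) = c • krot α a := by
  funext p
  simp only [krot, Pi.smul_apply, Prod.smul_fst, Prod.smul_snd, smul_eq_mul]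
  refine Prod.ext ?_ ?_
  · simp only [Prod.smul_fst, smul_eq_mul]; ring
  · simp only [Prod.smul_snd, smul_eq_mul]; ring

private theorem lint_scale {δ : ℝ} (hδ : 0 < δ) (h : ℝ → ℝ≥0∞) :
    ∫⁻ u in Set.Icc (0 : ℝ) 1, h (δ * u) = ENNReal.ofReal δ⁻¹ * ∫⁻ α in Set.Icc 0 δ, h α := by
  have h1 : ∫⁻ u in Set.Icc (0 : ℝ) 1, h (δ * u) =
      ∫⁻ u : ℝ, (Set.Icc (0 : ℝ) δ).indicator h (δ * u) := by
    rw [← lintegral_indicator measurableSet_Icc]
    refine lintegral_congr fun u => ?_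
    by_cases hu : u ∈ Set.Icc (0 : ℝ) 1
    · have hu' : δ * u ∈ Set.Icc (0 : ℝ) δ :=
        ⟨mul_nonneg hδ.le hu.1, by nlinarith [hu.2]⟩
      rw [Set.indicator_of_mem hu, Set.indicator_of_mem hu']
    · have hu' : δ * u ∉ Set.Icc (0 : ℝ) δ := by
        intro h2
        refine hu ⟨?_, ?_⟩
        · by_contra h3
          push Not at h3
          nlinarith [h2.1]
        · by_contra h3
          push Not at h3
          nlinarith [h2.2]
      rw [Set.indicator_of_notMem hu, Set.indicator_of_notMem hu']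
  rw [h1, ← lintegral_indicator measurableSet_Icc]
  have h2 := Real.map_volume_mul_left hδ.ne'
  have h3 : ∫⁻ c, (Set.Icc (0 : ℝ) δ).indicator h c
      ∂(Measure.map (⇑(Homeomorph.mulLeft₀ δ hδ.ne')) volume) =
      ∫⁻ t : ℝ, (Set.Icc (0 : ℝ) δ).indicator h ((Homeomorph.mulLeft₀ δ hδ.ne') t) :=
    (Homeomorph.mulLeft₀ δ hδ.ne').isClosedEmbedding.measurableEmbedding.lintegral_map _
  have h4 : ∫⁻ c, (Set.Icc (0 : ℝ) δ).indicator h c
      ∂(Measure.map (fun t : ℝ => δ * t) volume) =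
      ∫⁻ t : ℝ, (Set.Icc (0 : ℝ) δ).indicator h (δ * t) := h3
  rw [← h4]
  rw [h2, lintegral_smul_measure, smul_eq_mul, abs_of_pos (inv_pos.2 hδ)]

/-- **random rotations by angles in `[0, δ]` and Gaussian noise of size `τ`** -/
theorem smoothed_rot : ∃ C : ℝ, 0 ≤ C ∧ ∀ n : ℕ, 1 ≤ n → ∀ (b : KSp n) (τ δ : ℝ), 0 < τ →
    0 ≤ δ → δ ≤ 1 →
    ∫⁻ u in Set.Icc (0 : ℝ) 1, (∫⁻ g, cntO (kVF n (krot (δ * u) b + τ • g)) Set.univ
      (∅ : Finset ℕ) (fun _ => ∅) ∂kMeas n) ≤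
      ENNReal.ofReal (C * n * ((1 + Real.sqrt (kN2 b) / τ) /
        (1 + δ * (1 + Real.sqrt (kN2 b) / τ))) *
        (1 + Real.log (n * (1 + Real.sqrt (kN2 b) / τ))) ^ 5) := by
  obtain ⟨C1, hC1, h1⟩ := smoothed_gauss
  obtain ⟨C2, hC2, h2⟩ := rot_unit
  refine ⟨2 * (C1 + C2), by positivity, fun n hn b τ δ hτ hδ0 hδ1 => ?_⟩
  have hn1 : (1 : ℝ) ≤ n := by exact_mod_cast hn
  obtain ⟨x, hx⟩ : ∃ x : ℝ, x = 1 + Real.sqrt (kN2 b) / τ := ⟨_, rfl⟩
  have hx1 : 1 ≤ x := by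
    rw [hx]
    have : 0 ≤ Real.sqrt (kN2 b) / τ := by positivity
    linarith
  rw [← hx]
  have hx0 : 0 < x := by linarith
  obtain ⟨L, hL⟩ : ∃ L : ℝ, L = (1 + Real.log (n * x)) ^ 5 := ⟨_, rfl⟩
  have hL1 : 0 ≤ L := by
    rw [hL]
    have := Real.log_nonneg (show (1 : ℝ) ≤ n * x by nlinarith)
    positivity
  rw [← hL]
  -- first bound
  have hA : ∫⁻ u in Set.Icc (0 : ℝ) 1, (∫⁻ g, cntO (kVF n (krot (δ * u) b + τ • g)) Set.univ
      (∅ : Finset ℕ) (fun _ => ∅) ∂kMeas n) ≤ ENNReal.ofReal (C1 * n * x * L) := by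
    have h3 : ∀ u : ℝ, ∫⁻ g, cntO (kVF n (krot (δ * u) b + τ • g)) Set.univ
        (∅ : Finset ℕ) (fun _ => ∅) ∂kMeas n ≤ ENNReal.ofReal (C1 * n * x * L) := by
      intro u
      have h4 := h1 n hn (krot (δ * u) b) τ hτ
      rw [kN2_krot, ← hx, ← hL] at h4
      exact h4
    calc _ ≤ ∫⁻ _u in Set.Icc (0 : ℝ) 1, ENNReal.ofReal (C1 * n * x * L) :=
          lintegral_mono fun u => h3 u
      _ = _ := by
          rw [setLIntegral_const, Real.volume_Icc]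
          simp
  rcases le_or_gt (δ * x) 1 with hδx | hδx
  · refine hA.trans (ENNReal.ofReal_le_ofReal ?_)
    have h5 : x ≤ 2 * (x / (1 + δ * x)) := by
      rw [← mul_div_assoc, le_div_iff₀ (by positivity)]
      nlinarith
    calc C1 * n * x * L ≤ C1 * n * (2 * (x / (1 + δ * x))) * L := by gcongr
      _ ≤ (C1 + C2) * n * (2 * (x / (1 + δ * x))) * L := by
          gcongr
          linarith
      _ = _ := by ring
  · have hδ : 0 < δ := by
      by_contra h6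
      push Not at h6
      nlinarith
    have h3 : ∀ α : ℝ, ∫⁻ g, cntO (kVF n (krot α b + τ • g)) Set.univ
        (∅ : Finset ℕ) (fun _ => ∅) ∂kMeas n =
        ∫⁻ g, cntO (kVF n (krot α (τ⁻¹ • b) + g)) Set.univ
        (∅ : Finset ℕ) (fun _ => ∅) ∂kMeas n := by
      intro α
      refine lintegral_congr fun g => ?_
      rw [← gcntO_smul hτ.ne' (krot α (τ⁻¹ • b) + g), krot_smul', smul_add, smul_smul,
        mul_inv_cancel₀ hτ.ne', one_smul]
    rw [lint_scale hδ (fun α => ∫⁻ g, cntO (kVF n (krot α b + τ • g)) Set.univ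
        (∅ : Finset ℕ) (fun _ => ∅) ∂kMeas n)]
    simp only [h3]
    have h4 := h2 n hn (τ⁻¹ • b)
    have h5 : Real.sqrt (kN2 (τ⁻¹ • b)) = Real.sqrt (kN2 b) / τ := by
      rw [kN2_smul, Real.sqrt_mul (by positivity), Real.sqrt_sq (by positivity)]
      field_simp
    rw [h5, ← hx, ← hL] at h4
    have h6 : ∫⁻ α in Set.Icc 0 δ, (∫⁻ g, cntO (kVF n (krot α (τ⁻¹ • b) + g)) Set.univ
        (∅ : Finset ℕ) (fun _ => ∅) ∂kMeas n) ≤ ENNReal.ofReal (C2 * n * L) := by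
      refine le_trans ?_ h4
      rw [← restrict_Ioo_eq_restrict_Icc]
      refine lintegral_mono_set (Set.Ioo_subset_Ioo_right ?_)
      linarith [Real.pi_gt_three]
    refine (mul_le_mul_right h6 _).trans ?_
    rw [← ENNReal.ofReal_mul (by positivity)]
    refine ENNReal.ofReal_le_ofReal ?_
    have h7 : δ⁻¹ ≤ 2 * (x / (1 + δ * x)) := by
      rw [← mul_div_assoc, le_div_iff₀ (by positivity), inv_mul_le_iff₀ hδ]
      nlinarith
    calc δ⁻¹ * (C2 * n * L) ≤ 2 * (x / (1 + δ * x)) * (C2 * n * L) := by gcongr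
      _ ≤ 2 * (x / (1 + δ * x)) * ((C1 + C2) * n * L) := by
          gcongr
          linarith
      _ = _ := by ring

end Pool.Agent.Lib.MP_95e7ec_an
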